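import Pool.Agent.Work.MP_db07cb_ag.Action
import Mathlib.NumberTheory.ModularForms.Discriminant

/-! Valence-type vanishing lemmas. -/

namespace Pool.Agent.Work.MP_db07cb_ag

open UpperHalfPlane hiding I
open Complex Filter Topology
open scoped MatrixGroups Real Modular ModularForm

noncomputable section

lemma zero_of_inv (H : ℍ → ℂ) (hH : Hol H)
    (hinv : ∀ (γ : SL(2, ℤ)) (τ : ℍ), ‖H (γ • τ)‖ = ‖H τ‖)
    (hdec : ∀ ε > 0, ∃ y : ℝ, ∀ τ ∈ 𝒟, y ≤ τ.im → ‖H τ‖ < ε) : H = 0 := by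
  by_contra hne
  obtain ⟨τ₁, h1⟩ : ∃ τ, H τ ≠ 0 := by
    by_contra hn
    push Not at hn
    exact hne (funext hn)
  obtain ⟨y, hy⟩ := hdec ‖H τ₁‖ (norm_pos_iff.2 h1)
  have hcont : Continuous H := hH.mdiff.continuous
  obtain ⟨g₁, hg₁⟩ := ModularGroup.exists_smul_mem_fd τ₁
  have hmem : g₁ • τ₁ ∈ ModularGroup.truncatedFundamentalDomain y := by
    refine ⟨hg₁, ?_⟩
    by_contra hlt
    have := hy _ hg₁ (le_of_not_ge hlt)
    rw [hinv] at this
    exact lt_irrefl _ this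
  obtain ⟨τ₂, -, hmax⟩ := (ModularGroup.isCompact_truncatedFundamentalDomain y).exists_isMaxOn
    ⟨_, hmem⟩ hcont.norm.continuousOn
  have h2 : ‖H τ₁‖ ≤ ‖H τ₂‖ := by
    have := hmax hmem
    simp only [Set.mem_ofPred_eq, hinv] at this
    exact this
  have hall : ∀ τ, ‖H τ‖ ≤ ‖H τ₂‖ := by
    intro τ
    obtain ⟨g, hg⟩ := ModularGroup.exists_smul_mem_fd τ
    rw [← hinv g]
    by_cases hle : (g • τ).im ≤ y
    · exact hmax (show g • τ ∈ ModularGroup.truncatedFundamentalDomain y from ⟨hg, hle⟩)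
    · exact ((hy _ hg (le_of_not_ge hle)).le).trans h2
  have hc := Complex.eqOn_of_isPreconnected_of_isMaxOn_norm (f := H ∘ ofComplex)
    (convex_halfSpace_im_gt 0).isPreconnected isOpen_upperHalfPlaneSet hH.differentiableOn
    τ₂.im_pos (fun z _ => by simpa using hall (ofComplex z))
  have hpos : 0 < max y 1 := lt_of_lt_of_le one_pos (le_max_right _ _)
  let τ₃ : ℍ := ⟨(max y 1 : ℝ) * I, by simp [hpos]⟩
  have h3 : τ₃ ∈ 𝒟 := by
    constructor
    · show 1 ≤ normSq ((max y 1 : ℝ) * I : ℂ)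
      rw [normSq_mul, normSq_I, normSq_ofReal, mul_one]
      nlinarith [le_max_right y 1]
    · show |((max y 1 : ℝ) * I : ℂ).re| ≤ 1 / 2
      simp
  have h4 := hy τ₃ h3 (by
    show y ≤ ((max y 1 : ℝ) * I : ℂ).im
    simp)
  have h5 := hc τ₃.im_pos
  simp only [Function.comp_apply, ofComplex_apply, Function.const] at h5
  rw [h5] at h4
  linarith

lemma disc_smul (γ : SL(2, ℤ)) (τ : ℍ) :
    ModularForm.discriminant (γ • τ) = jf γ τ ^ (12 : ℤ) * ModularForm.discriminant τ := by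
  have := congrFun (SlashInvariantForm.slash_action_generators_SL2Z
    ModularForm.discriminant_S_invariant ModularForm.discriminant_T_invariant γ) τ
  rw [ModularForm.SL_slash_apply, ← jf_eq_denom] at this
  rw [← this, mul_comm, mul_assoc, ← zpow_add₀ (jf_ne_zero γ τ)]
  simp

lemma disc_hol : Hol ModularForm.discriminant := hol_of_mdiff CuspForm.discriminant.holo'

lemma Nm_le_of_fd {τ : ℍ} (h : τ ∈ 𝒟) (hy : 1 ≤ τ.im) : Nm τ ≤ 3 * τ.im := by
  rw [Nm, div_le_iff₀ τ.im_pos, Complex.sq_norm, normSq_apply, coe_re, coe_im]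
  have := abs_le.1 h.2
  nlinarith

theorem levelOne_zero (G : MG) (w : ℤ) (μ : ℕ) (hq : qq ^ μ ∣ G)
    (hinv : ∀ (γ : SL(2, ℤ)) (τ : ℍ),
      ‖(G : ℍ → ℂ) (γ • τ)‖ = ‖jf γ τ‖ ^ w * ‖(G : ℍ → ℂ) τ‖) (hw : w < 12 * μ) : G = 0 := by
  obtain ⟨u, hu⟩ := hq
  obtain ⟨C, K, hC, hK⟩ := MG.gr u
  have hD := ModularForm.discriminant_ne_zero
  have key : (fun τ => (G : ℍ → ℂ) τ ^ 12 * ModularForm.discriminant τ ^ (-w)) = 0 := by
    apply zero_of_inv
    · intro τ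
      exact ((MG.hol G τ).pow 12).mul ((disc_hol τ).zpow (Or.inl (by simpa using hD τ)))
    · intro γ τ
      have hj : ‖jf γ τ‖ ≠ 0 := norm_ne_zero_iff.2 (jf_ne_zero γ τ)
      rw [norm_mul, norm_mul, norm_pow, norm_pow, norm_zpow, norm_zpow, hinv, disc_smul, norm_mul,
        norm_zpow, mul_pow, mul_zpow, ← zpow_natCast, ← zpow_mul, ← zpow_mul]
      have : ‖jf γ τ‖ ^ (w * (12 : ℕ)) * ‖jf γ τ‖ ^ (12 * -w) = 1 := by
        rw [← zpow_add₀ hj]; simp [mul_comm]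
      linear_combination (‖(G : ℍ → ℂ) τ‖ ^ 12 * ‖ModularForm.discriminant τ‖ ^ (-w)) * this
    · intro ε hε
      have h1 := ((ModularForm.tendsto_atImInfty_tprod_one_sub_eta_q_pow.zpow₀ (-w)
        (Or.inl one_ne_zero)).norm).eventually (gt_mem_nhds (show ‖(1 : ℂ) ^ (-w)‖ < 2 by simp))
      rw [atImInfty, eventually_comap, eventually_atTop] at h1
      obtain ⟨y₁, hy₁⟩ := h1
      have h2 : Tendsto (fun y : ℝ => 2 * (C * 3 ^ K) ^ 12 * (y ^ (12 * K) * Real.exp (-y)))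
          atTop (𝓝 (2 * (C * 3 ^ K) ^ 12 * 0)) :=
        (Real.tendsto_pow_mul_exp_neg_atTop_nhds_zero (12 * K)).const_mul _
      rw [mul_zero] at h2
      obtain ⟨y₂, hy₂⟩ := eventually_atTop.1 (h2.eventually (gt_mem_nhds hε))
      refine ⟨max (max y₁ y₂) 1, fun τ hτ hy => ?_⟩
      have a1 : y₁ ≤ τ.im := ((le_max_left _ _).trans (le_max_left _ _)).trans hy
      have a2 : y₂ ≤ τ.im := ((le_max_right _ _).trans (le_max_left _ _)).trans hy
      have a3 : 1 ≤ τ.im := (le_max_right _ _).trans hy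
      refine lt_of_le_of_lt ?_ (hy₂ _ a2)
      have b1 := (hy₁ _ a1 τ rfl).le
      have hq : Function.Periodic.qParam 1 τ = qf τ := by simp [Function.Periodic.qParam, qf]
      have e1 : (G : ℍ → ℂ) τ = qf τ ^ μ * (u : ℍ → ℂ) τ := by rw [hu]; rfl
      have b2 : ‖(u : ℍ → ℂ) τ‖ ≤ C * 3 ^ K * τ.im ^ K := by
        refine (hK τ).trans ?_
        rw [mul_assoc, ← mul_pow]
        exact mul_le_mul_of_nonneg_left
          (pow_le_pow_left₀ (Nm_pos τ).le (Nm_le_of_fd hτ a3) K) hC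
      have b3 : ‖qf τ‖ ^ ((12 * μ : ℕ) + -w) ≤ Real.exp (-τ.im) := by
        have hq0 : 0 < ‖qf τ‖ := norm_pos_iff.2 (qf_ne_zero τ)
        calc ‖qf τ‖ ^ ((12 * μ : ℕ) + -w) ≤ ‖qf τ‖ ^ (1 : ℤ) :=
              zpow_le_zpow_right_of_le_one₀ hq0 (norm_qf_lt τ).le (by push_cast; omega)
          _ ≤ _ := by
              rw [zpow_one, norm_qf, Real.exp_le_exp]
              nlinarith [Real.two_le_pi]
      have hq0 : ‖qf τ‖ ≠ 0 := norm_ne_zero_iff.2 (qf_ne_zero τ)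
      rw [ModularForm.discriminant_eq_q_prod, hq, e1, mul_zpow, norm_mul, norm_mul, norm_pow,
        norm_mul, norm_pow, norm_zpow, mul_pow, ← pow_mul]
      rw [zpow_add₀ hq0, zpow_natCast] at b3
      have b4 : ‖(u : ℍ → ℂ) τ‖ ^ 12 ≤ (C * 3 ^ K) ^ 12 * τ.im ^ (12 * K) := by
        rw [mul_comm 12 K, pow_mul, ← mul_pow]
        exact pow_le_pow_left₀ (norm_nonneg _) b2 12
      have hy0 := τ.im_pos
      calc ‖qf τ‖ ^ (μ * 12) * ‖(u : ℍ → ℂ) τ‖ ^ 12 * (‖qf τ‖ ^ (-w) *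
            ‖(∏' n, (1 - ModularForm.eta_q n τ) ^ 24) ^ (-w)‖)
          = (‖qf τ‖ ^ (12 * μ) * ‖qf τ‖ ^ (-w)) * ‖(u : ℍ → ℂ) τ‖ ^ 12 *
            ‖(∏' n, (1 - ModularForm.eta_q n τ) ^ 24) ^ (-w)‖ := by rw [mul_comm μ 12]; ring
        _ ≤ Real.exp (-τ.im) * ((C * 3 ^ K) ^ 12 * τ.im ^ (12 * K)) * 2 := by gcongr
        _ = _ := by ring
  have : G ^ 12 = 0 := by
    refine MG.ext fun τ => ?_
    have := congrFun key τ
    simp only [Pi.zero_apply, mul_eq_zero] at this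
    rcases this with h | h
    · exact h
    · exact absurd h (zpow_ne_zero _ (hD τ))
  exact pow_eq_zero_iff (by norm_num) |>.1 this

theorem valence (Γ : Subgroup SL(2, ℤ)) [Γ.FiniteIndex] (G : MG) (w : ℤ) (μ : ℕ)
    (hq : qq ^ μ ∣ G) (hG : IsWt Γ w G) (hw : w * Γ.index < 12 * μ) : G = 0 := by
  classical
  let F : SL(2, ℤ) ⧸ Γ → MG := Quotient.lift (fun g => sl w g⁻¹ G) fun g h hgh => by
    obtain ⟨j, hj, hj'⟩ : ∃ j ∈ Γ, h = g * j := by
      rw [← Quotient.eq_iff_equiv, Quotient.eq, QuotientGroup.leftRel_apply] at hgh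
      exact ⟨g⁻¹ * h, hgh, (mul_inv_cancel_left g h).symm⟩
    show sl w g⁻¹ G = sl w h⁻¹ G
    rw [hj', mul_inv_rev, sl_mul, hG _ (inv_mem hj)]
  have hF : ∀ (γ : SL(2, ℤ)) (c : SL(2, ℤ) ⧸ Γ), sl w γ (F (γ • c)) = F c := by
    intro γ c
    induction c using QuotientGroup.induction_on with
    | H g =>
      show sl w γ (sl w (γ * g)⁻¹ G) = sl w g⁻¹ G
      rw [← sl_mul]; congr 1; group
  have : Fintype (SL(2, ℤ) ⧸ Γ) := Subgroup.fintypeQuotientOfFiniteIndex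
  have hP : (∏ c, F c) = 0 := by
    apply levelOne_zero _ (w * Γ.index) μ _ _ hw
    · refine hq.trans ?_
      have : F ((1 : SL(2, ℤ)) : SL(2, ℤ) ⧸ Γ) = G := by
        show sl w 1⁻¹ G = G
        rw [inv_one, sl_one]
      rw [← this]
      exact Finset.dvd_prod_of_mem _ (Finset.mem_univ _)
    · intro γ τ
      have e : ∀ τ, ((∏ c, F c : MG) : ℍ → ℂ) τ = ∏ c, (F c : ℍ → ℂ) τ := fun τ =>
        map_prod (ev τ) _ _
      rw [e, e, ← Equiv.prod_comp (MulAction.toPerm γ)]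
      simp only [MulAction.toPerm_apply]
      simp_rw [apply_smul_eq w γ, hF]
      rw [Finset.prod_mul_distrib, Finset.prod_const, norm_mul, norm_pow, norm_zpow,
        Finset.card_univ, ← Nat.card_eq_fintype_card, ← zpow_natCast, ← zpow_mul]
      rfl
  obtain ⟨c, -, hc⟩ := Finset.prod_eq_zero_iff.1 hP
  induction c using QuotientGroup.induction_on with
  | H g =>
    have h1 : sl w g⁻¹ G = 0 := hc
    have h2 : sl w g (sl w g⁻¹ G) = G := by rw [← sl_mul, inv_mul_cancel, sl_one]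
    rw [← h2, h1]
    simp [sl]

end

end Pool.Agent.Work.MP_db07cb_ag
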