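import Pool.Agent.Work.MP_db07cb_ag.Qring
import Pool.Agent.Work.MP_db07cb_ag.Valence
import Mathlib.RingTheory.Algebraic.Basic
import Mathlib.LinearAlgebra.FiniteDimensional.Lemmas
import Mathlib.Algebra.Polynomial.Derivative

/-! An algebraic differential equation for modular forms. -/

namespace Pool.Agent.Work.MP_db07cb_ag

open UpperHalfPlane hiding I
open Complex Polynomial
open scoped MatrixGroups Real

noncomputable section

section Abstract

variable {R : Type*} [CommRing R] [IsDomain R] [Algebra ℂ R]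

lemma ade_coeff_zero (A : Subalgebra ℂ R) {x α β : R} (hx : Transcendental A x) (hα : α ∈ A)
    (hβ : β ∈ A) (h0 : α ≠ 0) {k : ℕ} (hk : 0 < k) {m : ℕ} (e : Fin m → R) (he : ∀ b, e b ∈ A)
    (h : ∑ b, e b * ((α * x + β) ^ k) ^ (b : ℕ) = 0) (b : Fin m) : e b = 0 := by
  have h0' : (⟨α, hα⟩ : A) ≠ 0 := fun h => h0 (congrArg Subtype.val h)
  have h1 := hx.aeval (C (⟨α, hα⟩ : A) * X + C ⟨β, hβ⟩) (by rw [natDegree_linear h0']; simp)
    (by rw [leadingCoeff_linear h0']; exact mem_nonZeroDivisors_of_ne_zero h0')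
  have e1 : aeval x (C (⟨α, hα⟩ : A) * X + C ⟨β, hβ⟩) = α * x + β := by simp
  rw [e1] at h1
  have h2 := transcendental_iff.1 (h1.pow hk)
    (∑ b : Fin m, monomial (b : ℕ) (⟨e b, he b⟩ : A)) (by
      rw [map_sum, ← h]
      exact Finset.sum_congr rfl fun b _ => by rw [aeval_monomial]; rfl)
  have h3 := congrArg (fun p => coeff p b) h2
  simp only [finsetSum_coeff, coeff_monomial, coeff_zero] at h3
  rw [Finset.sum_eq_single b (fun c _ hc => if_neg fun h => hc (Fin.ext h)) (by simp),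
    if_pos rfl] at h3
  exact congrArg Subtype.val h3

lemma ade_sep (A : Subalgebra ℂ R) {x : R} (n : ℕ) : ∀ Q : A[X], Q.natDegree ≤ n → Q ≠ 0 →
    aeval x Q = 0 → ∃ P : A[X], aeval x P = 0 ∧ aeval x (derivative P) ≠ 0 := by
  have : CharZero R := charZero_of_injective_algebraMap (algebraMap ℂ R).injective
  have hC : ∀ Q : A[X], Q.natDegree = 0 → Q ≠ 0 → aeval x Q ≠ 0 := by
    intro Q h h0 h1
    rw [eq_C_of_natDegree_eq_zero h, aeval_C] at h1
    apply h0
    rw [eq_C_of_natDegree_eq_zero h, show Q.coeff 0 = 0 from Subtype.ext h1]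
    exact map_zero _
  induction n with
  | zero => exact fun Q h h0 h1 => absurd h1 (hC Q (by omega) h0)
  | succ n ih =>
    intro Q h h0 h1
    by_cases h2 : aeval x (derivative Q) = 0
    · have h3 : Q.natDegree ≠ 0 := fun h3 => hC Q h3 h0 h1
      have h4 := natDegree_derivative_lt h3
      exact ih _ (by omega) (fun h5 => h3 (derivative_eq_zero.1 h5)) h2
    · exact ⟨Q, h1, h2⟩

omit [IsDomain R] in
lemma ade_D_one (D : R →ₗ[ℂ] R) (hD : ∀ a b, D (a * b) = D a * b + a * D b) : D 1 = 0 := by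
  have := hD 1 1
  rw [mul_one, mul_one, one_mul] at this
  linear_combination -this

omit [IsDomain R] in
lemma ade_D_pow (D : R →ₗ[ℂ] R) (hD : ∀ a b, D (a * b) = D a * b + a * D b) (x : R) (n : ℕ) :
    D (x ^ n) = n * x ^ (n - 1) * D x := by
  cases n with
  | zero => simp [ade_D_one D hD]
  | succ n =>
    rw [add_tsub_cancel_right]
    induction n with
    | zero => simp
    | succ n ih => rw [pow_succ, hD, ih]; push_cast; ring

omit [IsDomain R] in
lemma ade_adjoin (D : R →ₗ[ℂ] R) (hD : ∀ a b, D (a * b) = D a * b + a * D b) (S : Set R)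
    (B : Subalgebra ℂ R) (s : R) (hS : S ⊆ B) (hs : ∀ t ∈ S, s * D t ∈ B) :
    ∀ a ∈ Algebra.adjoin ℂ S, s * D a ∈ B := by
  intro a ha
  have hle : Algebra.adjoin ℂ S ≤ B := Algebra.adjoin_le hS
  induction ha using Algebra.adjoin_induction with
  | mem t ht => exact hs t ht
  | algebraMap c =>
    rw [Algebra.algebraMap_eq_smul_one, map_smul, ade_D_one D hD, smul_zero, mul_zero]
    exact zero_mem _
  | add a b _ _ h1 h2 => rw [map_add, mul_add]; exact add_mem h1 h2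
  | mul a b ha hb h1 h2 =>
    have : s * D (a * b) = s * D a * b + a * (s * D b) := by rw [hD]; ring
    rw [this]
    exact add_mem (mul_mem h1 (hle hb)) (mul_mem (hle ha) h2)

omit [IsDomain R] in
lemma ade_D_aeval (D : R →ₗ[ℂ] R) (hD : ∀ a b, D (a * b) = D a * b + a * D b)
    (A B : Subalgebra ℂ R) (hA : ∀ a ∈ A, D a ∈ B) {x : R} (hx : x ∈ B) (Q : A[X]) :
    D (aeval x Q) - aeval x (derivative Q) * D x ∈ B := by
  induction Q using Polynomial.induction_on' with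
  | add p q hp hq =>
    rw [map_add, map_add, map_add, map_add, add_mul, add_sub_add_comm]
    exact add_mem hp hq
  | monomial n a =>
    rw [derivative_monomial, aeval_monomial, aeval_monomial, hD, ade_D_pow D hD, map_mul,
      map_natCast]
    have : D (algebraMap A R a) * x ^ n + algebraMap A R a * (n * x ^ (n - 1) * D x) -
      algebraMap A R a * n * x ^ (n - 1) * D x = D (algebraMap A R a) * x ^ n := by ring
    rw [this]
    exact mul_mem (hA _ a.2) (pow_mem hx n)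

omit [IsDomain R] in
lemma ade_aeval_mem (A B : Subalgebra ℂ R) (hA : A ≤ B) {x : R} (hx : x ∈ B) (Q : A[X]) :
    aeval x Q ∈ B := by
  induction Q using Polynomial.induction_on' with
  | add p q hp hq => rw [map_add]; exact add_mem hp hq
  | monomial n a => rw [aeval_monomial]; exact mul_mem (hA a.2) (pow_mem hx n)

/-- the algebra generated by the first `N` terms -/
def adN (y : ℕ → R) (N : ℕ) : Subalgebra ℂ R := Algebra.adjoin ℂ (y '' Set.Iio N)

omit [IsDomain R] in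
lemma mem_adN (y : ℕ → R) {i N : ℕ} (h : i < N) : y i ∈ adN y N :=
  Algebra.subset_adjoin ⟨i, h, rfl⟩

lemma ade_closed (D : R →ₗ[ℂ] R) (hD : ∀ a b, D (a * b) = D a * b + a * D b) (y : ℕ → R)
    (hy : ∀ i, D (y i) = y (i + 1)) (N : ℕ) (h : IsAlgebraic (adN y N) (y N)) :
    ∃ s ∈ adN y (N + 1), s ≠ 0 ∧ ∀ a ∈ adN y (N + 1), s * D a ∈ adN y (N + 1) := by
  obtain ⟨Q, h0, h1⟩ := h
  obtain ⟨P, h2, h3⟩ := ade_sep _ _ Q le_rfl h0 h1
  have hle : adN y N ≤ adN y (N + 1) :=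
    Algebra.adjoin_mono (Set.image_mono (Set.Iio_subset_Iio (Nat.le_succ N)))
  have hs := ade_aeval_mem _ _ hle (mem_adN y (Nat.lt_succ_self N)) (derivative P)
  refine ⟨_, hs, h3, ade_adjoin D hD _ _ _ Algebra.subset_adjoin ?_⟩
  rintro _ ⟨i, hi, rfl⟩
  rcases (Nat.lt_succ_iff.1 hi).lt_or_eq with hi' | rfl
  · rw [hy]; exact mul_mem hs (mem_adN y (by omega))
  · have := ade_D_aeval D hD _ (adN y (i + 1)) (fun a ha => by
      have := ade_adjoin D hD (y '' Set.Iio i) (adN y (i + 1)) 1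
        (Algebra.subset_adjoin.trans hle) (by
          rintro _ ⟨j, hj, rfl⟩
          rw [one_mul, hy]
          exact mem_adN y (Nat.succ_lt_succ hj)) a ha
      rwa [one_mul] at this) (mem_adN y (Nat.lt_succ_self i)) P
    rw [h2, map_zero, zero_sub] at this
    exact neg_mem_iff.1 this

omit [IsDomain R] in
lemma ade_consts (S : Set R) {a : R} (ha : a ∈ Algebra.adjoin ℂ S) :
    ∃ K : Finset ℂ, a ∈ Subring.closure (S ∪ algebraMap ℂ R '' K) := by
  classical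
  have mono : ∀ K K' : Finset ℂ, K ⊆ K' → Subring.closure (S ∪ algebraMap ℂ R '' K) ≤
      Subring.closure (S ∪ algebraMap ℂ R '' K') := fun K K' h =>
    Subring.closure_mono (Set.union_subset_union_right _ (Set.image_mono h))
  induction ha using Algebra.adjoin_induction with
  | mem t ht => exact ⟨∅, Subring.subset_closure (Or.inl ht)⟩
  | algebraMap c => exact ⟨{c}, Subring.subset_closure (Or.inr ⟨c, by simp, rfl⟩)⟩
  | add a b _ _ h1 h2 =>
    obtain ⟨K, h1⟩ := h1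
    obtain ⟨K', h2⟩ := h2
    exact ⟨K ∪ K', add_mem (mono _ _ Finset.subset_union_left h1)
      (mono _ _ Finset.subset_union_right h2)⟩
  | mul a b _ _ h1 h2 =>
    obtain ⟨K, h1⟩ := h1
    obtain ⟨K', h2⟩ := h2
    exact ⟨K ∪ K', mul_mem (mono _ _ Finset.subset_union_left h1)
      (mono _ _ Finset.subset_union_right h2)⟩

end Abstract

lemma sl_nat (n : ℕ) (γ : SL(2, ℤ)) (u : MG) : sl n γ u = ji γ ^ n * act γ u := by
  rw [sl, zpow_neg, zpow_natCast, ← inv_pow, Units.val_pow_eq_pow_val]; rfl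

lemma Dm_ji (γ : SL(2, ℤ)) : Dm (ji γ) = -(algebraMap ℂ MG (γ 1 0) * ji γ) * ji γ := by
  have h := Dm_mul (jm γ) (ji γ)
  rw [jm_mul_ji, Dm_one, Dm_jm] at h
  have h' := jm_mul_ji γ
  linear_combination (-ji γ) * h - Dm (ji γ) * h'

lemma Dm_sl_nat (n : ℕ) (γ : SL(2, ℤ)) (u : MG) : Dm (ji γ ^ n * act γ u) =
    ji γ ^ (n + 2) * act γ (Dm u) -
      n * (algebraMap ℂ MG (γ 1 0) * ji γ) * (ji γ ^ n * act γ u) := by
  rw [Dm_mul, Dm_act]
  cases n with
  | zero => simp [Dm_one]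
  | succ n => rw [Dm_pow, Dm_ji]; push_cast; ring

lemma Dm_natmul (n : ℕ) (u : MG) : Dm (n * u) = n * Dm u := by
  rw [← nsmul_eq_mul, map_nsmul, nsmul_eq_mul]

/-- first Rankin-Cohen type bracket -/
def rc2 (k : ℕ) (u : MG) : MG := k * (u * Dm (Dm u)) - (k + 1 : ℕ) * (Dm u * Dm u)

/-- second bracket -/
def rc3 (k : ℕ) (u : MG) : MG := k * (u * Dm (rc2 k u)) - (2 * k + 4 : ℕ) * (Dm u * rc2 k u)

lemma rc2_sl (k : ℕ) (γ : SL(2, ℤ)) (u : MG) :
    rc2 k (ji γ ^ k * act γ u) = ji γ ^ (2 * k + 4) * act γ (rc2 k u) := by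
  have hx : Dm (algebraMap ℂ MG (γ 1 0) * ji γ) =
      -(algebraMap ℂ MG (γ 1 0) * ji γ) * (algebraMap ℂ MG (γ 1 0) * ji γ) := by
    rw [Dm_mul, Dm_algebraMap, Dm_ji]; ring
  rw [rc2, rc2, Dm_sl_nat, map_sub, Dm_sl_nat, mul_assoc (k : MG), Dm_natmul, Dm_mul, hx,
    Dm_sl_nat]
  simp only [map_sub, map_mul, map_natCast]
  push_cast
  ring

lemma rc3_sl (k : ℕ) (γ : SL(2, ℤ)) (u : MG) :
    rc3 k (ji γ ^ k * act γ u) = ji γ ^ (3 * k + 6) * act γ (rc3 k u) := by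
  rw [rc3, rc3, rc2_sl, Dm_sl_nat, Dm_sl_nat]
  simp only [map_sub, map_mul, map_natCast]
  push_cast
  ring

lemma rc2_mem (k : ℕ) {u : MG} (h : u ∈ Qs) : rc2 k u ∈ Qs :=
  sub_mem (mul_mem (natCast_mem _ _) (mul_mem h (Dm_mem (Dm_mem h))))
    (mul_mem (natCast_mem _ _) (mul_mem (Dm_mem h) (Dm_mem h)))

lemma rc3_mem (k : ℕ) {u : MG} (h : u ∈ Qs) : rc3 k u ∈ Qs :=
  sub_mem (mul_mem (natCast_mem _ _) (mul_mem h (Dm_mem (rc2_mem k h))))
    (mul_mem (natCast_mem _ _) (mul_mem (Dm_mem h) (rc2_mem k h)))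

/-- monomials of equal weight -/
def mon (k m : ℕ) (p : Fin (m + 1) × Fin (m + 1)) (u : MG) : MG :=
  u ^ ((k + 2) * (5 * m - 2 * p.1 - 3 * p.2)) * (rc2 k u ^ k) ^ (p.1 : ℕ) *
    (rc3 k u ^ k) ^ (p.2 : ℕ)

lemma mon_sl (k m : ℕ) (p : Fin (m + 1) × Fin (m + 1)) (γ : SL(2, ℤ)) (u : MG) :
    mon k m p (sl k γ u) = sl (5 * m * (k * (k + 2)) : ℕ) γ (mon k m p u) := by
  have h1 := p.1.2
  have h2 := p.2.2
  obtain ⟨t, ht⟩ : ∃ t, 5 * m = t + 3 * p.2 + 2 * p.1 := ⟨5 * m - 2 * p.1 - 3 * p.2, by omega⟩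
  rw [sl_nat, sl_nat, mon, mon, rc2_sl, rc3_sl, ht, Nat.add_sub_cancel, Nat.add_sub_cancel]
  simp only [map_mul, map_pow]
  ring

lemma exists_QD {ι : Type} [Fintype ι] (v : ι → MG) (hv : ∀ i, v i ∈ Qs) (μ : ℕ)
    (h : μ < Fintype.card ι) : ∃ c : ι → ℂ, c ≠ 0 ∧ QD μ (∑ i, c i • v i) := by
  choose e he using fun i => q_expand (hv i) μ
  let L : (ι → ℂ) →ₗ[ℂ] (Fin μ → ℂ) :=
    { toFun := fun c j => ∑ i, c i * e i j
      map_add' := fun a b => by ext j; simp [add_mul, Finset.sum_add_distrib]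
      map_smul' := fun a b => by ext j; simp [Finset.mul_sum, mul_assoc] }
  obtain ⟨c, hc, h0⟩ := (Submodule.ne_bot_iff _).1
    (L.ker_ne_bot_of_finrank_lt (by simpa using h))
  refine ⟨c, h0, ?_⟩
  have h1 : ∑ i, c i • ∑ j ∈ Finset.range μ, e i j • qq ^ j = 0 := by
    simp_rw [Finset.smul_sum, smul_smul]
    rw [Finset.sum_comm]
    refine Finset.sum_eq_zero fun j hj => ?_
    rw [← Finset.sum_smul]
    have : ∑ i, c i * e i j = 0 := congrFun hc ⟨j, Finset.mem_range.1 hj⟩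
    rw [this, zero_smul]
  have := QD.sum (s := Finset.univ) fun i _ => (he i).smul (c i)
  simp_rw [smul_sub] at this
  rwa [Finset.sum_sub_distrib, h1, sub_zero] at this

lemma exists_rel (Γ : Subgroup SL(2, ℤ)) [Γ.FiniteIndex] (k : ℕ) (f : MG) (hq : f ∈ Qs)
    (hw : IsWt Γ k f) (γ : SL(2, ℤ)) : ∃ (m : ℕ) (c : Fin (m + 1) × Fin (m + 1) → ℂ), c ≠ 0 ∧
      ∑ p, c p • mon k m p (sl k γ f) = 0 := by
  set B := 5 * (k * (k + 2)) * Γ.index with hB
  obtain ⟨c, h0, hc⟩ := exists_QD (fun p => mon k (B + 1) p f) (fun p =>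
    mul_mem (mul_mem (pow_mem hq _) (pow_mem (pow_mem (rc2_mem k hq) _) _))
      (pow_mem (pow_mem (rc3_mem k hq) _) _)) ((B + 1) * B + 1) (by
        simp only [Fintype.card_prod, Fintype.card_fin]; nlinarith)
  have hlin : ∀ δ : SL(2, ℤ), ∑ p, c p • mon k (B + 1) p (sl k δ f) =
      sl (5 * (B + 1) * (k * (k + 2)) : ℕ) δ (∑ p, c p • mon k (B + 1) p f) := by
    intro δ
    simp_rw [mon_sl, sl_nat]
    rw [map_sum, Finset.mul_sum]
    exact Finset.sum_congr rfl fun p _ => by rw [map_smul, mul_smul_comm]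
  have hz := valence Γ _ (5 * (B + 1) * (k * (k + 2)) : ℕ) _ hc.dvd
    (fun δ hδ => by rw [← hlin, hw δ hδ]) (by
      have : 5 * (B + 1) * (k * (k + 2)) * Γ.index < 12 * ((B + 1) * B + 1) := by
        have : 5 * (B + 1) * (k * (k + 2)) * Γ.index = (B + 1) * B := by rw [hB]; ring
        omega
      exact_mod_cast this)
  exact ⟨B + 1, c, h0, by rw [hlin, hz, sl, map_zero, mul_zero]⟩

lemma exists_alg {k : ℕ} (hk : 0 < k) (y : ℕ → MG) (hy : ∀ i, Dm (y i) = y (i + 1))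
    (h0 : y 0 ≠ 0) {m : ℕ} (c : Fin (m + 1) × Fin (m + 1) → ℂ) (hc : c ≠ 0)
    (h : ∑ p, c p • mon k m p (y 0) = 0) : ∃ N, IsAlgebraic (adN y N) (y N) := by
  by_contra hn
  push Not at hn
  have : CharZero MG := charZero_of_injective_algebraMap (algebraMap ℂ MG).injective
  have hk' : (k : MG) ≠ 0 := Nat.cast_ne_zero.2 hk.ne'
  have e2 : rc2 k (y 0) = k * y 0 * y 2 + -((k + 1 : ℕ) * (y 1 * y 1)) := by
    rw [rc2, hy, hy]; ring
  have e3 : rc3 k (y 0) = k * (k * (y 0 * y 0)) * y 3 +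
      (-(k * (k + 2 : ℕ) * (y 0 * (y 1 * y 2))) - (2 * k + 4 : ℕ) * (y 1 * rc2 k (y 0))) := by
    have : Dm (rc2 k (y 0)) = k * (y 1 * y 2 + y 0 * y 3) - (k + 1 : ℕ) * (y 2 * y 1 + y 1 * y 2) := by
      rw [rc2, map_sub, Dm_natmul, Dm_natmul, Dm_mul, Dm_mul, hy, hy, hy]
    rw [rc3, this, hy]; push_cast; ring
  have m2 : ∀ N, 2 < N → rc2 k (y 0) ∈ adN y N := fun N hN => by
    rw [e2]
    exact add_mem (mul_mem (mul_mem (natCast_mem _ _) (mem_adN y (by omega))) (mem_adN y hN))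
      (neg_mem (mul_mem (natCast_mem _ _) (mul_mem (mem_adN y (by omega)) (mem_adN y (by omega)))))
  apply hc
  funext p
  have h3 := ade_coeff_zero (adN y 3) (hn 3) (α := k * (k * (y 0 * y 0)))
    (β := -(k * (k + 2 : ℕ) * (y 0 * (y 1 * y 2))) - (2 * k + 4 : ℕ) * (y 1 * rc2 k (y 0)))
    (mul_mem (natCast_mem _ _) (mul_mem (natCast_mem _ _)
      (mul_mem (mem_adN y (by omega)) (mem_adN y (by omega)))))
    (sub_mem (neg_mem (mul_mem (mul_mem (natCast_mem _ _) (natCast_mem _ _))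
      (mul_mem (mem_adN y (by omega)) (mul_mem (mem_adN y (by omega)) (mem_adN y (by omega))))))
      (mul_mem (natCast_mem _ _) (mul_mem (mem_adN y (by omega)) (m2 3 (by omega)))))
    (mul_ne_zero hk' (mul_ne_zero hk' (mul_ne_zero h0 h0))) hk
    (fun b : Fin (m + 1) => ∑ a : Fin (m + 1),
      c (a, b) • y 0 ^ ((k + 2) * (5 * m - 2 * a - 3 * b)) * (rc2 k (y 0) ^ k) ^ (a : ℕ))
    (fun b => sum_mem fun a _ => mul_mem (Subalgebra.smul_mem _ (pow_mem (mem_adN y (by omega)) _) _)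
      (pow_mem (pow_mem (m2 3 (by omega)) _) _))
    (by
      rw [← h, Fintype.sum_prod_type_right, ← e3]
      refine Finset.sum_congr rfl fun b _ => ?_
      rw [Finset.sum_mul]
      exact Finset.sum_congr rfl fun a _ => by rw [mon, smul_mul_assoc, smul_mul_assoc]) p.2
  have h2 := ade_coeff_zero (adN y 2) (hn 2) (α := k * y 0) (β := -((k + 1 : ℕ) * (y 1 * y 1)))
    (mul_mem (natCast_mem _ _) (mem_adN y (by omega)))
    (neg_mem (mul_mem (natCast_mem _ _) (mul_mem (mem_adN y (by omega)) (mem_adN y (by omega)))))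
    (mul_ne_zero hk' h0) hk
    (fun a : Fin (m + 1) => c (a, p.2) • y 0 ^ ((k + 2) * (5 * m - 2 * a - 3 * p.2)))
    (fun a => Subalgebra.smul_mem _ (pow_mem (mem_adN y (by omega)) _) _)
    (by rw [← e2]; exact h3) p.1
  rw [Algebra.smul_def, mul_eq_zero] at h2
  rcases h2 with h2 | h2
  · exact (map_eq_zero _).1 h2
  · exact absurd h2 (pow_ne_zero _ h0)

/-- passage to functions on the plane -/
def toC : MG →+* (ℂ → ℂ) where
  toFun u := (u : ℍ → ℂ) ∘ ofComplex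
  map_one' := rfl
  map_mul' _ _ := rfl
  map_zero' := rfl
  map_add' _ _ := rfl

lemma toC_apply (u : MG) (τ : ℍ) : toC u τ = (u : ℍ → ℂ) τ := by
  show (u : ℍ → ℂ) (ofComplex τ) = _
  rw [ofComplex_apply]

theorem ade (Γ : Subgroup SL(2, ℤ)) [Γ.FiniteIndex] (k : ℕ) (hk : 0 < k) (f : MG) (hq : f ∈ Qs)
    (hw : IsWt Γ k f) (h0 : f ≠ 0) (γ : SL(2, ℤ)) :
    ∃ (s : MG) (G : Finset (ℂ → ℂ)), s ≠ 0 ∧ ((sl k γ f : MG) : ℍ → ℂ) ∘ ofComplex ∈ G ∧
      ∀ g ∈ G, ∃ h ∈ Subring.closure (G : Set (ℂ → ℂ)),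
        ∀ τ : ℍ, (s : ℍ → ℂ) τ ≠ 0 → HasDerivAt g (h τ) τ := by
  classical
  obtain ⟨m, c, hc, h⟩ := exists_rel Γ k f hq hw γ
  have hu : sl k γ f ≠ 0 := fun h1 => h0 (by
    have h2 : sl k γ⁻¹ (sl k γ f) = f := by rw [← sl_mul, mul_inv_cancel, sl_one]
    rw [← h2, h1, sl, map_zero, mul_zero])
  let y : ℕ → MG := fun i => Dm^[i] (sl k γ f)
  have hy : ∀ i, Dm (y i) = y (i + 1) := fun i => (Function.iterate_succ_apply' _ _ _).symm
  obtain ⟨N, hN⟩ := exists_alg hk y hy hu c hc h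
  obtain ⟨s, hs, hs0, hD⟩ := ade_closed Dm Dm_mul y hy N hN
  choose K hK using fun i : Fin (N + 1) => ade_consts _ (hD _ (mem_adN y i.2))
  obtain ⟨K', hK'⟩ := ade_consts _ (hD s hs)
  let T : Finset MG := (Finset.range (N + 1)).image y ∪
    (Finset.univ.biUnion K ∪ K').image (algebraMap ℂ MG)
  let si : ℂ → ℂ := fun z => (toC s z)⁻¹
  have hT : ∀ K₀ : Finset ℂ, K₀ ⊆ Finset.univ.biUnion K ∪ K' →
      ∀ a ∈ Subring.closure (y '' Set.Iio (N + 1) ∪ algebraMap ℂ MG '' K₀),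
        toC a ∈ Subring.closure ((insert si (T.image toC) : Finset (ℂ → ℂ)) : Set (ℂ → ℂ)) := by
    intro K₀ hK₀ a ha
    refine (Subring.closure_le (t := (Subring.closure _).comap toC)).2 ?_ ha
    intro t ht
    refine Subring.subset_closure (Finset.mem_insert_of_mem (Finset.mem_image_of_mem _ ?_))
    rcases ht with ⟨i, hi, rfl⟩ | ⟨z, hz, rfl⟩
    · exact Finset.mem_union_left _ (Finset.mem_image_of_mem _ (Finset.mem_range.2 hi))
    · exact Finset.mem_union_right _ (Finset.mem_image_of_mem _ (hK₀ hz))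
  have hsi : si ∈ Subring.closure ((insert si (T.image toC) : Finset (ℂ → ℂ)) : Set (ℂ → ℂ)) :=
    Subring.subset_closure (Finset.mem_insert_self _ _)
  refine ⟨s, insert si (T.image toC), hs0, Finset.mem_insert_of_mem (Finset.mem_image.2
    ⟨y 0, Finset.mem_union_left _ (Finset.mem_image_of_mem _ (by simp)), rfl⟩), fun g hg => ?_⟩
  rcases Finset.mem_insert.1 hg with rfl | hg
  · refine ⟨-(toC (s * Dm s) * si ^ 3), neg_mem (mul_mem
      (hT K' Finset.subset_union_right _ hK') (pow_mem hsi 3)), fun τ hτ => ?_⟩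
    have := (hd_Dm s τ).fun_inv (by simpa using hτ)
    refine this.congr_deriv ?_
    simp only [si, Pi.neg_apply, Pi.mul_apply, Pi.pow_apply, map_mul, toC_apply,
      Function.comp_apply, ofComplex_apply]
    field_simp
  · obtain ⟨t, ht, rfl⟩ := Finset.mem_image.1 hg
    rcases Finset.mem_union.1 ht with ht | ht
    · obtain ⟨i, hi, rfl⟩ := Finset.mem_image.1 ht
      refine ⟨toC (s * Dm (y i)) * si, mul_mem (hT (K ⟨i, Finset.mem_range.1 hi⟩)
        ((Finset.subset_biUnion_of_mem K (Finset.mem_univ _)).trans Finset.subset_union_left) _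
        (hK ⟨i, Finset.mem_range.1 hi⟩)) hsi, fun τ hτ => ?_⟩
      refine (hd_Dm (y i) τ).congr_deriv ?_
      simp only [si, Pi.mul_apply, map_mul, toC_apply]
      field_simp
    · obtain ⟨z, -, rfl⟩ := Finset.mem_image.1 ht
      exact ⟨0, zero_mem _, fun τ _ => hasDerivAt_const _ _⟩

end

end Pool.Agent.Work.MP_db07cb_ag
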