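import Pool.Agent.Work.MP_db07cb_ag.Basic

/-! The action of the modular group and of scalings on `MG`. -/

namespace Pool.Agent.Work.MP_db07cb_ag

open UpperHalfPlane hiding I
open Complex Filter Topology
open scoped MatrixGroups Real

noncomputable section

/-- automorphy factor -/
def jf (γ : SL(2, ℤ)) (τ : ℍ) : ℂ := (γ 1 0 : ℂ) * τ + (γ 1 1 : ℂ)

lemma jf_eq_denom (γ : SL(2, ℤ)) (τ : ℍ) : jf γ τ = denom γ τ := by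
  rw [ModularGroup.denom_apply]; simp [jf]

lemma jf_ne_zero (γ : SL(2, ℤ)) (τ : ℍ) : jf γ τ ≠ 0 := by
  rw [jf_eq_denom]; exact denom_ne_zero _ _

lemma coe_smul_eq (γ : SL(2, ℤ)) (τ : ℍ) :
    ((γ • τ : ℍ) : ℂ) = ((γ 0 0 : ℂ) * τ + (γ 0 1 : ℂ)) / jf γ τ := by
  rw [coe_specialLinearGroup_apply]; simp [jf]

lemma det_eq (γ : SL(2, ℤ)) : γ 0 0 * γ 1 1 - γ 0 1 * γ 1 0 = 1 := by
  have := γ.det_coe
  rwa [Matrix.det_fin_two] at this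

lemma det_eqC (γ : SL(2, ℤ)) : (γ 0 0 : ℂ) * γ 1 1 - γ 0 1 * γ 1 0 = 1 := by
  exact_mod_cast det_eq γ

lemma im_smul_eq (γ : SL(2, ℤ)) (τ : ℍ) : (γ • τ).im = τ.im / ‖jf γ τ‖ ^ 2 := by
  rw [ModularGroup.im_smul_eq_div_normSq, jf_eq_denom, Complex.normSq_eq_norm_sq]

lemma jf_mul (γ γ' : SL(2, ℤ)) (τ : ℍ) : jf (γ * γ') τ = jf γ (γ' • τ) * jf γ' τ := by
  have h := jf_ne_zero γ' τ
  rw [jf, jf, coe_smul_eq]
  field_simp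
  simp [jf, Matrix.mul_apply, Fin.sum_univ_two]
  ring

lemma jf_one (τ : ℍ) : jf 1 τ = 1 := by simp [jf]

lemma norm_lin_le (a b : ℤ) (z : ℂ) :
    ‖(a : ℂ) * z + b‖ ^ 2 ≤ 2 * ((a : ℝ) ^ 2 + b ^ 2) * (1 + ‖z‖ ^ 2) := by
  have h1 : ‖(a : ℂ) * z + b‖ ≤ |(a : ℝ)| * ‖z‖ + |(b : ℝ)| := by
    refine (norm_add_le _ _).trans (le_of_eq ?_)
    rw [norm_mul, Complex.norm_intCast, Complex.norm_intCast]
  have h2 := pow_le_pow_left₀ (norm_nonneg _) h1 2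
  refine h2.trans ?_
  rw [← sq_abs (a : ℝ), ← sq_abs (b : ℝ)]
  have := abs_nonneg (a : ℝ)
  have := abs_nonneg (b : ℝ)
  have := norm_nonneg z
  nlinarith [sq_nonneg (|(a : ℝ)| * ‖z‖ - |(b : ℝ)|), sq_nonneg (|(b : ℝ)| * ‖z‖),
    sq_nonneg |(a : ℝ)|]

lemma Nm_smul (γ : SL(2, ℤ)) : ∃ c : ℝ, 0 ≤ c ∧ ∀ τ, Nm (γ • τ) ≤ c * Nm τ := by
  refine ⟨2 * ((γ 0 0 : ℝ) ^ 2 + γ 0 1 ^ 2) + 2 * ((γ 1 0 : ℝ) ^ 2 + γ 1 1 ^ 2), by positivity,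
    fun τ => ?_⟩
  have hj : 0 < ‖jf γ τ‖ := norm_pos_iff.2 (jf_ne_zero γ τ)
  have hy := τ.im_pos
  have h1 := norm_lin_le (γ 0 0) (γ 0 1) τ
  have h2 := norm_lin_le (γ 1 0) (γ 1 1) τ
  have e : Nm (γ • τ) = (‖jf γ τ‖ ^ 2 + ‖(γ 0 0 : ℂ) * τ + (γ 0 1 : ℂ)‖ ^ 2) / τ.im := by
    rw [Nm, im_smul_eq, coe_smul_eq, norm_div]
    field_simp
  rw [e, Nm, ← mul_div_assoc]
  apply div_le_div_of_nonneg_right _ hy.le
  unfold jf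
  linarith

lemma hd_jf (γ : SL(2, ℤ)) : HD (jf γ) (fun _ => (γ 1 0 : ℂ)) :=
  hd_of_eq (fun z => (γ 1 0 : ℂ) * z + γ 1 1) (fun _ => rfl) fun τ => by
    simpa using ((hasDerivAt_id (τ : ℂ)).const_mul (γ 1 0 : ℂ)).add_const (γ 1 1 : ℂ)

lemma hd_smul (γ : SL(2, ℤ)) :
    HD (fun τ => ((γ • τ : ℍ) : ℂ)) (fun τ => (jf γ τ)⁻¹ ^ 2) := by
  refine hd_of_eq (fun z => ((γ 0 0 : ℂ) * z + γ 0 1) / ((γ 1 0 : ℂ) * z + γ 1 1))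
    (fun τ => coe_smul_eq γ τ) fun τ => ?_
  have h1 : HasDerivAt (fun z : ℂ => (γ 0 0 : ℂ) * z + γ 0 1) (γ 0 0) τ := by
    simpa using ((hasDerivAt_id (τ : ℂ)).const_mul (γ 0 0 : ℂ)).add_const (γ 0 1 : ℂ)
  have h2 : HasDerivAt (fun z : ℂ => (γ 1 0 : ℂ) * z + γ 1 1) (γ 1 0) τ := by
    simpa using ((hasDerivAt_id (τ : ℂ)).const_mul (γ 1 0 : ℂ)).add_const (γ 1 1 : ℂ)
  refine (h1.fun_div h2 (jf_ne_zero γ τ)).congr_deriv ?_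
  have h3 := det_eqC γ
  rw [inv_pow, jf, div_eq_mul_inv]
  have : (γ 0 0 : ℂ) * ((γ 1 0 : ℂ) * τ + γ 1 1) - ((γ 0 0 : ℂ) * τ + γ 0 1) * γ 1 0 = 1 := by
    linear_combination h3
  rw [this, one_mul]

/-- the coordinate function -/
def zz : MG := MG.mk (fun τ => (τ : ℂ)) hd_id.hol
  ⟨1, 1, zero_le_one, fun τ => by simpa using norm_le_Nm τ⟩

@[simp] lemma zz_apply (τ : ℍ) : (zz : ℍ → ℂ) τ = τ := rfl

lemma Dm_zz : Dm zz = 1 := Dm_eq hd_id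

/-- automorphy factor in `MG` -/
def jm (γ : SL(2, ℤ)) : MG := algebraMap ℂ MG (γ 1 0) * zz + algebraMap ℂ MG (γ 1 1)

@[simp] lemma jm_apply (γ : SL(2, ℤ)) (τ : ℍ) : (jm γ : ℍ → ℂ) τ = jf γ τ := rfl

lemma Dm_jm (γ : SL(2, ℤ)) : Dm (jm γ) = algebraMap ℂ MG (γ 1 0) := Dm_eq (hd_jf γ)

lemma gr_jinv (γ : SL(2, ℤ)) : Gr (fun τ => (jf γ τ)⁻¹) := by
  obtain ⟨c, hc, h⟩ := Nm_smul γ
  refine ⟨c + 1, 2, by positivity, fun τ => ?_⟩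
  have hj : 0 < ‖jf γ τ‖ := norm_pos_iff.2 (jf_ne_zero γ τ)
  have hy := τ.im_pos
  have h1 : ‖(jf γ τ)⁻¹‖ ^ 2 = (γ • τ).im * (1 / τ.im) := by
    rw [im_smul_eq, norm_inv]; field_simp
  have h2 : (γ • τ).im ≤ c * Nm τ := ((im_le_norm _).trans (norm_le_Nm _)).trans (h τ)
  have h3 := inv_im_le_Nm τ
  have h4 := one_le_Nm τ
  have h5 : ‖(jf γ τ)⁻¹‖ ^ 2 ≤ c * Nm τ * Nm τ := by
    rw [h1]; exact mul_le_mul h2 h3 (by positivity) (by positivity)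
  nlinarith [sq_nonneg (‖(jf γ τ)⁻¹‖ - 1), norm_nonneg (jf γ τ)⁻¹]

/-- inverse automorphy factor in `MG` -/
def ji (γ : SL(2, ℤ)) : MG :=
  MG.mk (fun τ => (jf γ τ)⁻¹) ((hd_jf γ).inv (jf_ne_zero γ)).hol (gr_jinv γ)

@[simp] lemma ji_apply (γ : SL(2, ℤ)) (τ : ℍ) : (ji γ : ℍ → ℂ) τ = (jf γ τ)⁻¹ := rfl

lemma jm_mul_ji (γ : SL(2, ℤ)) : jm γ * ji γ = 1 :=
  MG.ext fun τ => mul_inv_cancel₀ (jf_ne_zero γ τ)

/-- the automorphy factor as a unit -/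
def jU (γ : SL(2, ℤ)) : MGˣ := ⟨jm γ, ji γ, jm_mul_ji γ, by rw [mul_comm, jm_mul_ji]⟩

lemma jU_zpow_apply (γ : SL(2, ℤ)) (w : ℤ) (τ : ℍ) :
    (((jU γ ^ w : MGˣ) : MG) : ℍ → ℂ) τ = jf γ τ ^ w := by
  have := congrArg Units.val (map_zpow (Units.map (ev τ : MG →* ℂ)) (jU γ) w)
  rw [Units.val_zpow_eq_zpow_val] at this
  exact this

/-- composition with a self-map of the upper half-plane -/
def cmp (m : ℍ → ℍ) (h1 : Hol fun τ => (m τ : ℂ)) (h2 : ∃ c : ℝ, ∀ τ, Nm (m τ) ≤ c * Nm τ) :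
    MG →ₐ[ℂ] MG where
  toFun u := MG.mk ((u : ℍ → ℂ) ∘ m) ((hd_Dm u).comp h1.hd).hol ((MG.gr u).comp h2.choose_spec)
  map_one' := rfl
  map_mul' _ _ := rfl
  map_zero' := rfl
  map_add' _ _ := rfl
  commutes' _ := rfl

/-- action of the modular group -/
def act (γ : SL(2, ℤ)) : MG →ₐ[ℂ] MG :=
  cmp (fun τ => γ • τ) (hd_smul γ).hol (let ⟨c, _, h⟩ := Nm_smul γ; ⟨c, h⟩)

@[simp] lemma act_apply (γ : SL(2, ℤ)) (u : MG) (τ : ℍ) :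
    (act γ u : ℍ → ℂ) τ = (u : ℍ → ℂ) (γ • τ) := rfl

lemma act_mul (γ γ' : SL(2, ℤ)) (u : MG) : act (γ * γ') u = act γ' (act γ u) :=
  MG.ext fun τ => by simp only [act_apply, mul_smul]

lemma act_one (u : MG) : act 1 u = u := MG.ext fun τ => by simp only [act_apply, one_smul]

lemma Dm_act (γ : SL(2, ℤ)) (u : MG) : Dm (act γ u) = ji γ ^ 2 * act γ (Dm u) := by
  apply Dm_eq
  have := (hd_Dm u).comp (hd_smul γ)
  rw [mul_comm] at this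
  exact this

/-- weight `w` slash operator -/
def sl (w : ℤ) (γ : SL(2, ℤ)) (u : MG) : MG := ((jU γ ^ (-w) : MGˣ) : MG) * act γ u

lemma sl_apply (w : ℤ) (γ : SL(2, ℤ)) (u : MG) (τ : ℍ) :
    (sl w γ u : ℍ → ℂ) τ = jf γ τ ^ (-w) * (u : ℍ → ℂ) (γ • τ) := by
  rw [← jU_zpow_apply]; rfl

lemma apply_smul_eq (w : ℤ) (γ : SL(2, ℤ)) (u : MG) (τ : ℍ) :
    (u : ℍ → ℂ) (γ • τ) = jf γ τ ^ w * (sl w γ u : ℍ → ℂ) τ := by
  rw [sl_apply, ← mul_assoc, ← zpow_add₀ (jf_ne_zero γ τ)]; simp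

lemma sl_mul (w : ℤ) (γ γ' : SL(2, ℤ)) (u : MG) : sl w (γ * γ') u = sl w γ' (sl w γ u) := by
  refine MG.ext fun τ => ?_
  rw [sl_apply, sl_apply, sl_apply, jf_mul, mul_zpow, mul_smul]; ring

lemma sl_one (w : ℤ) (u : MG) : sl w 1 u = u := by
  refine MG.ext fun τ => ?_
  rw [sl_apply, jf_one, one_smul]; simp

/-- `u` has weight `w` for `Γ` -/
def IsWt (Γ : Subgroup SL(2, ℤ)) (w : ℤ) (u : MG) : Prop := ∀ γ ∈ Γ, sl w γ u = u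

lemma isWt_iff {Γ : Subgroup SL(2, ℤ)} {w : ℤ} {u : MG} : IsWt Γ w u ↔
    ∀ γ ∈ Γ, ∀ τ : ℍ, (u : ℍ → ℂ) (γ • τ) = jf γ τ ^ w * (u : ℍ → ℂ) τ := by
  constructor
  · intro h γ hγ τ
    rw [apply_smul_eq w, h γ hγ]
  · intro h γ hγ
    refine MG.ext fun τ => ?_
    rw [sl_apply, h γ hγ, ← mul_assoc, ← zpow_add₀ (jf_ne_zero γ τ)]; simp

/-- scaling -/
def scl (n : ℕ) (τ : ℍ) : ℍ := ofComplex (n * τ)

lemma coe_scl {n : ℕ} (hn : 0 < n) (τ : ℍ) : (scl n τ : ℂ) = n * τ := by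
  have : 0 < ((n : ℂ) * τ).im := by
    simp only [mul_im, natCast_re, coe_im, natCast_im, zero_mul, add_zero]
    exact mul_pos (by exact_mod_cast hn) τ.im_pos
  rw [scl, ofComplex_apply_of_im_pos this]

lemma im_scl {n : ℕ} (hn : 0 < n) (τ : ℍ) : (scl n τ).im = n * τ.im := by
  rw [← coe_im, coe_scl hn]; simp

lemma hd_scl {n : ℕ} (hn : 0 < n) : HD (fun τ => (scl n τ : ℂ)) (fun _ => n) :=
  hd_of_eq (fun z => (n : ℂ) * z) (coe_scl hn) fun τ => by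
    simpa using (hasDerivAt_id (τ : ℂ)).const_mul (n : ℂ)

lemma Nm_scl {n : ℕ} (hn : 0 < n) (τ : ℍ) : Nm (scl n τ) ≤ n * Nm τ := by
  have h1 : (1 : ℝ) ≤ n := by exact_mod_cast hn
  have hy := τ.im_pos
  rw [Nm, Nm, im_scl hn, coe_scl hn, norm_mul, Complex.norm_natCast, ← mul_div_assoc,
    div_le_div_iff₀ (by positivity) hy]
  have : 1 ≤ (n : ℝ) ^ 2 := one_le_pow₀ h1
  nlinarith

/-- scaling action -/
def scA (n : ℕ) (hn : 0 < n) : MG →ₐ[ℂ] MG := cmp (scl n) (hd_scl hn).hol ⟨n, Nm_scl hn⟩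

@[simp] lemma scA_apply (n : ℕ) (hn : 0 < n) (u : MG) (τ : ℍ) :
    (scA n hn u : ℍ → ℂ) τ = (u : ℍ → ℂ) (scl n τ) := rfl

lemma Dm_scA (n : ℕ) (hn : 0 < n) (u : MG) : Dm (scA n hn u) = n * scA n hn (Dm u) := by
  apply Dm_eq
  have := (hd_Dm u).comp (hd_scl hn)
  rw [mul_comm] at this
  exact this

/-- the parameter `q` -/
def qf (τ : ℍ) : ℂ := exp (2 * π * I * τ)

lemma norm_qf (τ : ℍ) : ‖qf τ‖ = Real.exp (-2 * π * τ.im) := by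
  simp [qf, Complex.norm_exp]

lemma norm_qf_lt (τ : ℍ) : ‖qf τ‖ < 1 := by
  rw [norm_qf, Real.exp_lt_one_iff]
  have := τ.im_pos
  have := Real.pi_pos
  nlinarith

lemma qf_ne_zero (τ : ℍ) : qf τ ≠ 0 := exp_ne_zero _

lemma hd_qf : HD qf (fun τ => 2 * π * I * qf τ) :=
  hd_of_eq (fun z => exp (2 * π * I * z)) (fun _ => rfl) fun τ => by
    have := ((hasDerivAt_id (τ : ℂ)).const_mul (2 * π * I)).cexp
    simp only [id, mul_one] at this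
    exact this.congr_deriv (mul_comm _ _)

/-- `q` in `MG` -/
def qq : MG := MG.mk qf hd_qf.hol ⟨1, 0, zero_le_one, fun τ => by simpa using (norm_qf_lt τ).le⟩

@[simp] lemma qq_apply (τ : ℍ) : (qq : ℍ → ℂ) τ = qf τ := rfl

lemma Dm_qq : Dm qq = algebraMap ℂ MG (2 * π * I) * qq := Dm_eq hd_qf

lemma qq_ne_zero : qq ≠ 0 := fun h =>
  qf_ne_zero UpperHalfPlane.I (congrFun (congrArg MG.val h) UpperHalfPlane.I)

lemma scA_qq (n : ℕ) (hn : 0 < n) : scA n hn qq = qq ^ n := by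
  refine MG.ext fun τ => ?_
  show qf (scl n τ) = qf τ ^ n
  rw [qf, qf, coe_scl hn, ← Complex.exp_nat_mul]; congr 1; ring

lemma qq_pow_dvd_Dm (μ : ℕ) (u : MG) (h : qq ^ μ ∣ u) : qq ^ μ ∣ Dm u := by
  obtain ⟨w, rfl⟩ := h
  rw [Dm_mul]
  refine dvd_add (Dvd.dvd.mul_right ?_ _) (dvd_mul_right _ _)
  cases μ with
  | zero => simp
  | succ m =>
    rw [Dm_pow, Dm_qq]
    exact ⟨(m + 1) * algebraMap ℂ MG (2 * π * I), by ring⟩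

end

end Pool.Agent.Work.MP_db07cb_ag
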