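import Pool.Agent.Work.MP_db07cb_ag.Action
import Mathlib.NumberTheory.ModularForms.CongruenceSubgroups
import Mathlib.LinearAlgebra.Matrix.FixedDetMatrices
import Mathlib.GroupTheory.Schreier
import Mathlib.RingTheory.Finiteness.Subalgebra
import Mathlib.LinearAlgebra.FiniteDimensional.Basic

/-! Vector-valued Eichler primitives and their cocycle. -/

namespace Pool.Agent.Work.MP_db07cb_ag

open UpperHalfPlane hiding I
open Complex CongruenceSubgroup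
open scoped MatrixGroups

noncomputable section

/-- the Eichler polynomial built from iterated primitives -/
def Ei {R : Type*} [CommRing R] : ℕ → (ℕ → R) → R → R → R
  | 0, s, _, _ => s 1
  | n + 1, s, x, J => J ^ (n + 1) * s 1 - (n + 1) * x * Ei n (fun l => s (l + 1)) x J

section alg

variable {R S : Type*} [CommRing R] [CommRing S]

lemma map_Ei {F : Type*} [FunLike F R S] [RingHomClass F R S] (φ : F) (n : ℕ) (s : ℕ → R)
    (x J : R) : φ (Ei n s x J) = Ei n (fun l => φ (s l)) (φ x) (φ J) := by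
  induction n generalizing s with
  | zero => rfl
  | succ n ih => simp [Ei, ih]

lemma Ei_mul (n : ℕ) (s : ℕ → R) (t x J : R) : Ei n s (t * x) (t * J) = t ^ n * Ei n s x J := by
  induction n generalizing s with
  | zero => simp [Ei]
  | succ n ih => simp only [Ei, ih]; ring

lemma Ei_J0 (n : ℕ) (s : ℕ → R) (x : R) : Ei n s x 0 = (-x) ^ n * n.factorial * s (n + 1) := by
  induction n generalizing s with
  | zero => simp [Ei]
  | succ n ih => simp only [Ei, ih, Nat.factorial_succ]; push_cast; ring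

lemma Ei_x0 (n : ℕ) (s : ℕ → R) (J : R) : Ei n s 0 J = J ^ n * s 1 := by
  cases n <;> simp [Ei]

lemma Ei_mem (A : Subring R) (n : ℕ) (s : ℕ → R) (hs : ∀ l ≤ n + 1, s l ∈ A) {x J : R}
    (hx : x ∈ A) (hJ : J ∈ A) : Ei n s x J ∈ A := by
  induction n generalizing s with
  | zero => exact hs 1 le_rfl
  | succ n ih =>
    exact sub_mem (mul_mem (pow_mem hJ _) (hs 1 (by omega)))
      (mul_mem (mul_mem (add_mem (natCast_mem _ _) (one_mem _)) hx)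
        (ih _ fun l hl => hs _ (by omega)))

lemma Ei_mem_sub [Algebra ℂ R] (P A : Submodule ℂ R) (n : ℕ) (s : ℕ → R)
    (hs : ∀ l ≤ n + 1, s l ∈ A) {x J : R} (hx : x ∈ P) (hJ : J ∈ P) :
    Ei n s x J ∈ P ^ n * A := by
  induction n generalizing s with
  | zero => simpa [Ei] using hs 1 le_rfl
  | succ n ih =>
    refine sub_mem (Submodule.mul_mem_mul (Submodule.pow_mem_pow _ hJ _) (hs 1 (by omega))) ?_
    have h1 := Submodule.mul_mem_mul hx (ih (fun l => s (l + 1)) fun l hl => hs _ (by omega))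
    rw [← mul_assoc, ← pow_succ'] at h1
    have h2 := Submodule.smul_mem _ ((n : ℂ) + 1) h1
    rw [Algebra.smul_def, map_add, map_natCast, map_one, ← mul_assoc] at h2
    exact h2

end alg

lemma Dm_natCast (n : ℕ) : Dm (n : MG) = 0 := by simpa using Dm_algebraMap n

lemma Dm_Ei (n : ℕ) (G : ℕ → MG) (hG : ∀ l, Dm (G (l + 1)) = G l) (x : ℂ) (J : MG)
    (hJ : Dm J = algebraMap ℂ MG x) : Dm (Ei n G (algebraMap ℂ MG x) J) = J ^ n * G 0 := by
  induction n generalizing G with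
  | zero => simp [Ei, hG]
  | succ n ih =>
    rw [Ei, map_sub, Dm_mul, Dm_mul, Dm_mul, ih _ fun l => hG (l + 1), Dm_pow, hJ, hG, map_add,
      Dm_natCast, Dm_one, Dm_algebraMap]
    ring

/-- the primitive of `G 0 · (x τ + y) ^ n` -/
def EF (n : ℕ) (G : ℕ → MG) (x y : ℂ) : MG :=
  Ei n G (algebraMap ℂ MG x) (algebraMap ℂ MG x * zz + algebraMap ℂ MG y)

lemma EF_apply (n : ℕ) (G : ℕ → MG) (x y : ℂ) (τ : ℍ) :
    (EF n G x y : ℍ → ℂ) τ = Ei n (fun l => (G l : ℍ → ℂ) τ) x (x * τ + y) :=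
  map_Ei (ev τ) _ _ _ _

lemma EF_zero_one (n : ℕ) (G : ℕ → MG) : EF n G 0 1 = G 1 := by simp [EF, Ei_x0]

lemma Dm_EF (n : ℕ) (G : ℕ → MG) (hG : ∀ l, Dm (G (l + 1)) = G l) (x y : ℂ) :
    Dm (EF n G x y) = (algebraMap ℂ MG x * zz + algebraMap ℂ MG y) ^ n * G 0 :=
  Dm_Ei n G hG x _ (by rw [map_add, Dm_mul, Dm_algebraMap, Dm_algebraMap, Dm_zz]; ring)

/-- period -/
def per (n : ℕ) (G : ℕ → MG) (δ : SL(2, ℤ)) (x y : ℂ) : ℂ :=
  (EF n G x y : ℍ → ℂ) (δ • UpperHalfPlane.I) -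
    (EF n G (x * δ 0 0 + y * δ 1 0) (x * δ 0 1 + y * δ 1 1) : ℍ → ℂ) UpperHalfPlane.I

lemma cocycle (n : ℕ) (G : ℕ → MG) (hG : ∀ l, Dm (G (l + 1)) = G l) (δ : SL(2, ℤ))
    (hw : sl (n + 2) δ (G 0) = G 0) (x y : ℂ) (τ : ℍ) :
    (EF n G x y : ℍ → ℂ) (δ • τ) =
      (EF n G (x * δ 0 0 + y * δ 1 0) (x * δ 0 1 + y * δ 1 1) : ℍ → ℂ) τ + per n G δ x y := by
  have h0 : Dm (act δ (EF n G x y) - EF n G (x * δ 0 0 + y * δ 1 0) (x * δ 0 1 + y * δ 1 1)) = 0 := by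
    rw [map_sub, Dm_act, Dm_EF n G hG, Dm_EF n G hG, sub_eq_zero]
    refine MG.ext fun τ => ?_
    have h1 := apply_smul_eq (n + 2) δ (G 0) τ
    rw [hw] at h1
    have hj := jf_ne_zero δ τ
    show (jf δ τ)⁻¹ ^ 2 * ((x * (δ • τ : ℍ) + y) ^ n * (G 0 : ℍ → ℂ) (δ • τ)) =
      ((x * δ 0 0 + y * δ 1 0) * τ + (x * δ 0 1 + y * δ 1 1)) ^ n * (G 0 : ℍ → ℂ) τ
    have h2 : (x * δ 0 0 + y * δ 1 0) * τ + (x * δ 0 1 + y * δ 1 1) =
        jf δ τ * (x * (δ • τ : ℍ) + y) := by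
      rw [coe_smul_eq]; field_simp; rw [jf]; ring
    rw [h1, h2, mul_pow, zpow_add₀ hj, zpow_natCast]
    field_simp
  have h1 := hd_Dm (act δ (EF n G x y) - EF n G (x * δ 0 0 + y * δ 1 0) (x * δ 0 1 + y * δ 1 1))
  rw [h0] at h1
  have h2 := HD.eq_const h1 τ UpperHalfPlane.I
  rw [per, ← sub_eq_iff_eq_add']
  exact h2

instance : Group.FG SL(2, ℤ) :=
  Group.fg_iff.2 ⟨_, SpecialLinearGroup.SL2Z_generators, Set.toFinite _⟩

lemma exists_rep (Γ : Subgroup SL(2, ℤ)) (γ : SL(2, ℤ)) :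
    ∃ δ ∈ Γ, γ = δ * ((γ⁻¹ : SL(2, ℤ)) : SL(2, ℤ) ⧸ Γ).out⁻¹ := by
  obtain ⟨h, hh⟩ := QuotientGroup.mk_out_eq_mul Γ γ⁻¹
  exact ⟨h, h.2, by rw [hh]; group⟩

theorem values_mem (Γ : Subgroup SL(2, ℤ)) [Γ.FiniteIndex] (n : ℕ) (G : ℕ → MG)
    (hG : ∀ l, Dm (G (l + 1)) = G l) (hw : IsWt Γ (n + 2) (G 0)) (τs : ℍ) :
    ∃ Y : Finset ℂ, ∀ γ : SL(2, ℤ), (G 1 : ℍ → ℂ) (γ • τs) ∈ Subring.closure (Y : Set ℂ) := by
  classical
  obtain ⟨S, hS, hSf⟩ := (Subgroup.fg_iff Γ).1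
    ((Group.fg_iff_subgroup_fg Γ).1 (Subgroup.fg_of_index_ne_zero Γ))
  let P : Set ℍ := ((fun δ => δ • UpperHalfPlane.I) '' S ∪ {UpperHalfPlane.I}) ∪
    Set.range fun c : SL(2, ℤ) ⧸ Γ => c.out⁻¹ • τs
  have hP : P.Finite := ((hSf.image _).union (Set.finite_singleton _)).union (Set.finite_range _)
  let Y : Set ℂ := (fun σ : ℍ => (σ : ℂ)) '' P ∪
    (fun p : ℍ × ℕ => (G p.2 : ℍ → ℂ) p.1) '' (P ×ˢ Set.Iic (n + 1))
  have hY : Y.Finite := (hP.image _).union ((hP.prod (Set.finite_Iic _)).image _)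
  refine ⟨hY.toFinset, fun γ => ?_⟩
  rw [hY.coe_toFinset]
  set A := Subring.closure Y
  have h1 : ∀ σ ∈ P, ∀ x y : ℤ, (EF n G x y : ℍ → ℂ) σ ∈ A := by
    intro σ hσ x y
    rw [EF_apply]
    exact Ei_mem A n _ (fun l hl => Subring.subset_closure (Or.inr ⟨(σ, l), ⟨hσ, hl⟩, rfl⟩))
      (intCast_mem _ _) (add_mem (mul_mem (intCast_mem _ _)
        (Subring.subset_closure (Or.inl ⟨σ, hσ, rfl⟩))) (intCast_mem _ _))
  have h2 : ∀ δ ∈ Γ, ∀ x y : ℤ, ∃ r ∈ A, ∀ τ, (EF n G x y : ℍ → ℂ) (δ • τ) =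
      (EF n G (x * δ 0 0 + y * δ 1 0 : ℤ) (x * δ 0 1 + y * δ 1 1 : ℤ) : ℍ → ℂ) τ + r := by
    intro δ hδ
    rw [← hS] at hδ
    induction hδ using Subgroup.closure_induction with
    | mem δ hδ =>
      intro x y
      refine ⟨per n G δ x y, sub_mem (h1 _ (Or.inl (Or.inl ⟨δ, hδ, rfl⟩)) x y) ?_, fun τ => ?_⟩
      · exact_mod_cast h1 _ (Or.inl (Or.inr rfl)) (x * δ 0 0 + y * δ 1 0) (x * δ 0 1 + y * δ 1 1)
      · push_cast
        exact cocycle n G hG δ (hw δ (hS ▸ Subgroup.subset_closure hδ)) x y τ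
    | one => exact fun x y => ⟨0, zero_mem _, fun τ => by simp⟩
    | mul δ δ' _ _ ih ih' =>
      intro x y
      obtain ⟨r, hr, e⟩ := ih x y
      obtain ⟨r', hr', e'⟩ := ih' (x * δ 0 0 + y * δ 1 0) (x * δ 0 1 + y * δ 1 1)
      refine ⟨r' + r, add_mem hr' hr, fun τ => ?_⟩
      rw [mul_smul, e, e', add_assoc]
      have a : x * (δ * δ') 0 0 + y * (δ * δ') 1 0 =
          (x * δ 0 0 + y * δ 1 0) * δ' 0 0 + (x * δ 0 1 + y * δ 1 1) * δ' 1 0 := by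
        simp [Matrix.mul_apply, Fin.sum_univ_two]; ring
      have b : x * (δ * δ') 0 1 + y * (δ * δ') 1 1 =
          (x * δ 0 0 + y * δ 1 0) * δ' 0 1 + (x * δ 0 1 + y * δ 1 1) * δ' 1 1 := by
        simp [Matrix.mul_apply, Fin.sum_univ_two]; ring
      rw [a, b]
    | inv δ _ ih =>
      intro x y
      obtain ⟨r, hr, e⟩ := ih (x * δ⁻¹ 0 0 + y * δ⁻¹ 1 0) (x * δ⁻¹ 0 1 + y * δ⁻¹ 1 1)
      refine ⟨-r, neg_mem hr, fun τ => ?_⟩
      have h3 := e (δ⁻¹ • τ)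
      rw [smul_inv_smul] at h3
      rw [h3, add_neg_cancel_right]
      have hd := det_eq δ
      congr 4
      · simp [Matrix.SpecialLinearGroup.SL2_inv_expl]; linear_combination (-x) * hd
      · simp [Matrix.SpecialLinearGroup.SL2_inv_expl]; linear_combination (-y) * hd
  obtain ⟨δ, hδ, e⟩ := exists_rep Γ γ
  obtain ⟨r, hr, e'⟩ := h2 δ hδ 0 1
  rw [e, mul_smul, ← EF_zero_one n G]
  have := e' (((γ⁻¹ : SL(2, ℤ)) : SL(2, ℤ) ⧸ Γ).out⁻¹ • τs)
  simp only [Int.cast_zero, Int.cast_one] at this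
  rw [this]
  exact add_mem (h1 _ (Or.inr ⟨_, rfl⟩) _ _) hr

lemma conj_scl {N M ν : ℕ} (hν : 0 < ν) (hd : ν ∣ M) {δ : SL(2, ℤ)} (hδ : δ ∈ Gamma1 (N * M)) :
    ∃ δ' ∈ Gamma1 N, δ' 0 0 = δ 0 0 ∧ δ' 0 1 = ν * δ 0 1 ∧ ν * δ' 1 0 = δ 1 0 ∧ δ' 1 1 = δ 1 1 ∧
      ∀ τ : ℍ, scl ν (δ • τ) = δ' • scl ν τ ∧ jf δ' (scl ν τ) = jf δ τ := by
  obtain ⟨M', rfl⟩ := hd
  rw [Gamma1_mem] at hδ
  obtain ⟨h1, h2, h3⟩ := hδ
  obtain ⟨c, hc⟩ := (ZMod.intCast_zmod_eq_zero_iff_dvd _ _).1 h3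
  have hdet := det_eq δ
  let δ' : SL(2, ℤ) := ⟨!![δ 0 0, ν * δ 0 1; N * M' * c, δ 1 1], by
    rw [Matrix.det_fin_two_of]; rw [hc] at hdet; push_cast at hdet; linear_combination hdet⟩
  have e10 : ν * δ' 1 0 = δ 1 0 := by rw [hc]; simp [δ']; ring
  have cast1 : ∀ a : ℤ, (a : ZMod (N * (ν * M'))) = 1 → (a : ZMod N) = 1 := by
    intro a ha
    have := congrArg (ZMod.castHom (dvd_mul_right N (ν * M')) (ZMod N)) ha
    rwa [map_intCast, map_one] at this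
  refine ⟨δ', ?_, rfl, rfl, e10, rfl, fun τ => ?_⟩
  · rw [Gamma1_mem]
    refine ⟨cast1 _ h1, cast1 _ h2, ?_⟩
    simp [δ']
  · have hj : jf δ' (scl ν τ) = jf δ τ := by
      rw [jf, jf, coe_scl hν, ← e10]; push_cast
      have : δ' 1 1 = δ 1 1 := rfl
      rw [this]; ring
    refine ⟨UpperHalfPlane.ext ?_, hj⟩
    rw [coe_scl hν, coe_smul_eq, coe_smul_eq, hj, coe_scl hν]
    have a : δ' 0 0 = δ 0 0 := rfl
    have b : δ' 0 1 = ν * δ 0 1 := rfl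
    rw [a, b]; push_cast; ring

theorem exists_U (N : ℕ) [NeZero N] (n : ℕ) (G : ℕ → MG) (hG : ∀ l, Dm (G (l + 1)) = G l)
    (hw : IsWt (Gamma1 N) (n + 2) (G 0)) (ν : ℕ) (hν : 0 < ν) :
    ∃ U : Submodule ℂ MG, U.FG ∧ 1 ∈ U ∧ scA ν hν (G 1) ∈ U ∧
      ∀ γ : SL(2, ℤ), ∀ u ∈ U, act γ u ∈ U := by
  have : NeZero (N * ν) := ⟨mul_ne_zero (NeZero.ne N) hν.ne'⟩
  let X : Set MG := {1} ∪ {u | ∃ γ x y, u = act γ (scA ν hν (EF n G x y))}
  refine ⟨Submodule.span ℂ X, ?_, Submodule.subset_span (Or.inl rfl),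
    Submodule.subset_span (Or.inr ⟨1, 0, 1, by rw [act_one, EF_zero_one]⟩), fun γ u hu => ?_⟩
  · let φ : SL(2, ℤ) ⧸ Gamma1 (N * ν) → MG →ₐ[ℂ] MG := fun c => (act c.out⁻¹).comp (scA ν hν)
    let W : Submodule ℂ MG := Submodule.span ℂ {1} ⊔ ⨆ c, Submodule.span ℂ {1, φ c zz} ^ n *
      Submodule.span ℂ ((fun l => φ c (G l)) '' Set.Iic (n + 1))
    have hW : W.FG := (Submodule.fg_span (Set.finite_singleton _)).sup (Submodule.fg_iSup _ fun c =>
      ((Submodule.fg_span (Set.toFinite _)).pow n).mul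
        (Submodule.fg_span ((Set.finite_Iic _).image _)))
    have hle : Submodule.span ℂ X ≤ W := by
      rw [Submodule.span_le]
      rintro u (rfl | ⟨γ, x, y, rfl⟩)
      · exact Submodule.mem_sup_left (Submodule.subset_span rfl)
      · obtain ⟨δ, hδ, e⟩ := exists_rep (Gamma1 (N * ν)) γ
        obtain ⟨δ', hδ', -, -, -, -, h⟩ := conj_scl hν dvd_rfl hδ
        set c := ((γ⁻¹ : SL(2, ℤ)) : SL(2, ℤ) ⧸ Gamma1 (N * ν))
        have e2 : act γ (scA ν hν (EF n G x y)) = per n G δ' x y • 1 +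
            φ c (EF n G (x * δ' 0 0 + y * δ' 1 0) (x * δ' 0 1 + y * δ' 1 1)) := by
          refine MG.ext fun τ => ?_
          rw [act_apply, scA_apply, e, mul_smul, (h _).1, cocycle n G hG δ' (hw δ' hδ'), add_comm,
            ← Algebra.algebraMap_eq_smul_one]
          rfl
        rw [SetLike.mem_coe, e2]
        refine Submodule.add_mem_sup (Submodule.smul_mem _ _ (Submodule.subset_span rfl))
          (Submodule.mem_iSup_of_mem c ?_)
        rw [EF, map_Ei]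
        have k1 : ∀ t : ℂ, algebraMap ℂ MG t ∈ Submodule.span ℂ {1, φ c zz} := fun t => by
          rw [Algebra.algebraMap_eq_smul_one]
          exact Submodule.smul_mem _ _ (Submodule.subset_span (Or.inl rfl))
        refine Ei_mem_sub _ _ n _ (fun l hl => Submodule.subset_span
          (Set.mem_image_of_mem (fun l => φ c (G l)) (Set.mem_Iic.2 hl))) ?_ ?_
        · rw [AlgHom.commutes]; exact k1 _
        · rw [map_add, map_mul, AlgHom.commutes, AlgHom.commutes, ← Algebra.smul_def]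
          exact add_mem (Submodule.smul_mem _ _ (Submodule.subset_span (Or.inr rfl))) (k1 _)
    have := (Submodule.fg_iff_finiteDimensional _).1 hW
    exact (Submodule.fg_iff_finiteDimensional _).2 (Submodule.finiteDimensional_of_le hle)
  · have : Submodule.span ℂ X ≤ (Submodule.span ℂ X).comap (act γ).toLinearMap := by
      rw [Submodule.span_le]
      rintro u (rfl | ⟨γ', x, y, rfl⟩)
      · exact Submodule.subset_span (Or.inl (map_one (act γ)))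
      · exact Submodule.subset_span (Or.inr ⟨γ' * γ, x, y, (act_mul _ _ _).symm⟩)
    exact this hu

end

end Pool.Agent.Work.MP_db07cb_ag
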