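import Pool.Agent.Work.MP_db07cb_ag.Defs2
import Pool.Agent.Work.MP_db07cb_ag.ADE
import Pool.Agent.Work.MP_db07cb_ag.Eichler
import Mathlib.FieldTheory.AlgebraicClosure

/-! An algebraic relation with algebraic coefficients. -/

namespace Pool.Agent.Work.MP_db07cb_ag

open UpperHalfPlane hiding I
open Complex CongruenceSubgroup
open scoped MatrixGroups Real

namespace AlgRel

lemma alg_sum {ι : Type*} (s : Finset ι) (f : ι → ℂ) (h : ∀ i ∈ s, IsAlgebraic ℚ (f i)) :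
    IsAlgebraic ℚ (∑ i ∈ s, f i) :=
  mem_algebraicClosure_iff.1 (sum_mem fun i hi => mem_algebraicClosure_iff.2 (h i hi))

lemma AQ_mul {u v : MG} (hu : AQ u) (hv : AQ v) : AQ (u * v) := by
  intro M
  obtain ⟨p, hp, h1⟩ := hu M
  obtain ⟨q, hq, h2⟩ := hv M
  refine ⟨p * q, fun i => ?_, h1.mul h2⟩
  rw [Polynomial.coeff_mul]
  exact alg_sum _ _ fun x _ => (hp _).mul (hq _)

lemma AQ_one : AQ 1 := by
  intro M
  refine ⟨1, fun i => ?_, ArithAux.Rel.one M⟩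
  rw [Polynomial.coeff_one]
  split_ifs
  · exact isAlgebraic_one
  · exact isAlgebraic_zero

lemma AQ_pow {u : MG} (hu : AQ u) (n : ℕ) : AQ (u ^ n) := by
  induction n with
  | zero => simpa using AQ_one
  | succ n ih => rw [pow_succ]; exact AQ_mul ih hu

lemma AQ_ser (b : ℕ → ℂ) (hb : PG b) (h : ∀ m, IsAlgebraic ℚ (b m)) : AQ (ser b hb) := by
  intro M
  refine ⟨∑ m ∈ Finset.range M, Polynomial.monomial m (b m), fun i => ?_, ser_mem b hb, ?_⟩
  · rw [Polynomial.finsetSum_coeff]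
    refine alg_sum _ _ fun m _ => ?_
    rw [Polynomial.coeff_monomial]
    split_ifs
    · exact h m
    · exact isAlgebraic_zero
  · have := ser_expand b hb M
    rw [map_sum]
    convert this using 3 with m _
    rw [Polynomial.aeval_monomial, Algebra.smul_def]

lemma AQ_int (b : ℕ → ℤ) (hb : PG fun m => (b m : ℂ)) : AQ (ser _ hb) :=
  AQ_ser _ hb fun _ => isAlgebraic_intCast _

lemma exists_QD_alg {ι : Type} [Fintype ι] (v : ι → MG) (hv : ∀ i, AQ (v i)) (μ : ℕ)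
    (h : μ < Fintype.card ι) :
    ∃ c : ι → ℂ, c ≠ 0 ∧ (∀ i, IsAlgebraic ℚ (c i)) ∧ QD μ (∑ i, c i • v i) := by
  choose p hp hr using fun i => hv i μ
  let e : ι → ℕ → algebraicClosure ℚ ℂ := fun i j =>
    ⟨(p i).coeff j, mem_algebraicClosure_iff.2 (hp i j)⟩
  let L : (ι → algebraicClosure ℚ ℂ) →ₗ[algebraicClosure ℚ ℂ] (Fin μ → algebraicClosure ℚ ℂ) :=
    { toFun := fun c j => ∑ i, c i * e i j
      map_add' := fun a b => by ext j; simp [add_mul, Finset.sum_add_distrib]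
      map_smul' := fun a b => by ext j; simp [Finset.mul_sum, mul_assoc] }
  obtain ⟨c, hc, h0⟩ := (Submodule.ne_bot_iff _).1
    (L.ker_ne_bot_of_finrank_lt (by simpa using h))
  refine ⟨fun i => (c i : ℂ), fun h1 => h0 (funext fun i => Subtype.ext (congrFun h1 i)),
    fun i => mem_algebraicClosure_iff.1 (c i).2, ?_⟩
  have h1 : Polynomial.X ^ μ ∣ ∑ i, (c i : ℂ) • p i := by
    rw [Polynomial.X_pow_dvd_iff]
    intro j hj
    have h2 : ∑ i, c i * e i j = 0 := congrFun hc ⟨j, hj⟩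
    have h3 := congrArg (fun x : algebraicClosure ℚ ℂ => (x : ℂ)) h2
    rw [Polynomial.finsetSum_coeff]
    simpa [e] using h3
  obtain ⟨w, hw⟩ := h1
  have h4 : QD μ (Polynomial.aeval qq (∑ i, (c i : ℂ) • p i)) :=
    ⟨Polynomial.aeval qq w, aeval_qq_mem w, by rw [hw, map_mul, map_pow, Polynomial.aeval_X]⟩
  have h5 := (QD.sum (s := Finset.univ) fun i _ => (hr i).2.smul (c i : ℂ)).add h4
  simp_rw [smul_sub] at h5
  rw [Finset.sum_sub_distrib, map_sum] at h5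
  simp_rw [map_smul] at h5
  rwa [sub_add_cancel] at h5

lemma mono_sl {E F : MG} (h : EP E F) (k B : ℕ) (p : Fin (B + 1) × Fin (B + 1)) (u : MG)
    (γ : SL(2, ℤ)) :
    sl k γ u ^ (12 * (p.1 : ℕ)) * E ^ (3 * (k * (B - p.1) + (B - p.2))) * F ^ (2 * (p.2 : ℕ)) =
      sl (12 * ((k + 1) * B) : ℕ) γ
        (u ^ (12 * (p.1 : ℕ)) * E ^ (3 * (k * (B - p.1) + (B - p.2))) * F ^ (2 * (p.2 : ℕ))) := by
  have hE : ji γ ^ 4 * act γ E = E := by
    rw [← sl_nat]; exact h.wt4 γ trivial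
  have hF : ji γ ^ 6 * act γ F = F := by
    rw [← sl_nat]; exact h.wt6 γ trivial
  obtain ⟨a, ha⟩ : ∃ a, B = a + p.1 := ⟨B - p.1, by have := p.1.2; omega⟩
  obtain ⟨b, hb⟩ : ∃ b, B = b + p.2 := ⟨B - p.2, by have := p.2.2; omega⟩
  have ea : B - p.1 = a := by omega
  have eb : B - p.2 = b := by omega
  have ew : 12 * ((k + 1) * B) = k * (12 * p.1) + 4 * (3 * (k * a + b)) + 6 * (2 * p.2) := by
    have h1 : k * B = k * (a + p.1) := by rw [← ha]
    have : (k + 1) * B = k * (a + p.1) + (b + p.2) := by rw [← h1, ← hb]; ring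
    rw [this]; ring
  rw [ea, eb, ew, sl_nat, sl_nat, map_mul, map_mul, map_pow, map_pow, map_pow]
  conv_lhs => rw [← hE, ← hF]
  rw [mul_pow, mul_pow, mul_pow, ← pow_mul, ← pow_mul, ← pow_mul, pow_add, pow_add]
  ring

end AlgRel

open AlgRel

lemma AQ_scA (b : ℕ → ℂ) (hb : PG b) (h : ∀ m, IsAlgebraic ℚ (b m)) (ν : ℕ) (hν : 0 < ν) :
    AQ (scA ν hν (ser b hb)) := by
  intro M
  refine ⟨_, fun i => ?_, ArithAux.rel_scA b hb M ν hν⟩
  rw [Polynomial.finsetSum_coeff]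
  refine alg_sum _ _ fun m _ => ?_
  rw [Polynomial.coeff_monomial]
  split_ifs
  · exact h m
  · exact isAlgebraic_zero

lemma isWt_scA {N : ℕ} {k : ℤ} {u : MG} (h : IsWt (Gamma1 N) k u) (ν : ℕ) (hν : 0 < ν) :
    IsWt (Gamma1 (N * ν)) k (scA ν hν u) := by
  rw [isWt_iff] at h ⊢
  intro γ hγ τ
  obtain ⟨δ, hδ, -, -, -, -, h1⟩ := conj_scl hν dvd_rfl hγ
  rw [scA_apply, scA_apply, (h1 τ).1, h δ hδ, (h1 τ).2]

theorem alg_rel {E F : MG} (h : EP E F) (Γ : Subgroup SL(2, ℤ)) [Γ.FiniteIndex] (k : ℕ) (u : MG)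
    (hu : AQ u) (hw : IsWt Γ k u) (γ : SL(2, ℤ)) :
    ∃ (B : ℕ) (c : Fin (B + 1) × Fin (B + 1) → ℂ), c ≠ 0 ∧ (∀ p, IsAlgebraic ℚ (c p)) ∧
      ∑ p, c p • (sl k γ u ^ (12 * (p.1 : ℕ)) * E ^ (3 * (k * (B - p.1) + (B - p.2))) *
        F ^ (2 * (p.2 : ℕ))) = 0 := by
  have hE : AQ E := by
    obtain ⟨b, hb, rfl⟩ := h.int4
    exact AQ_int b hb
  have hF : AQ F := by
    obtain ⟨b, hb, rfl⟩ := h.int6
    exact AQ_int b hb
  set B := (k + 1) * Γ.index + 1 with hB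
  obtain ⟨c, h0, hc, hq⟩ := exists_QD_alg (fun p : Fin (B + 1) × Fin (B + 1) =>
    u ^ (12 * (p.1 : ℕ)) * E ^ (3 * (k * (B - p.1) + (B - p.2))) * F ^ (2 * (p.2 : ℕ)))
    (fun p => AQ_mul (AQ_mul (AQ_pow hu _) (AQ_pow hE _)) (AQ_pow hF _)) (B * B) (by
      simp only [Fintype.card_prod, Fintype.card_fin]; nlinarith)
  have hlin : ∀ δ : SL(2, ℤ), ∑ p : Fin (B + 1) × Fin (B + 1),
      c p • (sl k δ u ^ (12 * (p.1 : ℕ)) * E ^ (3 * (k * (B - p.1) + (B - p.2))) *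
        F ^ (2 * (p.2 : ℕ))) =
      sl (12 * ((k + 1) * B) : ℕ) δ (∑ p : Fin (B + 1) × Fin (B + 1),
        c p • (u ^ (12 * (p.1 : ℕ)) * E ^ (3 * (k * (B - p.1) + (B - p.2))) *
          F ^ (2 * (p.2 : ℕ)))) := by
    intro δ
    simp_rw [mono_sl h k B _ u δ, sl_nat]
    rw [map_sum, Finset.mul_sum]
    exact Finset.sum_congr rfl fun p _ => by rw [map_smul, mul_smul_comm]
  have hz := valence Γ _ (12 * ((k + 1) * B) : ℕ) _ hq.dvd
    (fun δ hδ => by rw [← hlin, hw δ hδ]) (by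
      have : 12 * ((k + 1) * B) * Γ.index < 12 * (B * B) := by
        have h1 : 12 * ((k + 1) * B) * Γ.index = 12 * (B * ((k + 1) * Γ.index)) := by ring
        have h2 : B * ((k + 1) * Γ.index) < B * B :=
          Nat.mul_lt_mul_of_pos_left (by omega) (by omega)
        omega
      exact_mod_cast this)
  exact ⟨B, c, h0, hc, by rw [hlin, hz, sl, map_zero, mul_zero]⟩

theorem EP.lin_indep {E F : MG} (h : EP E F) (d : ℕ) (a : Fin (d + 1) → ℂ)
    (h0 : ∑ i, a i • (E ^ (3 * (d - (i : ℕ))) * F ^ (2 * (i : ℕ))) = 0) : a = 0 := by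
  have key : ∀ (n : ℕ) (c : ℂ) (w : MG), c • E ^ n + F ^ 2 * w = 0 → c = 0 := by
    intro n c w hw
    have := congrArg (ev UpperHalfPlane.I) hw
    rw [map_add, map_smul, map_mul, map_pow, map_pow, map_zero, ev_apply, ev_apply, h.v6] at this
    simpa [h.v4] using this
  induction d with
  | zero =>
    funext i
    have hi : i = 0 := Subsingleton.elim (α := Fin 1) _ _
    subst hi
    refine key 0 _ 0 ?_
    simpa using h0
  | succ d ih =>
    rw [Fin.sum_univ_succ] at h0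
    have e : ∑ i : Fin (d + 1), a i.succ •
        (E ^ (3 * (d + 1 - (i.succ : ℕ))) * F ^ (2 * (i.succ : ℕ))) =
        F ^ 2 * ∑ i : Fin (d + 1), a i.succ • (E ^ (3 * (d - (i : ℕ))) * F ^ (2 * (i : ℕ))) := by
      rw [Finset.mul_sum]
      refine Finset.sum_congr rfl fun i _ => ?_
      rw [Fin.val_succ, Nat.add_sub_add_right, mul_smul_comm]
      congr 1
      ring
    rw [e] at h0
    have ha : a 0 = 0 := key (3 * (d + 1)) _ _ (by simpa using h0)
    rw [ha, zero_smul, zero_add, mul_eq_zero] at h0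
    have h1 := ih (fun i => a i.succ) (h0.resolve_left (pow_ne_zero _ h.ne6))
    funext i
    refine Fin.cases ha (fun j => congrFun h1 j) i

end Pool.Agent.Work.MP_db07cb_ag
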