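import Pool.Agent.Work.MP_db07cb_ag.Qring
import Mathlib.NumberTheory.NumberField.House

/-! The arithmetic lower bound for the leading coefficient of the auxiliary function. -/

namespace Pool.Agent.Work.MP_db07cb_ag

open Polynomial Finset

noncomputable section

namespace ArithAux

variable {K : Type*} [Field K]

/-- truncated l1 norm of the coefficients under an embedding -/
def TT (σ : K →+* ℂ) (M : ℕ) (p : K[X]) : ℝ := ∑ i ∈ range (M + 1), ‖σ (p.coeff i)‖

lemma TT_nonneg (σ : K →+* ℂ) (M : ℕ) (p : K[X]) : 0 ≤ TT σ M p :=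
  sum_nonneg fun _ _ => norm_nonneg _

lemma coeff_le_TT (σ : K →+* ℂ) (M : ℕ) (p : K[X]) : ‖σ (p.coeff M)‖ ≤ TT σ M p :=
  single_le_sum (f := fun i => ‖σ (p.coeff i)‖) (fun _ _ => norm_nonneg _) (by simp)

lemma TT_monomial (σ : K →+* ℂ) (M n : ℕ) (x : K) : TT σ M (monomial n x) ≤ ‖σ x‖ := by
  unfold TT
  calc ∑ i ∈ range (M + 1), ‖σ ((monomial n x).coeff i)‖
      = ∑ i ∈ range (M + 1), if n = i then ‖σ x‖ else 0 := by
        refine sum_congr rfl fun i _ => ?_
        rw [coeff_monomial]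
        split_ifs <;> simp
    _ ≤ ‖σ x‖ := by
        rw [sum_ite_eq]
        split_ifs <;> simp

lemma TT_sum (σ : K →+* ℂ) (M : ℕ) {ι : Type*} (s : Finset ι) (p : ι → K[X]) :
    TT σ M (∑ i ∈ s, p i) ≤ ∑ i ∈ s, TT σ M (p i) := by
  unfold TT
  rw [sum_comm]
  refine sum_le_sum fun n _ => ?_
  rw [finsetSum_coeff, map_sum]
  exact norm_sum_le _ _

lemma TT_mul (σ : K →+* ℂ) (M : ℕ) (p q : K[X]) : TT σ M (p * q) ≤ TT σ M p * TT σ M q := by
  unfold TT
  rw [sum_mul_sum, ← sum_product']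
  calc ∑ n ∈ range (M + 1), ‖σ ((p * q).coeff n)‖
      ≤ ∑ n ∈ range (M + 1), ∑ x ∈ antidiagonal n, ‖σ (p.coeff x.1)‖ * ‖σ (q.coeff x.2)‖ := by
        refine sum_le_sum fun n _ => ?_
        rw [coeff_mul, map_sum]
        refine (norm_sum_le _ _).trans (le_of_eq (sum_congr rfl fun x _ => ?_))
        rw [map_mul, norm_mul]
    _ = ∑ x ∈ (range (M + 1)).biUnion antidiagonal, ‖σ (p.coeff x.1)‖ * ‖σ (q.coeff x.2)‖ := by
        rw [sum_biUnion]
        intro m _ n _ hmn
        rw [Function.onFun, disjoint_left]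
        intro x hx hx'
        rw [mem_antidiagonal] at hx hx'
        exact hmn (hx.symm.trans hx')
    _ ≤ _ := by
        refine sum_le_sum_of_subset_of_nonneg ?_ fun _ _ _ => by positivity
        intro x hx
        simp only [mem_biUnion, mem_range, mem_antidiagonal, mem_product] at hx ⊢
        obtain ⟨n, hn, hx⟩ := hx
        omega

/-- size and integrality of a polynomial -/
def Good (M L : ℕ) (S : ℝ) (s : ℕ) (p : K[X]) : Prop :=
  (∀ i ≤ M, IsIntegral ℤ ((L : K) ^ s * p.coeff i)) ∧ ∀ σ : K →+* ℂ, TT σ M p ≤ S ^ s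

lemma Good.one (M L : ℕ) (S : ℝ) : Good M L S 0 (1 : K[X]) := by
  refine ⟨fun i _ => ?_, fun σ => ?_⟩
  · rw [pow_zero, one_mul, coeff_one]
    split_ifs
    · exact isIntegral_one
    · exact isIntegral_zero
  · have := TT_monomial σ M 0 1
    simpa using this

lemma Good.mul {M L : ℕ} {S : ℝ} {s t : ℕ} {p q : K[X]} (hp : Good M L S s p)
    (hq : Good M L S t q) : Good M L S (s + t) (p * q) := by
  refine ⟨fun i hi => ?_, fun σ => ?_⟩
  · rw [coeff_mul, mul_sum]
    refine IsIntegral.sum _ fun x hx => ?_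
    rw [mem_antidiagonal] at hx
    have := (hp.1 x.1 (by omega)).mul (hq.1 x.2 (by omega))
    convert this using 1
    ring
  · refine (TT_mul σ M p q).trans ?_
    rw [pow_add]
    exact mul_le_mul (hp.2 σ) (hq.2 σ) (TT_nonneg _ _ _) ((TT_nonneg _ _ _).trans (hp.2 σ))

lemma Good.pow {M L : ℕ} {S : ℝ} {p : K[X]} (hp : Good M L S 1 p) (n : ℕ) :
    Good M L S n (p ^ n) := by
  induction n with
  | zero => simpa using Good.one M L S
  | succ n ih => rw [pow_succ]; exact ih.mul hp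

lemma Good.mono {M L : ℕ} {S : ℝ} (hS : 1 ≤ S) {s t : ℕ} {p : K[X]} (hp : Good M L S s p)
    (h : s ≤ t) : Good M L S t p := by
  obtain ⟨u, rfl⟩ := Nat.exists_eq_add_of_le h
  refine ⟨fun i hi => ?_, fun σ => (hp.2 σ).trans (pow_le_pow_right₀ hS h)⟩
  have h1 : IsIntegral ℤ ((L : K) ^ u) := by
    have : IsIntegral ℤ (algebraMap ℤ K (L ^ u)) := isIntegral_algebraMap
    simpa using this
  have := h1.mul (hp.1 i hi)
  rwa [← mul_assoc, ← pow_add, add_comm u] at this

lemma Good.prod {M L : ℕ} {S : ℝ} {ι : Type*} (s : Finset ι) (D : ℕ) {p : ι → K[X]}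
    (hp : ∀ i ∈ s, Good M L S D (p i)) : Good M L S (s.card * D) (∏ i ∈ s, p i) := by
  classical
  induction s using Finset.induction_on with
  | empty => simpa using Good.one M L S
  | insert a s ha ih =>
    rw [prod_insert ha, card_insert_of_notMem ha, add_mul, one_mul, add_comm]
    exact (hp a (mem_insert_self _ _)).mul (ih fun i hi => hp i (mem_insert_of_mem hi))

/-- agreement with a polynomial in `q` modulo a power of `q` -/
def Rel (N : ℕ) (u : MG) (p : ℂ[X]) : Prop := u ∈ Qs ∧ QD N (u - aeval qq p)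

lemma Rel.one (N : ℕ) : Rel N 1 1 := ⟨one_mem _, by simpa using QD.zero N⟩

lemma Rel.mul {N : ℕ} {u v : MG} {p q : ℂ[X]} (h : Rel N u p) (h' : Rel N v q) :
    Rel N (u * v) (p * q) := by
  refine ⟨mul_mem h.1 h'.1, ?_⟩
  have := (h'.2.mul_left h.1).add (h.2.mul_left (aeval_qq_mem q))
  convert this using 1
  rw [map_mul]
  ring

lemma Rel.pow {N : ℕ} {u : MG} {p : ℂ[X]} (h : Rel N u p) (n : ℕ) : Rel N (u ^ n) (p ^ n) := by
  induction n with
  | zero => simpa using Rel.one N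
  | succ n ih => rw [pow_succ, pow_succ]; exact ih.mul h

lemma Rel.prod {N : ℕ} {ι : Type*} (s : Finset ι) {u : ι → MG} {p : ι → ℂ[X]}
    (h : ∀ i ∈ s, Rel N (u i) (p i)) : Rel N (∏ i ∈ s, u i) (∏ i ∈ s, p i) := by
  classical
  induction s using Finset.induction_on with
  | empty => simpa using Rel.one N
  | insert a s ha ih =>
    rw [prod_insert ha, prod_insert ha]
    exact (h a (mem_insert_self _ _)).mul (ih fun i hi => h i (mem_insert_of_mem hi))

lemma rel_scA (b : ℕ → ℂ) (hb : PG b) (N ν : ℕ) (hν : 0 < ν) :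
    Rel N (scA ν hν (ser b hb)) (∑ m ∈ range N, monomial (ν * m) (b m)) := by
  refine ⟨scA_mem ν hν (ser_mem b hb), ?_⟩
  obtain ⟨w, hw, h⟩ := ser_expand b hb N
  have h1 := congrArg (scA ν hν) h
  rw [map_sub, map_sum, map_mul, map_pow, scA_qq, ← pow_mul] at h1
  have h2 : QD (ν * N) (scA ν hν (ser b hb) -
      aeval qq (∑ m ∈ range N, monomial (ν * m) (b m))) := by
    refine ⟨scA ν hν w, scA_mem ν hν hw, ?_⟩
    rw [← h1, map_sum]
    congr 1
    refine sum_congr rfl fun m _ => ?_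
    rw [aeval_monomial, map_smul, map_pow, scA_qq, ← pow_mul, Algebra.smul_def]
  exact h2.mono (Nat.le_mul_of_pos_left N hν)

end ArithAux

open ArithAux

theorem arith_lower {K : Type*} [Field K] [NumberField K] (φ₀ : K →+* ℂ) (b : ℕ → K) (C : ℝ)
    (c : ℕ) (hC : 1 ≤ C) (hgr : ∀ (σ : K →+* ℂ) (m : ℕ), ‖σ (b m)‖ ≤ C * (m + 1) ^ c)
    (hb : PG fun m => φ₀ (b m)) {r : ℕ} (ν : Fin r → ℕ) (hν : ∀ j, 0 < ν j) (D : ℕ)
    (a : (Fin r → Fin (D + 1)) → ℤ) (ha : ∀ e, |a e| ≤ 1) (M L : ℕ) (hL : 0 < L)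
    (hint : ∀ m ≤ M, IsIntegral ℤ ((L : K) * b m)) (β : ℂ) (hβ : β ≠ 0) (w : MG) (hw : w ∈ Qs)
    (h : ∑ e, (a e : ℂ) • ∏ j, scA (ν j) (hν j) (ser _ hb) ^ (e j : ℕ) =
      qq ^ M * (algebraMap ℂ MG β + qq * w)) :
    1 ≤ ‖β‖ * (2 * L * C * (M + 1 : ℝ) ^ (c + 2)) ^ (r * D * Module.finrank ℚ K) := by
  set S : ℝ := C * (M + 1 : ℝ) ^ (c + 1) with hS
  have hM1 : (1 : ℝ) ≤ M + 1 := by simp
  have hS1 : 1 ≤ S := one_le_mul_of_one_le_of_one_le hC (one_le_pow₀ hM1)
  set p : Fin r → K[X] := fun j => ∑ m ∈ range (M + 1), monomial (ν j * m) (b m) with hp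
  have hgood : ∀ j, Good M L S 1 (p j) := by
    intro j
    refine ⟨fun i _ => ?_, fun σ => ?_⟩
    · rw [hp, finsetSum_coeff, mul_sum]
      refine IsIntegral.sum _ fun m hm => ?_
      rw [coeff_monomial]
      split_ifs
      · rw [pow_one]; exact hint m (by simpa [Nat.lt_succ_iff] using hm)
      · rw [mul_zero]; exact isIntegral_zero
    · refine (TT_sum σ M _ _).trans ?_
      calc ∑ m ∈ range (M + 1), TT σ M (monomial (ν j * m) (b m))
          ≤ ∑ m ∈ range (M + 1), C * (M + 1 : ℝ) ^ c := by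
            refine sum_le_sum fun m hm => (TT_monomial σ M _ _).trans ((hgr σ m).trans ?_)
            have : (m : ℝ) ≤ M := by exact_mod_cast (by simpa [Nat.lt_succ_iff] using hm)
            gcongr
        _ = S ^ 1 := by
            rw [sum_const, card_range, nsmul_eq_mul, hS]
            push_cast
            ring
  set P : (Fin r → Fin (D + 1)) → K[X] := fun e => ∏ j, p j ^ (e j : ℕ) with hP
  have hgP : ∀ e, Good M L S (r * D) (P e) := by
    intro e
    have := Good.prod (univ : Finset (Fin r)) D (p := fun j => p j ^ (e j : ℕ))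
      fun j _ => ((hgood j).pow _).mono hS1 (Nat.lt_succ_iff.1 (e j).2)
    simpa using this
  set x : K := ∑ e, (a e : K) * (P e).coeff M with hx
  have hrel : ∀ e : Fin r → Fin (D + 1),
      Rel (M + 1) (∏ j, scA (ν j) (hν j) (ser _ hb) ^ (e j : ℕ)) ((P e).map φ₀) := by
    intro e
    rw [hP, Polynomial.map_prod]
    refine Rel.prod _ fun j _ => ?_
    rw [Polynomial.map_pow]
    refine Rel.pow ?_ _
    have := rel_scA _ hb (M + 1) (ν j) (hν j)
    rw [hp, Polynomial.map_sum]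
    simpa only [map_monomial] using this
  have hxβ : φ₀ x = β := by
    have h1 : QD (M + 1) (∑ e, (a e : ℂ) • (∏ j, scA (ν j) (hν j) (ser _ hb) ^ (e j : ℕ) -
        aeval qq ((P e).map φ₀))) := QD.sum fun e _ => (hrel e).2.smul _
    have h2 : QD (M + 1) (qq ^ (M + 1) * w) := ⟨w, hw, rfl⟩
    have h3 := h2.sub h1
    have h4 : QD (M + 1) (aeval qq (∑ e, (a e : ℂ) • (P e).map φ₀ - monomial M β)) := by
      convert h3 using 1
      simp only [smul_sub, sum_sub_distrib]
      rw [h, map_sub, map_sum, aeval_monomial]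
      simp only [map_smul]
      ring
    have h5 := coeff_eq_zero_of_QD (M + 1) _ h4 M (Nat.lt_succ_self M)
    rw [coeff_sub, coeff_monomial, if_pos rfl, finsetSum_coeff, sub_eq_zero] at h5
    rw [← h5, hx, map_sum]
    refine sum_congr rfl fun e _ => ?_
    rw [coeff_smul, coeff_map, map_mul, map_intCast, smul_eq_mul]
  set α : K := (L : K) ^ (r * D) * x with hα
  have hαint : IsIntegral ℤ α := by
    rw [hα, hx, mul_sum]
    refine IsIntegral.sum _ fun e _ => ?_
    have h1 : IsIntegral ℤ ((a e : ℤ) : K) := by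
      have : IsIntegral ℤ (algebraMap ℤ K (a e)) := isIntegral_algebraMap
      simpa using this
    have := h1.mul ((hgP e).1 M le_rfl)
    convert this using 1
    ring
  have hα0 : α ≠ 0 := by
    refine mul_ne_zero (pow_ne_zero _ (by exact_mod_cast hL.ne')) fun h0 => hβ ?_
    rw [← hxβ, h0, map_zero]
  set H : ℝ := (2 * L * C * (M + 1 : ℝ) ^ (c + 2)) ^ (r * D) with hH
  have hL1 : (1 : ℝ) ≤ L := by exact_mod_cast hL
  have hbase : 2 * L * S ≤ 2 * L * C * (M + 1 : ℝ) ^ (c + 2) := by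
    rw [mul_assoc (2 * (L : ℝ)) C, hS]
    gcongr
    omega
  have hLH : (L : ℝ) ^ (r * D) ≤ H := by
    refine pow_le_pow_left₀ (by positivity) (le_trans ?_ hbase) _
    nlinarith
  have hH1 : 1 ≤ H := (one_le_pow₀ hL1).trans hLH
  have hσ : ∀ σ : K →+* ℂ, ‖σ α‖ ≤ H := by
    intro σ
    have h1 : ‖σ x‖ ≤ 2 ^ (r * D) * S ^ (r * D) := by
      rw [hx, map_sum]
      refine (norm_sum_le _ _).trans ?_
      calc ∑ e, ‖σ ((a e : K) * (P e).coeff M)‖
          ≤ ∑ e : Fin r → Fin (D + 1), S ^ (r * D) := by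
            refine sum_le_sum fun e _ => ?_
            rw [map_mul, norm_mul, map_intCast, Complex.norm_intCast]
            have h2 : |(a e : ℝ)| ≤ 1 := by exact_mod_cast ha e
            have h3 := (coeff_le_TT σ M (P e)).trans ((hgP e).2 σ)
            calc |(a e : ℝ)| * ‖σ ((P e).coeff M)‖ ≤ 1 * S ^ (r * D) := by gcongr
              _ = _ := one_mul _
        _ ≤ _ := by
            rw [sum_const, card_univ, Fintype.card_fun, Fintype.card_fin, Fintype.card_fin,
              nsmul_eq_mul]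
            gcongr
            have h2 : (D + 1) ^ r ≤ 2 ^ (r * D) := by
              rw [mul_comm, pow_mul]
              exact Nat.pow_le_pow_left (Nat.lt_two_pow_self) r
            exact_mod_cast h2
    rw [hα, map_mul, norm_mul, map_pow, map_natCast, norm_pow, Complex.norm_natCast]
    calc (L : ℝ) ^ (r * D) * ‖σ x‖ ≤ L ^ (r * D) * (2 ^ (r * D) * S ^ (r * D)) := by gcongr
      _ = (2 * L * S) ^ (r * D) := by
          rw [mul_pow (2 * (L : ℝ)) S, mul_pow (2 : ℝ) L, mul_left_comm, mul_assoc]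
      _ ≤ H := pow_le_pow_left₀ (by positivity) hbase _
  have hhouse : NumberField.house α ≤ H := by
    rw [NumberField.house, pi_norm_le_iff_of_nonneg (by linarith)]
    intro σ
    exact hσ σ
  have hnorm : 1 ≤ ‖Algebra.norm ℚ α‖ := by
    obtain ⟨z, hz⟩ := IsIntegrallyClosed.isIntegral_iff.1 (Algebra.isIntegral_norm ℚ hαint)
    have hz0 : z ≠ 0 := by
      rintro rfl
      rw [map_zero] at hz
      exact hα0 (Algebra.norm_eq_zero_iff.1 hz.symm)
    rw [← hz, eq_intCast, Int.norm_cast_rat, Int.norm_eq_abs]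
    exact_mod_cast Int.one_le_abs hz0
  have h6 := NumberField.norm_norm_le_norm_mul_house_pow α φ₀
  have hd : 0 < Module.finrank ℚ K := Module.finrank_pos
  have h7 : ‖φ₀ α‖ ≤ ‖β‖ * H := by
    rw [hα, map_mul, norm_mul, map_pow, map_natCast, norm_pow, Complex.norm_natCast, hxβ,
      mul_comm]
    gcongr
  calc (1 : ℝ) ≤ ‖φ₀ α‖ * NumberField.house α ^ (Module.finrank ℚ K - 1) := hnorm.trans h6
    _ ≤ ‖β‖ * H * H ^ (Module.finrank ℚ K - 1) := by
        have := NumberField.house_nonneg α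
        gcongr
    _ = _ := by
        rw [mul_assoc, ← pow_succ', Nat.sub_add_cancel hd, hH, ← pow_mul]

end

end Pool.Agent.Work.MP_db07cb_ag
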