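import Pool.Agent.Work.MP_db07cb_ag.Defs2

/-! Arithmetic of the leading coefficient. -/

namespace Pool.Agent.Work.MP_db07cb_ag

open UpperHalfPlane hiding I

namespace Arith2

open Polynomial Finset ArithAux

variable {K : Type} [Field K]

/-- a family of functions whose expansions are the conjugates of one polynomial -/
def KQ (M L s : ℕ) (u : (K →+* ℂ) → MG) : Prop :=
  ∃ p : K[X], (∀ i ≤ M, IsIntegral ℤ ((L : K) ^ s * p.coeff i)) ∧
    ∀ σ : K →+* ℂ, Rel (M + 1) (u σ) (p.map σ)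

lemma isInt_int (z : ℤ) : IsIntegral ℤ (z : K) := by
  have : IsIntegral ℤ (algebraMap ℤ K z) := isIntegral_algebraMap
  simpa using this

lemma KQ.one (M L : ℕ) : KQ (K := K) M L 0 fun _ => 1 := by
  refine ⟨1, fun i _ => ?_, fun σ => by simpa using Rel.one (M + 1)⟩
  rw [pow_zero, one_mul, coeff_one]
  split_ifs
  · exact isIntegral_one
  · exact isIntegral_zero

lemma KQ.zero (M L s : ℕ) : KQ (K := K) M L s fun _ => 0 :=
  ⟨0, fun i _ => by simpa using isIntegral_zero,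
    fun σ => ⟨zero_mem _, by simpa using QD.zero (M + 1)⟩⟩

lemma KQ.mul {M L s t : ℕ} {u v : (K →+* ℂ) → MG} (hu : KQ M L s u) (hv : KQ M L t v) :
    KQ M L (s + t) fun σ => u σ * v σ := by
  obtain ⟨p, h1, h2⟩ := hu
  obtain ⟨q, h3, h4⟩ := hv
  refine ⟨p * q, fun i hi => ?_, fun σ => ?_⟩
  · rw [coeff_mul, mul_sum]
    refine IsIntegral.sum _ fun x hx => ?_
    rw [mem_antidiagonal] at hx
    have := (h1 x.1 (by omega)).mul (h3 x.2 (by omega))
    convert this using 1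
    ring
  · rw [Polynomial.map_mul]
    exact (h2 σ).mul (h4 σ)

lemma KQ.add {M L s : ℕ} {u v : (K →+* ℂ) → MG} (hu : KQ M L s u) (hv : KQ M L s v) :
    KQ M L s fun σ => u σ + v σ := by
  obtain ⟨p, h1, h2⟩ := hu
  obtain ⟨q, h3, h4⟩ := hv
  refine ⟨p + q, fun i hi => ?_, fun σ => ⟨add_mem (h2 σ).1 (h4 σ).1, ?_⟩⟩
  · rw [coeff_add, mul_add]
    exact (h1 i hi).add (h3 i hi)
  · have := (h2 σ).2.add (h4 σ).2
    convert this using 1
    rw [Polynomial.map_add, map_add]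
    ring

lemma KQ.zsmul {M L s : ℕ} {u : (K →+* ℂ) → MG} (hu : KQ M L s u) (z : ℤ) :
    KQ M L s fun σ => (z : ℂ) • u σ := by
  obtain ⟨p, h1, h2⟩ := hu
  refine ⟨C (z : K) * p, fun i hi => ?_, fun σ => ⟨Subalgebra.smul_mem _ (h2 σ).1 _, ?_⟩⟩
  · rw [coeff_C_mul, mul_left_comm]
    exact (isInt_int z).mul (h1 i hi)
  · have := (h2 σ).2.smul (z : ℂ)
    convert this using 1
    rw [Polynomial.map_mul, map_C, map_mul, aeval_C, map_intCast σ, smul_sub]
    simp only [Algebra.smul_def]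

lemma KQ.pow {M L s : ℕ} {u : (K →+* ℂ) → MG} (hu : KQ M L s u) (n : ℕ) :
    KQ M L (n * s) fun σ => u σ ^ n := by
  induction n with
  | zero => simpa using KQ.one M L
  | succ n ih =>
    have := ih.mul hu
    simpa only [← pow_succ, add_mul, one_mul] using this

lemma KQ.mono {M L s t : ℕ} {u : (K →+* ℂ) → MG} (hu : KQ M L s u) (h : s ≤ t) :
    KQ M L t u := by
  obtain ⟨p, h1, h2⟩ := hu
  obtain ⟨k, rfl⟩ := Nat.exists_eq_add_of_le h
  refine ⟨p, fun i hi => ?_, h2⟩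
  have h3 : IsIntegral ℤ ((L : K) ^ k) := by
    have := isInt_int (K := K) (L ^ k)
    simpa using this
  have := h3.mul (h1 i hi)
  rwa [← mul_assoc, ← pow_add, add_comm k] at this

lemma KQ.prod {M L D : ℕ} {ι : Type*} (s : Finset ι) {u : ι → (K →+* ℂ) → MG}
    (hu : ∀ i ∈ s, KQ M L D (u i)) : KQ M L (s.card * D) fun σ => ∏ i ∈ s, u i σ := by
  classical
  induction s using Finset.induction_on with
  | empty => simpa using KQ.one M L
  | insert a s ha ih =>
    have := (hu a (mem_insert_self _ _)).mul (ih fun i hi => hu i (mem_insert_of_mem hi))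
    simp only [prod_insert ha, card_insert_of_notMem ha, add_mul, one_mul]
    rwa [add_comm]

lemma KQ.sum {M L D : ℕ} {ι : Type*} (s : Finset ι) {u : ι → (K →+* ℂ) → MG}
    (hu : ∀ i ∈ s, KQ M L D (u i)) : KQ M L D fun σ => ∑ i ∈ s, u i σ := by
  classical
  induction s using Finset.induction_on with
  | empty => simpa using KQ.zero M L D
  | insert a s ha ih =>
    have := (hu a (mem_insert_self _ _)).add (ih fun i hi => hu i (mem_insert_of_mem hi))
    simpa only [sum_insert ha] using this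

lemma KQ.scA {M L s : ℕ} (b : ℕ → K) (hb : ∀ σ : K →+* ℂ, PG fun m => σ (b m))
    (hint : ∀ m ≤ M, IsIntegral ℤ ((L : K) ^ s * b m)) (ν : ℕ) (hν : 0 < ν) :
    KQ M L s fun σ => scA ν hν (ser _ (hb σ)) := by
  refine ⟨∑ m ∈ range (M + 1), monomial (ν * m) (b m), fun i _ => ?_, fun σ => ?_⟩
  · rw [finsetSum_coeff, mul_sum]
    refine IsIntegral.sum _ fun m hm => ?_
    rw [coeff_monomial]
    split_ifs
    · exact hint m (by simpa [Nat.lt_succ_iff] using hm)
    · rw [mul_zero]; exact isIntegral_zero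
  · have := rel_scA _ (hb σ) (M + 1) ν hν
    rw [Polynomial.map_sum]
    simpa only [map_monomial] using this

lemma KQ.ser_int (M L : ℕ) (b : ℕ → ℤ) (hb : PG fun m => (b m : ℂ)) :
    KQ (K := K) M L 0 fun _ => ser _ hb := by
  refine ⟨∑ m ∈ range (M + 1), monomial m (b m : K), fun i _ => ?_, fun σ => ⟨ser_mem _ _, ?_⟩⟩
  · rw [finsetSum_coeff, mul_sum]
    refine IsIntegral.sum _ fun m _ => ?_
    rw [coeff_monomial, pow_zero, one_mul]
    split_ifs
    · exact isInt_int _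
    · exact isIntegral_zero
  · have := ser_expand _ hb (M + 1)
    convert this using 2
    rw [Polynomial.map_sum, map_sum]
    refine sum_congr rfl fun m _ => ?_
    rw [map_monomial, aeval_monomial, map_intCast σ, Algebra.smul_def]

lemma KQ.lead {M L s : ℕ} {u : (K →+* ℂ) → MG} (hu : KQ M L s u) (φ₀ : K →+* ℂ) (β : ℂ)
    (w : MG) (hw : w ∈ Qs) (e : u φ₀ = qq ^ M * (algebraMap ℂ MG β + qq * w)) :
    ∃ x : K, φ₀ x = β ∧ IsIntegral ℤ ((L : K) ^ s * x) ∧ ∀ σ : K →+* ℂ, ∃ w' ∈ Qs,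
      u σ = qq ^ M * (algebraMap ℂ MG (σ x) + qq * w') := by
  obtain ⟨p, h1, h2⟩ := hu
  have h3 : QD (M + 1) (qq ^ (M + 1) * w) := ⟨w, hw, rfl⟩
  have h4 : QD (M + 1) (aeval qq (p.map φ₀ - monomial M β)) := by
    convert h3.sub (h2 φ₀).2 using 1
    rw [e, map_sub, aeval_monomial]
    ring
  have h5 := coeff_eq_zero_of_QD (M + 1) _ h4
  have h6 : X ^ M ∣ p := by
    rw [X_pow_dvd_iff]
    intro i hi
    have := h5 i (by omega)
    rw [coeff_sub, coeff_monomial, if_neg (by omega), sub_zero, coeff_map] at this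
    exact φ₀.injective (by rw [this, map_zero])
  obtain ⟨q, hq⟩ := h6
  have h7 : p.coeff M = q.coeff 0 := by
    rw [hq]
    simpa using coeff_X_pow_mul q M 0
  refine ⟨p.coeff M, ?_, h1 M le_rfl, fun σ => ?_⟩
  · have := h5 M (by omega)
    rwa [coeff_sub, coeff_monomial, if_pos rfl, coeff_map, sub_eq_zero] at this
  · obtain ⟨w', hw', h8⟩ := (h2 σ).2
    refine ⟨w' + aeval qq (q.divX.map σ), add_mem hw' (aeval_qq_mem _), ?_⟩
    have h9 : aeval qq (p.map σ) =
        qq ^ M * (qq * aeval qq (q.divX.map σ) + algebraMap ℂ MG (σ (p.coeff M))) := by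
      rw [h7]
      conv_lhs => rw [hq, ← X_mul_divX_add q]
      simp only [Polynomial.map_mul, Polynomial.map_pow, Polynomial.map_add, map_X, map_C, map_mul,
        map_pow, map_add, aeval_X, aeval_C]
    rw [h9] at h8
    linear_combination h8

end Arith2

open Arith2 in
theorem arith2 {E F : MG} (h : EP E F) {K : Type} [Field K] [NumberField K] (φ₀ : K →+* ℂ)
    (b : ℕ → K) (hb : ∀ σ : K →+* ℂ, PG fun m => σ (b m)) {r : ℕ} (ν : Fin r → ℕ)
    (hν : ∀ j, 0 < ν j) (d D : ℕ) (a : Fin (d + 1) × (Fin r → Fin (D + 1)) → ℤ) (M L : ℕ)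
    (hint : ∀ m ≤ M, IsIntegral ℤ ((L : K) * b m)) (β : ℂ) (w : MG) (hw : w ∈ Qs)
    (e : Ph E F (fun j => scA (ν j) (hν j) (ser _ (hb φ₀))) d D a =
      qq ^ M * (algebraMap ℂ MG β + qq * w)) :
    ∃ x : K, φ₀ x = β ∧ IsIntegral ℤ ((L : K) ^ (r * D) * x) ∧ ∀ σ : K →+* ℂ, ∃ w' ∈ Qs,
      Ph E F (fun j => scA (ν j) (hν j) (ser _ (hb σ))) d D a =
        qq ^ M * (algebraMap ℂ MG (σ x) + qq * w') := by
  obtain ⟨b4, h4, rfl⟩ := h.int4
  obtain ⟨b6, h6, rfl⟩ := h.int6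
  have key : KQ M L (r * D) fun σ : K →+* ℂ => Ph (ser _ h4) (ser _ h6)
      (fun j => scA (ν j) (hν j) (ser _ (hb σ))) d D a := by
    unfold Ph
    refine KQ.sum _ fun i _ => KQ.zsmul ?_ _
    have h1 := (((KQ.ser_int (K := K) M L b4 h4).pow (3 * (d - (i.1 : ℕ)))).mul
      ((KQ.ser_int (K := K) M L b6 h6).pow (2 * (i.1 : ℕ)))).mul
      (KQ.prod (D := D) Finset.univ
        (u := fun j σ => scA (ν j) (hν j) (ser _ (hb σ)) ^ (i.2 j : ℕ)) fun j _ =>
        ((KQ.scA (s := 1) b hb (by simpa using hint) (ν j) (hν j)).pow _).mono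
          (by simpa using Nat.lt_succ_iff.1 (i.2 j).2))
    simpa using h1
  exact key.lead φ₀ β w hw e

theorem norm_lower {K : Type} [Field K] [NumberField K] (φ₀ : K →+* ℂ) (x : K) (hx : x ≠ 0)
    (L s : ℕ) (hL : 0 < L) (hint : IsIntegral ℤ ((L : K) ^ s * x)) (Z : ℝ)
    (hZ : ∀ σ : K →+* ℂ, ‖σ x‖ ≤ Z) :
    1 ≤ ‖φ₀ x‖ * (L ^ s * max Z 1) ^ Module.finrank ℚ K := by
  set α : K := (L : K) ^ s * x with hα
  have hα0 : α ≠ 0 := mul_ne_zero (pow_ne_zero _ (by exact_mod_cast hL.ne')) hx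
  set H : ℝ := L ^ s * max Z 1 with hH
  have hL1 : (1 : ℝ) ≤ (L : ℝ) ^ s := one_le_pow₀ (by exact_mod_cast hL)
  have hLH : (L : ℝ) ^ s ≤ H := le_mul_of_one_le_right (by positivity) (le_max_right _ _)
  have hn : ∀ σ : K →+* ℂ, ‖σ α‖ = L ^ s * ‖σ x‖ := fun σ => by
    rw [hα, map_mul, norm_mul, map_pow, map_natCast, norm_pow, Complex.norm_natCast]
  have hhouse : NumberField.house α ≤ H := by
    rw [NumberField.house, pi_norm_le_iff_of_nonneg (by linarith)]
    intro σ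
    show ‖σ α‖ ≤ H
    rw [hn, hH]
    exact mul_le_mul_of_nonneg_left ((hZ σ).trans (le_max_left _ _)) (by positivity)
  have hnorm : 1 ≤ ‖Algebra.norm ℚ α‖ := by
    obtain ⟨z, hz⟩ := IsIntegrallyClosed.isIntegral_iff.1 (Algebra.isIntegral_norm ℚ hint)
    have hz0 : z ≠ 0 := by
      rintro rfl
      rw [map_zero] at hz
      exact hα0 (Algebra.norm_eq_zero_iff.1 hz.symm)
    rw [← hz, eq_intCast, Int.norm_cast_rat, Int.norm_eq_abs]
    exact_mod_cast Int.one_le_abs hz0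
  have h6 := NumberField.norm_norm_le_norm_mul_house_pow α φ₀
  have hd : 0 < Module.finrank ℚ K := Module.finrank_pos
  have h7 : ‖φ₀ α‖ ≤ ‖φ₀ x‖ * H := by
    rw [hn, mul_comm]
    gcongr
  calc (1 : ℝ) ≤ ‖φ₀ α‖ * NumberField.house α ^ (Module.finrank ℚ K - 1) := hnorm.trans h6
    _ ≤ ‖φ₀ x‖ * H * H ^ (Module.finrank ℚ K - 1) := by
        have := NumberField.house_nonneg α
        gcongr
    _ = _ := by
        rw [mul_assoc, ← pow_succ', Nat.sub_add_cancel hd]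

end Pool.Agent.Work.MP_db07cb_ag
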