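import Mathlib.Analysis.Complex.UpperHalfPlane.Manifold
import Mathlib.Analysis.Complex.Liouville
import Mathlib.Analysis.SpecialFunctions.ExpDeriv
import Mathlib.Algebra.Algebra.Subalgebra.Basic

/-! Holomorphic functions of moderate growth on the upper half-plane. -/

namespace Pool.Agent.Work.MP_db07cb_ag

open UpperHalfPlane hiding I
open Complex Filter Topology
open scoped MatrixGroups Real

noncomputable section

/-- `v` is the complex derivative of `u`. -/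
def HD (u v : ℍ → ℂ) : Prop := ∀ τ : ℍ, HasDerivAt (u ∘ ofComplex) (v τ) τ

/-- holomorphic -/
def Hol (u : ℍ → ℂ) : Prop := ∀ τ : ℍ, DifferentiableAt ℂ (u ∘ ofComplex) τ

/-- size function -/
def Nm (τ : ℍ) : ℝ := (1 + ‖(τ : ℂ)‖ ^ 2) / τ.im

/-- moderate growth -/
def Gr (u : ℍ → ℂ) : Prop := ∃ (C : ℝ) (K : ℕ), 0 ≤ C ∧ ∀ τ, ‖u τ‖ ≤ C * Nm τ ^ K

/-- derivative -/
def dd (u : ℍ → ℂ) : ℍ → ℂ := fun τ => deriv (u ∘ ofComplex) τ

lemma im_le_norm (τ : ℍ) : τ.im ≤ ‖(τ : ℂ)‖ := by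
  have := Complex.abs_im_le_norm (τ : ℂ)
  rw [coe_im] at this
  exact le_trans (le_abs_self _) this

lemma one_le_Nm (τ : ℍ) : 1 ≤ Nm τ := by
  unfold Nm
  rw [le_div_iff₀ τ.im_pos]
  have := im_le_norm τ
  nlinarith [sq_nonneg (‖(τ : ℂ)‖ - 1), norm_nonneg (τ : ℂ)]

lemma Nm_pos (τ : ℍ) : 0 < Nm τ := lt_of_lt_of_le one_pos (one_le_Nm τ)

lemma norm_le_Nm (τ : ℍ) : ‖(τ : ℂ)‖ ≤ Nm τ := by
  unfold Nm
  rw [le_div_iff₀ τ.im_pos]
  have := im_le_norm τ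
  nlinarith [norm_nonneg (τ : ℂ)]

lemma inv_im_le_Nm (τ : ℍ) : 1 / τ.im ≤ Nm τ := by
  unfold Nm
  exact div_le_div_of_nonneg_right (by nlinarith [sq_nonneg ‖(τ : ℂ)‖]) τ.im_pos.le

lemma HD.hol {u v : ℍ → ℂ} (h : HD u v) : Hol u := fun τ => (h τ).differentiableAt

lemma Hol.hd {u : ℍ → ℂ} (h : Hol u) : HD u (dd u) := fun τ => (h τ).hasDerivAt

lemma HD.dd_eq {u v : ℍ → ℂ} (h : HD u v) : dd u = v := funext fun τ => (h τ).deriv

lemma Hol.differentiableOn {u : ℍ → ℂ} (h : Hol u) :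
    DifferentiableOn ℂ (u ∘ ofComplex) {z : ℂ | 0 < z.im} :=
  fun z hz => (h ⟨z, hz⟩).differentiableWithinAt

lemma Hol.mdiff {u : ℍ → ℂ} (h : Hol u) : MDifferentiable (modelWithCornersSelf ℂ ℂ)
    (modelWithCornersSelf ℂ ℂ) u :=
  UpperHalfPlane.mdifferentiable_iff.2 h.differentiableOn

lemma hol_of_mdiff {u : ℍ → ℂ} (h : MDifferentiable (modelWithCornersSelf ℂ ℂ)
    (modelWithCornersSelf ℂ ℂ) u) : Hol u :=
  fun τ => UpperHalfPlane.mdifferentiableAt_iff.1 (h τ)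

lemma Hol.analyticAt {u : ℍ → ℂ} (h : Hol u) (τ : ℍ) : AnalyticAt ℂ (u ∘ ofComplex) τ :=
  h.differentiableOn.analyticAt (isOpen_upperHalfPlaneSet.mem_nhds τ.im_pos)

/-- a function given by a formula in the complex coordinate -/
lemma hd_of_eq {u v : ℍ → ℂ} (φ : ℂ → ℂ) (hu : ∀ τ : ℍ, u τ = φ τ)
    (hφ : ∀ τ : ℍ, HasDerivAt φ (v τ) τ) : HD u v := by
  intro τ
  refine (hφ τ).congr_of_eventuallyEq ?_
  filter_upwards [isOpen_upperHalfPlaneSet.mem_nhds τ.im_pos] with z hz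
  have : ofComplex z = ⟨z, hz⟩ := ofComplex_apply_of_im_pos hz
  simp only [Function.comp_apply, this, hu]

lemma HD.const (c : ℂ) : HD (fun _ => c) 0 := fun _ => hasDerivAt_const _ _

lemma HD.add {u v u' v' : ℍ → ℂ} (h : HD u u') (h' : HD v v') : HD (u + v) (u' + v') :=
  fun τ => (h τ).add (h' τ)

lemma HD.sub {u v u' v' : ℍ → ℂ} (h : HD u u') (h' : HD v v') : HD (u - v) (u' - v') :=
  fun τ => (h τ).sub (h' τ)

lemma HD.mul {u v u' v' : ℍ → ℂ} (h : HD u u') (h' : HD v v') :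
    HD (u * v) (u' * v + u * v') := by
  intro τ
  have := (h τ).mul (h' τ)
  simp only [Function.comp_apply, ofComplex_apply] at this
  exact this

lemma HD.smul {u u' : ℍ → ℂ} (c : ℂ) (h : HD u u') : HD (c • u) (c • u') :=
  fun τ => (h τ).const_smul c

lemma hd_id : HD (fun τ : ℍ => (τ : ℂ)) 1 := hd_of_eq id (fun _ => rfl) fun _ => hasDerivAt_id _

lemma HD.inv {u u' : ℍ → ℂ} (h : HD u u') (h0 : ∀ τ, u τ ≠ 0) :
    HD (fun τ => (u τ)⁻¹) (fun τ => -u' τ / u τ ^ 2) := by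
  intro τ
  have := (h τ).inv (by simpa using h0 τ)
  simp only [Function.comp_apply, ofComplex_apply] at this
  exact this

lemma HD.comp {u u' : ℍ → ℂ} (h : HD u u') {m : ℍ → ℍ} {m' : ℍ → ℂ}
    (hm : HD (fun τ => (m τ : ℂ)) m') : HD (u ∘ m) ((u' ∘ m) * m') := by
  intro τ
  have h1 := h (m τ)
  have h2 := hm τ
  have h3 : ((fun τ => (m τ : ℂ)) ∘ ofComplex) τ = (m τ : ℂ) := by simp
  rw [← h3] at h1
  have := h1.comp (τ : ℂ) h2
  have e : (u ∘ ofComplex) ∘ (fun τ => (m τ : ℂ)) ∘ ofComplex = (u ∘ m) ∘ ofComplex := by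
    funext z
    simp
  rw [e] at this
  exact this

lemma HD.eq_const {u : ℍ → ℂ} (h : HD u 0) (τ τ' : ℍ) : u τ = u τ' := by
  have hc : Convex ℝ {z : ℂ | 0 < z.im} := convex_halfSpace_im_gt 0
  have := hc.is_const_of_fderivWithin_eq_zero (𝕜 := ℂ) (f := u ∘ ofComplex)
    h.hol.differentiableOn (fun z hz => by
      rw [fderivWithin_of_isOpen isOpen_upperHalfPlaneSet hz]
      have := (h ⟨z, hz⟩).hasFDerivAt.fderiv
      simpa using this) τ.im_pos τ'.im_pos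
  simpa using this

lemma Hol.dd {u : ℍ → ℂ} (h : Hol u) : Hol (dd u) := by
  intro τ
  have := (h.differentiableOn.deriv isOpen_upperHalfPlaneSet).differentiableAt
    (isOpen_upperHalfPlaneSet.mem_nhds τ.im_pos)
  refine this.congr_of_eventuallyEq ?_
  filter_upwards [isOpen_upperHalfPlaneSet.mem_nhds τ.im_pos] with z hz
  have : ofComplex z = ⟨z, hz⟩ := ofComplex_apply_of_im_pos hz
  simp only [Function.comp_apply, this, MP_db07cb_ag.dd]

lemma Gr.of_le {u v : ℍ → ℂ} (hv : Gr v) (c : ℝ) (hc : 0 ≤ c) (h : ∀ τ, ‖u τ‖ ≤ c * ‖v τ‖) :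
    Gr u := by
  obtain ⟨C, K, hC, hK⟩ := hv
  refine ⟨c * C, K, by positivity, fun τ => (h τ).trans ?_⟩
  rw [mul_assoc]
  exact mul_le_mul_of_nonneg_left (hK τ) hc

lemma Gr.const (c : ℂ) : Gr (fun _ => c) := ⟨‖c‖, 0, norm_nonneg _, fun _ => by simp⟩

lemma Gr.add {u v : ℍ → ℂ} (hu : Gr u) (hv : Gr v) : Gr (u + v) := by
  obtain ⟨C, K, hC, hK⟩ := hu
  obtain ⟨C', K', hC', hK'⟩ := hv
  refine ⟨C + C', K + K', by positivity, fun τ => ?_⟩
  have h1 := one_le_Nm τ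
  have a : Nm τ ^ K ≤ Nm τ ^ (K + K') := pow_le_pow_right₀ h1 (by omega)
  have b : Nm τ ^ K' ≤ Nm τ ^ (K + K') := pow_le_pow_right₀ h1 (by omega)
  calc ‖(u + v) τ‖ ≤ ‖u τ‖ + ‖v τ‖ := norm_add_le _ _
    _ ≤ C * Nm τ ^ (K + K') + C' * Nm τ ^ (K + K') :=
      add_le_add ((hK τ).trans (mul_le_mul_of_nonneg_left a hC))
        ((hK' τ).trans (mul_le_mul_of_nonneg_left b hC'))
    _ = _ := by ring

lemma Gr.mul {u v : ℍ → ℂ} (hu : Gr u) (hv : Gr v) : Gr (u * v) := by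
  obtain ⟨C, K, hC, hK⟩ := hu
  obtain ⟨C', K', hC', hK'⟩ := hv
  refine ⟨C * C', K + K', by positivity, fun τ => ?_⟩
  have h1 := Nm_pos τ
  calc ‖(u * v) τ‖ = ‖u τ‖ * ‖v τ‖ := norm_mul _ _
    _ ≤ (C * Nm τ ^ K) * (C' * Nm τ ^ K') :=
      mul_le_mul (hK τ) (hK' τ) (norm_nonneg _) (by positivity)
    _ = _ := by ring

lemma Gr.comp {u : ℍ → ℂ} (hu : Gr u) {m : ℍ → ℍ} {c : ℝ} (hm : ∀ τ, Nm (m τ) ≤ c * Nm τ) :
    Gr (u ∘ m) := by
  obtain ⟨C, K, hC, hK⟩ := hu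
  have hc : 0 ≤ c := by
    have := hm UpperHalfPlane.I
    have h1 := Nm_pos (m UpperHalfPlane.I)
    have h2 := Nm_pos UpperHalfPlane.I
    by_contra hn
    nlinarith
  refine ⟨C * c ^ K, K, by positivity, fun τ => (hK (m τ)).trans ?_⟩
  rw [mul_assoc, ← mul_pow]
  exact mul_le_mul_of_nonneg_left (pow_le_pow_left₀ (Nm_pos _).le (hm τ) K) hC

lemma Gr.dd {u : ℍ → ℂ} (hu : Gr u) (h : Hol u) : Gr (dd u) := by
  obtain ⟨C, K, hC, hK⟩ := hu
  refine ⟨2 * C * 5 ^ K, K + 1, by positivity, fun τ => ?_⟩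
  have hy := τ.im_pos
  have hsub : Metric.closedBall (τ : ℂ) (τ.im / 2) ⊆ {z : ℂ | 0 < z.im} := by
    intro z hz
    rw [Metric.mem_closedBall, dist_eq_norm] at hz
    have h1 := (Complex.abs_im_le_norm (z - τ)).trans hz
    rw [sub_im, coe_im, abs_le] at h1
    show 0 < z.im
    linarith [h1.1]
  have hd : DiffContOnCl ℂ (u ∘ ofComplex) (Metric.ball (τ : ℂ) (τ.im / 2)) := by
    apply DifferentiableOn.diffContOnCl
    rw [closure_ball _ (by positivity)]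
    exact h.differentiableOn.mono hsub
  have key := Complex.norm_deriv_le_of_forall_mem_sphere_norm_le (C := C * (5 * Nm τ) ^ K)
    (by positivity) hd (fun z hz => by
      have hz' := hsub (Metric.sphere_subset_closedBall hz)
      have e : ofComplex z = ⟨z, hz'⟩ := ofComplex_apply_of_im_pos hz'
      simp only [Function.comp_apply, e]
      refine (hK _).trans (mul_le_mul_of_nonneg_left
        (pow_le_pow_left₀ (Nm_pos _).le ?_ K) hC)
      rw [Metric.mem_sphere, dist_eq_norm] at hz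
      have h1 := (Complex.abs_im_le_norm (z - τ)).trans hz.le
      rw [sub_im, coe_im, abs_le] at h1
      have h2 : ‖z‖ ≤ ‖(τ : ℂ)‖ + τ.im / 2 := by
        have := norm_add_le (z - τ) τ
        rw [sub_add_cancel] at this
        linarith
      have h3 := im_le_norm τ
      have h4 : ‖z‖ ^ 2 ≤ (3 / 2 * ‖(τ : ℂ)‖) ^ 2 :=
        pow_le_pow_left₀ (norm_nonneg _) (by linarith) 2
      have hzi : 0 < z.im := hz'
      show (1 + ‖z‖ ^ 2) / z.im ≤ 5 * ((1 + ‖(τ : ℂ)‖ ^ 2) / τ.im)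
      rw [← mul_div_assoc, div_le_div_iff₀ hzi hy]
      have h5 : τ.im ≤ 2 * z.im := by linarith [h1.1]
      have h6 : 0 ≤ ‖(τ : ℂ)‖ ^ 2 := sq_nonneg _
      calc (1 + ‖z‖ ^ 2) * τ.im ≤ (1 + (3 / 2 * ‖(τ : ℂ)‖) ^ 2) * (2 * z.im) :=
            mul_le_mul (by linarith) h5 hy.le (by positivity)
        _ ≤ _ := by nlinarith)
  refine key.trans ?_
  have h1 := inv_im_le_Nm τ
  have h2 := Nm_pos τ
  calc C * (5 * Nm τ) ^ K / (τ.im / 2) = 2 * C * 5 ^ K * Nm τ ^ K * (1 / τ.im) := by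
        rw [mul_pow]; field_simp
    _ ≤ 2 * C * 5 ^ K * Nm τ ^ K * Nm τ := mul_le_mul_of_nonneg_left h1 (by positivity)
    _ = _ := by ring

/-- holomorphic functions of moderate growth -/
def MGs : Subalgebra ℂ (ℍ → ℂ) where
  carrier := {u | Hol u ∧ Gr u}
  mul_mem' ha hb := ⟨(ha.1.hd.mul hb.1.hd).hol, ha.2.mul hb.2⟩
  add_mem' ha hb := ⟨(ha.1.hd.add hb.1.hd).hol, ha.2.add hb.2⟩
  algebraMap_mem' c := ⟨(HD.const c).hol, Gr.const c⟩

/-- the ring of holomorphic functions of moderate growth -/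
def MG : Type := MGs

instance : CommRing MG := inferInstanceAs (CommRing MGs)
instance : Algebra ℂ MG := inferInstanceAs (Algebra ℂ MGs)

/-- underlying function -/
@[coe] def MG.val (u : MG) : ℍ → ℂ := Subtype.val u

instance : Coe MG (ℍ → ℂ) := ⟨MG.val⟩

/-- constructor -/
def MG.mk (u : ℍ → ℂ) (h1 : Hol u) (h2 : Gr u) : MG := (⟨u, h1, h2⟩ : MGs)

lemma MG.ext' {u v : MG} (h : (u : ℍ → ℂ) = v) : u = v := Subtype.ext h

lemma MG.ext {u v : MG} (h : ∀ τ, (u : ℍ → ℂ) τ = (v : ℍ → ℂ) τ) : u = v := Subtype.ext (funext h)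

lemma MG.hol (u : MG) : Hol u := (Subtype.property u).1
lemma MG.gr (u : MG) : Gr u := (Subtype.property u).2

/-- evaluation -/
def ev (τ : ℍ) : MG →ₐ[ℂ] ℂ where
  toFun u := (u : ℍ → ℂ) τ
  map_one' := rfl
  map_mul' _ _ := rfl
  map_zero' := rfl
  map_add' _ _ := rfl
  commutes' _ := rfl

@[simp] lemma ev_apply (τ : ℍ) (u : MG) : ev τ u = (u : ℍ → ℂ) τ := rfl

instance : NoZeroDivisors MG where
  eq_zero_or_eq_zero_of_mul_eq_zero {a b} h := by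
    have h' : (a : ℍ → ℂ) * b = 0 := congrArg MG.val h
    rcases (UpperHalfPlane.mul_eq_zero_iff (MG.hol a).mdiff (MG.hol b).mdiff).1 h' with h1 | h1
    · exact Or.inl (MG.ext' h1)
    · exact Or.inr (MG.ext' h1)

instance : Nontrivial MG := (ev UpperHalfPlane.I).toRingHom.domain_nontrivial

instance : IsDomain MG := NoZeroDivisors.to_isDomain _

/-- the derivation of `MG` -/
def Dm : MG →ₗ[ℂ] MG where
  toFun u := MG.mk (dd u) (MG.hol u).dd ((MG.gr u).dd (MG.hol u))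
  map_add' a b := MG.ext' ((MG.hol a).hd.add (MG.hol b).hd).dd_eq
  map_smul' c a := MG.ext' ((MG.hol a).hd.smul c).dd_eq

lemma hd_Dm (u : MG) : HD u (Dm u) := (MG.hol u).hd

lemma Dm_eq {u v : MG} (h : HD u v) : Dm u = v := MG.ext' h.dd_eq

lemma Dm_mul (u v : MG) : Dm (u * v) = Dm u * v + u * Dm v := Dm_eq ((hd_Dm u).mul (hd_Dm v))

lemma Dm_algebraMap (c : ℂ) : Dm (algebraMap ℂ MG c) = 0 := Dm_eq (HD.const c)

lemma Dm_one : Dm 1 = 0 := by simpa using Dm_algebraMap 1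

lemma Dm_pow (u : MG) (n : ℕ) : Dm (u ^ (n + 1)) = (n + 1) * u ^ n * Dm u := by
  induction n with
  | zero => simp
  | succ n ih => rw [pow_succ, Dm_mul, ih]; push_cast; ring

lemma eq_smul_of_Dm {u v : MG} (hv : v ≠ 0) (h : Dm u * v = u * Dm v) : ∃ c : ℂ, u = c • v := by
  obtain ⟨τ, hτ⟩ : ∃ τ, (v : ℍ → ℂ) τ ≠ 0 := by
    by_contra hn
    push Not at hn
    exact hv (MG.ext hn)
  refine ⟨(u : ℍ → ℂ) τ / (v : ℍ → ℂ) τ, ?_⟩
  have hcont : ContinuousAt ((v : ℍ → ℂ) ∘ ofComplex) τ := ((MG.hol v) τ).continuousAt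
  have hne : ∀ᶠ z in 𝓝 (τ : ℂ), ((v : ℍ → ℂ) ∘ ofComplex) z ≠ 0 :=
    hcont.eventually_ne (by simpa using hτ)
  obtain ⟨ε, hε, hball⟩ := Metric.eventually_nhds_iff_ball.1
    (hne.and (isOpen_upperHalfPlaneSet.mem_nhds τ.im_pos))
  have hder : ∀ z ∈ Metric.ball (τ : ℂ) ε,
      HasDerivAt (fun z => ((u : ℍ → ℂ) ∘ ofComplex) z / ((v : ℍ → ℂ) ∘ ofComplex) z) 0 z := by
    intro z hz
    obtain ⟨h1, h2⟩ := hball z hz
    have a := (hd_Dm u ⟨z, h2⟩).fun_div (hd_Dm v ⟨z, h2⟩) h1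
    have e : ofComplex z = ⟨z, h2⟩ := ofComplex_apply_of_im_pos h2
    have h3 := congrFun (congrArg MG.val h) ⟨z, h2⟩
    have h4 : (Dm u : ℍ → ℂ) ⟨z, h2⟩ * (v : ℍ → ℂ) ⟨z, h2⟩ =
      (u : ℍ → ℂ) ⟨z, h2⟩ * (Dm v : ℍ → ℂ) ⟨z, h2⟩ := h3
    refine a.congr_deriv ?_
    simp only [Function.comp_apply]
    rw [e, h4]; simp
  have hconst : ∀ z ∈ Metric.ball (τ : ℂ) ε,
      ((u : ℍ → ℂ) ∘ ofComplex) z / ((v : ℍ → ℂ) ∘ ofComplex) z =
        (u : ℍ → ℂ) τ / (v : ℍ → ℂ) τ := by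
    intro z hz
    have := (convex_ball (τ : ℂ) ε).is_const_of_fderivWithin_eq_zero (𝕜 := ℂ)
      (f := fun z => ((u : ℍ → ℂ) ∘ ofComplex) z / ((v : ℍ → ℂ) ∘ ofComplex) z)
      (fun z hz => (hder z hz).differentiableAt.differentiableWithinAt) (fun z hz => by
        rw [fderivWithin_of_isOpen Metric.isOpen_ball hz]
        simpa using (hder z hz).hasFDerivAt.fderiv) hz (Metric.mem_ball_self hε)
    simpa using this
  have hz : ((u - ((u : ℍ → ℂ) τ / (v : ℍ → ℂ) τ) • v : MG) : ℍ → ℂ) = 0 := by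
    apply UpperHalfPlane.eq_zero_of_frequently (MG.hol _).mdiff (τ := τ)
    apply Filter.Eventually.frequently
    apply Filter.Eventually.filter_mono nhdsWithin_le_nhds
    have : ∀ᶠ z : ℍ in 𝓝 τ, (z : ℂ) ∈ Metric.ball (τ : ℂ) ε :=
      continuous_coe.continuousAt.eventually (Metric.ball_mem_nhds _ hε)
    filter_upwards [this] with z hz
    have h1 := hconst z hz
    have h2 := (hball z hz).1
    simp only [Function.comp_apply, ofComplex_apply] at h1 h2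
    show (u : ℍ → ℂ) z - ((u : ℍ → ℂ) τ / (v : ℍ → ℂ) τ) * (v : ℍ → ℂ) z = 0
    rw [← h1]; field_simp; ring
  exact sub_eq_zero.1 (MG.ext' hz)

end

end Pool.Agent.Work.MP_db07cb_ag
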