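import Mathlib.Analysis.Analytic.Order
import Mathlib.Analysis.Complex.AbsMax
import Mathlib.Analysis.Complex.RemovableSingularity
import Mathlib.Analysis.Complex.CauchyIntegral

/-!
# A Blaschke factor inequality
-/

set_option autoImplicit false

namespace Pool.Agent.Work.MP_db07cb_ag

open Metric

theorem blaschke (φ : ℂ → ℂ) (hφ : DifferentiableOn ℂ φ (Metric.ball 0 1)) (q₀ : ℂ) (hq : q₀ ≠ 0)
    (ρ : ℝ) (h1 : ‖q₀‖ < ρ) (h2 : ρ < 1) (T : ℕ) (hT : (T : ℕ∞) ≤ analyticOrderAt φ q₀) (B : ℝ)
    (hB : ∀ z, ‖z‖ = ρ → ‖φ z‖ ≤ B) : ‖φ 0‖ * (ρ / ‖q₀‖) ^ T ≤ B := by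
  have hq0 : 0 < ‖q₀‖ := norm_pos_iff.2 hq
  have hρ : 0 < ρ := hq0.trans h1
  have hmem : ball (0 : ℂ) 1 ∈ nhds q₀ :=
    isOpen_ball.mem_nhds (by simpa using h1.trans h2)
  induction T generalizing φ with
  | zero =>
    rw [pow_zero, mul_one]
    have hsub : closedBall (0 : ℂ) ρ ⊆ ball 0 1 := closedBall_subset_ball h2
    refine Complex.norm_le_of_forall_mem_frontier_norm_le (U := ball 0 ρ) isBounded_ball
      (hφ.diffContOnCl_ball hsub) (fun z hz => hB z ?_) (subset_closure (mem_ball_self hρ))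
    rw [frontier_ball _ hρ.ne'] at hz
    simpa using hz
  | succ T ih =>
    have h0 : φ q₀ = 0 := by
      refine apply_eq_zero_of_analyticOrderAt_ne_zero (fun h => ?_)
      rw [h] at hT
      simp at hT
    set g := dslope φ q₀ with hg
    have hgd : DifferentiableOn ℂ g (ball 0 1) := (Complex.differentiableOn_dslope hmem).2 hφ
    have hfac : ∀ z, φ z = (z - q₀) * g z := by
      intro z
      have := sub_smul_dslope φ q₀ z
      rw [h0, sub_zero, smul_eq_mul] at this
      exact this.symm
    have hga : AnalyticAt ℂ g q₀ := hgd.analyticAt hmem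
    set u : ℂ → ℂ := fun z => ((ρ : ℂ) ^ 2 - (starRingEnd ℂ) q₀ * z) / ρ with hu
    have hud : Differentiable ℂ u := by
      rw [hu]; fun_prop
    have hord : (T : ℕ∞) ≤ analyticOrderAt g q₀ := by
      have e : φ = (fun z => z - q₀) * g := funext hfac
      have hs : AnalyticAt ℂ (fun z : ℂ => z - q₀) q₀ := by fun_prop
      rw [e, analyticOrderAt_mul hs hga, analyticOrderAt_id_sub_const_self, Nat.cast_succ,
        add_comm] at hT
      exact (ENat.add_le_add_iff_left (by simp)).1 hT
    have hψ := ih (g * u) (hgd.mul hud.differentiableOn)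
      (by
        rw [analyticOrderAt_mul hga (hud.analyticAt q₀)]
        exact hord.trans le_self_add)
      (by
        intro z hz
        have hρ' : (ρ : ℂ) ≠ 0 := by exact_mod_cast hρ.ne'
        have e1 : (ρ : ℂ) ^ 2 = z * (starRingEnd ℂ) z := by
          rw [Complex.mul_conj, Complex.normSq_eq_norm_sq, hz]; push_cast; ring
        have e2 : ‖u z‖ = ‖z - q₀‖ := by
          have : u z = z * (starRingEnd ℂ) (z - q₀) / ρ := by
            simp only [hu, e1, map_sub]; ring
          rw [this, norm_div, norm_mul, Complex.norm_conj, hz, Complex.norm_real,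
            Real.norm_of_nonneg hρ.le]
          field_simp
        have := hB z hz
        rw [hfac z, norm_mul] at this
        rw [Pi.mul_apply, norm_mul, e2, mul_comm]
        exact this)
    have e3 : ‖(g * u) 0‖ = ‖φ 0‖ * (ρ / ‖q₀‖) := by
      have hρ' : (ρ : ℂ) ≠ 0 := by exact_mod_cast hρ.ne'
      have : u 0 = ρ := by
        simp only [hu, mul_zero, sub_zero]; field_simp
      rw [Pi.mul_apply, norm_mul, this, hfac 0, norm_mul, zero_sub, norm_neg, Complex.norm_real,
        Real.norm_of_nonneg hρ.le]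
      field_simp
    rw [e3] at hψ
    rw [pow_succ', ← mul_assoc]
    exact hψ

end Pool.Agent.Work.MP_db07cb_ag
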