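import Pool.Agent.Work.MP_db07cb_ag.Action

/-! A CM point with long chains of cyclic isogenies. -/

namespace Pool.Agent.Work.MP_db07cb_ag

open UpperHalfPlane hiding I
open Complex Filter Topology
open scoped MatrixGroups Real

/-- right multiplication of a row vector by the endomorphism matrix -/
def cmF (s t : ℤ) (v : ℤ × ℤ) : ℤ × ℤ := (v.1 + t ^ 2 * v.2, -s ^ 2 * v.1 + v.2)

/-- right multiplication of a row vector by the adjugate matrix -/
def cmG (s t : ℤ) (v : ℤ × ℤ) : ℤ × ℤ := (v.1 - t ^ 2 * v.2, s ^ 2 * v.1 + v.2)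

lemma cm_det (s t : ℤ) (j : ℕ) (u v : ℤ × ℤ) :
    ((cmG s t)^[j] u).1 * v.2 - ((cmG s t)^[j] u).2 * v.1 =
      u.1 * ((cmF s t)^[j] v).2 - u.2 * ((cmF s t)^[j] v).1 := by
  induction j generalizing v with
  | zero => rfl
  | succ j ih =>
    rw [Function.iterate_succ_apply', Function.iterate_succ_apply, ← ih]
    simp only [cmF, cmG]
    ring

lemma cmF_lin {s t : ℤ} {z : ℂ} (hz : (t : ℂ) ^ 2 * z ^ 2 = -(s : ℂ) ^ 2) (j : ℕ) (v : ℤ × ℤ) :
    (((cmF s t)^[j] v).1 : ℂ) * z + ((cmF s t)^[j] v).2 =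
      (1 + t ^ 2 * z) ^ j * (v.1 * z + v.2) := by
  induction j with
  | zero => simp
  | succ j ih =>
    rw [Function.iterate_succ_apply', pow_succ', mul_assoc, ← ih]
    simp only [cmF]
    push_cast
    linear_combination (-(((cmF s t)^[j] v).1 : ℂ)) * hz

lemma cmG_lin {s t : ℤ} {z : ℂ} (hz : (t : ℂ) ^ 2 * z ^ 2 = -(s : ℂ) ^ 2) (j : ℕ) (v : ℤ × ℤ) :
    (((cmG s t)^[j] v).1 : ℂ) * z + ((cmG s t)^[j] v).2 =
      (1 - t ^ 2 * z) ^ j * (v.1 * z + v.2) := by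
  induction j with
  | zero => simp
  | succ j ih =>
    rw [Function.iterate_succ_apply', pow_succ', mul_assoc, ← ih]
    simp only [cmG]
    push_cast
    linear_combination (((cmG s t)^[j] v).1 : ℂ) * hz

lemma cm_coprime {s t : ℤ} (h : IsCoprime 2 (1 + s ^ 2 * t ^ 2)) (n : ℕ) :
    IsCoprime ((cmF s t)^[n + 1] (0, 1)).1 ((cmF s t)^[n + 1] (0, 1)).2 := by
  have h1 : ∀ n : ℕ, ∃ a b : ℤ, (cmF s t)^[n + 1] (0, 1) =
      (2 ^ n * t ^ 2 + (1 + s ^ 2 * t ^ 2) * a, 2 ^ n + (1 + s ^ 2 * t ^ 2) * b) := by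
    intro n
    induction n with
    | zero => exact ⟨0, 0, by simp [cmF]⟩
    | succ n ih =>
      obtain ⟨a, b, e⟩ := ih
      refine ⟨a + t ^ 2 * b, b - s ^ 2 * a - 2 ^ n, ?_⟩
      rw [Function.iterate_succ_apply', e]
      simp only [cmF, Prod.mk.injEq]
      constructor <;> ring
  have h2 : ∀ n : ℕ, ∃ u v : ℤ, u * ((cmF s t)^[n] (0, 1)).1 + v * ((cmF s t)^[n] (0, 1)).2 =
      (1 + s ^ 2 * t ^ 2) ^ n := by
    intro n
    induction n with
    | zero => exact ⟨0, 1, by simp⟩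
    | succ n ih =>
      obtain ⟨u, v, e⟩ := ih
      refine ⟨u + v * s ^ 2, v - u * t ^ 2, ?_⟩
      rw [Function.iterate_succ_apply']
      simp only [cmF] at e ⊢
      linear_combination (1 + s ^ 2 * t ^ 2) * e
  obtain ⟨a, b, e⟩ := h1 n
  obtain ⟨u, v, e2⟩ := h2 (n + 1)
  have h3 : IsCoprime ((cmF s t)^[n + 1] (0, 1)).2 ((1 + s ^ 2 * t ^ 2) ^ (n + 1)) := by
    refine IsCoprime.pow_right ?_
    rw [e]
    exact (h.pow_left).add_mul_left_left b
  obtain ⟨x, y, e3⟩ := h3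
  exact ⟨y * u, x + y * v, by linear_combination e3 + y * e2⟩

lemma cm_chain {s t : ℤ} (h : IsCoprime 2 (1 + s ^ 2 * t ^ 2)) (τs : ℍ)
    (hz : (t : ℂ) ^ 2 * (τs : ℂ) ^ 2 = -(s : ℂ) ^ 2) (ν : ℕ) (hν : (ν : ℤ) = 1 + s ^ 2 * t ^ 2)
    (r : ℕ) : ∃ (τ₀ : ℍ) (γ : Fin r → SL(2, ℤ)),
      ∀ j : Fin r, scl (ν ^ (j : ℕ)) τ₀ = γ j • τs := by
  obtain ⟨x, y, e⟩ := cm_coprime h r
  have hdet : ∀ j ≤ r + 1, ((cmG s t)^[j] (y, -x)).1 * ((cmF s t)^[r + 1 - j] (0, 1)).2 -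
      ((cmG s t)^[j] (y, -x)).2 * ((cmF s t)^[r + 1 - j] (0, 1)).1 = 1 := by
    intro j hj
    rw [cm_det, ← Function.iterate_add_apply, Nat.add_sub_cancel' hj]
    linear_combination e
  let γ : ∀ j ≤ r + 1, SL(2, ℤ) := fun j hj =>
    ⟨!![((cmG s t)^[j] (y, -x)).1, ((cmG s t)^[j] (y, -x)).2;
      ((cmF s t)^[r + 1 - j] (0, 1)).1, ((cmF s t)^[r + 1 - j] (0, 1)).2],
      by rw [Matrix.det_fin_two_of]; exact hdet j hj⟩
  have hγ : ∀ j hj, ((γ j hj • τs : ℍ) : ℂ) =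
      (1 - t ^ 2 * τs) ^ j * (y * τs - x) / (1 + t ^ 2 * τs) ^ (r + 1 - j) := by
    intro j hj
    rw [coe_smul_eq, jf]
    have a := cmG_lin hz j (y, -x)
    have b := cmF_lin hz (r + 1 - j) (0, 1)
    simp only [Int.cast_neg, Int.cast_zero, zero_mul, Int.cast_one, zero_add, mul_one,
      ← sub_eq_add_neg] at a b
    rw [← a, ← b]
    rfl
  have hνC : (ν : ℂ) = (1 - t ^ 2 * τs) * (1 + t ^ 2 * τs) := by
    have : (ν : ℂ) = 1 + s ^ 2 * t ^ 2 := by exact_mod_cast hν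
    linear_combination this + (t : ℂ) ^ 2 * hz
  have hν0 : 0 < ν := by
    have : (0 : ℤ) < ν := by rw [hν]; positivity
    exact_mod_cast this
  have hα : (1 + t ^ 2 * τs : ℂ) ≠ 0 := by
    intro h0
    rw [h0, mul_zero] at hνC
    exact hν0.ne' (by exact_mod_cast hνC)
  refine ⟨γ 0 (Nat.zero_le _) • τs, fun j => γ j (by omega), fun j => UpperHalfPlane.ext ?_⟩
  rw [coe_scl (pow_pos hν0 _), hγ 0 (Nat.zero_le _), hγ j (by omega), Nat.cast_pow, hνC]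
  have e4 : r + 1 - 0 = (r + 1 - j) + j := by omega
  rw [e4, pow_add, mul_pow]
  field_simp

theorem exists_cm (s : MG) (hs : s ≠ 0) : ∃ (τs : ℍ) (ν : ℕ), 2 ≤ ν ∧ (s : ℍ → ℂ) τs ≠ 0 ∧
    ∀ r : ℕ, ∃ (τ₀ : ℍ) (γ : Fin r → SL(2, ℤ)), ∀ j : Fin r, scl (ν ^ (j : ℕ)) τ₀ = γ j • τs := by
  let y : ℕ → ℝ := fun m => (2 * m + 3) / (2 * m + 2)
  have hy : ∀ m, 0 < y m := fun m => by positivity
  let τ : ℕ → ℍ := fun m => ⟨(y m : ℂ) * I, by simpa using hy m⟩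
  have hτ : ∀ m, (τ m : ℂ) = (y m : ℂ) * I := fun _ => rfl
  obtain ⟨m, hm⟩ : ∃ m, (s : ℍ → ℂ) (τ m) ≠ 0 := by
    by_contra hn
    push Not at hn
    refine hs (MG.ext' (UpperHalfPlane.eq_zero_of_frequently (MG.hol s).mdiff
      (τ := UpperHalfPlane.I) ?_))
    have h1 : Tendsto y atTop (𝓝 1) := by
      have e : y = fun m : ℕ => 1 + (1 / 2) * (1 / ((m : ℝ) + 1)) := by
        funext m
        simp only [y]
        field_simp
        ring
      rw [e]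
      simpa using (tendsto_one_div_add_atTop_nhds_zero_nat.const_mul (1 / 2 : ℝ)).const_add 1
    have h2 : Tendsto τ atTop (𝓝[≠] UpperHalfPlane.I) := by
      refine tendsto_nhdsWithin_iff.2 ⟨?_, Eventually.of_forall fun m hm => ?_⟩
      · rw [UpperHalfPlane.isEmbedding_coe.tendsto_nhds_iff]
        have := ((Complex.continuous_ofReal.tendsto 1).comp h1).mul_const I
        change Tendsto (fun m => (y m : ℂ) * I) atTop _
        simpa using this
      · have := congrArg UpperHalfPlane.im hm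
        have h3 : y m = 1 := by simpa [τ, ← UpperHalfPlane.coe_im] using this
        simp only [y] at h3
        rw [div_eq_one_iff_eq (by positivity)] at h3
        linarith
    exact h2.frequently (Frequently.of_forall hn)
  refine ⟨τ m, 1 + (2 * m + 3) ^ 2 * (2 * m + 2) ^ 2, ?_, hm, fun r => ?_⟩
  · have : 0 < (2 * m + 3) ^ 2 * (2 * m + 2) ^ 2 := by positivity
    omega
  · refine cm_chain (s := 2 * m + 3) (t := 2 * m + 2) ⟨-(2 * (2 * m + 3) ^ 2 * (m + 1) ^ 2), 1,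
      by ring⟩ (τ m) ?_ _ (by push_cast; ring) r
    have h0 : (2 * m + 2 : ℂ) ≠ 0 := by exact_mod_cast (by omega : 2 * m + 2 ≠ 0)
    rw [hτ, mul_pow, I_sq]
    simp only [y]
    push_cast
    field_simp

end Pool.Agent.Work.MP_db07cb_ag
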