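import Pool.Agent.Work.MP_db07cb_ag.Arith
import Mathlib.RingTheory.PowerSeries.Derivative
import Mathlib.Analysis.Analytic.Order
import Mathlib.NumberTheory.ModularForms.CongruenceSubgroups

/-! Definitions for the positive density argument. -/

namespace Pool.Agent.Work.MP_db07cb_ag

open UpperHalfPlane hiding I
open Complex
open scoped MatrixGroups Real

noncomputable section

/-- `x` is a sum of at most `B` terms `w * y₁ ⋯ y_l` with `w ∈ W`, `y_i ∈ Y`, `l ≤ δ`. -/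
def Rp (W Y : Finset ℂ) (δ B : ℕ) (x : ℂ) : Prop :=
  ∃ L : List ℂ, L.length ≤ B ∧ (∀ z ∈ L, ∃ w ∈ W, ∃ l : List ℂ,
    l.length ≤ δ ∧ (∀ y ∈ l, y ∈ Y) ∧ z = w * l.prod) ∧ L.sum = x

/-- `W` additively generates a ring -/
def Cl (W : Finset ℂ) : Prop :=
  1 ∈ W ∧ (∀ w ∈ W, -w ∈ W) ∧ ∀ w ∈ W, ∀ w' ∈ W, w * w' ∈ AddSubmonoid.closure (W : Set ℂ)

/-- power series whose coefficients are polynomials of degree at most `δ` in `Y` with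
algebraic coefficients of geometrically growing sizes and denominators -/
def GS (Y : Finset ℂ) (δ : ℕ) (φ : PowerSeries ℂ) : Prop :=
  ∃ (W : Finset ℂ) (c : ℕ), Cl W ∧ ∀ T : ℕ, ∃ Λ : ℕ, 0 < Λ ∧ Λ ≤ c ^ (T + 1) ∧
    ∀ t ≤ T, Rp W Y δ (c ^ (T + 1)) (Λ * PowerSeries.coeff t φ)

/-- the derivation `lam · d/dz` -/
def dl (lam g : ℂ → ℂ) : ℂ → ℂ := fun z => lam z * deriv g z

/-- the Taylor series at `z₀` for the derivation `lam · d/dz` -/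
def tay (lam : ℂ → ℂ) (z₀ : ℂ) (g : ℂ → ℂ) : PowerSeries ℂ :=
  PowerSeries.mk fun t => (dl lam)^[t] g z₀ / t.factorial

/-- the properties of the Eisenstein series of weights 4 and 6 that are used -/
structure EP (E F : MG) : Prop where
  int4 : ∃ (b : ℕ → ℤ) (h : PG fun m => (b m : ℂ)), E = ser _ h
  int6 : ∃ (b : ℕ → ℤ) (h : PG fun m => (b m : ℂ)), F = ser _ h
  wt4 : IsWt ⊤ 4 E
  wt6 : IsWt ⊤ 6 F
  r1 : 4 * E * Dm F - 6 * Dm E * F = (-2 * (2 * π * I) : ℂ) • (E ^ 3 - F ^ 2)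
  r2 : 4 * E * Dm (Dm E) - 5 * Dm E ^ 2 = ((2 * π * I) ^ 2 * (5 / 9) : ℂ) • (E ^ 3 - F ^ 2)
  v4 : (E : ℍ → ℂ) UpperHalfPlane.I ≠ 0
  v6 : (F : ℍ → ℂ) UpperHalfPlane.I = 0
  ne6 : F ≠ 0

/-- algebraic `q`-expansion -/
def AQ (u : MG) : Prop :=
  ∀ M : ℕ, ∃ p : Polynomial ℂ, (∀ i, IsAlgebraic ℚ (p.coeff i)) ∧ ArithAux.Rel M u p

/-- the auxiliary function -/
def Ph (E F : MG) {r : ℕ} (u : Fin r → MG) (d D : ℕ)
    (a : Fin (d + 1) × (Fin r → Fin (D + 1)) → ℤ) : MG :=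
  ∑ e, (a e : ℂ) • (E ^ (3 * (d - (e.1 : ℕ))) * F ^ (2 * (e.1 : ℕ)) * ∏ j, u j ^ (e.2 j : ℕ))

/-- exponential growth of the denominators of the primitive of a modular form -/
def MainDen2 : Prop := ∀ (N : ℕ) [NeZero N] (k : ℕ), 3 ≤ k → ∀ (K : Type) [Field K] [NumberField K]
  (φ₀ : K →+* ℂ) (b : ℕ → K),
  (∃ (C : ℝ) (c : ℕ), ∀ (σ : K →+* ℂ) (m : ℕ), ‖σ (b m)‖ ≤ C * (m + 1) ^ c) →
  ∀ f : ℍ → ℂ, (∀ τ, HasSum (fun m : ℕ => (m : ℂ) * φ₀ (b m) * qf τ ^ m) (f τ)) →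
  (∀ γ ∈ CongruenceSubgroup.Gamma1 N, ∀ τ, f (γ • τ) = jf γ τ ^ (k : ℤ) * f τ) →
  (∃ m ≥ 1, b m ≠ 0) →
  ∃ (A d₀ : ℕ) (α : ℝ), 0 < A ∧ 0 < α ∧ ∀ d ≥ d₀, ∀ L : ℕ, 0 < L →
    (∀ m ≤ A * d, IsIntegral ℤ ((L : K) * b m)) → α * d ≤ Real.log L

end

end Pool.Agent.Work.MP_db07cb_ag
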