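import Mathlib.NumberTheory.ModularForms.LevelOne.DimensionFormula
import Mathlib.Analysis.Calculus.Deriv.Polynomial
import Mathlib.RingTheory.RootsOfUnity.Complex
import Mathlib.FieldTheory.Finite.Basic

set_option autoImplicit false

open Filter Topology Complex UpperHalfPlane ModularForm
open scoped Real MatrixGroups Manifold

namespace Pool.Agent.Work.MP_db07cb_ag

/-- the Ramanujan tau function -/
noncomputable def tau (n : ℕ) : ℤ := (Polynomial.X * ∏ m ∈ Finset.range n, (1 - Polynomial.X ^ (m + 1)) ^ 24 : Polynomial ℤ).coeff n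

namespace TauAux

theorem tendsto_iter_deriv (k : ℕ) (P : ℕ → Polynomial ℂ) (F : ℂ → ℂ)
    (h : TendstoLocallyUniformlyOn (fun N x => (P N).eval x) F atTop (Metric.ball 0 1)) :
    TendstoLocallyUniformlyOn (fun N x => (Polynomial.derivative^[k] (P N)).eval x) (deriv^[k] F)
      atTop (Metric.ball 0 1) := by
  induction k generalizing P F with
  | zero => simpa using h
  | succ k ih =>
    have h1 := h.deriv (.of_forall fun N => (P N).differentiableOn) Metric.isOpen_ball
    have h2 : (deriv ∘ fun N x => (P N).eval x) =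
        fun N x => (Polynomial.derivative (P N)).eval x := by
      funext N x
      exact Polynomial.deriv (P N)
    rw [h2] at h1
    exact ih (fun N => Polynomial.derivative (P N)) (deriv F) h1

theorem tendsto_coeff (k : ℕ) (P : ℕ → Polynomial ℂ) (F : ℂ → ℂ)
    (h : TendstoLocallyUniformlyOn (fun N x => (P N).eval x) F atTop (Metric.ball 0 1)) :
    Tendsto (fun N => (P N).coeff k) atTop (𝓝 ((k.factorial : ℂ)⁻¹ * iteratedDeriv k F 0)) := by
  have h1 := ((tendsto_iter_deriv k P F h).tendsto_at (a := 0) (by simp)).const_mul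
    (k.factorial : ℂ)⁻¹
  rw [iteratedDeriv_eq_iterate]
  refine h1.congr fun N => ?_
  have : (k.factorial : ℂ) ≠ 0 := by exact_mod_cast k.factorial_ne_zero
  rw [← Polynomial.coeff_zero_eq_eval_zero, Polynomial.coeff_iterate_derivative, zero_add,
    Nat.descFactorial_self, nsmul_eq_mul, ← mul_assoc, inv_mul_cancel₀ this, one_mul]

theorem tendsto_pow {F : ℕ → ℂ → ℂ} {f : ℂ → ℂ} {s : Set ℂ}
    (h : TendstoLocallyUniformlyOn F f atTop s) (hf : ContinuousOn f s) (k : ℕ) :
    TendstoLocallyUniformlyOn (fun N x => x * F N x ^ k) (fun x => x * f x ^ k) atTop s := by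
  induction k with
  | zero =>
    simp only [pow_zero, mul_one]
    exact (Metric.tendstoUniformlyOn_iff.2 fun ε hε =>
      .of_forall fun _ _ _ => by simpa).tendstoLocallyUniformlyOn
  | succ k ih =>
    have := ih.fun_mul₀ h (continuousOn_id.mul (hf.pow k)) hf
    simpa only [pow_succ, mul_assoc] using this

theorem coeff_stable (n N : ℕ) (hN : n ≤ N) :
    (Polynomial.X * ∏ m ∈ Finset.range N, (1 - Polynomial.X ^ (m + 1)) ^ 24 : Polynomial ℤ).coeff n
      = tau n := by
  induction N, hN using Nat.le_induction with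
  | base => rfl
  | succ N hN ih =>
    rw [← ih, Finset.prod_range_succ, ← mul_assoc]
    obtain ⟨Q, hQ⟩ : (Polynomial.X ^ (N + 1) : Polynomial ℤ) ∣
        1 - (1 - Polynomial.X ^ (N + 1)) ^ 24 := by
      have := sub_dvd_pow_sub_pow (1 : Polynomial ℤ) (1 - Polynomial.X ^ (N + 1)) 24
      simpa using this
    rw [show (1 - Polynomial.X ^ (N + 1) : Polynomial ℤ) ^ 24 =
      1 - Polynomial.X ^ (N + 1) * Q by rw [← hQ]; ring, mul_sub, mul_one, Polynomial.coeff_sub,
      mul_left_comm, Polynomial.coeff_X_pow_mul', if_neg (by omega), sub_zero]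

end TauAux

open TauAux

theorem tau_eq (n : ℕ) :
    (UpperHalfPlane.qExpansion 1 ModularForm.discriminant).coeff n = (tau n : ℂ) := by
  have h1 := tendsto_pow
    multipliableLocallyUniformlyOn_one_sub_pow.hasProdLocallyUniformlyOn.tendstoLocallyUniformlyOn_finsetRange
    differentiableOn_tprod_one_sub_pow.continuousOn 24
  have h2 : TendstoLocallyUniformlyOn (fun N x => ((Polynomial.X * ∏ m ∈ Finset.range N,
      (1 - Polynomial.X ^ (m + 1)) ^ 24 : Polynomial ℤ).map (Int.castRingHom ℂ)).eval x)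
      (cuspFunction 1 ModularForm.discriminant) atTop (Metric.ball 0 1) := by
    refine (h1.congr_right fun q hq => ?_).congr fun N q _ => ?_
    · rw [discriminant_cuspFunction_eqOn hq]
      simp only
      rw [(multipliable_one_sub_pow (by simpa using hq)).tprod_pow]
    · simp [Polynomial.map_prod, Polynomial.eval_prod, Finset.prod_pow]
  have h3 := tendsto_coeff n _ _ h2
  rw [qExpansion_coeff]
  refine tendsto_nhds_unique h3 (tendsto_const_nhds.congr' ?_)
  filter_upwards [eventually_ge_atTop n] with N hN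
  rw [Polynomial.coeff_map, coeff_stable n N hN]
  simp

namespace TauAux

/-- the discriminant as a function of a complex variable -/
noncomputable def DD (w : ℂ) : ℂ := ModularForm.eta w ^ 24

theorem DD_hasSum {w : ℂ} (hw : 0 < w.im) :
    HasSum (fun m : ℕ => (tau m : ℂ) * cexp (2 * π * Complex.I * w) ^ m) (DD w) := by
  have := ModularForm.hasSum_qExpansion (h := 1) CuspForm.discriminant one_pos
    one_mem_strictPeriods_SL ⟨w, hw⟩
  simp only [CuspForm.coe_discriminant, tau_eq] at this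
  simpa [Function.Periodic.qParam, ModularForm.discriminant, DD] using this

theorem DD_mod {w : ℂ} (hw : 0 < w.im) (a b c d : ℤ) (h : a * d - b * c = 1) :
    DD ((a * w + b) / (c * w + d)) = (c * w + d) ^ 12 * DD w := by
  let γ : SL(2, ℤ) := ⟨!![a, b; c, d], by simp [Matrix.det_fin_two, h]⟩
  have hγ : (γ : GL (Fin 2) ℝ) ∈ 𝒮ℒ := ⟨γ, rfl⟩
  have h1 := SlashInvariantForm.slash_action_eqn' CuspForm.discriminant hγ ⟨w, hw⟩
  have h2 : (((γ : GL (Fin 2) ℝ) • (⟨w, hw⟩ : ℍ) : ℍ) : ℂ) = (a * w + b) / (c * w + d) := by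
    have := coe_specialLinearGroup_apply γ ⟨w, hw⟩
    simpa [γ] using! this
  simp only [CuspForm.coe_discriminant, ModularForm.discriminant, h2] at h1
  simpa [DD, γ] using! h1

theorem DD_diff {w : ℂ} (hw : 0 < w.im) : DifferentiableAt ℂ DD w :=
  (differentiableAt_eta_of_mem_upperHalfPlaneSet hw).pow 24

/-- the Hecke operator applied to the discriminant -/
noncomputable def HH (p : ℕ) (w : ℂ) : ℂ :=
  (p : ℂ) ^ 11 * DD (p * w) + (p : ℂ)⁻¹ * ∑ j ∈ Finset.range p, DD ((w + j) / p)

theorem im_mul_pos {p : ℕ} (hp : 0 < p) {w : ℂ} (hw : 0 < w.im) : 0 < ((p : ℂ) * w).im := by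
  simp [hp, hw]

theorem im_div_pos {p : ℕ} (hp : 0 < p) {w : ℂ} (hw : 0 < w.im) (j : ℕ) :
    0 < ((w + j) / (p : ℂ)).im := by
  rw [Complex.div_natCast_im]
  simp [hp, hw]

theorem root_sum {p : ℕ} (hp : 0 < p) (m : ℕ) :
    ∑ j ∈ Finset.range p, (cexp (2 * π * Complex.I / p) ^ m) ^ j = if p ∣ m then (p : ℂ) else 0 := by
  have hζ := Complex.isPrimitiveRoot_exp p hp.ne'
  split_ifs with h
  · rw [(hζ.pow_eq_one_iff_dvd m).2 h]; simp
  · have h1 : cexp (2 * π * Complex.I / p) ^ m ≠ 1 := fun h' => h ((hζ.pow_eq_one_iff_dvd m).1 h')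
    rw [geom_sum_eq h1, ← pow_mul, mul_comm m p, pow_mul, hζ.pow_eq_one]
    simp

theorem hasSum_of_eq {f g : ℕ → ℂ} {a : ℂ} (h : HasSum f a) (e : ∀ n, g n = f n) : HasSum g a := by
  rwa [show g = f from funext e]

theorem HH_hasSum {p : ℕ} (hp : 0 < p) {w : ℂ} (hw : 0 < w.im) :
    HasSum (fun n : ℕ => ((tau (p * n) + (if p ∣ n then (p : ℤ) ^ 11 * tau (n / p) else 0) : ℤ) : ℂ) *
      cexp (2 * π * Complex.I * w) ^ n) (HH p w) := by
  have hp0 : (p : ℂ) ≠ 0 := by exact_mod_cast hp.ne'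
  have hinj : Function.Injective fun m : ℕ => p * m := mul_right_injective₀ hp.ne'
  have h1 : HasSum (fun n : ℕ => (((if p ∣ n then (p : ℤ) ^ 11 * tau (n / p) else 0) : ℤ) : ℂ) *
      cexp (2 * π * Complex.I * w) ^ n) ((p : ℂ) ^ 11 * DD (p * w)) := by
    refine (hinj.hasSum_iff ?_).1 ?_
    · intro n hn
      rw [if_neg]
      · simp
      · rintro ⟨m, rfl⟩; exact hn ⟨m, rfl⟩
    · refine hasSum_of_eq ((DD_hasSum (im_mul_pos hp hw)).mul_left ((p : ℂ) ^ 11)) fun m => ?_
      simp only [Function.comp, dvd_mul_right, if_true, Nat.mul_div_cancel_left _ hp]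
      rw [pow_mul, ← Complex.exp_nat_mul]
      push_cast
      ring_nf
  have h2 : HasSum (fun n : ℕ => (tau (p * n) : ℂ) * cexp (2 * π * Complex.I * w) ^ n)
      ((p : ℂ)⁻¹ * ∑ j ∈ Finset.range p, DD ((w + j) / p)) := by
    have h3 := (hasSum_sum fun j (_ : j ∈ Finset.range p) =>
      DD_hasSum (im_div_pos hp hw j)).mul_left (p : ℂ)⁻¹
    have h4 : ∀ m : ℕ, (p : ℂ)⁻¹ * ∑ j ∈ Finset.range p,
        (tau m : ℂ) * cexp (2 * π * Complex.I * ((w + j) / p)) ^ m =
        if p ∣ m then (tau m : ℂ) * cexp (2 * π * Complex.I * (w / p)) ^ m else 0 := by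
      intro m
      have : ∀ j ∈ Finset.range p, (tau m : ℂ) * cexp (2 * π * Complex.I * ((w + j) / p)) ^ m =
          (tau m : ℂ) * cexp (2 * π * Complex.I * (w / p)) ^ m *
            (cexp (2 * π * Complex.I / p) ^ m) ^ j := by
        intro j _
        rw [← pow_mul, mul_comm m j, pow_mul, mul_assoc (tau m : ℂ), ← mul_pow,
          ← Complex.exp_nat_mul _ j, ← Complex.exp_add]
        congr 3
        ring
      rw [Finset.sum_congr rfl this, ← Finset.mul_sum, root_sum hp]
      split_ifs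
      · field_simp
      · simp
    simp only [h4] at h3
    refine hasSum_of_eq ((hinj.hasSum_iff ?_).2 h3) fun m => ?_
    · intro n hn
      rw [if_neg]
      rintro ⟨m, rfl⟩; exact hn ⟨m, rfl⟩
    · simp only [Function.comp, dvd_mul_right, if_true]
      rw [pow_mul, ← Complex.exp_nat_mul _ p]
      congr 3
      field_simp
  refine hasSum_of_eq (h1.add h2) fun n => ?_
  push_cast
  ring

theorem HH_S {p : ℕ} (hp : p.Prime) {w : ℂ} (hw : 0 < w.im) :
    HH p (-w)⁻¹ = w ^ 12 * HH p w := by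
  have := Fact.mk hp
  have hp0 : (p : ℂ) ≠ 0 := by exact_mod_cast hp.ne_zero
  have hw0 : w ≠ 0 := by rintro rfl; simp at hw
  have hs : ∀ f : ℕ → ℂ, ∑ j ∈ Finset.range p, f j = ∑ j : ZMod p, f j.val := by
    intro f
    refine Finset.sum_bij' (fun j _ => (j : ZMod p)) (fun j _ => j.val) (by simp)
      (fun j _ => Finset.mem_range.2 (ZMod.val_lt j)) (fun j hj => ?_) (by simp) fun j hj => ?_
    · exact ZMod.val_cast_of_lt (Finset.mem_range.1 hj)
    · rw [ZMod.val_cast_of_lt (Finset.mem_range.1 hj)]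
  have e1 : DD (p * (-w)⁻¹) = (w / p) ^ 12 * DD ((w + (0 : ℕ)) / p) := by
    have := DD_mod (im_div_pos hp.pos hw 0) 0 (-1) 1 0 (by norm_num)
    convert this using 2
    · simp only [Nat.cast_zero, Int.cast_zero, Int.cast_one, Int.cast_neg, add_zero, zero_mul,
        one_mul, zero_add]
      field_simp
    · push_cast; ring
  have e2 : DD (((-w)⁻¹ + (0 : ℕ)) / p) = (p * w) ^ 12 * DD (p * w) := by
    have := DD_mod (im_mul_pos hp.pos hw) 0 (-1) 1 0 (by norm_num)
    convert this using 2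
    · push_cast; field_simp; ring
    · push_cast; ring
  have e3 : ∀ j : ZMod p, j ≠ 0 →
      DD (((-w)⁻¹ + (j.val : ℕ)) / p) = w ^ 12 * DD ((w + ((-j⁻¹).val : ℕ)) / p) := by
    intro j hj
    obtain ⟨t, ht⟩ : (p : ℤ) ∣ (j.val : ℤ) * ((-j⁻¹).val : ℤ) + 1 := by
      rw [← ZMod.intCast_zmod_eq_zero_iff_dvd]
      push_cast
      simp only [ZMod.natCast_val, ZMod.cast_id', id_eq]
      field_simp
      ring
    have ht' : (j.val : ℂ) * ((-j⁻¹).val : ℂ) + 1 = p * t := by exact_mod_cast ht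
    have := DD_mod (im_div_pos hp.pos hw (-j⁻¹).val) j.val (-t) p (-((-j⁻¹).val : ℤ))
      (by linarith)
    have hd : ((p : ℤ) : ℂ) * ((w + ((-j⁻¹).val : ℕ)) / p) + ((-((-j⁻¹).val : ℤ) : ℤ) : ℂ) = w := by
      push_cast; field_simp; ring
    rw [hd] at this
    rw [← this]
    congr 1
    push_cast
    generalize ((-j⁻¹).val : ℂ) = y at ht'
    field_simp
    linear_combination (-1 : ℂ) * ht'
  have hinv : Function.Involutive fun j : ZMod p => -j⁻¹ := fun j => by simp
  have e4 : ∑ j : ZMod p, DD ((w + ((-j⁻¹).val : ℕ)) / p) = ∑ j : ZMod p, DD ((w + (j.val : ℕ)) / p) :=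
    hinv.bijective.sum_comp (fun j : ZMod p => DD ((w + (j.val : ℕ)) / p))
  have e5 : ∑ j : ZMod p, DD (((-w)⁻¹ + (j.val : ℕ)) / p) =
      (p * w) ^ 12 * DD (p * w) + w ^ 12 * (∑ j : ZMod p, DD ((w + (j.val : ℕ)) / p) -
        DD ((w + (0 : ℕ)) / p)) := by
    rw [← e4, ← Finset.add_sum_erase _ _ (Finset.mem_univ (0 : ZMod p)),
      ← Finset.add_sum_erase _ _ (Finset.mem_univ (0 : ZMod p)),
      Finset.sum_congr rfl fun j hj => e3 j (Finset.ne_of_mem_erase hj), ← Finset.mul_sum]
    simp only [ZMod.val_zero, inv_zero, neg_zero, e2]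
    ring
  unfold HH
  rw [hs fun j => DD (((-w)⁻¹ + j) / p), hs fun j => DD ((w + j) / p), e5, e1]
  field_simp
  ring

theorem HH_diff {p : ℕ} (hp : 0 < p) {w : ℂ} (hw : 0 < w.im) : DifferentiableAt ℂ (HH p) w := by
  refine DifferentiableAt.add ?_ ?_
  · exact ((DD_diff (im_mul_pos hp hw)).comp w (by fun_prop)).const_mul _
  · refine DifferentiableAt.const_mul (DifferentiableAt.fun_sum fun j _ => ?_) _
    exact (DD_diff (im_div_pos hp hw j)).comp w (f := fun w : ℂ => (w + j) / p) (by fun_prop)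

theorem HH_hasSum' {p : ℕ} (hp : 0 < p) (z : ℍ) :
    HasSum (fun n : ℕ => ((tau (p * n) + (if p ∣ n then (p : ℤ) ^ 11 * tau (n / p) else 0) : ℤ) : ℂ) •
      Function.Periodic.qParam 1 z ^ n) (HH p z) := by
  simpa only [Function.Periodic.qParam, ofReal_one, div_one, smul_eq_mul] using HH_hasSum hp z.2

theorem HH_slash {p : ℕ} (hp : p.Prime) (γ : SL(2, ℤ)) :
    (fun z : ℍ => HH p z) ∣[(12 : ℤ)] γ = fun z : ℍ => HH p z := by
  refine SlashInvariantForm.slash_action_generators_SL2Z ?_ ?_ γ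
  · ext z
    rw [SL_slash_apply, UpperHalfPlane.modular_S_smul]
    have := z.ne_zero
    simp only [ModularGroup.denom_S, HH_S hp z.2]
    field_simp
  · ext z
    rw [SL_slash_apply, modular_T_smul]
    have h1 := HH_hasSum hp.pos ((1 : ℝ) +ᵥ z).2
    have h2 : cexp (2 * π * Complex.I * (((1 : ℝ) +ᵥ z : ℍ) : ℂ)) = cexp (2 * π * Complex.I * z) := by
      rw [← exp_periodic (2 * π * Complex.I * z)]
      simp only [coe_vadd, ofReal_one]
      ring_nf
    rw [h2] at h1
    rw [h1.unique (HH_hasSum hp.pos z.2), ModularGroup.denom_apply]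
    simp [ModularGroup.coe_T]

/-- the Hecke image as a modular form -/
noncomputable def HF {p : ℕ} (hp : p.Prime) : ModularForm 𝒮ℒ 12 where
  toFun z := HH p z
  slash_action_eq' A hA := by
    obtain ⟨A, rfl⟩ := hA
    exact HH_slash hp A
  holo' := by
    rw [UpperHalfPlane.mdifferentiable_iff]
    refine .congr (fun z hz => (HH_diff hp.pos hz).differentiableWithinAt) fun z hz => ?_
    simp [ofComplex_apply_of_im_pos hz]
  bdd_at_cusps' hc := by
    rw [Subgroup.IsArithmetic.isCusp_iff_isCusp_SL2Z] at hc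
    rw [OnePoint.isBoundedAt_iff_forall_SL2Z hc]
    intro γ _
    rw [HH_slash hp]
    exact isBoundedAtImInfty_of_hasSum_qExpansion one_pos (HH_hasSum' hp.pos)

theorem HF_coeff {p : ℕ} (hp : p.Prime) (n : ℕ) :
    ((tau (p * n) + (if p ∣ n then (p : ℤ) ^ 11 * tau (n / p) else 0) : ℤ) : ℂ) =
      (qExpansion 1 (HF hp)).coeff n :=
  ModularFormClass.qExpansion_coeff_unique one_pos one_mem_strictPeriods_SL (f := HF hp)
    (HH_hasSum' hp.pos) n

end TauAux

theorem tau_zero : tau 0 = 0 := by simp [tau]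

theorem tau_one : tau 1 = 1 := by
  have := tau_eq 1
  rw [discriminant_qExpansion_coeff_one] at this
  exact_mod_cast this.symm

theorem tau_hecke (p : ℕ) (hp : p.Prime) (n : ℕ) :
    tau (p * n) = tau p * tau n - (if p ∣ n then (p : ℤ) ^ 11 * tau (n / p) else 0) := by
  have h0 : (qExpansion 1 (HF hp)).coeff 0 = 0 := by
    rw [← HF_coeff]; simp [tau_zero]
  obtain ⟨c, hc⟩ := CuspForm.exists_smul_discriminant_of_weight_eq_twelve (toCuspForm (HF hp) h0)
  have h1 : (HF hp : ℍ → ℂ) = c • (CuspForm.discriminant : ℍ → ℂ) := by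
    funext z
    have := congrArg (fun f : CuspForm 𝒮ℒ 12 => f z) hc
    simpa using this.symm
  have h2 : ∀ m, (qExpansion 1 (HF hp)).coeff m = c * tau m := by
    intro m
    rw [h1, ModularForm.qExpansion_smul one_pos one_mem_strictPeriods_SL, CuspForm.coe_discriminant,
      PowerSeries.coeff_smul, tau_eq, smul_eq_mul]
  have h3 : (tau p : ℂ) = c := by
    have := (HF_coeff hp 1).trans (h2 1)
    simpa [tau_one, hp.ne_one] using this
  have h4 := (HF_coeff hp n).trans (h2 n)
  rw [← h3] at h4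
  have h5 : tau (p * n) + (if p ∣ n then (p : ℤ) ^ 11 * tau (n / p) else 0) = tau p * tau n := by
    exact_mod_cast h4
  linarith

end Pool.Agent.Work.MP_db07cb_ag
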