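import Pool.Agent.Work.MP_db07cb_ag.Qring
import Pool.Agent.Work.MP_db07cb_ag.Tau
import Mathlib.NumberTheory.ModularForms.Bounds
import Mathlib.NumberTheory.NumberField.Discriminant.Different
import Mathlib.RingTheory.Unramified.Field
import Mathlib.Analysis.SpecialFunctions.Pow.Asymptotics
import Mathlib.Analysis.SpecialFunctions.Pow.NthRootLemmas

/-! From the denominator bound to ordinary primes. -/

namespace Pool.Agent.Work.MP_db07cb_ag

open UpperHalfPlane hiding I
open Filter NumberField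
open scoped MatrixGroups

noncomputable section

/-- the growth of the denominators of the primitive of a modular form -/
def MainDen : Prop := ∀ (N : ℕ) [NeZero N] (k : ℕ), 3 ≤ k → ∀ (K : Type) [Field K] [NumberField K]
  (φ₀ : K →+* ℂ) (b : ℕ → K),
  (∃ (C : ℝ) (c : ℕ), ∀ (σ : K →+* ℂ) (m : ℕ), ‖σ (b m)‖ ≤ C * (m + 1) ^ c) →
  ∀ f : ℍ → ℂ, (∀ τ, HasSum (fun m : ℕ => (m : ℂ) * φ₀ (b m) * qf τ ^ m) (f τ)) →
  (∀ γ ∈ CongruenceSubgroup.Gamma1 N, ∀ τ, f (γ • τ) = jf γ τ ^ (k : ℤ) * f τ) →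
  (∃ m ≥ 1, b m ≠ 0) →
  ∃ (A D₀ : ℕ) (α : ℝ), 0 < α ∧ ∀ D ≥ D₀, ∀ L : ℕ, 0 < L →
    (∀ m ≤ D ^ A, IsIntegral ℤ ((L : K) * b m)) → α * D ≤ Real.log L

namespace FinalAux

/-- a natural number divides an element as soon as all its prime power divisors do -/
lemma dvd_of_pow {R : Type*} [CommRing R] (y : R) (m : ℕ) : m ≠ 0 →
    (∀ p j : ℕ, p.Prime → p ^ j ∣ m → (p : R) ^ j ∣ y) → (m : R) ∣ y := by
  induction m using Nat.recOnPosPrimePosCoprime with
  | prime_pow p n hp _ => intro _ h; exact_mod_cast h p n hp dvd_rfl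
  | zero => intro h; exact absurd rfl h
  | one => intro _ _; simp
  | coprime a b ha hb hab iha ihb =>
    intro _ h
    rw [Nat.cast_mul]
    exact (Nat.Coprime.cast hab).mul_dvd
      (iha (by omega) fun p j hp hj => h p j hp (hj.mul_right b))
      (ihb (by omega) fun p j hp hj => h p j hp (hj.mul_left a))

lemma hecke_dvd {R : Type*} [CommRing R] (a : ℕ → R) (p k : ℕ) (hp : p.Prime) (hk : 3 ≤ k) (c : R)
    (h : ∀ m, a (p * m) = a p * a m - if p ∣ m then c * p ^ (k - 1) * a (m / p) else 0)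
    (hap : (p : R) ∣ a p) (j : ℕ) : ∀ m, p ^ j ∣ m → (p : R) ^ j ∣ a m := by
  induction j using Nat.strong_induction_on with
  | _ j ih =>
    intro m hm
    rcases j with _ | j
    · simp
    obtain ⟨n, rfl⟩ : p ∣ m := (dvd_pow_self p (Nat.succ_ne_zero j)).trans hm
    have hn : p ^ j ∣ n := by
      rw [pow_succ'] at hm
      exact Nat.dvd_of_mul_dvd_mul_left hp.pos hm
    rw [h]
    refine dvd_sub ?_ ?_
    · rw [pow_succ']
      exact mul_dvd_mul hap (ih j (by omega) n hn)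
    · split_ifs with hpn
      · obtain ⟨n', rfl⟩ := hpn
        rw [Nat.mul_div_cancel_left _ hp.pos]
        rcases j with _ | j
        · exact ((pow_dvd_pow _ (by omega)).mul_left c).mul_right _
        · have hn' : p ^ j ∣ n' := by
            rw [pow_succ'] at hn
            exact Nat.dvd_of_mul_dvd_mul_left hp.pos hn
          have e : (p : R) ^ (j + 1 + 1) = (p : R) ^ 2 * (p : R) ^ j := by ring
          rw [e]
          exact mul_dvd_mul ((pow_dvd_pow _ (by omega)).mul_left c) (ih j (by omega) n' hn')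
      · exact dvd_zero _

/-- unramified primes generate radical ideals -/
lemma dvd_of_mem (K : Type*) [Field K] [NumberField K] (p : ℕ) (hp : p.Prime)
    (hd : ¬ (p : ℤ) ∣ discr K) (x : 𝓞 K)
    (hx : ∀ P : Ideal (𝓞 K), P.IsPrime → (p : 𝓞 K) ∈ P → x ∈ P) : (p : 𝓞 K) ∣ x := by
  have hp' : Prime (p : ℤ) := Nat.prime_iff_prime_int.1 hp
  have hun := (not_dvd_discr_iff_forall_mem K (𝓞 K) hp').1 hd
  rw [← Ideal.mem_span_singleton]
  have hrad : x ∈ (Ideal.span {(p : 𝓞 K)}).radical := by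
    rw [Ideal.radical_eq_sInf, Submodule.mem_sInf]
    rintro P ⟨h1, h2⟩
    exact hx P h2 (h1 (Ideal.mem_span_singleton_self _))
  obtain ⟨n, hn⟩ := hrad
  refine Ideal.mem_of_localization_maximal fun P hP => ?_
  by_cases hpP : (p : 𝓞 K) ∈ P
  · have h1 : Algebra.IsUnramifiedAt ℤ P := hun P hP.isPrime (by exact_mod_cast hpP)
    have h2 : (Ideal.span {(p : ℤ)}).IsMaximal :=
      (Ideal.span_singleton_prime hp'.ne_zero).2 hp' |>.isMaximal
        (by simpa using hp.ne_zero)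
    have h3 := Algebra.FormallyUnramified.isRadical_map_isMaximal ℤ (Localization.AtPrime P)
      (Ideal.span {(p : ℤ)})
    have e : Ideal.map (algebraMap ℤ (Localization.AtPrime P)) (Ideal.span {(p : ℤ)}) =
        Ideal.map (algebraMap (𝓞 K) (Localization.AtPrime P)) (Ideal.span {(p : 𝓞 K)}) := by
      simp [Ideal.map_span]
    rw [e] at h3
    refine h3 ⟨n, ?_⟩
    rw [← map_pow]
    exact Ideal.mem_map_of_mem _ hn
  · rw [IsLocalization.AtPrime.map_eq_top_of_not_le (Localization.AtPrime P)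
      (by rwa [Ideal.span_singleton_le_iff_mem])]
    exact Submodule.mem_top

/-- the analytic end of the counting argument -/
lemma eventually_le (A e : ℕ) (α : ℝ) (hα : 0 < α) :
    ∀ᶠ x : ℕ in atTop, ∀ D t : ℕ, x < (D + 1) ^ (A + 1) → α * D ≤ (t + e) * Real.log x →
      (x : ℝ) ^ (1 / (2 * (A + 1 : ℝ))) ≤ t := by
  set c : ℝ := 1 / (2 * (A + 1 : ℝ)) with hc
  have hc0 : 0 < c := by positivity
  have h1 : Tendsto (fun x : ℕ => (x : ℝ) ^ c) atTop atTop :=
    (tendsto_rpow_atTop hc0).comp tendsto_natCast_atTop_atTop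
  have h2 : ∀ᶠ x : ℕ in atTop, Real.log x ≤ α / 4 * (x : ℝ) ^ c := by
    have := (isLittleO_log_rpow_atTop hc0).bound (c := α / 4) (by positivity)
    filter_upwards [tendsto_natCast_atTop_atTop.eventually this] with x hx
    rw [Real.norm_eq_abs, Real.norm_of_nonneg (by positivity)] at hx
    exact (le_abs_self _).trans hx
  filter_upwards [h2, h1.eventually_ge_atTop (e + 2), eventually_ge_atTop 1] with x hx hy hx1
  intro D t hD hle
  set y := (x : ℝ) ^ c with hy'
  have hy2 : y ^ 2 < D + 1 := by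
    have h3 : (y ^ 2) ^ (A + 1) = x := by
      rw [hy', ← Real.rpow_natCast, ← Real.rpow_natCast, ← Real.rpow_mul (by positivity),
        ← Real.rpow_mul (by positivity)]
      have : c * ((2 : ℕ) * (A + 1 : ℕ) : ℝ) = 1 := by
        rw [hc]; push_cast; field_simp
      rw [this, Real.rpow_one]
    have h4 : (y ^ 2) ^ (A + 1) < ((D : ℝ) + 1) ^ (A + 1) := by
      rw [h3]; exact_mod_cast hD
    exact lt_of_pow_lt_pow_left₀ _ (by positivity) h4
  by_contra hlt
  push Not at hlt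
  have he : (0 : ℝ) ≤ e := Nat.cast_nonneg e
  have ht : (0 : ℝ) ≤ t := Nat.cast_nonneg t
  have h5 : (t + e : ℝ) * Real.log x ≤ (t + e) * (α / 4 * y) := by gcongr
  have h6 : (t + e : ℝ) * (α / 4 * y) ≤ (2 * y) * (α / 4 * y) := by
    gcongr
    linarith
  have h7 : α * (y ^ 2 - 1) < α * D := by
    gcongr
    linarith
  have h8 : α * (y ^ 2 / 2 - 1) < 0 := by nlinarith
  have h9 : 0 < y ^ 2 / 2 - 1 := by nlinarith
  nlinarith [mul_pos hα h9]

lemma core (H : MainDen) (N : ℕ) [NeZero N] (k : ℕ) (hk : 3 ≤ k) (K : Type) [Field K]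
    [NumberField K] (φ₀ : K →+* ℂ) (a : ℕ → 𝓞 K)
    (hgr : ∀ σ : K →+* ℂ, ∃ C : ℝ, ∀ m : ℕ, 1 ≤ m → ‖σ (a m)‖ ≤ C * (m + 1) ^ k)
    (f : ℍ → ℂ) (hsum : ∀ τ, HasSum (fun m : ℕ => φ₀ (a m) * qf τ ^ m) (f τ))
    (hmod : ∀ γ ∈ CongruenceSubgroup.Gamma1 N, ∀ τ, f (γ • τ) = jf γ τ ^ (k : ℤ) * f τ)
    (h0 : a 0 = 0) (h1 : a 1 = 1) (T : ℕ → Prop) (E : ℕ) (hE : E ≠ 0)
    (hT : ∀ p : ℕ, p.Prime → ¬ T p → ¬ p ∣ E → ∀ j m, p ^ j ∣ m → (p : 𝓞 K) ^ j ∣ a m) :
    ∃ c : ℝ, 0 < c ∧ ∀ᶠ x : ℕ in atTop,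
      (x : ℝ) ^ c ≤ {p : ℕ | p ≤ x ∧ p.Prime ∧ T p}.ncard := by
  classical
  choose C hC using hgr
  obtain ⟨A, D₀, α, hα, hmain⟩ := H N k hk K φ₀ (fun m => (a m : K) / m)
    ⟨∑ σ, |C σ|, k, fun σ m => by
      rcases Nat.eq_zero_or_pos m with rfl | hm
      · simp only [Nat.cast_zero, div_zero, map_zero, norm_zero]
        positivity
      · have hm' : (1 : ℝ) ≤ m := by exact_mod_cast hm
        rw [map_div₀, norm_div, map_natCast, Complex.norm_natCast]
        refine (div_le_self (norm_nonneg _) hm').trans ((hC σ m hm).trans ?_)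
        gcongr
        exact (le_abs_self _).trans (Finset.single_le_sum (f := fun σ => |C σ|)
          (fun _ _ => abs_nonneg _) (Finset.mem_univ σ))⟩ f
    (fun τ => by
      convert hsum τ using 3 with m
      rcases Nat.eq_zero_or_pos m with rfl | hm
      · simp [h0]
      · have : (m : ℂ) ≠ 0 := by exact_mod_cast hm.ne'
        rw [map_div₀, map_natCast]
        field_simp) hmod ⟨1, le_rfl, by simp [h1]⟩
  refine ⟨1 / (2 * (A + 1 : ℝ)), by positivity, ?_⟩
  filter_upwards [eventually_le A E.primeFactors.card α hα,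
    eventually_ge_atTop ((D₀ + 1) ^ (A + 1))] with x hx hx0
  set D := Nat.nthRoot (A + 1) x with hD
  have hD1 : D ^ (A + 1) ≤ x := Nat.pow_nthRoot_le (Or.inl (Nat.succ_ne_zero A))
  have hD2 : x < (D + 1) ^ (A + 1) := Nat.lt_pow_nthRoot_add_one (Nat.succ_ne_zero A) x
  have hD3 : D₀ + 1 ≤ D := by
    have := lt_of_pow_lt_pow_left₀ _ (Nat.zero_le _) (hx0.trans_lt hD2)
    omega
  have hx1 : 1 ≤ x := (Nat.one_le_pow _ _ (Nat.succ_pos _)).trans hx0
  set S₁ := (Finset.range (x + 1)).filter fun p => p.Prime ∧ T p with hS₁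
  have hcard : {p : ℕ | p ≤ x ∧ p.Prime ∧ T p}.ncard = S₁.card := by
    rw [← Set.ncard_coe_finset]
    congr 1
    ext p
    simp [hS₁]
  set S := S₁ ∪ E.primeFactors with hS
  set L := ∏ p ∈ S, p ^ Nat.log p x with hL
  have hSp : ∀ p ∈ S, p.Prime := by
    intro p hp
    rcases Finset.mem_union.1 hp with h | h
    · exact (Finset.mem_filter.1 h).2.1
    · exact Nat.prime_of_mem_primeFactors h
  have hL0 : 0 < L := Finset.prod_pos fun p hp => pow_pos (hSp p hp).pos _
  have hLx : L ≤ x ^ S.card :=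
    Finset.prod_le_pow_card _ _ _ fun p _ => Nat.pow_log_le_self p (by omega)
  have hlog := hmain D (by omega) L hL0 fun m hm => by
    rcases Nat.eq_zero_or_pos m with rfl | hm0
    · simp only [Nat.cast_zero, div_zero, mul_zero]
      exact isIntegral_zero
    have hmx : m ≤ x := hm.trans ((Nat.pow_le_pow_right (by omega) (Nat.le_succ A)).trans hD1)
    have hdvd : (m : 𝓞 K) ∣ (L : 𝓞 K) * a m := by
      refine dvd_of_pow _ m hm0.ne' fun p j hp hj => ?_
      rcases Nat.eq_zero_or_pos j with rfl | hj0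
      · simp
      by_cases hpS : p ∈ S
      · refine Dvd.dvd.mul_right ?_ _
        have h2 : j ≤ Nat.log p x :=
          Nat.le_log_of_pow_le hp.one_lt ((Nat.le_of_dvd hm0 hj).trans hmx)
        have h3 : p ^ j ∣ L := (pow_dvd_pow p h2).trans
          (Finset.dvd_prod_of_mem (fun p => p ^ Nat.log p x) hpS)
        exact_mod_cast Nat.cast_dvd_cast (α := 𝓞 K) h3
      · have hpx : p ≤ x :=
          (Nat.le_of_dvd hm0 ((dvd_pow_self p hj0.ne').trans hj)).trans hmx
        rw [hS, Finset.mem_union, not_or, hS₁, Finset.mem_filter, Finset.mem_range,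
          Nat.mem_primeFactors] at hpS
        refine Dvd.dvd.mul_left (hT p hp (fun h => hpS.1 ⟨by omega, hp, h⟩)
          (fun h => hpS.2 ⟨hp, h, hE⟩) j m hj) _
    obtain ⟨y, hy⟩ := hdvd
    have hy' : (L : K) * (a m : K) = m * (y : K) := by
      have := congrArg (algebraMap (𝓞 K) K) hy
      simpa using this
    have hm' : (m : K) ≠ 0 := by exact_mod_cast hm0.ne'
    have : (L : K) * ((a m : K) / m) = y := by
      rw [← mul_div_assoc, hy', mul_div_cancel_left₀ _ hm']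
    rw [this]
    exact y.2
  rw [hcard]
  refine hx D S₁.card hD2 (hlog.trans ?_)
  have h2 : Real.log L ≤ S.card * Real.log x := by
    rw [← Real.log_pow]
    exact Real.log_le_log (by exact_mod_cast hL0) (by exact_mod_cast hLx)
  refine h2.trans (mul_le_mul_of_nonneg_right ?_ (Real.log_nonneg (by exact_mod_cast hx1)))
  exact_mod_cast Finset.card_union_le _ _

section Forms

variable {Γ : Subgroup (GL (Fin 2) ℝ)} {F : Type*} [FunLike F ℍ ℂ]

lemma growth [Γ.IsArithmetic] {k : ℕ} [ModularFormClass F Γ k] (hΓ : Γ.strictWidthInfty = 1)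
    (f : F) :
    ∃ C : ℝ, ∀ m : ℕ, 1 ≤ m → ‖(qExpansion 1 f).coeff m‖ ≤ C * (m + 1) ^ k := by
  have h := ModularFormClass.qExpansion_isBigO (Γ := Γ) (k := k) (Int.natCast_nonneg k) f
  rw [hΓ] at h
  obtain ⟨C, hC0, hC⟩ := Asymptotics.bound_of_isBigO_nat_atTop h
  refine ⟨C, fun m hm => ?_⟩
  have hm' : (0 : ℝ) < m := by exact_mod_cast hm
  refine (hC (by positivity)).trans ?_
  rw [zpow_natCast, Real.norm_of_nonneg (by positivity)]
  gcongr
  linarith

lemma hasSum_q {k : ℤ} [ModularFormClass F Γ k] (hΓ : Γ.strictWidthInfty = 1) (f : F) (τ : ℍ) :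
    HasSum (fun m : ℕ => (qExpansion 1 f).coeff m * qf τ ^ m) (f τ) := by
  have h1 : (1 : ℝ) ∈ Γ.strictPeriods := hΓ ▸ Γ.strictWidthInfty_mem_strictPeriods
  have : Fact (IsCusp OnePoint.infty Γ) := ⟨Γ.isCusp_of_mem_strictPeriods one_pos h1⟩
  have := ModularForm.hasSum_qExpansion (k := k) f one_pos h1 τ
  simpa [Function.Periodic.qParam, qf] using this

end Forms

lemma mod_eq {N k : ℕ} (f : ModularForm (CongruenceSubgroup.Gamma1 N) k) :
    ∀ γ ∈ CongruenceSubgroup.Gamma1 N, ∀ τ, f (γ • τ) = jf γ τ ^ (k : ℤ) * f τ := by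
  intro γ hγ τ
  rw [jf_eq_denom]
  exact SlashInvariantForm.slash_action_eqn_SL'' f hγ τ

lemma mod_eq_disc (γ : SL(2, ℤ)) (τ : ℍ) :
    ModularForm.discriminant (γ • τ) = jf γ τ ^ ((12 : ℕ) : ℤ) * ModularForm.discriminant τ := by
  rw [jf_eq_denom]
  exact SlashInvariantForm.slash_action_eqn'' (Γ := 𝒮ℒ) (k := 12) CuspForm.discriminant
    (γ := (γ : GL (Fin 2) ℝ)) ⟨γ, rfl⟩ τ

end FinalAux

open FinalAux

theorem final_of_main (H : MainDen) :
    (∀ (N : ℕ) [NeZero N] (k : ℕ), 3 ≤ k → ∀ (K : Type) [Field K] [NumberField K] (a : ℕ → 𝓞 K)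
      (f : (K →+* ℂ) → ModularForm (CongruenceSubgroup.Gamma1 N) k),
      (∀ σ m, (UpperHalfPlane.qExpansion 1 (f σ)).coeff m = σ (a m)) → a 0 = 0 → a 1 = 1 →
      (∀ p : ℕ, p.Prime → ¬ p ∣ N → ∃ c : 𝓞 K, ∀ m,
        a (p * m) = a p * a m - if p ∣ m then c * p ^ (k - 1) * a (m / p) else 0) →
      ∃ c : ℝ, 0 < c ∧ ∀ᶠ x : ℕ in Filter.atTop, (x : ℝ) ^ c ≤
        {p : ℕ | p ≤ x ∧ p.Prime ∧
          ∃ P : Ideal (𝓞 K), P.IsPrime ∧ (p : 𝓞 K) ∈ P ∧ a p ∉ P}.ncard) ∧
    (∃ c : ℝ, 0 < c ∧ ∀ᶠ x : ℕ in Filter.atTop, (x : ℝ) ^ c ≤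
      {p : ℕ | p ≤ x ∧ p.Prime ∧ ¬ (p : ℤ) ∣ (Polynomial.X * ∏ m ∈ Finset.range p,
        (1 - Polynomial.X ^ (m + 1)) ^ 24 : Polynomial ℤ).coeff p}.ncard) ∧
    (∀ (N : ℕ) [NeZero N] (k : ℕ), 3 ≤ k →
      ∀ (f : ModularForm (CongruenceSubgroup.Gamma1 N) k) (b : ℕ → ℤ),
      (∀ m : ℕ, (UpperHalfPlane.qExpansion 1 f).coeff m = m * b m) → f = 0) := by
  refine ⟨?_, ?_, ?_⟩
  · intro N _ k hk K _ _ a f hf h0 h1 hH
    let φ₀ : K →+* ℂ := Classical.arbitrary _
    refine core H N k hk K φ₀ a (fun σ => ?_) (f φ₀) (fun τ => ?_) (mod_eq (f φ₀)) h0 h1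
      (fun p => ∃ P : Ideal (𝓞 K), P.IsPrime ∧ (p : 𝓞 K) ∈ P ∧ a p ∉ P)
      (N * (discr K).natAbs)
      (mul_ne_zero (NeZero.ne N) (Int.natAbs_ne_zero.2 (discr_ne_zero K))) ?_
    · simpa only [hf] using growth (CongruenceSubgroup.strictWidthInfty_Gamma1 N) (f σ)
    · simpa only [hf] using hasSum_q (CongruenceSubgroup.strictWidthInfty_Gamma1 N) (f φ₀) τ
    · intro p hp hT hE
      obtain ⟨c, hc⟩ := hH p hp fun h => hE (h.mul_right _)
      refine hecke_dvd a p k hp hk c hc (dvd_of_mem K p hp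
        (fun h => hE ((Int.natCast_dvd.1 h).mul_left _)) _ fun P hP hpP => ?_)
      by_contra hn
      exact hT ⟨P, hP, hpP, hn⟩
  · have hg := growth (Γ := 𝒮ℒ) (k := 12) Subgroup.strictWidthInfty_SL2Z CuspForm.discriminant
    have hs := hasSum_q (Γ := 𝒮ℒ) (k := 12) Subgroup.strictWidthInfty_SL2Z CuspForm.discriminant
    simp only [CuspForm.coe_discriminant, tau_eq] at hg hs
    refine core H 1 12 (by norm_num) ℚ (Rat.castHom ℂ) (fun m => (tau m : 𝓞 ℚ)) (fun σ => ?_)
      ModularForm.discriminant (fun τ => ?_) (fun γ _ τ => mod_eq_disc γ τ)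
      (by simp [tau_zero]) (by simp [tau_one]) (fun p => ¬ (p : ℤ) ∣ tau p) 1 one_ne_zero ?_
    · simpa using hg
    · simpa using hs τ
    · intro p hp hT _ j m hj
      have := hecke_dvd tau p 12 hp (by norm_num) 1 (fun m => by simpa using tau_hecke p hp m)
        (not_not.1 hT) j m hj
      exact_mod_cast (Int.castRingHom (𝓞 ℚ)).map_dvd this
  · intro N _ k hk f b hb
    obtain ⟨C, hC⟩ := growth (CongruenceSubgroup.strictWidthInfty_Gamma1 N) f
    have hs := hasSum_q (CongruenceSubgroup.strictWidthInfty_Gamma1 N) f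
    rw [← ModularForm.qExpansion_eq_zero_iff one_pos (by simp)]
    by_contra hne
    obtain ⟨A, D₀, α, hα, hmain⟩ := H N k hk ℚ (Rat.castHom ℂ)
      (fun m => if m = 0 then 0 else (b m : ℚ))
      ⟨|C|, k, fun σ m => by
        split_ifs with hm
        · simp only [map_zero, norm_zero]
          positivity
        · have hm1 : 1 ≤ m := Nat.one_le_iff_ne_zero.2 hm
          have hm' : (1 : ℝ) ≤ m := by exact_mod_cast hm1
          have h2 := hC m hm1
          rw [hb, norm_mul, Complex.norm_natCast] at h2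
          rw [map_intCast]
          refine ((le_mul_of_one_le_left (norm_nonneg _) hm').trans h2).trans ?_
          gcongr
          exact le_abs_self C⟩ f
      (fun τ => by
        convert hs τ using 3 with m
        rw [hb]
        split_ifs with hm
        · simp [hm]
        · simp) (mod_eq f)
      (by
        by_contra hall
        push Not at hall
        apply hne
        ext m
        rw [hb]
        rcases Nat.eq_zero_or_pos m with rfl | hm
        · simp
        · have := hall m hm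
          rw [if_neg hm.ne'] at this
          have h2 : b m = 0 := by exact_mod_cast this
          simp [h2])
    have := hmain (D₀ + 1) (by omega) 1 one_pos fun m _ => by
      rw [Nat.cast_one, one_mul]
      split_ifs
      · exact isIntegral_zero
      · exact isIntegral_algebraMap (R := ℤ) (x := b m)
    rw [Nat.cast_one, Real.log_one] at this
    have h2 : (0 : ℝ) < α * (D₀ + 1 : ℕ) := by positivity
    linarith

end

end Pool.Agent.Work.MP_db07cb_ag
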