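import Pool.Agent.Work.MP_db07cb_ag.Defs2
import Pool.Agent.Work.MP_db07cb_ag.ADE
import Pool.Agent.Work.MP_db07cb_ag.Final
import Mathlib.NumberTheory.ModularForms.LevelOne.GradedRing

/-! The Eisenstein series of weights 4 and 6. -/

namespace Pool.Agent.Work.MP_db07cb_ag

open UpperHalfPlane hiding I
open Complex
open scoped MatrixGroups Real

namespace Eis

/-- integral coefficients -/
def bb (a : ℤ) (k m : ℕ) : ℤ := if m = 0 then 1 else a * (ArithmeticFunction.sigma k m : ℕ)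

lemma pg_bb (a : ℤ) (k : ℕ) : PG fun m => (bb a k m : ℂ) := by
  refine ⟨|(a : ℝ)| + 1, k + 1, by positivity, fun m => ?_⟩
  have h1 : (1 : ℝ) ≤ ((m : ℝ) + 1) ^ (k + 1) := one_le_pow₀ (by linarith [Nat.cast_nonneg (α := ℝ) m])
  have ha := abs_nonneg (a : ℝ)
  simp only [bb]
  split_ifs with h
  · simp only [Int.cast_one, norm_one]
    nlinarith
  · have h2 : ((ArithmeticFunction.sigma k m : ℕ) : ℝ) ≤ ((m : ℝ) + 1) ^ (k + 1) := by
      have := ArithmeticFunction.sigma_le_pow_succ k m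
      have h3 : ((ArithmeticFunction.sigma k m : ℕ) : ℝ) ≤ (m : ℝ) ^ (k + 1) := by exact_mod_cast this
      exact h3.trans (pow_le_pow_left₀ (Nat.cast_nonneg m) (by linarith) _)
    push_cast
    rw [norm_mul, Complex.norm_intCast, Complex.norm_natCast]
    nlinarith

lemma ser_eq {k : ℕ} (f : ModularForm 𝒮ℒ k) (b : ℕ → ℂ) (hb : PG b)
    (h : ∀ m, (qExpansion 1 f).coeff m = b m) (τ : ℍ) : (ser b hb : ℍ → ℂ) τ = f τ := by
  have := FinalAux.hasSum_q (Γ := 𝒮ℒ) (k := k) Subgroup.strictWidthInfty_SL2Z f τ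
  simp only [h] at this
  exact this.tsum_eq

lemma wt {k : ℕ} (f : ModularForm 𝒮ℒ k) (u : MG) (h : ∀ τ, (u : ℍ → ℂ) τ = f τ) :
    IsWt ⊤ k u := by
  rw [isWt_iff]
  intro γ _ τ
  rw [h, h, jf_eq_denom]
  exact SlashInvariantForm.slash_action_eqn'' (Γ := 𝒮ℒ) (k := k) f
    (γ := (γ : GL (Fin 2) ℝ)) ⟨γ, rfl⟩ τ

lemma dvd_two (a : ℤ) (k : ℕ) : qq ^ 2 ∣ ser _ (pg_bb a k) - (1 + a * qq) := by
  have := (ser_expand _ (pg_bb a k) 2).dvd
  convert this using 2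
  simp [Finset.sum_range_succ, bb, Algebra.smul_def]

lemma Dm_intmul (a : ℤ) (u : MG) : Dm (a * u) = a * Dm u := by
  rw [← zsmul_eq_mul, map_zsmul, zsmul_eq_mul]

lemma dvd_D {u : MG} {a : ℤ} (h : qq ^ 2 ∣ u - (1 + a * qq)) :
    qq ^ 2 ∣ Dm u - a * (algebraMap ℂ MG (2 * π * I) * qq) := by
  have := qq_pow_dvd_Dm 2 _ h
  rwa [map_sub, map_add, Dm_one, zero_add, Dm_intmul, Dm_qq] at this

lemma dvd_DD {u : MG} {a : ℤ} (h : qq ^ 2 ∣ u - (1 + a * qq)) :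
    qq ^ 2 ∣ Dm (Dm u) - a * (algebraMap ℂ MG (2 * π * I) * (algebraMap ℂ MG (2 * π * I) * qq)) := by
  have := qq_pow_dvd_Dm 2 _ (dvd_D h)
  rwa [map_sub, Dm_intmul, Dm_mul, Dm_algebraMap, zero_mul, zero_add, Dm_qq] at this

lemma wt_cusp {E F : MG} (h4 : IsWt ⊤ (4 : ℕ) E) (h6 : IsWt ⊤ (6 : ℕ) F) (γ : SL(2, ℤ)) :
    ji γ ^ 12 * act γ (E ^ 3 - F ^ 2) = E ^ 3 - F ^ 2 := by
  have a := h4 γ trivial
  have b := h6 γ trivial
  rw [sl_nat] at a b
  conv_rhs => rw [← a, ← b]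
  simp only [map_sub, map_pow]
  ring

lemma r1 {E F : MG} (h4 : IsWt ⊤ (4 : ℕ) E) (h6 : IsWt ⊤ (6 : ℕ) F)
    (hE : qq ^ 2 ∣ E - (1 + (240 : ℤ) * qq)) (hF : qq ^ 2 ∣ F - (1 + (-504 : ℤ) * qq)) :
    4 * E * Dm F - 6 * Dm E * F = (-2 * (2 * π * I) : ℂ) • (E ^ 3 - F ^ 2) := by
  rw [← sub_eq_zero]
  refine valence ⊤ _ (12 : ℕ) 2 ?_ (fun γ _ => ?_) (by simp)
  · obtain ⟨w1, h1⟩ := dvd_D hE
    obtain ⟨w2, h2⟩ := dvd_D hF
    obtain ⟨w3, h3⟩ := hE
    obtain ⟨w4, h4⟩ := hF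
    rw [sub_eq_iff_eq_add] at h1 h2 h3 h4
    generalize (2 * π * I : ℂ) = t at h1 h2 ⊢
    rw [h1, h2, Algebra.smul_def, map_mul, map_neg, map_ofNat]
    rw [← Ideal.mem_span_singleton, ← Ideal.Quotient.eq_zero_iff_mem]
    have hx : Ideal.Quotient.mk (Ideal.span {qq ^ 2}) qq ^ 2 = 0 := by
      rw [← map_pow, Ideal.Quotient.eq_zero_iff_mem]
      exact Ideal.mem_span_singleton_self _
    rw [h3, h4]
    simp only [map_sub, map_mul, map_add, map_pow, map_neg, map_ofNat, map_one, map_intCast, hx,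
      zero_mul, zero_add]
    push_cast
    generalize Ideal.Quotient.mk (Ideal.span {qq ^ 2}) qq = x at hx ⊢
    generalize Ideal.Quotient.mk (Ideal.span {qq ^ 2}) (algebraMap ℂ MG t) = c
    linear_combination (c * (79488 + 27648000 * x)) * hx
  · have a := h4 γ trivial
    have b := h6 γ trivial
    rw [sl_nat] at a b ⊢
    rw [map_sub, mul_sub, map_smul, mul_smul_comm, wt_cusp h4 h6]
    congr 1
    have a' := Dm_sl_nat 4 γ E
    have b' := Dm_sl_nat 6 γ F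
    rw [a] at a'
    rw [b] at b'
    conv_rhs => rw [a', b']
    simp only [map_sub, map_mul, map_ofNat]
    push_cast
    linear_combination (4 * ji γ ^ 8 * act γ (Dm F)) * a - (6 * ji γ ^ 6 * act γ (Dm E)) * b

lemma r2 {E F : MG} (h4 : IsWt ⊤ (4 : ℕ) E) (h6 : IsWt ⊤ (6 : ℕ) F)
    (hE : qq ^ 2 ∣ E - (1 + (240 : ℤ) * qq)) (hF : qq ^ 2 ∣ F - (1 + (-504 : ℤ) * qq)) :
    4 * E * Dm (Dm E) - 5 * Dm E ^ 2 = ((2 * π * I) ^ 2 * (5 / 9) : ℂ) • (E ^ 3 - F ^ 2) := by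
  rw [← sub_eq_zero]
  refine valence ⊤ _ (12 : ℕ) 2 ?_ (fun γ _ => ?_) (by simp)
  · obtain ⟨w1, h1⟩ := dvd_D hE
    obtain ⟨w2, h2⟩ := dvd_DD hE
    obtain ⟨w3, h3⟩ := hE
    obtain ⟨w4, h4⟩ := hF
    rw [sub_eq_iff_eq_add] at h1 h2 h3 h4
    generalize (2 * π * I : ℂ) = t at h1 h2 ⊢
    rw [h2, h1, Algebra.smul_def, map_mul, map_pow]
    rw [← Ideal.mem_span_singleton, ← Ideal.Quotient.eq_zero_iff_mem]
    have hx : Ideal.Quotient.mk (Ideal.span {qq ^ 2}) qq ^ 2 = 0 := by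
      rw [← map_pow, Ideal.Quotient.eq_zero_iff_mem]
      exact Ideal.mem_span_singleton_self _
    have hd : 9 * Ideal.Quotient.mk (Ideal.span {qq ^ 2}) (algebraMap ℂ MG (5 / 9)) = 5 := by
      have : (9 : MG) * algebraMap ℂ MG (5 / 9) = 5 := by
        rw [← map_ofNat (algebraMap ℂ MG) 9, ← map_ofNat (algebraMap ℂ MG) 5, ← map_mul]
        norm_num
      have := congrArg (Ideal.Quotient.mk (Ideal.span {qq ^ 2})) this
      simpa only [map_mul, map_ofNat] using this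
    rw [h3, h4]
    simp only [map_sub, map_mul, map_add, map_pow, map_neg, map_ofNat, map_one, map_intCast, hx,
      zero_mul, zero_add]
    push_cast
    generalize Ideal.Quotient.mk (Ideal.span {qq ^ 2}) qq = x at hx ⊢
    generalize Ideal.Quotient.mk (Ideal.span {qq ^ 2}) (algebraMap ℂ MG t) = c
    generalize Ideal.Quotient.mk (Ideal.span {qq ^ 2}) (algebraMap ℂ MG (5 / 9)) = d at hd ⊢
    linear_combination (c ^ 2 * (-57600 + d * (81216 - 13824000 * x))) * hx -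
      (192 * c ^ 2 * x) * hd
  · have a := h4 γ trivial
    rw [sl_nat] at a ⊢
    rw [map_sub, mul_sub, map_smul, mul_smul_comm, wt_cusp h4 h6]
    congr 1
    have h := rc2_sl 4 γ E
    rw [a] at h
    have e : 4 * E * Dm (Dm E) - 5 * Dm E ^ 2 = rc2 4 E := by
      rw [rc2]; push_cast; ring
    rw [e]
    exact h.symm

lemma v6 {F : MG} (h6 : IsWt ⊤ (6 : ℕ) F) : (F : ℍ → ℂ) UpperHalfPlane.I = 0 := by
  have h := isWt_iff.1 h6 ModularGroup.S trivial UpperHalfPlane.I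
  have h1 : jf ModularGroup.S UpperHalfPlane.I = I := by
    simp [jf, ModularGroup.S]
  have h2 : ModularGroup.S • UpperHalfPlane.I = UpperHalfPlane.I := by
    apply UpperHalfPlane.ext
    rw [coe_smul_eq, h1]
    simp [ModularGroup.S]
  rw [h1, h2, zpow_natCast] at h
  have h3 : (I : ℂ) ^ 6 = -1 := by
    rw [show (6 : ℕ) = 2 * 3 from rfl, pow_mul, I_sq]; norm_num
  rw [h3] at h
  linear_combination h / 2

end Eis

open Eis in
theorem exists_EP : ∃ E F : MG, EP E F := by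
  have e4 : ∀ τ, (ser _ (pg_bb 240 3) : ℍ → ℂ) τ = ModularForm.E₄ τ :=
    ser_eq (k := 4) _ _ _ fun m => by
      rw [EisensteinSeries.E_qExpansion_coeff _ ⟨2, rfl⟩,
        show bernoulli 4 = -1 / 30 by decide +kernel, bb]
      split_ifs <;> norm_num
  have e6 : ∀ τ, (ser _ (pg_bb (-504) 5) : ℍ → ℂ) τ = ModularForm.E₆ τ :=
    ser_eq (k := 6) _ _ _ fun m => by
      rw [EisensteinSeries.E_qExpansion_coeff _ ⟨3, rfl⟩,
        show bernoulli 6 = 1 / 42 by decide +kernel, bb]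
      split_ifs <;> norm_num
  have w4 := wt (k := 4) _ _ e4
  have w6 := wt (k := 6) _ _ e6
  have z6 := v6 w6
  refine ⟨ser _ (pg_bb 240 3), ser _ (pg_bb (-504) 5), ⟨_, _, rfl⟩, ⟨_, _, rfl⟩, w4, w6,
    r1 w4 w6 (dvd_two _ _) (dvd_two _ _), r2 w4 w6 (dvd_two _ _) (dvd_two _ _), fun h => ?_, z6,
    fun h => ?_⟩
  · apply ModularForm.discriminant_ne_zero UpperHalfPlane.I
    rw [ModularForm.discriminant_eq_E₄_cube_sub_E₆_sq, ← e4, ← e6, h, z6]
    norm_num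
  · apply EisensteinSeries.E_ne_zero (k := 6) (by norm_num) ⟨3, rfl⟩
    ext τ
    rw [← e6, h]
    rfl

end Pool.Agent.Work.MP_db07cb_ag
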