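import Pool.Agent.Work.MP_db07cb_ag.Defs2
import Pool.Agent.Work.MP_db07cb_ag.Final
import Mathlib.NumberTheory.Chebyshev

/-! From the exponential growth of denominators to a positive proportion of ordinary primes. -/

namespace Pool.Agent.Work.MP_db07cb_ag

open NumberField

namespace Final2

open UpperHalfPlane hiding I
open Filter FinalAux
open scoped MatrixGroups

/-- the analytic end of the counting argument -/
lemma eventually_le (A e : ℕ) (α : ℝ) (hA : 0 < A) (hα : 0 < α) :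
    ∀ᶠ x : ℕ in atTop, ∀ D t : ℕ, x < A * (D + 1) → α * D ≤ (t + e) * Real.log x →
      α / (6 * A) * Nat.primeCounting x ≤ t := by
  have hA' : (0 : ℝ) < A := by exact_mod_cast hA
  have h1 : ∀ᶠ x : ℕ in atTop, (Nat.primeCounting x : ℝ) ≤ 3 * x / Real.log x := by
    filter_upwards [tendsto_natCast_atTop_atTop.eventually
      (Chebyshev.eventually_primeCounting_le (ε := 1) one_pos), eventually_ge_atTop 1] with x hx hx1
    rw [Nat.floor_natCast] at hx
    refine hx.trans ?_
    have h4 : Real.log 4 ≤ 2 := by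
      have : Real.log 4 = 2 * Real.log 2 := by
        rw [show (4 : ℝ) = 2 ^ 2 by norm_num, Real.log_pow]; norm_num
      linarith [Real.log_le_sub_one_of_pos (show (0 : ℝ) < 2 by norm_num)]
    have : 0 ≤ Real.log x := Real.log_natCast_nonneg x
    gcongr
    linarith
  have h2 : ∀ᶠ x : ℕ in atTop, Real.log x ≤ α / (4 * A * (e + 1)) * (x : ℝ) := by
    have := Real.isLittleO_log_id_atTop.bound (c := α / (4 * A * (e + 1))) (by positivity)
    filter_upwards [tendsto_natCast_atTop_atTop.eventually this] with x hx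
    rw [Real.norm_eq_abs, id, Real.norm_of_nonneg (by positivity)] at hx
    exact (le_abs_self _).trans hx
  filter_upwards [h1, h2, eventually_ge_atTop (4 * A), eventually_ge_atTop 2] with x hx hy hx4 hx2
  intro D t hD hle
  have hx2' : (2 : ℝ) ≤ x := by exact_mod_cast hx2
  have hlog : 0 < Real.log x := Real.log_pos (by linarith)
  have hD' : (x : ℝ) < A * (D + 1) := by exact_mod_cast hD
  have hx4' : (4 : ℝ) * A ≤ x := by exact_mod_cast hx4
  have he : (0 : ℝ) ≤ e := Nat.cast_nonneg e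
  have h3 : (e : ℝ) * Real.log x ≤ α / (4 * A) * x := by
    calc (e : ℝ) * Real.log x ≤ (e + 1) * (α / (4 * A * (e + 1)) * (x : ℝ)) := by
          gcongr
          linarith
      _ = α / (4 * A) * x := by field_simp
  have h4 : 3 * x / (4 * A) ≤ (D : ℝ) := by
    rw [div_le_iff₀ (by positivity)]
    nlinarith
  have h5 : α / (2 * A) * x ≤ t * Real.log x := by
    have : α * (3 * x / (4 * A)) ≤ α * D := by gcongr
    have e1 : α * (3 * x / (4 * A)) = α / (2 * A) * x + α / (4 * A) * x := by field_simp; ring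
    nlinarith
  calc α / (6 * A) * Nat.primeCounting x ≤ α / (6 * A) * (3 * x / Real.log x) := by gcongr
    _ = α / (2 * A) * x / Real.log x := by field_simp; ring
    _ ≤ t := by rw [div_le_iff₀ hlog]; exact h5

lemma core (H : MainDen2) (N : ℕ) [NeZero N] (k : ℕ) (hk : 3 ≤ k) (K : Type) [Field K]
    [NumberField K] (φ₀ : K →+* ℂ) (a : ℕ → 𝓞 K)
    (hgr : ∀ σ : K →+* ℂ, ∃ C : ℝ, ∀ m : ℕ, 1 ≤ m → ‖σ (a m)‖ ≤ C * (m + 1) ^ k)
    (f : ℍ → ℂ) (hsum : ∀ τ, HasSum (fun m : ℕ => φ₀ (a m) * qf τ ^ m) (f τ))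
    (hmod : ∀ γ ∈ CongruenceSubgroup.Gamma1 N, ∀ τ, f (γ • τ) = jf γ τ ^ (k : ℤ) * f τ)
    (h0 : a 0 = 0) (h1 : a 1 = 1) (T : ℕ → Prop) (E : ℕ) (hE : E ≠ 0)
    (hT : ∀ p : ℕ, p.Prime → ¬ T p → ¬ p ∣ E → ∀ j m, p ^ j ∣ m → (p : 𝓞 K) ^ j ∣ a m) :
    ∃ c : ℝ, 0 < c ∧ ∀ᶠ x : ℕ in atTop,
      c * Nat.primeCounting x ≤ {p : ℕ | p ≤ x ∧ p.Prime ∧ T p}.ncard := by
  classical
  choose C hC using hgr
  obtain ⟨A, D₀, α, hA, hα, hmain⟩ := H N k hk K φ₀ (fun m => (a m : K) / m)
    ⟨∑ σ, |C σ|, k, fun σ m => by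
      rcases Nat.eq_zero_or_pos m with rfl | hm
      · simp only [Nat.cast_zero, div_zero, map_zero, norm_zero]
        positivity
      · have hm' : (1 : ℝ) ≤ m := by exact_mod_cast hm
        rw [map_div₀, norm_div, map_natCast, Complex.norm_natCast]
        refine (div_le_self (norm_nonneg _) hm').trans ((hC σ m hm).trans ?_)
        gcongr
        exact (le_abs_self _).trans (Finset.single_le_sum (f := fun σ => |C σ|)
          (fun _ _ => abs_nonneg _) (Finset.mem_univ σ))⟩ f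
    (fun τ => by
      convert hsum τ using 3 with m
      rcases Nat.eq_zero_or_pos m with rfl | hm
      · simp [h0]
      · have : (m : ℂ) ≠ 0 := by exact_mod_cast hm.ne'
        rw [map_div₀, map_natCast]
        field_simp) hmod ⟨1, le_rfl, by simp [h1]⟩
  refine ⟨α / (6 * A), by positivity, ?_⟩
  filter_upwards [eventually_le A E.primeFactors.card α hA hα,
    eventually_ge_atTop (A * (D₀ + 1))] with x hx hx0
  set D := x / A with hD
  have hD1 : A * D ≤ x := Nat.mul_div_le x A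
  have hD2 : x < A * (D + 1) := Nat.lt_mul_div_succ x hA
  have hD3 : D₀ + 1 ≤ D := (Nat.le_div_iff_mul_le hA).2 (by rwa [mul_comm])
  have hx1 : 1 ≤ x := (Nat.mul_pos hA (Nat.succ_pos _)).trans_le hx0
  set S₁ := (Finset.range (x + 1)).filter fun p => p.Prime ∧ T p with hS₁
  have hcard : {p : ℕ | p ≤ x ∧ p.Prime ∧ T p}.ncard = S₁.card := by
    rw [← Set.ncard_coe_finset]
    congr 1
    ext p
    simp [hS₁]
  set S := S₁ ∪ E.primeFactors with hS
  set L := ∏ p ∈ S, p ^ Nat.log p x with hL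
  have hSp : ∀ p ∈ S, p.Prime := by
    intro p hp
    rcases Finset.mem_union.1 hp with h | h
    · exact (Finset.mem_filter.1 h).2.1
    · exact Nat.prime_of_mem_primeFactors h
  have hL0 : 0 < L := Finset.prod_pos fun p hp => pow_pos (hSp p hp).pos _
  have hLx : L ≤ x ^ S.card :=
    Finset.prod_le_pow_card _ _ _ fun p _ => Nat.pow_log_le_self p (by omega)
  have hlog := hmain D (by omega) L hL0 fun m hm => by
    rcases Nat.eq_zero_or_pos m with rfl | hm0
    · simp only [Nat.cast_zero, div_zero, mul_zero]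
      exact isIntegral_zero
    have hmx : m ≤ x := hm.trans hD1
    have hdvd : (m : 𝓞 K) ∣ (L : 𝓞 K) * a m := by
      refine dvd_of_pow _ m hm0.ne' fun p j hp hj => ?_
      rcases Nat.eq_zero_or_pos j with rfl | hj0
      · simp
      by_cases hpS : p ∈ S
      · refine Dvd.dvd.mul_right ?_ _
        have h2 : j ≤ Nat.log p x :=
          Nat.le_log_of_pow_le hp.one_lt ((Nat.le_of_dvd hm0 hj).trans hmx)
        have h3 : p ^ j ∣ L := (pow_dvd_pow p h2).trans
          (Finset.dvd_prod_of_mem (fun p => p ^ Nat.log p x) hpS)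
        exact_mod_cast Nat.cast_dvd_cast (α := 𝓞 K) h3
      · have hpx : p ≤ x :=
          (Nat.le_of_dvd hm0 ((dvd_pow_self p hj0.ne').trans hj)).trans hmx
        rw [hS, Finset.mem_union, not_or, hS₁, Finset.mem_filter, Finset.mem_range,
          Nat.mem_primeFactors] at hpS
        refine Dvd.dvd.mul_left (hT p hp (fun h => hpS.1 ⟨by omega, hp, h⟩)
          (fun h => hpS.2 ⟨hp, h, hE⟩) j m hj) _
    obtain ⟨y, hy⟩ := hdvd
    have hy' : (L : K) * (a m : K) = m * (y : K) := by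
      have := congrArg (algebraMap (𝓞 K) K) hy
      simpa using this
    have hm' : (m : K) ≠ 0 := by exact_mod_cast hm0.ne'
    have : (L : K) * ((a m : K) / m) = y := by
      rw [← mul_div_assoc, hy', mul_div_cancel_left₀ _ hm']
    rw [this]
    exact y.2
  rw [hcard]
  refine hx D S₁.card hD2 (hlog.trans ?_)
  have h2 : Real.log L ≤ S.card * Real.log x := by
    rw [← Real.log_pow]
    exact Real.log_le_log (by exact_mod_cast hL0) (by exact_mod_cast hLx)
  refine h2.trans (mul_le_mul_of_nonneg_right ?_ (Real.log_nonneg (by exact_mod_cast hx1)))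
  exact_mod_cast Finset.card_union_le _ _

end Final2

open FinalAux in
theorem final2 (H : MainDen2) :
    ∀ (N : ℕ) [NeZero N] (k : ℕ), 3 ≤ k → ∀ (K : Type) [Field K] [NumberField K] (a : ℕ → 𝓞 K)
      (f : (K →+* ℂ) → ModularForm (CongruenceSubgroup.Gamma1 N) k),
      (∀ σ m, (UpperHalfPlane.qExpansion 1 (f σ)).coeff m = σ (a m)) → a 0 = 0 → a 1 = 1 →
      (∀ p : ℕ, p.Prime → ¬ p ∣ N → ∃ c : 𝓞 K, ∀ m,
        a (p * m) = a p * a m - if p ∣ m then c * p ^ (k - 1) * a (m / p) else 0) →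
      ∃ c : ℝ, 0 < c ∧ ∀ᶠ x : ℕ in Filter.atTop, c * Nat.primeCounting x ≤
        {p : ℕ | p ≤ x ∧ p.Prime ∧
          ∃ P : Ideal (𝓞 K), P.IsPrime ∧ (p : 𝓞 K) ∈ P ∧ a p ∉ P}.ncard := by
  intro N _ k hk K _ _ a f hf h0 h1 hH
  let φ₀ : K →+* ℂ := Classical.arbitrary _
  refine Final2.core H N k hk K φ₀ a (fun σ => ?_) (f φ₀) (fun τ => ?_) (mod_eq (f φ₀)) h0 h1
    (fun p => ∃ P : Ideal (𝓞 K), P.IsPrime ∧ (p : 𝓞 K) ∈ P ∧ a p ∉ P)
    (N * (discr K).natAbs)
    (mul_ne_zero (NeZero.ne N) (Int.natAbs_ne_zero.2 (discr_ne_zero K))) ?_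
  · simpa only [hf] using growth (CongruenceSubgroup.strictWidthInfty_Gamma1 N) (f σ)
  · simpa only [hf] using hasSum_q (CongruenceSubgroup.strictWidthInfty_Gamma1 N) (f φ₀) τ
  · intro p hp hT hE
    obtain ⟨c, hc⟩ := hH p hp fun h => hE (h.mul_right _)
    refine hecke_dvd a p k hp hk c hc (dvd_of_mem K p hp
      (fun h => hE ((Int.natCast_dvd.1 h).mul_left _)) _ fun P hP hpP => ?_)
    by_contra hn
    exact hT ⟨P, hP, hpP, hn⟩

end Pool.Agent.Work.MP_db07cb_ag
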