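import Pool.Agent.Work.MP_db07cb_ag.Eis
import Mathlib.RingTheory.PowerSeries.Expand

/-! Definitions for the point count statements. -/

namespace Pool.Agent.Work.MP_db07cb_ag.Geo

open PowerSeries

noncomputable section

/-- the derivation `q d/dq` -/
def th (R : Type*) [CommRing R] : Derivation R R⟦X⟧ R⟦X⟧ := (X : R⟦X⟧) • d⁄dX R

lemma th_apply {R : Type*} [CommRing R] (φ : R⟦X⟧) : th R φ = X * d⁄dX R φ := rfl

lemma coeff_th {R : Type*} [CommRing R] (φ : R⟦X⟧) (m : ℕ) :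
    coeff m (th R φ) = m * coeff m φ := by
  rw [th_apply]
  cases m with
  | zero => simp
  | succ m => rw [coeff_succ_X_mul, coeff_derivative]; push_cast; ring

lemma th_mul {R : Type*} [CommRing R] (φ ψ : R⟦X⟧) :
    th R (φ * ψ) = th R φ * ψ + φ * th R ψ := by
  rw [Derivation.leibniz, smul_eq_mul, smul_eq_mul]; ring

lemma map_th {R S : Type*} [CommRing R] [CommRing S] (f : R →+* S) (φ : R⟦X⟧) :
    map f (th R φ) = th S (map f φ) := by
  ext m
  simp [coeff_th]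

/-- integral `q`-expansions of functions of weight `k` on `Γ₁(N)` -/
def MF (N k : ℕ) (φ : ℤ⟦X⟧) : Prop :=
  ∃ h : PG fun m => ((coeff m φ : ℤ) : ℂ), IsWt (CongruenceSubgroup.Gamma1 N) k (ser _ h)

/-- the substitution of `q ^ 2` for `q` -/
def x2 : ℤ⟦X⟧ →ₐ[ℤ] ℤ⟦X⟧ := expand 2 two_ne_zero

lemma th_x2 (φ : ℤ⟦X⟧) : th ℤ (x2 φ) = 2 * x2 (th ℤ φ) := by
  ext m
  rw [coeff_th, show (2 : ℤ⟦X⟧) = C 2 from rfl, coeff_C_mul, x2, coeff_expand, coeff_expand]
  split_ifs with h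
  · obtain ⟨k, rfl⟩ := h
    rw [coeff_th, Nat.mul_div_cancel_left _ two_pos]
    push_cast
    ring
  · simp

/-- the generating series of the divisor sums -/
def sg : ℤ⟦X⟧ := PowerSeries.mk fun m => ((ArithmeticFunction.sigma 1 m : ℕ) : ℤ)

/-- the fourth power of the theta series -/
def sA : ℤ⟦X⟧ := 1 + 8 * sg - 32 * x2 (x2 sg)

/-- the generating series of the divisor sums of odd numbers -/
def sC : ℤ⟦X⟧ := sg - 3 * x2 sg + 2 * x2 (x2 sg)

/-- Eisenstein series of weight 4 -/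
def e4 : ℤ⟦X⟧ := PowerSeries.mk (Eis.bb 240 3)

/-- Eisenstein series of weight 6 -/
def e6 : ℤ⟦X⟧ := PowerSeries.mk (Eis.bb (-504) 5)

end

end Pool.Agent.Work.MP_db07cb_ag.Geo
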