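import Pool.Agent.Work.MP_db07cb_ag.GDefs
import Mathlib.Data.Nat.Choose.Lucas
import Mathlib.Data.Nat.Choose.Central

/-! The Hasse invariant of the Legendre family has `q`-expansion one. -/

namespace Pool.Agent.Work.MP_db07cb_ag.Geo

open PowerSeries

lemma ghyp_zero {a b z : ℤ⟦X⟧} (h : a * th ℤ z = b * z) (ha : constantCoeff a ≠ 0)
    (hb : constantCoeff b = 0) (hz : constantCoeff z = 0) : z = 0 := by
  ext n
  induction n using Nat.strong_induction_on with
  | _ n ih =>
    rcases n.eq_zero_or_pos with rfl | hn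
    · simpa using hz
    have h1 : ∀ (e w : ℤ⟦X⟧), (∀ m < n, coeff m w = 0) →
        coeff n (e * w) = constantCoeff e * coeff n w := fun e w hw => by
      rw [coeff_mul, Finset.sum_eq_single (0, n)]
      · simp
      · rintro ⟨i, j⟩ h1 h2
        have h3 := Finset.mem_antidiagonal.1 h1
        have h4 : j < n := by
          by_contra h5
          exact h2 (by ext <;> simp only [] <;> omega)
        rw [hw j h4, mul_zero]
      · simp
    have h2 := congrArg (coeff n) h
    rw [h1 _ _ fun m hm => by rw [coeff_th, ih m hm]; simp, h1 _ _ fun m hm => by simpa using ih m hm,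
      hb, zero_mul, coeff_th] at h2
    simpa [ha, hn.ne'] using h2

lemma ghyp_th0 (z : ℤ⟦X⟧) : constantCoeff (th ℤ z) = 0 := by simp [th_apply]

/-- the hypergeometric series -/
noncomputable def ghyp_Phi : ℤ⟦X⟧ := PowerSeries.mk fun k => ((Nat.centralBinom k ^ 2 : ℕ) : ℤ)

lemma ghyp_ode : th ℤ (th ℤ ghyp_Phi) =
    X * (16 * th ℤ (th ℤ ghyp_Phi) + 16 * th ℤ ghyp_Phi + 4 * ghyp_Phi) := by
  ext n
  cases n with
  | zero => simp [coeff_th]
  | succ n =>
    have h : ((n : ℤ) + 1) * (n + 1).centralBinom = 2 * (2 * n + 1) * n.centralBinom := by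
      exact_mod_cast Nat.succ_mul_centralBinom_succ n
    rw [coeff_succ_X_mul, show (16 : ℤ⟦X⟧) = C 16 from rfl, show (4 : ℤ⟦X⟧) = C 4 from rfl]
    simp only [map_add, coeff_C_mul, coeff_th, ghyp_Phi, coeff_mk]
    push_cast
    linear_combination (((n : ℤ) + 1) * (n + 1).centralBinom + 2 * (2 * n + 1) * n.centralBinom) * h

lemma ghyp_sq {A c u : ℤ⟦X⟧} (hA : constantCoeff A = 1) (hu : A * u = 1)
    (L1 : A * th ℤ c - c * th ℤ A = A * (A - 16 * c) * c)
    (L2 : 2 * A * th ℤ (th ℤ A) - 3 * th ℤ A ^ 2 = 16 * A ^ 2 * (A - 16 * c) * c)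
    (hc : constantCoeff (c * u) = 0) : (ghyp_Phi.subst (c * u) : ℤ⟦X⟧) ^ 2 = A := by
  have ht := HasSubst.of_constantCoeff_zero' hc
  have h16 : th ℤ (16 : ℤ⟦X⟧) = 0 := (th ℤ).map_natCast 16
  have h2 : th ℤ (2 : ℤ⟦X⟧) = 0 := (th ℤ).map_natCast 2
  have h1 : th ℤ (c * u) = c * u * (A - 16 * c) := by
    have h3 := congrArg (th ℤ) hu
    rw [th_mul, Derivation.map_one_eq_zero] at h3
    rw [th_mul]
    linear_combination u ^ 2 * L1 + c * u * h3 -
      (u * th ℤ c + c * th ℤ u - c * u * (A - 16 * c)) * hu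
  have h3 : ∀ f : ℤ⟦X⟧, th ℤ (f.subst (c * u) : ℤ⟦X⟧) =
      (A - 16 * c) * ((th ℤ f).subst (c * u) : ℤ⟦X⟧) := fun f => by
    rw [th_apply f, subst_mul ht, subst_X ht, th_apply, derivative_subst ht]
    rw [th_apply] at h1
    linear_combination ((d⁄dX ℤ f).subst (c * u) : ℤ⟦X⟧) * h1
  have h4 := congrArg (substAlgHom (R := ℤ) ht) ghyp_ode
  simp only [map_mul, map_add, map_ofNat, substAlgHom_X] at h4
  rw [coe_substAlgHom] at h4
  have h5 := h3 ghyp_Phi
  have h6 := h3 (th ℤ ghyp_Phi)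
  have h7 : constantCoeff (ghyp_Phi.subst (c * u) : ℤ⟦X⟧) = 1 := by
    have h8 := constantCoeff_subst_eq_zero (R := ℤ) hc (ghyp_Phi - 1) (by simp [ghyp_Phi])
    rw [← coe_substAlgHom ht, map_sub, map_one, map_sub, map_one, coe_substAlgHom] at h8
    exact sub_eq_zero.1 h8
  generalize (ghyp_Phi.subst (c * u) : ℤ⟦X⟧) = y at *
  generalize ((th ℤ ghyp_Phi).subst (c * u) : ℤ⟦X⟧) = y1 at *
  generalize ((th ℤ (th ℤ ghyp_Phi)).subst (c * u) : ℤ⟦X⟧) = y2 at *
  have h8 : th ℤ y1 = 16 * c * y1 + 4 * c * y := by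
    linear_combination h6 + A * h4 + c * (16 * y2 + 16 * y1 + 4 * y) * hu
  have h9 : A * th ℤ (th ℤ y) = th ℤ A * th ℤ y + 4 * A * (A - 16 * c) * c * y := by
    rw [h5, th_mul, map_sub, th_mul, h16, h8]
    linear_combination -16 * y1 * L1
  have h10 : 2 * A * th ℤ y - y * th ℤ A = 0 := by
    refine ghyp_zero (a := 2 * A) (b := 3 * th ℤ A) ?_ (by simp [hA, map_ofNat])
      (by simp [ghyp_th0]) (by simp [ghyp_th0])
    rw [map_sub, th_mul, th_mul, th_mul, h2]
    linear_combination 4 * A * h9 - y * L2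
  refine sub_eq_zero.1 (ghyp_zero (a := A) (b := th ℤ A) ?_ (by simp [hA]) (ghyp_th0 _)
    (by simp [hA, h7]))
  rw [map_sub, sq, th_mul]
  linear_combination y * h10

lemma ghyp_lucas (p : ℕ) [hp : Fact p.Prime] (h2 : p ≠ 2) (n : ℕ) :
    ((n.centralBinom : ℕ) : ZMod p) =
      if n % p ≤ p / 2 then ((n % p).centralBinom : ZMod p) * (n / p).centralBinom else 0 := by
  have h1 := (ZMod.natCast_eq_natCast_iff _ _ _).2
    (Choose.choose_modEq_choose_mod_mul_choose_div_nat (n := 2 * n) (k := n) (p := p))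
  have h3 := hp.out.eq_two_or_odd.resolve_left h2
  have h4 := Nat.mod_lt n hp.out.pos
  have h5 := Nat.mod_add_div n p
  rw [Nat.centralBinom, h1, Nat.cast_mul]
  generalize n % p = r at *
  generalize n / p = q at *
  split_ifs with h
  · have h6 := (Nat.div_mod_unique hp.out.pos (a := 2 * n) (c := 2 * r) (d := 2 * q)).2
      ⟨by rw [← h5]; ring, by omega⟩
    rw [h6.1, h6.2, Nat.centralBinom, Nat.centralBinom]
  · have h6 := (Nat.div_mod_unique hp.out.pos (a := 2 * n) (c := 2 * r - p) (d := 2 * q + 1)).2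
      ⟨by rw [← h5, mul_add p, mul_add 2, mul_left_comm]; omega, by omega⟩
    rw [h6.2, Nat.choose_eq_zero_of_lt (by omega), Nat.cast_zero, zero_mul]

lemma ghyp_frob (p : ℕ) [hp : Fact p.Prime] (h2 : p ≠ 2) :
    map (Int.castRingHom (ZMod p)) ghyp_Phi =
      (∑ k ∈ Finset.range (p / 2 + 1), ((Nat.centralBinom k ^ 2 : ℕ) : (ZMod p)⟦X⟧) * X ^ k) *
        map (Int.castRingHom (ZMod p)) ghyp_Phi ^ p := by
  have h0 := hp.out.ne_zero
  have h1 : ∀ f : (ZMod p)⟦X⟧, f ^ p = expand p h0 f := fun f => by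
    have h := MvPowerSeries.map_frobenius_expand p h0 (f := f)
    rw [ZMod.frobenius_zmod, MvPowerSeries.map_id] at h
    exact h.symm
  have h3 : ∀ n, coeff n (map (Int.castRingHom (ZMod p)) ghyp_Phi) =
      (n.centralBinom : ZMod p) ^ 2 := fun n => by simp [ghyp_Phi]
  have h4 : p / 2 < p := Nat.div_lt_self hp.out.pos one_lt_two
  ext n
  have h5 : ∀ k ∈ Finset.range (p / 2 + 1), coeff n (((Nat.centralBinom k ^ 2 : ℕ) : (ZMod p)⟦X⟧) *
      X ^ k * expand p h0 (map (Int.castRingHom (ZMod p)) ghyp_Phi)) =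
      if n % p = k then ((k.centralBinom : ZMod p) * (n / p).centralBinom) ^ 2 else 0 := by
    intro k hk
    have hk' : k < p := by have := Finset.mem_range.1 hk; omega
    rw [mul_assoc, ← map_natCast C, coeff_C_mul, coeff_X_pow_mul', coeff_expand, h3]
    by_cases h6 : n % p = k
    · have h7 : n - k = p * (n / p) := by have := Nat.mod_add_div n p; omega
      rw [if_pos h6, if_pos (h6 ▸ Nat.mod_le n p), h7, if_pos (dvd_mul_right _ _),
        Nat.mul_div_cancel_left _ hp.out.pos]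
      push_cast
      ring
    · rw [if_neg h6]
      split_ifs with h7 h8
      · exact absurd (Eq.trans ((Nat.modEq_iff_dvd' h7).2 h8).symm (Nat.mod_eq_of_lt hk')) h6
      · simp
      · simp
  rw [h1, Finset.sum_mul, map_sum, Finset.sum_congr rfl h5, Finset.sum_ite_eq, h3, ghyp_lucas p h2]
  simp only [Finset.mem_range, Nat.lt_succ_iff]
  split_ifs
  · rfl
  · simp

theorem hasse_one (A c : ℤ⟦X⟧) (hA : constantCoeff A = 1) (hc : constantCoeff c = 0)
    (L1 : A * th ℤ c - c * th ℤ A = A * (A - 16 * c) * c)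
    (L2 : 2 * A * th ℤ (th ℤ A) - 3 * th ℤ A ^ 2 = 16 * A ^ 2 * (A - 16 * c) * c)
    (p : ℕ) [Fact p.Prime] (hp : p ≠ 2) :
    ∑ k ∈ Finset.range (p / 2 + 1), ((Nat.centralBinom k ^ 2 : ℕ) : (ZMod p)⟦X⟧) *
      map (Int.castRingHom (ZMod p)) c ^ k * map (Int.castRingHom (ZMod p)) A ^ (p / 2 - k) = 1 := by
    obtain ⟨u, hu⟩ : ∃ u, A * u = 1 := ⟨_, mul_invOfUnit A 1 hA⟩
    have hc' : constantCoeff (c * u) = 0 := by simp [hc]
    have h1 := congrArg (map (Int.castRingHom (ZMod p))) (ghyp_sq hA hu L1 L2 hc')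
    have h2 : map (Int.castRingHom (ZMod p)) (ghyp_Phi.subst (c * u)) =
        (map (Int.castRingHom (ZMod p)) ghyp_Phi).subst (map (Int.castRingHom (ZMod p)) (c * u)) :=
      map_subst (HasSubst.of_constantCoeff_zero' hc') _
    have ht : HasSubst (map (Int.castRingHom (ZMod p)) (c * u)) :=
      HasSubst.of_constantCoeff_zero' (by
        rw [← coeff_zero_eq_constantCoeff_apply, coeff_map, coeff_zero_eq_constantCoeff_apply, hc',
          map_zero])
    have h3 := congrArg (substAlgHom (R := ZMod p) ht) (ghyp_frob p hp)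
    simp only [map_mul (substAlgHom ht), map_sum, map_pow (substAlgHom ht), map_natCast,
      substAlgHom_X] at h3
    rw [coe_substAlgHom, ← h2] at h3
    have h4 := congrArg (map (Int.castRingHom (ZMod p))) hu
    rw [map_pow] at h1
    rw [map_mul, map_one] at h4
    rw [map_mul] at h3
    have h5 : p = 2 * (p / 2) + 1 := by
      have := (Fact.out : p.Prime).eq_two_or_odd.resolve_left hp
      omega
    generalize map (Int.castRingHom (ZMod p)) (ghyp_Phi.subst (c * u)) = y at *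
    generalize map (Int.castRingHom (ZMod p)) A = a at *
    generalize map (Int.castRingHom (ZMod p)) u = v at *
    generalize map (Int.castRingHom (ZMod p)) c = d at *
    have h6 : y ^ p = a ^ (p / 2) * y := by rw [← h1, ← pow_mul, ← pow_succ, ← h5]
    have h7 : ∀ k ∈ Finset.range (p / 2 + 1), ((Nat.centralBinom k ^ 2 : ℕ) : (ZMod p)⟦X⟧) *
        (d * v) ^ k * a ^ (p / 2) = (Nat.centralBinom k ^ 2 : ℕ) * d ^ k * a ^ (p / 2 - k) := by
      intro k hk
      obtain ⟨j, hj⟩ := Nat.exists_eq_add_of_le (Nat.lt_succ_iff.1 (Finset.mem_range.1 hk))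
      have h8 : (a * v) ^ k = 1 := by rw [h4, one_pow]
      rw [hj, Nat.add_sub_cancel_left, pow_add, mul_pow]
      rw [mul_pow] at h8
      linear_combination ((Nat.centralBinom k ^ 2 : ℕ) : (ZMod p)⟦X⟧) * d ^ k * a ^ j * h8
    rw [h6, ← mul_assoc, Finset.sum_mul, Finset.sum_congr rfl h7] at h3
    generalize ∑ k ∈ Finset.range (p / 2 + 1), ((Nat.centralBinom k ^ 2 : ℕ) : (ZMod p)⟦X⟧) *
      d ^ k * a ^ (p / 2 - k) = s at *
    linear_combination (1 - s) * (h4 + v * h1) - v * y * h3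

end Pool.Agent.Work.MP_db07cb_ag.Geo
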