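import Pool.Agent.Work.MP_db07cb_ag.GMod

/-! Differential equations for the Eisenstein series of level four. -/

namespace Pool.Agent.Work.MP_db07cb_ag.Geo

open PowerSeries

lemma th_ofNat (n : ℕ) [n.AtLeastTwo] : th ℤ (OfNat.ofNat n : ℤ⟦X⟧) = 0 := by
  have := (th ℤ).map_natCast (OfNat.ofNat n)
  simpa using this

lemma th_sq (φ : ℤ⟦X⟧) : th ℤ (φ ^ 2) = 2 * φ * th ℤ φ := by
  rw [sq, th_mul]; ring

lemma R1' : 4 * x2 e4 * th ℤ (x2 e6) - 6 * th ℤ (x2 e4) * x2 e6 =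
    -(4 * (x2 e4 ^ 3 - x2 e6 ^ 2)) := by
  have h := congrArg x2 R1
  simp only [map_mul, map_sub, map_neg, map_pow, map_ofNat] at h
  rw [th_x2, th_x2]
  linear_combination 2 * h

lemma R2' : 9 * (4 * x2 e4 * th ℤ (th ℤ (x2 e4)) - 5 * th ℤ (x2 e4) ^ 2) =
    20 * (x2 e4 ^ 3 - x2 e6 ^ 2) := by
  have h := congrArg x2 R2
  simp only [map_mul, map_sub, map_pow, map_ofNat] at h
  rw [th_x2, th_mul, th_ofNat, th_x2]
  linear_combination 4 * h

lemma cA : constantCoeff sA = 1 := by simpa using t3_A.1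

lemma cC : constantCoeff sC = 0 := by simpa using t3_C.1

lemma ne_of_const {φ : ℤ⟦X⟧} (h : constantCoeff φ = 1) : φ ≠ 0 := fun e => by simp [e] at h

lemma B_ne : sA - 16 * sC ≠ 0 := ne_of_const (by simp [cA, cC])

theorem L1 : sA * th ℤ sC - sC * th ℤ sA = sA * (sA - 16 * sC) * sC := by
  have h := R1'
  rw [M1, M2] at h
  simp only [map_add, map_sub, th_mul, th_sq, th_ofNat 2, th_ofNat 8, th_ofNat 16, th_ofNat 32,
    th_ofNat 256, map_zero] at h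
  refine mul_left_cancel₀
    (mul_ne_zero (mul_ne_zero (mul_ne_zero (ofNat_ne 6912) A_ne) B_ne) C_ne) ?_
  linear_combination -h

theorem L2 : 2 * sA * th ℤ (th ℤ sA) - 3 * th ℤ sA ^ 2 = 16 * sA ^ 2 * (sA - 16 * sC) * sC := by
  have h := R2'
  have h1 := L1
  have h2 := congrArg (th ℤ) L1
  rw [M1, M2] at h
  simp only [map_add, map_sub, th_mul, th_sq, th_ofNat 2, th_ofNat 8, th_ofNat 16, th_ofNat 32,
    th_ofNat 256, map_zero] at h h2
  have hE : sA ^ 2 - 16 * sA * sC + 256 * sC ^ 2 ≠ 0 := ne_of_const (by simp [cA, cC])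
  refine mul_left_cancel₀ (mul_ne_zero (ofNat_ne 36) (pow_ne_zero 2 hE)) ?_
  generalize th ℤ (th ℤ sA) = a2 at h h2 ⊢
  generalize th ℤ (th ℤ sC) = c2 at h h2 ⊢
  generalize th ℤ sA = a1 at h h1 h2 ⊢
  generalize th ℤ sC = c1 at h h1 h2 ⊢
  generalize sA = A at h h1 h2 ⊢
  generalize sC = c at h h1 h2 ⊢
  linear_combination A ^ 2 * h -
    (-576 * A ^ 4 + 27648 * A ^ 3 * c - 442368 * A ^ 2 * c ^ 2 + 4718592 * A * c ^ 3) * h2 -
    (-576 * A ^ 5 + 52992 * A ^ 4 * c - 995328 * A ^ 3 * c ^ 2 + 1728 * A ^ 3 * a1 +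
      6912 * A ^ 3 * c1 + 4718592 * A ^ 2 * c ^ 3 - 89856 * A ^ 2 * c * a1 +
      442368 * A ^ 2 * c * c1 - 37748736 * A * c ^ 4 + 884736 * A * c ^ 2 * a1 -
      7077888 * A * c ^ 2 * c1 - 7077888 * c ^ 3 * a1) * h1

theorem L3 : x2 sA * th ℤ sC - sC * th ℤ (x2 sA) = x2 sA * (sC * x2 (sA - 16 * sC)) := by
  have h1 := congrArg x2 L1
  have h2 := congrArg (th ℤ) M3
  have h3 := M3
  simp only [map_mul, map_sub, map_ofNat] at h1 ⊢
  rw [th_sq, th_mul, th_x2, th_x2] at h2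
  rw [th_x2]
  refine mul_left_cancel₀ (mul_ne_zero (ofNat_ne 2) C_ne) ?_
  linear_combination x2 sA * h2 + 2 * x2 sA * h1 -
    (4 * x2 (th ℤ sA) + 2 * x2 sA * (x2 sA - 16 * x2 sC)) * h3

end Pool.Agent.Work.MP_db07cb_ag.Geo
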