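import Pool.Agent.Work.MP_db07cb_ag.Indep
import Pool.Agent.Work.MP_db07cb_ag.AlgRel

/-! Algebraic independence of the rescaled primitives over the field of modular functions. -/

namespace Pool.Agent.Work.MP_db07cb_ag

open UpperHalfPlane hiding I
open Complex CongruenceSubgroup
open scoped MatrixGroups Real

variable {N : ℕ} [NeZero N] {n : ℕ} {G : ℕ → MG} (hG : ∀ l, Dm (G (l + 1)) = G l)
  (hq : ∀ l, G l ∈ Qs) (hw : IsWt (Gamma1 N) (n + 2) (G 0)) (h0 : G 0 ≠ 0)

include hG hq hw h0 in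
theorem indep2 (hn : 1 ≤ n) {r : ℕ} (ν : Fin r → ℕ) (hν : ∀ j, 0 < ν j)
    (hinj : Function.Injective ν) (τ₁ : ℍ) (A : MvPolynomial (Fin r) ℂ)
    (hA : ∀ γ : SL(2, ℤ),
      MvPolynomial.eval (fun j => (G 1 : ℍ → ℂ) (scl (ν j) (γ • τ₁))) A = 0) : A = 0 := by
  by_contra hA0
  have hT : ∀ (δ γ : SL(2, ℤ)) (m : ℕ), δ • ((m : ℝ) +ᵥ γ • τ₁) =
      (δ * ModularGroup.T ^ (m : ℤ) * γ) • τ₁ := fun δ γ m => by
    rw [mul_smul, mul_smul]
    congr 1
    refine UpperHalfPlane.ext ?_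
    rw [ModularGroup.coe_T_zpow_smul_eq, coe_vadd, add_comm]; simp
  set M := ∏ j, ν j with hM
  have hM0 : 0 < M := Finset.prod_pos fun j _ => hν j
  have : NeZero (N * M) := ⟨mul_ne_zero (NeZero.ne N) hM0.ne'⟩
  choose! δ' hδ' ha hb hc hd hs using fun (δ : SL(2, ℤ)) (j : Fin r) (hδ : δ ∈ Gamma1 (N * M)) =>
    conj_scl (hν j) (Finset.dvd_prod_of_mem ν (Finset.mem_univ j)) hδ
  let E : ℍ → Fin r → ℂ := fun τ j => (G (n + 1) : ℍ → ℂ) (scl (ν j) τ)
  -- first step: a relation among the top primitives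
  obtain ⟨A', hA', hAZ⟩ : ∃ A' : MvPolynomial (Fin r) ℂ, A' ≠ 0 ∧
      ∀ z ∈ Set.range fun γ : SL(2, ℤ) => E (γ • τ₁), MvPolynomial.eval z A' = 0 := by
    let δ : SL(2, ℤ) := ⟨!![1, 0; (N * M : ℕ), 1], by rw [Matrix.det_fin_two_of]; ring⟩
    have hδ : δ ∈ Gamma1 (N * M) := by
      rw [Gamma1_mem]
      exact ⟨Int.cast_one, Int.cast_one, (Int.cast_natCast _).trans (ZMod.natCast_self _)⟩
    have h10 : δ 1 0 = (N * M : ℕ) := rfl
    let lam : Fin r → ℂ := fun j => (-(δ' δ j 1 0 : ℂ)) ^ n * n.factorial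
    have hlam : ∀ j, lam j ≠ 0 := fun j => by
      refine mul_ne_zero (pow_ne_zero _ (neg_ne_zero.2 ?_)) (by exact_mod_cast n.factorial_ne_zero)
      have a := hc δ j hδ
      rw [h10] at a
      have b : δ' δ j 1 0 ≠ 0 := fun h => by
        rw [h, mul_zero] at a
        exact NeZero.ne (N * M) (by exact_mod_cast a.symm)
      exact_mod_cast b
    let p : Fin r → ℂ := fun j => per n G (δ' δ j) 0 1
    let ψ : MvPolynomial (Fin r) ℂ →ₐ[ℂ] MvPolynomial (Fin r) ℂ := MvPolynomial.aeval fun j =>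
      MvPolynomial.C (lam j) * MvPolynomial.X j + MvPolynomial.C (p j)
    let χ : MvPolynomial (Fin r) ℂ →ₐ[ℂ] MvPolynomial (Fin r) ℂ := MvPolynomial.aeval fun j =>
      MvPolynomial.C (lam j)⁻¹ * (MvPolynomial.X j - MvPolynomial.C (p j))
    have hχ : χ.comp ψ = AlgHom.id ℂ _ := MvPolynomial.algHom_ext fun j => by
      simp only [ψ, χ, AlgHom.comp_apply, MvPolynomial.aeval_X, map_add, map_mul,
        MvPolynomial.algHom_C, MvPolynomial.algebraMap_eq, AlgHom.id_apply]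
      rw [← mul_assoc, ← map_mul, mul_inv_cancel₀ (hlam j)]; simp
    refine ⟨ψ A, fun h => hA0 ?_, ?_⟩
    · have := DFunLike.congr_fun hχ A
      rw [AlgHom.comp_apply, h, map_zero] at this
      exact this.symm
    · rintro _ ⟨γ, rfl⟩
      beta_reduce
      generalize hτ : γ • τ₁ = τ
      have k1 := PF_zero (PF_eval (g := fun j J =>
        Ei n (fun l => (G l : ℍ → ℂ) (scl (ν j) τ)) (δ' δ j 1 0) J + p j)
        (fun j => add_mem (PF_Ei n _ (PF_const _) PF_id) (PF_const _)) A)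
        (fun m => jf δ ((m : ℝ) +ᵥ τ)) (fun a b h => vadd_inj τ (by
          have h' : ((N * M : ℕ) : ℂ) ≠ 0 := by exact_mod_cast NeZero.ne (N * M)
          simp only [jf, h10, add_left_inj, Int.cast_natCast] at h
          exact mul_left_cancel₀ h' h)) (fun m => by
          have k2 := hA (δ * ModularGroup.T ^ (m : ℤ) * γ)
          rw [← hT] at k2
          rw [← k2]
          congr 2
          funext j
          rw [hτ, (hs δ j hδ _).1, ← EF_zero_one n G,
            cocycle n G hG _ (hw _ (hδ' δ j hδ)), EF_apply, ← (hs δ j hδ _).2]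
          simp only [per_scl (hq _) (hν j), zero_mul, one_mul, zero_add, jf, p]) 0
      simp only [Ei_J0] at k1
      rw [← k1, ← MvPolynomial.aeval_eq_eval, ← MvPolynomial.aeval_eq_eval, ← AlgHom.comp_apply]
      congr 1
      exact MvPolynomial.algHom_ext fun j => by simp [ψ, lam, E]
  -- second step: the homothety lemma
  let lam : SL(2, ℤ) → ℂ → ℂ := fun δ y => (δ 0 0 + -y * δ 1 0) ^ n
  let p : SL(2, ℤ) → ℂ → Fin r → ℂ := fun δ y j =>
    ((-1) ^ n * n.factorial : ℂ)⁻¹ * per n G (δ' δ j) 1 (-(ν j * y))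
  have hE : ∀ δ ∈ Gamma1 (N * M), ∀ τ j,
      E (δ • τ) j = lam δ (δ • τ : ℍ) * E τ j + p δ (δ • τ : ℍ) j := by
    intro δ hδ τ j
    have k := top_smul hG _ (hw _ (hδ' δ j hδ)) (scl (ν j) τ)
    rw [lin_eq_inv, (hs δ j hδ _).2, ← lin_eq_inv, ← (hs δ j hδ _).1, coe_scl (hν j)] at k
    exact k
  obtain ⟨l, c, hl, hlc⟩ := homothety (Set.range fun γ : SL(2, ℤ) => E (γ • τ₁)) (Set.range_nonempty _)
    {x | ∃ δ ∈ Gamma1 (N * M), ∃ t : ℍ, x = (lam δ (δ • t : ℍ), p δ (δ • t : ℍ))}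
    (by
      rintro _ ⟨δ, -, t, rfl⟩
      exact pow_ne_zero _ (by rw [lin_eq_inv]; exact inv_ne_zero (jf_ne_zero δ t)))
    (by
      rintro B hB _ ⟨δ, hδ, t, rfl⟩ _ ⟨γ, rfl⟩
      set τ := γ • τ₁ with hτ
      refine PF_zero (PF_eval (g := fun j y => lam δ y * E τ j + p δ y j) (fun j => ?_) B)
        (fun m => (δ • ((m : ℝ) +ᵥ τ) : ℍ)) (fun a b h => vadd_inj τ ?_) (fun m => ?_) _
      · exact add_mem (mul_mem (pow_mem (add_mem (PF_const _) (mul_mem (neg_mem PF_id) (PF_const _)))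
          n) (PF_const _)) (mul_mem (PF_const _) (PF_per n G _
            (neg_mem (mul_mem (PF_const _) PF_id))))
      · exact congrArg _ (smul_left_cancel δ (UpperHalfPlane.ext h))
      · rw [← hB _ ⟨δ * ModularGroup.T ^ (m : ℤ) * γ, rfl⟩]
        congr 2
        funext j
        beta_reduce
        rw [← hT, ← hτ, hE δ hδ]
        simp only [E, per_scl (hq _) (hν j)]) A' hA' hAZ
  let H : MG := ∑ j, l j • scA (ν j) (hν j) (G (n + 1)) + algebraMap ℂ MG c
  have hH : ∀ τ, (H : ℍ → ℂ) τ = ∑ j, l j * E τ j + c := fun τ => by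
    rw [← ev_apply, map_add, map_sum, AlgHom.commutes]
    simp only [map_smul]; rfl
  have hHw : IsWt (Gamma1 (N * M)) (-n) H := isWt_iff.2 fun δ hδ τ => by
    have k := hlc _ ⟨δ, hδ, τ, rfl⟩
    have k2 : jf δ τ ^ (-n : ℤ) = lam δ (δ • τ : ℍ) := by
      simp only [lam, lin_eq_inv, zpow_neg, zpow_natCast, inv_pow]
    rw [hH, hH, k2, mul_add, Finset.mul_sum]
    simp only [hE δ hδ, mul_add, Finset.sum_add_distrib, k, mul_left_comm (l _)]
    ring
  have hH0 : H = 0 := valence _ H _ 0 (by simp) hHw (by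
    have : 0 < (Gamma1 (N * M)).index := Nat.pos_of_ne_zero Subgroup.FiniteIndex.index_ne_zero
    have : 0 < n * (Gamma1 (N * M)).index := by positivity
    have : (0 : ℤ) < n * (Gamma1 (N * M)).index := by exact_mod_cast this
    simp only [Nat.cast_zero, mul_zero, neg_mul]; omega)
  refine hl (lin_indep_G hG hq hw h0 ν hν hinj n l ?_)
  have := congrArg Dm hH0
  rwa [map_add, Dm_algebraMap, add_zero, map_zero] at this


include hG hq hw h0 in
theorem Ph_ne_zero {E F : MG} (h : EP E F) (hn : 1 ≤ n) {r : ℕ} (ν : Fin r → ℕ) (hν : ∀ j, 0 < ν j)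
    (hinj : Function.Injective ν) (d D : ℕ) (a : Fin (d + 1) × (Fin r → Fin (D + 1)) → ℤ)
    (ha : a ≠ 0) : Ph E F (fun j => scA (ν j) (hν j) (G 1)) d D a ≠ 0 := by
  classical
  intro hP
  let mon : (Fin r → Fin (D + 1)) → Fin r →₀ ℕ := fun e =>
    Finsupp.equivFunOnFinite.symm fun j => (e j : ℕ)
  have hmon : Function.Injective mon := fun e e' h => funext fun j =>
    Fin.ext (congrFun (Finsupp.equivFunOnFinite.symm.injective h) j)
  let g : (Fin r → Fin (D + 1)) → MG := fun e =>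
    ∑ i : Fin (d + 1), (a (i, e) : ℂ) • (E ^ (3 * (d - (i : ℕ))) * F ^ (2 * (i : ℕ)))
  have hg : ∀ e (γ : SL(2, ℤ)) (τ : ℍ),
      (g e : ℍ → ℂ) (γ • τ) = jf γ τ ^ (12 * d) * (g e : ℍ → ℂ) τ := fun e γ τ => by
    rw [← ev_apply, ← ev_apply, map_sum, map_sum, Finset.mul_sum]
    refine Finset.sum_congr rfl fun i _ => ?_
    obtain ⟨t, ht⟩ := Nat.exists_eq_add_of_le (Nat.lt_succ_iff.1 i.2)
    simp only [map_smul, map_mul, map_pow, ev_apply, isWt_iff.1 h.wt4 γ trivial,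
      isWt_iff.1 h.wt6 γ trivial, smul_eq_mul, zpow_ofNat]
    rw [show d - i = t by omega, show 12 * d = 12 * i + 12 * t by omega]
    ring
  have hP' : ∀ τ, ∑ e, (g e : ℍ → ℂ) τ * ∏ j, (G 1 : ℍ → ℂ) (scl (ν j) τ) ^ (e j : ℕ) = 0 := by
    intro τ
    have := congrArg (ev τ) hP
    rw [Ph, Fintype.sum_prod_type_right, map_sum, map_zero] at this
    rw [← this]
    refine Finset.sum_congr rfl fun e _ => ?_
    rw [← ev_apply, map_sum, map_sum, Finset.sum_mul]
    refine Finset.sum_congr rfl fun i _ => ?_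
    simp only [map_smul, map_mul, map_pow, map_prod, ev_apply, scA_apply, smul_eq_mul]
    ring
  refine ha (funext fun e => ?_)
  have k0 : g e.2 = 0 := MG.ext fun τ => by
    have k := indep2 hG hq hw h0 hn ν hν hinj τ
      (∑ e, MvPolynomial.monomial (mon e) ((g e : ℍ → ℂ) τ)) fun γ => by
        refine mul_left_cancel₀ (pow_ne_zero (12 * d) (jf_ne_zero γ τ)) ?_
        rw [mul_zero, ← hP' (γ • τ), map_sum, Finset.mul_sum]
        refine Finset.sum_congr rfl fun e _ => ?_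
        rw [MvPolynomial.eval_monomial, Finsupp.prod_fintype _ _ (fun _ => pow_zero _), hg,
          mul_assoc]
        rfl
    have k2 := congrArg (MvPolynomial.coeff (mon e.2)) k
    simp only [MvPolynomial.coeff_sum, MvPolynomial.coeff_monomial, hmon.eq_iff,
      Finset.sum_ite_eq', Finset.mem_univ, if_true, MvPolynomial.coeff_zero] at k2
    exact k2
  have k3 : (a e : ℂ) = 0 := congrFun (h.lin_indep d _ k0) e.1
  exact_mod_cast k3

end Pool.Agent.Work.MP_db07cb_ag
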