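import Pool.Agent.Work.MP_db07cb_ag.Tay
import Mathlib.Analysis.SpecialFunctions.Complex.Analytic

/-! The local coordinate at `i`. -/

namespace Pool.Agent.Work.MP_db07cb_ag

open UpperHalfPlane hiding I
open Complex Filter Topology PowerSeries
open scoped Real

namespace OmegaAux

lemma root {e : ℂ → ℂ} {z₀ : ℂ} (he : AnalyticAt ℂ e z₀) (h0 : e z₀ ≠ 0) :
    ∃ ω : ℂ → ℂ, AnalyticAt ℂ ω z₀ ∧ e =ᶠ[𝓝 z₀] ω ^ 4 := by
  obtain ⟨c, hc⟩ := IsAlgClosed.exists_pow_nat_eq (e z₀) (n := 4) (by norm_num)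
  refine ⟨fun z => c * exp (log (e z / e z₀) / 4), ?_, ?_⟩
  · have h1 : AnalyticAt ℂ (fun z => e z / e z₀) z₀ := he.fun_div analyticAt_const h0
    have h2 : AnalyticAt ℂ (fun z => log (e z / e z₀)) z₀ :=
      h1.clog (by rw [div_self h0]; exact one_mem_slitPlane)
    have h3 : AnalyticAt ℂ (fun z => log (e z / e z₀) / 4) z₀ :=
      h2.fun_div analyticAt_const (by norm_num)
    exact analyticAt_const.mul h3.cexp'
  · filter_upwards [he.continuousAt.eventually_ne h0] with z hz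
    have h4 : exp (log (e z / e z₀) / 4) ^ 4 = e z / e z₀ := by
      rw [← Complex.exp_nat_mul]
      have : ((4 : ℕ) : ℂ) * (log (e z / e z₀) / 4) = log (e z / e z₀) := by push_cast; ring
      rw [this, exp_log (div_ne_zero hz h0)]
    simp only [Pi.pow_apply, mul_pow, hc, h4]
    field_simp

lemma hd_loc (u : MG) {z : ℂ} (hz : 0 < z.im) :
    HasDerivAt ((u : ℍ → ℂ) ∘ ofComplex) (((Dm u : MG) : ℍ → ℂ) (ofComplex z)) z := by
  have e : ofComplex z = ⟨z, hz⟩ := ofComplex_apply_of_im_pos hz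
  rw [e]
  exact hd_Dm u ⟨z, hz⟩

/-- the abstract statement -/
lemma core {e e1 e2 f f1 : ℂ → ℂ} {z₀ p : ℂ} (hp : p ≠ 0) (he : AnalyticAt ℂ e z₀)
    (hf : AnalyticAt ℂ f z₀) (h0 : e z₀ ≠ 0) (hf0 : f z₀ = 0)
    (H : ∀ᶠ z in 𝓝 z₀, HasDerivAt e (e1 z) z ∧ HasDerivAt e1 (e2 z) z ∧ HasDerivAt f (f1 z) z ∧
      4 * e z * f1 z - 6 * e1 z * f z = -2 * (2 * p) * (e z ^ 3 - f z ^ 2) ∧
      4 * e z * e2 z - 5 * e1 z ^ 2 = (2 * p) ^ 2 * (5 / 9) * (e z ^ 3 - f z ^ 2)) :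
    ∃ ω s lam : ℂ → ℂ,
    AnalyticAt ℂ ω z₀ ∧ AnalyticAt ℂ s z₀ ∧ AnalyticAt ℂ lam z₀ ∧ ω z₀ ≠ 0 ∧ lam z₀ ≠ 0 ∧
    e =ᶠ[𝓝 z₀] ω ^ 4 ∧ f =ᶠ[𝓝 z₀] s * ω ^ 6 ∧
    tay lam z₀ s = X ∧ (∀ᶠ z in 𝓝 z₀, lam z * (-p * ω z ^ 2 * (1 - s z ^ 2)) = 1) ∧
    ∀ c d : ℂ, d⁄dX ℂ ((1 - X ^ 2) * d⁄dX ℂ (tay lam z₀ fun z => (c * z + d) * ω z)) =
      (5 / 36 : ℂ) • tay lam z₀ fun z => (c * z + d) * ω z := by
  obtain ⟨ω, hω, heω⟩ := root he h0
  have hω0 : ω z₀ ≠ 0 := by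
    intro h
    apply h0
    rw [heω.eq_of_nhds]
    simp [h]
  set s : ℂ → ℂ := fun z => f z / ω z ^ 6 with hs_def
  set lam : ℂ → ℂ := fun z => (-p * ω z ^ 2 * (1 - s z ^ 2))⁻¹ with hlam_def
  have hs : AnalyticAt ℂ s z₀ := hf.fun_div (hω.fun_pow 6) (pow_ne_zero _ hω0)
  have hs0 : s z₀ = 0 := by simp [hs_def, hf0]
  have hden : AnalyticAt ℂ (fun z => -p * ω z ^ 2 * (1 - s z ^ 2)) z₀ :=
    (analyticAt_const.mul (hω.fun_pow 2)).mul (analyticAt_const.sub (hs.fun_pow 2))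
  have hden0 : -p * ω z₀ ^ 2 * (1 - s z₀ ^ 2) ≠ 0 := by
    rw [hs0]
    simp [hp, hω0]
  have hlam : AnalyticAt ℂ lam z₀ := hden.fun_inv hden0
  have hs1 : ∀ᶠ z in 𝓝 z₀, 1 - s z ^ 2 ≠ 0 :=
    (analyticAt_const.sub (hs.fun_pow 2)).continuousAt.eventually_ne (by simp [hs0])
  have hωne : ∀ᶠ z in 𝓝 z₀, ω z ≠ 0 := hω.continuousAt.eventually_ne hω0
  have hωd : ∀ᶠ z in 𝓝 z₀, HasDerivAt ω (e1 z / (4 * ω z ^ 3)) z := by
    filter_upwards [H, hωne, hω.eventually_analyticAt, heω.eventuallyEq_nhds] with z h1 h2 h3 h4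
    have h5 : HasDerivAt ω (deriv ω z) z := h3.differentiableAt.hasDerivAt
    have h6 := (h5.pow 4).congr_of_eventuallyEq h4
    have h7 := h1.1.unique h6
    refine h5.congr_deriv ?_
    rw [h7]
    field_simp
    push_cast
    ring
  have hA : dl lam s =ᶠ[𝓝 z₀] fun _ => 1 := by
    filter_upwards [H, hωne, hωd, hs1, heω] with z h1 h2 h3 h4 h5
    have h6 : HasDerivAt s _ z := h1.2.2.1.fun_div (h3.fun_pow 6) (pow_ne_zero _ h2)
    have h7 : f z = s z * ω z ^ 6 := by simp only [hs_def]; field_simp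
    have h8 := h1.2.2.2.1
    simp only [Pi.pow_apply] at h5
    simp only [dl, h6.deriv, hlam_def]
    rw [h5, h7] at h8
    rw [h7]
    field_simp
    push_cast
    apply mul_left_cancel₀ h2
    linear_combination (-1 : ℂ) * h8
  have hX : tay lam z₀ s = X := tay_eq_X hs0 hA
  refine ⟨ω, s, lam, hω, hs, hlam, hω0, inv_ne_zero hden0, heω, ?_, hX, ?_, fun c d => ?_⟩
  · filter_upwards [hωne] with z h2
    simp only [hs_def, Pi.mul_apply, Pi.pow_apply]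
    field_simp
  · filter_upwards [hden.continuousAt.eventually_ne hden0] with z hz
    exact inv_mul_cancel₀ hz
  · set y : ℂ → ℂ := fun z => (c * z + d) * ω z with hy_def
    have hlin : AnalyticAt ℂ (fun z : ℂ => c * z + d) z₀ :=
      (analyticAt_const.mul analyticAt_id).add analyticAt_const
    have hy : AnalyticAt ℂ y z₀ := hlin.mul hω
    set G : ℂ → ℂ := fun z => (c / ω z + (c * z + d) * (e1 z / (4 * ω z ^ 5))) / (-p) with hG_def
    have hld : ∀ z : ℂ, HasDerivAt (fun z : ℂ => c * z + d) c z := fun z => by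
      simpa using ((hasDerivAt_id z).const_mul c).add_const d
    have hB : ((fun _ => (1 : ℂ)) + (-1 : ℂ) • s ^ 2) * dl lam y =ᶠ[𝓝 z₀] G := by
      filter_upwards [hωne, hωd, hs1] with z h2 h3 h4
      have h6 : HasDerivAt y _ z := (hld z).fun_mul h3
      have h9 : ((fun _ => (1 : ℂ)) + (-1 : ℂ) • s ^ 2 : ℂ → ℂ) z = 1 - s z ^ 2 := by
        simp [sub_eq_add_neg]
      simp only [Pi.mul_apply, h9, dl, h6.deriv, hlam_def, hG_def]
      field_simp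
    have hC : dl lam G =ᶠ[𝓝 z₀] (5 / 36 : ℂ) • y := by
      filter_upwards [H, hωne, hωd, hs1, heω] with z h1 h2 h3 h4 h5
      have h6 : HasDerivAt G _ z :=
        (((hasDerivAt_const z c).fun_div h3 h2).fun_add ((hld z).fun_mul
          (h1.2.1.fun_div ((h3.fun_pow 5).const_mul 4)
            (mul_ne_zero (by norm_num) (pow_ne_zero _ h2))))).div_const (-p)
      have h7 : f z = s z * ω z ^ 6 := by simp only [hs_def]; field_simp
      have h8 := h1.2.2.2.2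
      simp only [Pi.pow_apply] at h5
      simp only [dl, h6.deriv, hlam_def, Pi.smul_apply, smul_eq_mul, hy_def]
      rw [h5, h7] at h8
      field_simp
      push_cast
      linear_combination (36 * (c * z + d) * ω z ^ 4) * h8
    have h1 : tay lam z₀ ((fun _ => (1 : ℂ)) + (-1 : ℂ) • s ^ 2) = 1 - X ^ 2 := by
      rw [tay_add hlam analyticAt_const ((hs.pow 2).const_smul), tay_const,
        tay_smul hlam (hs.pow 2), tay_pow hlam hs, hX]
      simp [sub_eq_add_neg]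
    rw [tay_deriv, ← h1, ← tay_mul hlam (analyticAt_const.add ((hs.pow 2).const_smul))
      (dl_analytic hlam hy), tay_congr hB, tay_deriv, tay_congr hC, tay_smul hlam hy]

end OmegaAux

theorem omega {E F : MG} (h : EP E F) : ∃ ω s lam : ℂ → ℂ,
    AnalyticAt ℂ ω I ∧ AnalyticAt ℂ s I ∧ AnalyticAt ℂ lam I ∧ ω I ≠ 0 ∧ lam I ≠ 0 ∧
    (E : ℍ → ℂ) ∘ ofComplex =ᶠ[𝓝 I] ω ^ 4 ∧ (F : ℍ → ℂ) ∘ ofComplex =ᶠ[𝓝 I] s * ω ^ 6 ∧
    tay lam I s = X ∧ (∀ᶠ z in 𝓝 I, lam z * (-(π * I) * ω z ^ 2 * (1 - s z ^ 2)) = 1) ∧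
    ∀ c d : ℂ, d⁄dX ℂ ((1 - X ^ 2) * d⁄dX ℂ (tay lam I fun z => (c * z + d) * ω z)) =
      (5 / 36 : ℂ) • tay lam I fun z => (c * z + d) * ω z := by
  have hI : ofComplex I = UpperHalfPlane.I := by
    rw [← UpperHalfPlane.coe_I, ofComplex_apply]
  have hE : AnalyticAt ℂ ((E : ℍ → ℂ) ∘ ofComplex) I := by
    simpa using (MG.hol E).analyticAt UpperHalfPlane.I
  have hF : AnalyticAt ℂ ((F : ℍ → ℂ) ∘ ofComplex) I := by
    simpa using (MG.hol F).analyticAt UpperHalfPlane.I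
  refine OmegaAux.core (e1 := ((Dm E : MG) : ℍ → ℂ) ∘ ofComplex)
    (e2 := ((Dm (Dm E) : MG) : ℍ → ℂ) ∘ ofComplex) (f1 := ((Dm F : MG) : ℍ → ℂ) ∘ ofComplex)
    (mul_ne_zero (ofReal_ne_zero.2 Real.pi_ne_zero) I_ne_zero) hE hF ?_ ?_ ?_
  · simpa [hI] using h.v4
  · simpa [hI] using h.v6
  · filter_upwards [isOpen_upperHalfPlaneSet.mem_nhds (show 0 < I.im by simp)] with z hz
    refine ⟨OmegaAux.hd_loc E hz, OmegaAux.hd_loc (Dm E) hz, OmegaAux.hd_loc F hz, ?_, ?_⟩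
    · have := congrArg (ev (ofComplex z)) h.r1
      simp only [map_sub, map_mul, map_smul, map_pow, map_ofNat, ev_apply, smul_eq_mul] at this
      simp only [Function.comp_apply]
      linear_combination this
    · have := congrArg (ev (ofComplex z)) h.r2
      simp only [map_sub, map_mul, map_smul, map_pow, map_ofNat, ev_apply, smul_eq_mul] at this
      simp only [Function.comp_apply]
      linear_combination this

end Pool.Agent.Work.MP_db07cb_ag
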