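import Pool.Agent.Work.MP_db07cb_ag.Qring
import Pool.Agent.Work.MP_db07cb_ag.Blaschke

/-! Analytic smallness of the leading coefficient and the final numerical inequality. -/

namespace Pool.Agent.Work.MP_db07cb_ag

open UpperHalfPlane hiding I
open Complex Filter Topology Metric
open scoped MatrixGroups Real

lemma small_common {r : ℕ} (F : Fin r → MG) :
    ∃ (C : ℝ) (K : ℕ), 0 ≤ C ∧ ∀ j τ, ‖(F j : ℍ → ℂ) τ‖ ≤ C * Nm τ ^ K := by
  choose C K hC hK using fun j => MG.gr (F j)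
  refine ⟨∑ j, C j, ∑ j, K j, Finset.sum_nonneg fun j _ => hC j, fun j τ => (hK j τ).trans ?_⟩
  have h1 : C j ≤ ∑ j, C j :=
    Finset.single_le_sum (f := C) (fun j _ => hC j) (Finset.mem_univ j)
  have h2 : K j ≤ ∑ j, K j :=
    Finset.single_le_sum (f := K) (fun j _ => Nat.zero_le _) (Finset.mem_univ j)
  have h3 := Nm_pos τ
  exact mul_le_mul h1 (pow_le_pow_right₀ (one_le_Nm τ) h2) (by positivity) ((hC j).trans h1)

lemma small_order {φ f : ℂ → ℂ} (hφ : DifferentiableOn ℂ φ (ball 0 1)) (τ₀ : ℍ) (M T : ℕ)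
    (hf : ∀ τ : ℍ, f τ = qf τ ^ M * φ (qf τ)) (hT : ∀ t < T, iteratedDeriv t f τ₀ = 0) :
    (T : ℕ∞) ≤ analyticOrderAt φ (qf τ₀) := by
  set g : ℂ → ℂ := fun z => exp (2 * π * I * z) with hg
  have hga : AnalyticAt ℂ g τ₀ := by rw [hg]; fun_prop
  have hg0 : g τ₀ = qf τ₀ := rfl
  have hgd : deriv g τ₀ ≠ 0 := by
    have a := ((hasDerivAt_id (τ₀ : ℂ)).const_mul (2 * π * I)).cexp
    simp only [id, mul_one] at a
    rw [hg, a.deriv]
    have : (π : ℂ) ≠ 0 := by exact_mod_cast Real.pi_pos.ne'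
    exact mul_ne_zero (exp_ne_zero _) (mul_ne_zero (mul_ne_zero two_ne_zero this) I_ne_zero)
  have hφa : AnalyticAt ℂ φ (g τ₀) := hφ.analyticAt (isOpen_ball.mem_nhds (qf_mem_ball τ₀))
  have hc : AnalyticAt ℂ (φ ∘ g) τ₀ := hφa.comp hga
  have he : f =ᶠ[𝓝 (τ₀ : ℂ)] (g ^ M) * (φ ∘ g) := by
    filter_upwards [isOpen_upperHalfPlaneSet.mem_nhds τ₀.im_pos] with z hz
    exact hf ⟨z, hz⟩
  have hp : AnalyticAt ℂ (g ^ M) τ₀ := hga.pow M
  have hfa : AnalyticAt ℂ f τ₀ := (hp.mul hc).congr he.symm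
  have h1 := (natCast_le_analyticOrderAt_iff_iteratedDeriv_eq_zero hfa).2 hT
  have h2 : analyticOrderAt (g ^ M) τ₀ = 0 :=
    hp.analyticOrderAt_eq_zero.2 (pow_ne_zero M (exp_ne_zero _))
  rw [analyticOrderAt_congr he, analyticOrderAt_mul hp hc, h2, zero_add,
    analyticOrderAt_comp_of_deriv_ne_zero hga hgd] at h1
  exact h1

lemma small_Nm (τ₀ τ : ℍ) (M : ℕ) (h1 : |τ.re| ≤ 1 / 2) (h2 : τ.im = τ₀.im / (2 * (M + 1))) :
    Nm τ ≤ 2 * (2 + τ₀.im ^ 2) / τ₀.im * (M + 1) := by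
  have hy := τ₀.im_pos
  have hM : (1 : ℝ) ≤ M + 1 := by linarith only [(Nat.cast_nonneg M : (0 : ℝ) ≤ M)]
  have h3 : τ.im ≤ τ₀.im := by
    rw [h2, div_le_iff₀ (by positivity)]; linarith only [hy, mul_nonneg_of_nonpos_of_nonpos (Mathlib.Tactic.Linarith.sub_nonpos_of_le (Mathlib.Tactic.Linarith.natCast_nonneg ℝ M)) (le_of_lt (Mathlib.Tactic.Linarith.sub_neg_of_lt hy))]
  have h4 : ‖(τ : ℂ)‖ ^ 2 = τ.re ^ 2 + τ.im ^ 2 := by
    rw [← Complex.normSq_eq_norm_sq, Complex.normSq_apply, coe_re, coe_im]; ring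
  have h5 : τ.re ^ 2 ≤ 1 := by
    rw [← sq_abs]; linarith only [h1, abs_nonneg τ.re, mul_nonneg_of_nonpos_of_nonpos (Mathlib.Tactic.Linarith.sub_nonpos_of_le h1) (Mathlib.Tactic.Linarith.sub_nonpos_of_le (abs_nonneg τ.re))]
  have h6 : τ.im ^ 2 ≤ τ₀.im ^ 2 := pow_le_pow_left₀ τ.im_pos.le h3 2
  calc Nm τ ≤ (2 + τ₀.im ^ 2) / τ.im := by
        unfold Nm
        exact div_le_div_of_nonneg_right (by linarith only [h4, h5, h6]) τ.im_pos.le
    _ = _ := by rw [h2]; field_simp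

theorem small_coeff (τ₀ : ℍ) {r : ℕ} (F : Fin r → MG) : ∃ (C : ℝ) (K : ℕ), 1 ≤ C ∧
    ∀ (D : ℕ) (a : (Fin r → Fin (D + 1)) → ℤ), (∀ e, |a e| ≤ 1) → ∀ (T M : ℕ) (β : ℂ) (w : MG),
      w ∈ Qs → ∑ e, (a e : ℂ) • ∏ j, F j ^ (e j : ℕ) = qq ^ M * (algebraMap ℂ MG β + qq * w) →
      (∀ t < T, iteratedDeriv t (fun z => ∑ e, (a e : ℂ) *
        ∏ j, ((F j : ℍ → ℂ) ∘ ofComplex) z ^ (e j : ℕ)) τ₀ = 0) →
      ‖β‖ * Real.exp (π * τ₀.im * T) ≤
        Real.exp (π * τ₀.im) * (D + 1) ^ r * (C * (M + 1) ^ K) ^ (r * D) := by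
  obtain ⟨C0, K, hC0, hK⟩ := small_common F
  have hy := τ₀.im_pos
  have hpi := Real.pi_pos
  set C1 : ℝ := 2 * (2 + τ₀.im ^ 2) / τ₀.im with hC1
  have hC1p : 0 < C1 := by positivity
  refine ⟨1 + C0 * C1 ^ K, K, le_add_of_nonneg_right (by positivity), ?_⟩
  rintro D a ha T M β w ⟨ψ, hψ, hw⟩ hsum hT
  set B : ℝ := (1 + C0 * C1 ^ K) * (M + 1) ^ K with hB
  have hM : (1 : ℝ) ≤ M + 1 := by linarith only [(Nat.cast_nonneg M : (0 : ℝ) ≤ M)]
  have hB1 : 1 ≤ B :=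
    one_le_mul_of_one_le_of_one_le (le_add_of_nonneg_right (by positivity)) (one_le_pow₀ hM)
  set φ : ℂ → ℂ := fun z => β + z * ψ z with hφ
  have hφd : DifferentiableOn ℂ φ (ball 0 1) :=
    (differentiableOn_const β).add (differentiableOn_id.mul hψ)
  have hval : ∀ τ : ℍ, ∑ e, (a e : ℂ) * ∏ j, (F j : ℍ → ℂ) τ ^ (e j : ℕ) =
      qf τ ^ M * φ (qf τ) := by
    intro τ
    have := congrArg (ev τ) hsum
    simp only [map_sum, map_smul, map_prod, map_pow, map_mul, map_add, ev_apply, smul_eq_mul,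
      AlgHom.commutes, qq_apply, hw] at this
    exact this
  have hord := small_order hφd τ₀ M T (fun τ => by
    simp only [Function.comp_apply, ofComplex_apply]; exact hval τ) hT
  set y : ℝ := τ₀.im / (2 * (M + 1)) with hyd
  have hyp : 0 < y := by positivity
  have hyl : 2 * y ≤ τ₀.im := by
    rw [hyd, ← mul_div_assoc, div_le_iff₀ (by positivity)]; linarith only [hy, mul_nonneg_of_nonpos_of_nonpos (Mathlib.Tactic.Linarith.sub_nonpos_of_le (Mathlib.Tactic.Linarith.natCast_nonneg ℝ M)) (le_of_lt (Mathlib.Tactic.Linarith.sub_neg_of_lt hy))]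
  set ρ : ℝ := Real.exp (-2 * π * y) with hρ
  have hρ0 : 0 < ρ := Real.exp_pos _
  have hρ1 : ρ < 1 := by rw [hρ, Real.exp_lt_one_iff]; linarith only [hpi, hyp, mul_pos_of_neg_of_neg (Mathlib.Tactic.Linarith.sub_neg_of_lt hpi) (Mathlib.Tactic.Linarith.sub_neg_of_lt hyp)]
  have hq : ‖qf τ₀‖ < ρ := by rw [norm_qf, hρ, Real.exp_lt_exp]; linarith only [hy, hpi, hyl, mul_pos_of_neg_of_neg (Mathlib.Tactic.Linarith.sub_neg_of_lt hy) (Mathlib.Tactic.Linarith.sub_neg_of_lt hpi), mul_nonneg_of_nonpos_of_nonpos (le_of_lt (Mathlib.Tactic.Linarith.sub_neg_of_lt hpi)) (Mathlib.Tactic.Linarith.sub_nonpos_of_le hyl)]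
  have hρM : 1 ≤ Real.exp (π * τ₀.im) * ρ ^ M := by
    rw [hρ, ← Real.exp_nat_mul, ← Real.exp_add, Real.one_le_exp_iff]
    have : 2 * y * (M + 1) = τ₀.im := by rw [hyd]; field_simp
    rw [← this]
    linarith only [hpi, hyp, mul_pos hpi hyp]
  have hbd : ∀ z, ‖z‖ = ρ → ‖φ z‖ ≤ Real.exp (π * τ₀.im) * (D + 1) ^ r * B ^ (r * D) := by
    clear * - ρ φ τ₀ D r B hρ0 hρ1 y hpi hρ M F C0 K hK C1 hC0 a ha hB1 hval hρM
    intro z hz
    obtain ⟨τ, rfl, hre⟩ := exists_qf (z := z) (by rw [← norm_pos_iff, hz]; exact hρ0)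
      (by rw [hz]; exact hρ1)
    have him : τ.im = y := by
      clear * - τ ρ hz y hpi hρ
      have := hz
      rw [norm_qf, hρ, Real.exp_eq_exp] at this
      exact mul_left_cancel₀ (by nlinarith) this
    have hN := small_Nm τ₀ τ M hre him
    have hF : ∀ j, ‖(F j : ℍ → ℂ) τ‖ ≤ B := by
      intro j
      refine (hK j τ).trans ?_
      calc C0 * Nm τ ^ K ≤ C0 * (C1 * (M + 1)) ^ K :=
            mul_le_mul_of_nonneg_left (pow_le_pow_left₀ (Nm_pos τ).le hN K) hC0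
        _ = C0 * C1 ^ K * (M + 1) ^ K := by rw [mul_pow, mul_assoc]
        _ ≤ B := mul_le_mul_of_nonneg_right (by linarith only [hρ0, hρ1]) (by positivity)
    have hterm : ∀ e : Fin r → Fin (D + 1),
        ‖(a e : ℂ) * ∏ j, (F j : ℍ → ℂ) τ ^ (e j : ℕ)‖ ≤ B ^ (r * D) := by
      intro e
      rw [norm_mul, norm_prod]
      have h1 : ‖(a e : ℂ)‖ ≤ 1 := by
        rw [Complex.norm_intCast]; exact_mod_cast ha e
      have h2 : ∏ j, ‖(F j : ℍ → ℂ) τ ^ (e j : ℕ)‖ ≤ ∏ _j : Fin r, B ^ D := by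
        refine Finset.prod_le_prod (fun j _ => norm_nonneg _) fun j _ => ?_
        rw [norm_pow]
        exact (pow_le_pow_left₀ (norm_nonneg _) (hF j) _).trans
          (pow_le_pow_right₀ hB1 (Nat.lt_succ_iff.1 (e j).2))
      rw [Finset.prod_const, Finset.card_univ, Fintype.card_fin, ← pow_mul, mul_comm D r] at h2
      calc _ ≤ 1 * B ^ (r * D) :=
            mul_le_mul h1 h2 (Finset.prod_nonneg fun j _ => norm_nonneg _) zero_le_one
        _ = _ := one_mul _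
    have hs : ρ ^ M * ‖φ (qf τ)‖ ≤ (D + 1) ^ r * B ^ (r * D) := by
      rw [← hz, ← norm_pow, ← norm_mul, ← hval]
      refine (norm_sum_le _ _).trans ((Finset.sum_le_sum fun e _ => hterm e).trans ?_)
      rw [Finset.sum_const, Finset.card_univ, Fintype.card_fun, Fintype.card_fin, Fintype.card_fin,
        nsmul_eq_mul]
      push_cast
      exact le_rfl
    calc ‖φ (qf τ)‖ ≤ (Real.exp (π * τ₀.im) * ρ ^ M) * ‖φ (qf τ)‖ :=
          le_mul_of_one_le_left (norm_nonneg _) hρM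
      _ = Real.exp (π * τ₀.im) * (ρ ^ M * ‖φ (qf τ)‖) := by ring
      _ ≤ Real.exp (π * τ₀.im) * ((D + 1) ^ r * B ^ (r * D)) :=
          mul_le_mul_of_nonneg_left hs (Real.exp_pos _).le
      _ = _ := by ring
  have key := blaschke φ hφd (qf τ₀) (qf_ne_zero τ₀) ρ hq hρ1 T hord _ hbd
  have hφ0 : φ 0 = β := by simp [hφ]
  rw [hφ0] at key
  refine le_trans (mul_le_mul_of_nonneg_left ?_ (norm_nonneg β)) key
  rw [mul_comm _ (T : ℝ), Real.exp_nat_mul]
  refine pow_le_pow_left₀ (Real.exp_pos _).le ?_ T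
  rw [norm_qf, hρ, ← Real.exp_sub, Real.exp_le_exp]
  linarith only [hpi, hyl, mul_nonneg_of_nonpos_of_nonpos (le_of_lt (Mathlib.Tactic.Linarith.sub_neg_of_lt hpi)) (Mathlib.Tactic.Linarith.sub_nonpos_of_le hyl)]

theorem final_ineq (α c₁ c₂ : ℝ) (hα : 0 < α) (h1 : 1 ≤ c₁) (h2 : 1 ≤ c₂) (r d A K K' : ℕ) :
    ∃ (D₀ : ℕ) (α' : ℝ), 0 < α' ∧ ∀ D ≥ D₀, ∀ (L M : ℕ) (x : ℝ), 0 < L → M ≤ D ^ A → 0 ≤ x →
      x * Real.exp (α * (D ^ 2 : ℕ)) ≤ Real.exp α * (D + 1) ^ r * (c₁ * (M + 1) ^ K) ^ (r * D) →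
      1 ≤ x * (2 * L * c₂ * (M + 1 : ℝ) ^ K') ^ (r * D * d) → α' * D ≤ Real.log L := by
  have l1 : 0 ≤ Real.log c₁ := Real.log_nonneg h1
  have l2 : 0 ≤ Real.log c₂ := Real.log_nonneg h2
  have l3 : 0 ≤ Real.log 2 := Real.log_nonneg one_le_two
  set u : ℝ := α + r * Real.log c₁ + r * d * (Real.log 2 + Real.log c₂) with hu
  set v : ℝ := r + r * K * (A + 1) + r * d * K' * (A + 1) with hv
  have hu0 : 0 < u := by positivity
  have hv0 : 0 ≤ v := by positivity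
  set c : ℝ := u + v with hc
  have hc0 : 0 < c := by positivity
  set ε : ℝ := α / (4 * c) with hε
  have hε0 : 0 < ε := by clear * - α c hα u v r c₁ d c₂ l1 l2 K A K'; positivity
  refine ⟨max 1 ⌈1 - 4 * c * Real.log ε / α⌉₊, α / (2 * (r * d + 1)), by positivity, ?_⟩
  intro D hD L M x hL hM hx hA hB
  have hD1 : 1 ≤ D := le_of_max_le_left hD
  have hD1' : (1 : ℝ) ≤ D := by exact_mod_cast hD1
  have hD2 : 1 - 4 * c * Real.log ε / α ≤ D := Nat.ceil_le.1 (le_of_max_le_right hD)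
  have hL1 : (1 : ℝ) ≤ L := by exact_mod_cast hL
  have lL : 0 ≤ Real.log L := Real.log_nonneg hL1
  set ℓ : ℝ := Real.log (D + 1) with hℓ
  have hℓ0 : 0 ≤ ℓ := Real.log_nonneg (by linarith only [hD1'])
  have hM1 : M + 1 ≤ (D + 1) ^ (A + 1) := by
    clear * - D A M hM hD1
    have a : D ^ A ≤ (D + 1) ^ A := Nat.pow_le_pow_left (Nat.le_succ D) A
    have b : 1 ≤ (D + 1) ^ A := Nat.one_le_pow _ _ (Nat.succ_pos D)
    rw [pow_succ]
    nlinarith only [hM, hD1, a, b]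
  have hM0 : (0 : ℝ) < M + 1 := by positivity
  have hm : Real.log (M + 1) ≤ (A + 1) * ℓ := by
    have : (M + 1 : ℝ) ≤ (D + 1) ^ (A + 1) := by exact_mod_cast hM1
    have := Real.log_le_log hM0 this
    rwa [Real.log_pow, Nat.cast_add, Nat.cast_one] at this
  have hm0 : 0 ≤ Real.log (M + 1) :=
    Real.log_nonneg (by linarith only [(Nat.cast_nonneg M : (0 : ℝ) ≤ M)])
  have hc1 : 0 < c₁ := by linarith only [h1]
  have hc2 : 0 < c₂ := by linarith only [h2]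
  have hL0 : (0 : ℝ) < L := by linarith only [hL1]
  have hcomb : Real.exp (α * (D ^ 2 : ℕ)) ≤ (Real.exp α * (D + 1) ^ r *
      (c₁ * (M + 1) ^ K) ^ (r * D)) * (2 * L * c₂ * (M + 1 : ℝ) ^ K') ^ (r * D * d) := by
    calc Real.exp (α * (D ^ 2 : ℕ))
        ≤ (x * (2 * L * c₂ * (M + 1 : ℝ) ^ K') ^ (r * D * d)) * Real.exp (α * (D ^ 2 : ℕ)) :=
          le_mul_of_one_le_left (Real.exp_pos _).le hB
      _ = (x * Real.exp (α * (D ^ 2 : ℕ))) * (2 * L * c₂ * (M + 1 : ℝ) ^ K') ^ (r * D * d) := by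
          ring
      _ ≤ _ := mul_le_mul_of_nonneg_right hA (by positivity)
  have hlog := Real.log_le_log (Real.exp_pos _) hcomb
  rw [Real.log_exp, Real.log_mul (by positivity) (by positivity),
    Real.log_mul (by positivity) (by positivity), Real.log_mul (by positivity) (by positivity),
    Real.log_exp, Real.log_pow, Real.log_pow, Real.log_pow,
    Real.log_mul (by positivity) (by positivity), Real.log_mul (by positivity) (by positivity),
    Real.log_mul (by positivity) (by positivity), Real.log_mul (by positivity) (by positivity),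
    Real.log_pow, Real.log_pow, ← hℓ] at hlog
  push_cast at hlog
  have hr : (0 : ℝ) ≤ r := Nat.cast_nonneg r
  have hd : (0 : ℝ) ≤ d := Nat.cast_nonneg d
  have e1 : α + r * ℓ ≤ D * (α + r * ℓ) := le_mul_of_one_le_left (by positivity) hD1'
  have e2 : r * D * (K * Real.log (M + 1)) ≤ r * D * (K * ((A + 1) * ℓ)) := by clear * - r D K M A ℓ hm hD1; gcongr
  have e3 : r * D * d * (K' * Real.log (M + 1)) ≤ r * D * d * (K' * ((A + 1) * ℓ)) := by clear * - r D d K' M A ℓ hm hD1; gcongr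
  have e4 : D * (α * D) ≤ D * (u + v * ℓ + r * d * Real.log L) := by
    rw [hu, hv]; linarith only [hlog, e1, e2, e3]
  have e5 : α * D ≤ u + v * ℓ + r * d * Real.log L :=
    le_of_mul_le_mul_left e4 (by linarith only [hD1'])
  have e6 : u + v * ℓ ≤ c * (1 + ℓ) := by rw [hc]; linarith only [hv0, hu0, hℓ0, mul_nonneg hu0.le hℓ0]
  have e7 : 1 + ℓ ≤ ε * (D + 1) - Real.log ε := by
    clear * - ε D α c hα u v r c₁ d c₂ l1 l2 K A K' hD1 ℓ hℓ hε0 x
    have := Real.log_le_sub_one_of_pos (x := ε * (D + 1)) (by positivity)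
    rw [Real.log_mul hε0.ne' (by positivity), ← hℓ] at this
    linarith only [this]
  have e8 : c * (1 + ℓ) ≤ α * D / 2 := by
    clear * - c ε α hε hc0 hα D hD2 ℓ e7 r c₁ d c₂ A K' K u v
    have a : c * ε = α / 4 := by rw [hε]; field_simp
    have b : α - 4 * c * Real.log ε ≤ α * D := by
      have := mul_le_mul_of_nonneg_left hD2 hα.le
      rwa [mul_sub, mul_one, mul_div_cancel₀ _ hα.ne'] at this
    calc c * (1 + ℓ) ≤ c * (ε * (D + 1) - Real.log ε) := mul_le_mul_of_nonneg_left e7 hc0.le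
      _ = α / 4 * (D + 1) - c * Real.log ε := by rw [← a]; ring
      _ ≤ _ := by linarith only [b]
  rw [div_mul_eq_mul_div, div_le_iff₀ (by positivity)]
  linarith only [lL, e5, e6, e8]

end Pool.Agent.Work.MP_db07cb_ag
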