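import Pool.Agent.Work.MP_db07cb_ag.Defs2
import Pool.Agent.Work.MP_db07cb_ag.Small

/-! Analytic bounds and the final numerical inequality. -/

namespace Pool.Agent.Work.MP_db07cb_ag

open UpperHalfPlane hiding I
open Complex
open scoped MatrixGroups Real

theorem small2 (u : MG) (τ₀ : ℍ) (y B : ℝ) (hy : 0 < y) (hy2 : 2 * y ≤ τ₀.im)
    (hB : ∀ τ : ℍ, τ.im = y → |τ.re| ≤ 1 / 2 → ‖(u : ℍ → ℂ) τ‖ ≤ B) (M T : ℕ) (β : ℂ) (w : MG)
    (hw : w ∈ Qs) (e : u = qq ^ M * (algebraMap ℂ MG β + qq * w))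
    (hT : (T : ℕ∞) ≤ analyticOrderAt ((u : ℍ → ℂ) ∘ ofComplex) τ₀) :
    ‖β‖ * Real.exp (π * τ₀.im * T) ≤ Real.exp (2 * π * y * M) * B := by
  obtain ⟨ψ, hψ, hw⟩ := hw
  have hpi := Real.pi_pos
  set φ : ℂ → ℂ := fun z => β + z * ψ z with hφ
  have hφd : DifferentiableOn ℂ φ (Metric.ball 0 1) :=
    (differentiableOn_const β).add (differentiableOn_id.mul hψ)
  have hval : ∀ τ : ℍ, (u : ℍ → ℂ) τ = qf τ ^ M * φ (qf τ) := by
    intro τ
    have := congrArg (ev τ) e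
    simp only [map_pow, map_mul, map_add, ev_apply, AlgHom.commutes, qq_apply, hw] at this
    exact this
  have hord := small_order (f := (u : ℍ → ℂ) ∘ ofComplex) hφd τ₀ M T (fun τ => by
    simp only [Function.comp_apply, ofComplex_apply]; exact hval τ)
    ((natCast_le_analyticOrderAt_iff_iteratedDeriv_eq_zero ((MG.hol u).analyticAt τ₀)).1 hT)
  set ρ : ℝ := Real.exp (-2 * π * y) with hρ
  have hρ0 : 0 < ρ := Real.exp_pos _
  have hρ1 : ρ < 1 := by rw [hρ, Real.exp_lt_one_iff]; linarith only [hy, hpi, mul_pos_of_neg_of_neg (Mathlib.Tactic.Linarith.sub_neg_of_lt hy) (Mathlib.Tactic.Linarith.sub_neg_of_lt hpi)]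
  have hq : ‖qf τ₀‖ < ρ := by rw [norm_qf, hρ, Real.exp_lt_exp]; linarith only [hy, hpi, hy2, mul_pos_of_neg_of_neg (Mathlib.Tactic.Linarith.sub_neg_of_lt hy) (Mathlib.Tactic.Linarith.sub_neg_of_lt hpi), mul_nonneg_of_nonpos_of_nonpos (Mathlib.Tactic.Linarith.sub_nonpos_of_le hy2) (le_of_lt (Mathlib.Tactic.Linarith.sub_neg_of_lt hpi))]
  have hρM : Real.exp (2 * π * y * M) * ρ ^ M = 1 := by
    rw [hρ, ← Real.exp_nat_mul, ← Real.exp_add, Real.exp_eq_one_iff]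
    ring
  have hbd : ∀ z, ‖z‖ = ρ → ‖φ z‖ ≤ Real.exp (2 * π * y * M) * B := by
    intro z hz
    obtain ⟨τ, rfl, hre⟩ := exists_qf (z := z) (by rw [← norm_pos_iff, hz]; exact hρ0)
      (by rw [hz]; exact hρ1)
    have him : τ.im = y := by
      have := hz
      rw [norm_qf, hρ, Real.exp_eq_exp] at this
      exact mul_left_cancel₀ (by nlinarith) this
    have hs : ρ ^ M * ‖φ (qf τ)‖ ≤ B := by
      rw [← hz, ← norm_pow, ← norm_mul, ← hval]
      exact hB τ him hre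
    calc ‖φ (qf τ)‖ = (Real.exp (2 * π * y * M) * ρ ^ M) * ‖φ (qf τ)‖ := by rw [hρM, one_mul]
      _ = Real.exp (2 * π * y * M) * (ρ ^ M * ‖φ (qf τ)‖) := by ring
      _ ≤ _ := mul_le_mul_of_nonneg_left hs (Real.exp_pos _).le
  have key := blaschke φ hφd (qf τ₀) (qf_ne_zero τ₀) ρ hq hρ1 T hord _ hbd
  have hφ0 : φ 0 = β := by simp [hφ]
  rw [hφ0] at key
  refine le_trans (mul_le_mul_of_nonneg_left ?_ (norm_nonneg β)) key
  rw [mul_comm _ (T : ℝ), Real.exp_nat_mul]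
  refine pow_le_pow_left₀ (Real.exp_pos _).le ?_ T
  rw [norm_qf, hρ, ← Real.exp_sub, Real.exp_le_exp]
  linarith only [hy2, hpi, mul_nonneg_of_nonpos_of_nonpos (Mathlib.Tactic.Linarith.sub_nonpos_of_le hy2) (le_of_lt (Mathlib.Tactic.Linarith.sub_neg_of_lt hpi))]

namespace Small2

lemma common {ι : Type} [Fintype ι] (F : ι → MG) :
    ∃ (C : ℝ) (K : ℕ), 0 ≤ C ∧ ∀ j τ, ‖(F j : ℍ → ℂ) τ‖ ≤ C * Nm τ ^ K := by
  obtain ⟨C, K, hC, h⟩ := small_common (fun j => F ((Fintype.equivFin ι).symm j))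
  exact ⟨C, K, hC, fun j τ => by simpa using h (Fintype.equivFin ι j) τ⟩

lemma Nm_le (τ : ℍ) (h1 : τ.im ≤ 1) (h2 : |τ.re| ≤ 1 / 2) : Nm τ ≤ 3 / τ.im := by
  have h4 : ‖(τ : ℂ)‖ ^ 2 = τ.re ^ 2 + τ.im ^ 2 := by
    rw [← Complex.normSq_eq_norm_sq, Complex.normSq_apply, coe_re, coe_im]; ring
  have h5 : τ.re ^ 2 ≤ 1 := by
    rw [← sq_abs]; linarith only [h2, abs_nonneg τ.re, mul_nonneg_of_nonpos_of_nonpos (Mathlib.Tactic.Linarith.sub_nonpos_of_le h2) (Mathlib.Tactic.Linarith.sub_nonpos_of_le (abs_nonneg τ.re))]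
  have h6 : τ.im ^ 2 ≤ 1 := by linarith only [h1, τ.im_pos, mul_nonneg_of_nonpos_of_nonpos (Mathlib.Tactic.Linarith.sub_nonpos_of_le h1) (le_of_lt (Mathlib.Tactic.Linarith.sub_neg_of_lt (im_pos τ)))]
  unfold Nm
  exact div_le_div_of_nonneg_right (by linarith only [h4, h5, h6]) τ.im_pos.le

lemma thr (α c : ℝ) (hα : 0 < α) (hc : 0 < c) :
    ∃ D₁ : ℕ, 1 ≤ D₁ ∧ ∀ D ≥ D₁, c * (1 + Real.log (D : ℝ)) ≤ α * D / 2 := by
  set ε : ℝ := α / (4 * c) with hε
  have hε0 : 0 < ε := by positivity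
  refine ⟨max 1 ⌈-4 * c * Real.log ε / α⌉₊, le_max_left _ _, fun D hD => ?_⟩
  have hD1 : (1 : ℝ) ≤ D := by exact_mod_cast le_of_max_le_left hD
  have hD2 : -4 * c * Real.log ε / α ≤ D := Nat.ceil_le.1 (le_of_max_le_right hD)
  have e7 : 1 + Real.log D ≤ ε * D - Real.log ε := by
    have := Real.log_le_sub_one_of_pos (x := ε * D) (by positivity)
    rw [Real.log_mul hε0.ne' (by positivity)] at this
    linarith only [this]
  have a : c * ε = α / 4 := by rw [hε]; field_simp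
  rw [div_le_iff₀ hα] at hD2
  calc c * (1 + Real.log D) ≤ c * (ε * D - Real.log ε) := mul_le_mul_of_nonneg_left e7 hc.le
    _ = α / 4 * D - c * Real.log ε := by rw [← a]; ring
    _ ≤ _ := by linarith only [hD2]

end Small2

theorem Ph_bound (E F : MG) {ι : Type} [Fintype ι] {r : ℕ} (u : ι → Fin r → MG) :
    ∃ (C : ℝ) (K : ℕ), 1 ≤ C ∧ ∀ (i : ι) (d D H : ℕ)
      (a : Fin (d + 1) × (Fin r → Fin (D + 1)) → ℤ), (∀ e, (a e).natAbs ≤ H) →
      ∀ τ : ℍ, τ.im ≤ 1 → |τ.re| ≤ 1 / 2 → ‖(Ph E F (u i) d D a : ℍ → ℂ) τ‖ ≤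
        (d + 1) * (D + 1) ^ r * H * (C / τ.im ^ K) ^ (3 * d + r * D) := by
  obtain ⟨C0, K, hC0, hK⟩ := Small2.common (ι := Bool ⊕ (ι × Fin r))
    (Sum.elim (fun b => cond b E F) fun p => u p.1 p.2)
  refine ⟨max 1 (C0 * 3 ^ K), K, le_max_left _ _, fun i d D H a ha τ h1 h2 => ?_⟩
  have hp := τ.im_pos
  set B : ℝ := max 1 (C0 * 3 ^ K) / τ.im ^ K with hB
  have hB1 : 1 ≤ B := by
    rw [hB, le_div_iff₀ (by positivity), one_mul]
    exact (pow_le_one₀ hp.le h1).trans (le_max_left _ _)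
  have hN : C0 * Nm τ ^ K ≤ B := by
    calc C0 * Nm τ ^ K ≤ C0 * (3 / τ.im) ^ K :=
          mul_le_mul_of_nonneg_left (pow_le_pow_left₀ (Nm_pos τ).le (Small2.Nm_le τ h1 h2) K) hC0
      _ = C0 * 3 ^ K / τ.im ^ K := by rw [div_pow, mul_div_assoc]
      _ ≤ B := div_le_div_of_nonneg_right (le_max_right _ _) (by positivity)
  have hE : ‖(E : ℍ → ℂ) τ‖ ≤ B := (hK (Sum.inl true) τ).trans hN
  have hF : ‖(F : ℍ → ℂ) τ‖ ≤ B := (hK (Sum.inl false) τ).trans hN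
  have hu : ∀ j, ‖(u i j : ℍ → ℂ) τ‖ ≤ B := fun j => (hK (Sum.inr (i, j)) τ).trans hN
  have hval : (Ph E F (u i) d D a : ℍ → ℂ) τ = ∑ e : Fin (d + 1) × (Fin r → Fin (D + 1)),
      (a e : ℂ) * ((E : ℍ → ℂ) τ ^ (3 * (d - (e.1 : ℕ))) * (F : ℍ → ℂ) τ ^ (2 * (e.1 : ℕ)) *
        ∏ j, (u i j : ℍ → ℂ) τ ^ (e.2 j : ℕ)) := by
    rw [← ev_apply, Ph]
    simp only [map_sum, map_smul, map_prod, map_pow, map_mul, ev_apply, smul_eq_mul]
  have hterm : ∀ e : Fin (d + 1) × (Fin r → Fin (D + 1)),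
      ‖(a e : ℂ) * ((E : ℍ → ℂ) τ ^ (3 * (d - (e.1 : ℕ))) * (F : ℍ → ℂ) τ ^ (2 * (e.1 : ℕ)) *
        ∏ j, (u i j : ℍ → ℂ) τ ^ (e.2 j : ℕ))‖ ≤ H * B ^ (3 * d + r * D) := by
    intro e
    rw [norm_mul, norm_mul, norm_mul, norm_prod, norm_pow, norm_pow]
    have h1 : ‖(a e : ℂ)‖ ≤ H := by
      rw [Complex.norm_intCast, ← Int.cast_abs, Int.abs_eq_natAbs]
      exact_mod_cast ha e
    have h2 : ∏ j, ‖(u i j : ℍ → ℂ) τ ^ (e.2 j : ℕ)‖ ≤ ∏ _j : Fin r, B ^ D := by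
      refine Finset.prod_le_prod (fun j _ => norm_nonneg _) fun j _ => ?_
      rw [norm_pow]
      exact (pow_le_pow_left₀ (norm_nonneg _) (hu j) _).trans
        (pow_le_pow_right₀ hB1 (Nat.lt_succ_iff.1 (e.2 j).2))
    rw [Finset.prod_const, Finset.card_univ, Fintype.card_fin, ← pow_mul, mul_comm D r] at h2
    have h3 : ‖(E : ℍ → ℂ) τ‖ ^ (3 * (d - (e.1 : ℕ))) * ‖(F : ℍ → ℂ) τ‖ ^ (2 * (e.1 : ℕ)) ≤
        B ^ (3 * d) := by
      have he := Nat.lt_succ_iff.1 e.1.2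
      calc _ ≤ B ^ (3 * (d - (e.1 : ℕ))) * B ^ (2 * (e.1 : ℕ)) :=
            mul_le_mul (pow_le_pow_left₀ (norm_nonneg _) hE _)
              (pow_le_pow_left₀ (norm_nonneg _) hF _) (by positivity) (by positivity)
        _ = B ^ (3 * (d - (e.1 : ℕ)) + 2 * (e.1 : ℕ)) := (pow_add _ _ _).symm
        _ ≤ _ := pow_le_pow_right₀ hB1 (by omega)
    refine mul_le_mul h1 ?_ (by positivity) (Nat.cast_nonneg H)
    rw [pow_add]
    exact mul_le_mul h3 h2 (Finset.prod_nonneg fun j _ => norm_nonneg _) (by positivity)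
  rw [hval]
  refine (norm_sum_le _ _).trans ((Finset.sum_le_sum fun e _ => hterm e).trans ?_)
  rw [Finset.sum_const, Finset.card_univ, Fintype.card_prod, Fintype.card_fun, Fintype.card_fin,
    Fintype.card_fin, Fintype.card_fin, nsmul_eq_mul]
  push_cast
  exact le_of_eq (by ring)

theorem final_ineq2 (α C η : ℝ) (hα : 0 < α) (hC : 1 ≤ C) (hη : 0 < η) (hη1 : η ≤ 1)
    (r g A K C' : ℕ) : ∃ D₁ : ℕ, ∀ D ≥ D₁, ∃ α' : ℝ, 0 < α' ∧ ∀ d ≥ D, ∀ L M : ℕ, 0 < L →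
      M ≤ D ^ A * d → ∀ b Z : ℝ, 0 ≤ b → Z = Real.exp (2 * π * (η / D ^ A) * M) *
        ((d + 1) * (D + 1) ^ r * (C' ^ d : ℕ) * (C / (η / D ^ A) ^ K) ^ (3 * d + r * D)) →
      b * Real.exp (α * (D * d : ℕ)) ≤ Z → 1 ≤ b * (L ^ (r * D) * max Z 1) ^ g →
      α' * d ≤ Real.log L := by
  have hpi := Real.pi_pos
  have l1 : 0 ≤ Real.log C := Real.log_nonneg hC
  have l2 : 0 ≤ -Real.log η := neg_nonneg.2 (Real.log_nonpos hη.le hη1)
  set w₀ : ℝ := Real.log C + K * (-Real.log η) with hw₀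
  have hw0 : 0 ≤ w₀ := by positivity
  set c : ℝ := 2 * π + 1 + r + C' + (r + 3) * (w₀ + K * A) with hc
  have hc0 : 0 < c := by positivity
  obtain ⟨D₁, hD₁, hthr⟩ := Small2.thr α ((g + 1) * c) hα (by positivity)
  refine ⟨D₁, fun D hD => ⟨α / (2 * (r * g + 1)), by positivity, ?_⟩⟩
  intro d hd L M hL hM b Z hb hZ hA hB
  have hD1 : (1 : ℝ) ≤ D := by exact_mod_cast hD₁.trans hD
  have hdD : (D : ℝ) ≤ d := by exact_mod_cast hd
  have hD0 : (0 : ℝ) < D := by linarith only [hD1]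
  have hd0 : (0 : ℝ) < d := by linarith only [hD1, hdD]
  have hL1 : (1 : ℝ) ≤ L := by exact_mod_cast hL
  have lL : 0 ≤ Real.log L := Real.log_nonneg hL1
  have ht := hthr D hD
  set ℓ : ℝ := Real.log D with hℓ
  have hℓ0 : 0 ≤ ℓ := Real.log_nonneg hD1
  have hr : (0 : ℝ) ≤ r := Nat.cast_nonneg r
  have a1 : 2 * π * (η / D ^ A) * M ≤ 2 * π * d := by
    clear * - M D A d hM hD1 η hη1 hd0
    have hM' : (M : ℝ) ≤ D ^ A * d := by exact_mod_cast hM
    have hDA : (0 : ℝ) < D ^ A := by positivity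
    calc 2 * π * (η / D ^ A) * M ≤ 2 * π * (1 / D ^ A) * (D ^ A * d) := by gcongr
      _ = _ := by field_simp
  have a2 : (d + 1 : ℝ) ≤ Real.exp d := Real.add_one_le_exp _
  have a3 : (D + 1 : ℝ) ^ r ≤ Real.exp (r * d) := by
    rw [Real.exp_nat_mul]
    exact pow_le_pow_left₀ (by positivity)
      ((Real.add_one_le_exp _).trans (Real.exp_le_exp.2 hdD)) r
  have a4 : ((C' ^ d : ℕ) : ℝ) ≤ Real.exp (C' * d) := by
    rw [mul_comm, Real.exp_nat_mul, Nat.cast_pow]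
    exact pow_le_pow_left₀ (by positivity) (by linarith only [Real.add_one_le_exp (C' : ℝ)]) d
  have a5 : C / (η / D ^ A) ^ K = Real.exp (w₀ + K * A * ℓ) := by
    rw [← Real.exp_log (x := C / (η / D ^ A) ^ K) (by positivity),
      Real.log_div (by positivity) (by positivity), Real.log_pow,
      Real.log_div (by positivity) (by positivity), Real.log_pow, hw₀]
    congr 1
    ring
  have a6 : (C / (η / D ^ A) ^ K) ^ (3 * d + r * D) ≤
      Real.exp ((r + 3) * d * (w₀ + K * A * ℓ)) := by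
    clear * - C η D A K d r w₀ ℓ a5 hdD l1 l2
    rw [a5, ← Real.exp_nat_mul, Real.exp_le_exp]
    refine mul_le_mul_of_nonneg_right ?_ (by positivity)
    push_cast
    linarith only [hdD, mul_nonneg_of_nonpos_of_nonpos (Mathlib.Tactic.Linarith.sub_nonpos_of_le (Mathlib.Tactic.Linarith.natCast_nonneg ℝ r)) (Mathlib.Tactic.Linarith.sub_nonpos_of_le hdD)]
  set S : ℝ := c * d * (1 + ℓ) with hS
  have hS0 : 0 ≤ S := by clear * - S c d ℓ r C' w₀ K A C η l1 l2 hd0 D; positivity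
  have hZS : Z ≤ Real.exp S := by
    clear * - Z d r C' w₀ K A ℓ S η D M C hZ a1 a2 a3 hD1 a4 a6 hC hη hd0 c hS l1 l2 hc
    calc Z ≤ Real.exp (2 * π * d) * (Real.exp d * Real.exp (r * d) * Real.exp (C' * d) *
          Real.exp ((r + 3) * d * (w₀ + K * A * ℓ))) := by
          rw [hZ]
          gcongr
      _ = Real.exp (d * (2 * π + 1 + r + C' + (r + 3) * (w₀ + K * A * ℓ))) := by
          simp only [← Real.exp_add]
          congr 1
          ring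
      _ ≤ _ := by
          clear * - d r C' w₀ K A ℓ S c hS C η l1 l2 D hc hd0
          rw [Real.exp_le_exp, hS, mul_comm c, mul_assoc (d : ℝ) c]
          refine mul_le_mul_of_nonneg_left ?_ hd0.le
          have b1 : 0 ≤ (2 * π + 1 + r + C' + (r + 3) * w₀) * ℓ := by positivity
          have b2 : (0 : ℝ) ≤ (r + 3) * (K * A) := by positivity
          have b3 : c * (1 + ℓ) = 2 * π + 1 + r + C' + (r + 3) * (w₀ + K * A * ℓ) +
              (2 * π + 1 + r + C' + (r + 3) * w₀) * ℓ + (r + 3) * (K * A) := by rw [hc]; ring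
          linarith only [b1, b2]
  have hmax : max Z 1 ≤ Real.exp S := max_le hZS (Real.one_le_exp hS0)
  have hLe : (L : ℝ) ^ (r * D) = Real.exp ((r * D : ℕ) * Real.log L) := by
    rw [Real.exp_nat_mul, Real.exp_log (by linarith only [hL1])]
  have hcomb : Real.exp (α * (D * d : ℕ)) ≤
      Real.exp (S + g * ((r * D : ℕ) * Real.log L + S)) := by
    clear * - α D d S L r g b Z hB hA hZS hL hmax hLe
    calc Real.exp (α * (D * d : ℕ))
        ≤ (b * (L ^ (r * D) * max Z 1) ^ g) * Real.exp (α * (D * d : ℕ)) :=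
          le_mul_of_one_le_left (Real.exp_pos _).le hB
      _ = (b * Real.exp (α * (D * d : ℕ))) * (L ^ (r * D) * max Z 1) ^ g := by ring
      _ ≤ Real.exp S * (L ^ (r * D) * Real.exp S) ^ g := by
          have : (0 : ℝ) ≤ max Z 1 := le_max_of_le_right zero_le_one
          exact mul_le_mul (hA.trans hZS) (by gcongr) (by positivity) (Real.exp_pos _).le
      _ = _ := by rw [hLe, ← Real.exp_add, ← Real.exp_nat_mul, ← Real.exp_add]
  rw [Real.exp_le_exp] at hcomb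
  push_cast at hcomb
  have e1 : (g + 1) * S ≤ d * (α * D / 2) := by
    calc (g + 1) * S = d * ((g + 1) * c * (1 + ℓ)) := by rw [hS]; ring
      _ ≤ _ := mul_le_mul_of_nonneg_left ht hd0.le
  have e2 : D * (α * d / 2) ≤ D * (r * g * Real.log L) := by clear * - D α d r g L S C ℓ K η A C' c w₀ hcomb e1; linarith only [hcomb, e1]
  have e3 := le_of_mul_le_mul_left e2 hD0
  rw [div_mul_eq_mul_div, div_le_iff₀ (by positivity)]
  linarith only [lL, e3]

end Pool.Agent.Work.MP_db07cb_ag
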