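import Pool.Agent.Work.MP_db07cb_ag.ZeroEst
import Mathlib.RingTheory.Finiteness.Subalgebra

/-! Polynomial bound for the order at infinity of the auxiliary function. -/

namespace Pool.Agent.Work.MP_db07cb_ag

open UpperHalfPlane hiding I
open scoped MatrixGroups

lemma pow_le_span (S : Finset MG) (m : ℕ) : Submodule.span ℂ (S : Set MG) ^ m ≤
    Submodule.span ℂ (Set.range fun e : S → Fin (m + 1) => ∏ s : S, (s : MG) ^ (e s : ℕ)) := by
  classical
  induction m with
  | zero =>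
    rw [pow_zero, Submodule.one_le]
    exact Submodule.subset_span ⟨0, by simp⟩
  | succ m ih =>
    rw [pow_succ]
    refine (mul_le_mul_left ih _).trans ?_
    rw [Submodule.span_mul_span, Submodule.span_le]
    rintro _ ⟨_, ⟨e, rfl⟩, t, ht, rfl⟩
    refine Submodule.subset_span ⟨fun s => if s = ⟨t, ht⟩ then (e s).succ else (e s).castSucc, ?_⟩
    have : ∀ s : S, (s : MG) ^ ((if s = ⟨t, ht⟩ then (e s).succ else (e s).castSucc : Fin (m + 2)) : ℕ)
        = (s : MG) ^ (e s : ℕ) * if s = ⟨t, ht⟩ then t else 1 := fun s => by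
      split_ifs with h
      · rw [Fin.val_succ, pow_succ, h]
      · rw [Fin.val_castSucc, mul_one]
    simp only [this, Finset.prod_mul_distrib, Finset.prod_ite_eq', Finset.mem_univ, if_true]

lemma pow_inv_mem {U : Submodule ℂ MG} (φ : MG →ₐ[ℂ] MG) (h : ∀ u ∈ U, φ u ∈ U) (m : ℕ) :
    ∀ u ∈ U ^ m, φ u ∈ U ^ m := by
  intro u hu
  have h1 : U.map φ.toLinearMap ≤ U := Submodule.map_le_iff_le_comap.2 h
  have h2 := Submodule.mem_map_of_mem (f := φ.toLinearMap) hu
  rw [Submodule.map_pow] at h2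
  exact pow_le_pow_left' h1 m h2

lemma prod_mem_pow {U : Submodule ℂ MG} {ι : Type*} (s : Finset ι) (D : ℕ) (x : ι → MG)
    (h : ∀ j ∈ s, x j ∈ U ^ D) : ∏ j ∈ s, x j ∈ U ^ (s.card * D) := by
  classical
  induction s using Finset.induction_on with
  | empty => simp
  | insert a s ha ih =>
    rw [Finset.prod_insert ha, Finset.card_insert_of_notMem ha, add_mul, one_mul, add_comm, pow_add]
    exact Submodule.mul_mem_mul (h a (Finset.mem_insert_self _ _))
      (ih fun j hj => h j (Finset.mem_insert_of_mem hj))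

theorem ord_le {r : ℕ} (F : Fin r → MG) (hF : ∀ j, ∃ U : Submodule ℂ MG, U.FG ∧ 1 ∈ U ∧ F j ∈ U ∧
      ∀ γ : SL(2, ℤ), ∀ u ∈ U, act γ u ∈ U) :
    ∃ A : ℕ, ∀ D ≥ r + 2, ∀ (a : (Fin r → Fin (D + 1)) → ℂ) (μ : ℕ),
      ∑ e, a e • ∏ j, F j ^ (e j : ℕ) ≠ 0 → qq ^ μ ∣ ∑ e, a e • ∏ j, F j ^ (e j : ℕ) →
      μ ≤ D ^ A := by
  classical
  choose U h1 h2 h3 h4 using hF
  obtain ⟨S, hS⟩ := Submodule.fg_iSup U h1
  have hinv : ∀ γ : SL(2, ℤ), ∀ u ∈ ⨆ j, U j, act γ u ∈ ⨆ j, U j := fun γ u hu =>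
    (iSup_le fun j u hu => Submodule.mem_iSup_of_mem j (h4 j γ u hu) :
      ⨆ j, U j ≤ (⨆ j, U j).comap (act γ).toLinearMap) hu
  refine ⟨4 * S.card, fun D hD a μ h0 hq => ?_⟩
  have hle := pow_le_span S (r * D)
  rw [hS] at hle
  have := FiniteDimensional.span_of_finite ℂ
    (Set.finite_range fun e : S → Fin (r * D + 1) => ∏ s : S, (s : MG) ^ (e s : ℕ))
  have := Submodule.finiteDimensional_of_le hle
  have k1 := zero_est ((⨆ j, U j) ^ (r * D)) (fun γ => pow_inv_mem _ (hinv γ) _) _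
    (Submodule.sum_mem _ fun e _ => Submodule.smul_mem _ _ (by
      have := prod_mem_pow (U := ⨆ j, U j) Finset.univ D (fun j => F j ^ (e j : ℕ)) fun j _ => by
        obtain ⟨t, ht⟩ := Nat.exists_eq_add_of_le (Nat.lt_succ_iff.1 (e j).2)
        have := Submodule.mul_mem_mul
          (Submodule.pow_mem_pow _ (Submodule.mem_iSup_of_mem j (h3 j)) (e j : ℕ))
          (Submodule.pow_mem_pow _ (Submodule.mem_iSup_of_mem j (h2 j)) t)
        rwa [one_pow, mul_one, ← pow_add, ← ht] at this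
      rwa [Finset.card_fin] at this)) h0 μ hq
  have k2 := (Submodule.finrank_mono hle).trans (finrank_range_le_card _)
  rw [Fintype.card_fun, Fintype.card_fin, Fintype.card_coe] at k2
  have k3 : r * D + 1 ≤ D ^ 2 := by nlinarith
  calc μ ≤ ((D ^ 2) ^ S.card) ^ 2 :=
        k1.trans (Nat.pow_le_pow_left (k2.trans (Nat.pow_le_pow_left k3 _)) 2)
    _ = _ := by ring

end Pool.Agent.Work.MP_db07cb_ag
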