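import Pool.Agent.Work.MP_db07cb_ag.Defs2
import Pool.Agent.Work.MP_db07cb_ag.Ord
import Pool.Agent.Work.MP_db07cb_ag.ADE

/-! Zero estimate at the cusp in positive weight. -/

namespace Pool.Agent.Work.MP_db07cb_ag

open UpperHalfPlane hiding I
open Complex
open scoped MatrixGroups

namespace ZeroEst2

section Abstract

variable {R : Type*} [CommRing R] [Algebra ℂ R]

theorem iter_mul (D : Module.End ℂ R) (hD : ∀ a b, D (a * b) = D a * b + a * D b)
    (φ : R) (b : ℕ) :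
    ∃ L : ℕ → R, L b = φ ∧ (∀ i, b < i → L i = 0) ∧
      ∀ u, (D ^ b) (φ * u) = ∑ i ∈ Finset.range (b + 1), L i * (D ^ i) u := by
  induction b with
  | zero => exact ⟨fun i => if i = 0 then φ else 0, by simp, fun i hi => by simp [hi.ne'], by simp⟩
  | succ b ih =>
    obtain ⟨L, h1, h2, h3⟩ := ih
    refine ⟨fun i => D (L i) + (if i = 0 then 0 else L (i - 1)), ?_, ?_, fun u => ?_⟩
    · simp [h2 (b + 1) (by omega), h1]
    · intro i hi
      simp [h2 i (by omega), h2 (i - 1) (by omega)]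
    · rw [pow_succ', Module.End.mul_apply, h3, map_sum]
      simp_rw [hD, add_mul, Finset.sum_add_distrib]
      congr 1
      · rw [Finset.sum_range_succ _ (b + 1), h2 (b + 1) (by omega)]; simp
      · rw [Finset.sum_range_succ' _ (b + 1)]
        simp only [Nat.add_eq_zero_iff, one_ne_zero, and_false, if_false, add_tsub_cancel_right,
          if_true, zero_mul, add_zero]
        refine Finset.sum_congr rfl fun i _ => ?_
        rw [pow_succ', Module.End.mul_apply]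

theorem wr_mul (D : Module.End ℂ R) (hD : ∀ a b, D (a * b) = D a * b + a * D b)
    (φ : R) {d : ℕ} (v : Fin d → R) :
    (wrM D (fun j => φ * v j)).det = φ ^ d * (wrM D v).det := by
  choose L h1 h2 h3 using iter_mul D hD φ
  let M : Matrix (Fin d) (Fin d) R := Matrix.of fun b i => L b i
  have e : wrM D (fun j => φ * v j) = M * wrM D v := by
    ext b j
    rw [Matrix.mul_apply]
    simp only [wrM, M, Matrix.of_apply, h3]
    rw [Fin.sum_univ_eq_sum_range (fun i => L b i * (D ^ i) (v j)) d]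
    refine Finset.sum_subset (Finset.range_mono (by omega)) fun i _ hi => ?_
    rw [h2 b i (by simpa using hi), zero_mul]
  have hM : M.BlockTriangular OrderDual.toDual := fun b i hi => h2 b i hi
  rw [e, Matrix.det_mul, Matrix.det_of_isLowerTriangular M hM]
  congr 1
  simp [M, h1]

end Abstract

/-- the slash operator as a linear map -/
noncomputable def slL (w : ℕ) (γ : SL(2, ℤ)) : MG →ₗ[ℂ] MG :=
  (LinearMap.mulLeft ℂ (ji γ ^ w)).comp (act γ).toLinearMap

lemma slL_apply (w : ℕ) (γ : SL(2, ℤ)) (u : MG) : slL w γ u = sl w γ u := by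
  rw [sl_nat]; rfl

end ZeroEst2

open ZeroEst2 in
theorem zero_est2 (w : ℕ) (V : Submodule ℂ MG) [FiniteDimensional ℂ V]
    (hV : ∀ (γ : SL(2, ℤ)), ∀ u ∈ V, sl w γ u ∈ V) (Φ : MG) (hΦ : Φ ∈ V) (h0 : Φ ≠ 0) (μ : ℕ)
    (hq : qq ^ μ ∣ Φ) : μ ≤ (w + Module.finrank ℂ V) * Module.finrank ℂ V := by
  classical
  set d := Module.finrank ℂ V with hd
  let b := Module.finBasis ℂ V
  let v : Fin d → MG := fun j => (b j : MG)
  have hv : LinearIndependent ℂ v := b.linearIndependent.map' V.subtype (Submodule.ker_subtype V)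
  have hW := wr_ne_zero Dm Dm_mul (fun u v hv h => eq_smul_of_Dm hv h) d v hv
  set W := (wrM Dm v).det with hWd
  have hV' : ∀ (γ : SL(2, ℤ)), ∀ u ∈ V, slL w γ u ∈ V := fun γ u hu => by
    rw [slL_apply]; exact hV γ u hu
  let ρ : SL(2, ℤ) → V →ₗ[ℂ] V := fun γ => (slL w γ).restrict (hV' γ)
  have hρ : ∀ γ (u : V), (ρ γ u : MG) = sl w γ u := fun γ u => slL_apply w γ u
  let χ : SL(2, ℤ) →* ℂ :=
    { toFun := fun γ => LinearMap.det (ρ γ)
      map_one' := by
        have : ρ 1 = LinearMap.id := LinearMap.ext fun u => Subtype.ext (by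
          rw [hρ, sl_one]; rfl)
        rw [this, LinearMap.det_id]
      map_mul' := fun γ γ' => by
        have : ρ (γ * γ') = (ρ γ').comp (ρ γ) :=
          LinearMap.ext fun u => Subtype.ext (by
            rw [hρ, sl_mul, LinearMap.comp_apply, hρ, hρ])
        rw [this, LinearMap.det_comp, mul_comm] }
  set e := ∑ i : Fin d, (i : ℕ) with he
  have h1 : ∀ γ, algebraMap ℂ MG (χ γ) * W = (ji γ ^ w) ^ d * ((ji γ ^ 2) ^ e * act γ W) := by
    intro γ
    rw [← wr_comp Dm Dm_mul (act γ) (ji γ ^ 2) (Dm_act γ) v, ← wr_mul Dm Dm_mul,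
      wr_lin Dm v (fun j => ji γ ^ w * act γ (v j)) (LinearMap.toMatrix b b (ρ γ))]
    · rw [LinearMap.det_toMatrix]; rfl
    · intro j
      have := congrArg Subtype.val (b.sum_repr (ρ γ (b j))).symm
      simp only [LinearMap.toMatrix_apply]
      rw [Submodule.coe_sum] at this
      exact this
  have h2 : qq ^ μ ∣ W := by
    obtain ⟨j, hj⟩ : ∃ j, b.repr ⟨Φ, hΦ⟩ j ≠ 0 := by
      by_contra hn
      push Not at hn
      have : (⟨Φ, hΦ⟩ : V) = 0 := b.repr.injective (by ext j; simp [hn j])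
      exact h0 (congrArg Subtype.val this)
    have h3 := congrArg Subtype.val (b.sum_repr ⟨Φ, hΦ⟩)
    rw [Submodule.coe_sum] at h3
    have h4 := dvd_wr Dm v (qq ^ μ) (qq_pow_dvd_Dm μ) (b.repr ⟨Φ, hΦ⟩) j (by
      have : ∑ i, b.repr ⟨Φ, hΦ⟩ i • v i = Φ := h3
      rwa [this])
    exact (IsUnit.dvd_mul_left ((IsUnit.mk0 _ hj).map (algebraMap ℂ MG))).1 h4
  have h5 : e ≤ d ^ 2 := by
    calc e ≤ ∑ _i : Fin d, d := Finset.sum_le_sum fun i _ => i.2.le
      _ = d ^ 2 := by simp [sq]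
  by_contra hlt
  apply hW
  have hlt' : w * d + 2 * e < 12 * μ := by
    push Not at hlt
    nlinarith
  refine levelOne_zero W (w * d + 2 * e : ℕ) μ h2 (fun γ τ => ?_) (by exact_mod_cast hlt')
  have h6 := congrArg (fun u => ‖ev τ u‖) (h1 γ)
  simp only [map_mul, map_pow, AlgHom.commutes, ev_apply, ji_apply, act_apply, norm_mul,
    norm_pow, norm_inv, Algebra.algebraMap_self, RingHom.id_apply, norm_hom_eq_one, one_mul] at h6
  have hj : ‖jf γ τ‖ ≠ 0 := norm_ne_zero_iff.2 (jf_ne_zero γ τ)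
  rw [h6, zpow_natCast, ← pow_mul, ← pow_mul, ← mul_assoc (_ ^ (w * d)), ← pow_add, ← mul_assoc,
    ← mul_pow, mul_inv_cancel₀ hj]
  simp

open ZeroEst2 in
theorem ord_le2 {E F : MG} (h : EP E F) {r : ℕ} (u : Fin r → MG)
    (hu : ∀ j, ∃ U : Submodule ℂ MG, U.FG ∧ 1 ∈ U ∧ u j ∈ U ∧
      ∀ γ : SL(2, ℤ), ∀ v ∈ U, act γ v ∈ U) :
    ∃ A D₀ : ℕ, ∀ D ≥ D₀, ∀ d ≥ 1, ∀ (a : Fin (d + 1) × (Fin r → Fin (D + 1)) → ℤ) (μ : ℕ),
      Ph E F u d D a ≠ 0 → qq ^ μ ∣ Ph E F u d D a → μ ≤ D ^ A * d := by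
  classical
  choose U h1 h2 h3 h4 using hu
  obtain ⟨S, hS⟩ := Submodule.fg_iSup U h1
  have hinv : ∀ γ : SL(2, ℤ), ∀ v ∈ ⨆ j, U j, act γ v ∈ ⨆ j, U j := fun γ v hv =>
    (iSup_le fun j v hv => Submodule.mem_iSup_of_mem j (h4 j γ v hv) :
      ⨆ j, U j ≤ (⨆ j, U j).comap (act γ).toLinearMap) hv
  refine ⟨4 * (r + S.card) + 4, r + 2, fun D hD d hd a μ h0 hq => ?_⟩
  have hle := pow_le_span S (r * D)
  rw [hS] at hle
  let G : Fin (d + 1) → MG := fun i => E ^ (3 * (d - (i : ℕ))) * F ^ (2 * (i : ℕ))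
  have hG : ∀ γ i, ji γ ^ (12 * d) * act γ (G i) = G i := by
    intro γ i
    have a4 : ji γ ^ 4 * act γ E = E := by
      have := h.wt4 γ (Subgroup.mem_top γ)
      rw [← sl_nat]; exact this
    have a6 : ji γ ^ 6 * act γ F = F := by
      have := h.wt6 γ (Subgroup.mem_top γ)
      rw [← sl_nat]; exact this
    have hi : 12 * d = 4 * (3 * (d - (i : ℕ))) + 6 * (2 * (i : ℕ)) := by
      have := i.2
      omega
    simp only [G, map_mul, map_pow]
    conv_rhs => rw [← a4, ← a6]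
    rw [hi, mul_pow, mul_pow, ← pow_mul, ← pow_mul, pow_add]
    ring
  let g : (Fin r → Fin (D + 1)) → MG := fun e => ∑ i, (a (i, e) : ℂ) • G i
  have hg : ∀ γ e, ji γ ^ (12 * d) * act γ (g e) = g e := by
    intro γ e
    simp only [g, map_sum, Finset.mul_sum, map_smul, mul_smul_comm, hG]
  let V : Submodule ℂ MG :=
    ⨆ e, ((⨆ j, U j) ^ (r * D)).map (LinearMap.mulLeft ℂ (g e))
  let fam : (Fin r → Fin (D + 1)) × (S → Fin (r * D + 1)) → MG :=
    fun p => g p.1 * ∏ s : S, (s : MG) ^ (p.2 s : ℕ)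
  have hVle : V ≤ Submodule.span ℂ (Set.range fam) := by
    refine iSup_le fun e => (Submodule.map_mono hle).trans ?_
    rw [Submodule.map_span, Submodule.span_le]
    rintro _ ⟨_, ⟨e', rfl⟩, rfl⟩
    exact Submodule.subset_span ⟨(e, e'), rfl⟩
  have := FiniteDimensional.span_of_finite ℂ (Set.finite_range fam)
  have := Submodule.finiteDimensional_of_le hVle
  have hVinv : ∀ γ : SL(2, ℤ), ∀ v ∈ V, sl (12 * d : ℕ) γ v ∈ V := by
    intro γ v hv
    rw [← slL_apply]
    refine (iSup_le fun e => ?_ : V ≤ V.comap (slL (12 * d) γ)) hv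
    rintro _ ⟨x, hx, rfl⟩
    refine Submodule.mem_iSup_of_mem e ⟨act γ x, pow_inv_mem _ (hinv γ) _ x hx, ?_⟩
    rw [slL_apply, sl_nat, LinearMap.mulLeft_apply, LinearMap.mulLeft_apply, map_mul,
      ← mul_assoc, hg]
  have hPh : Ph E F u d D a = ∑ e, g e * ∏ j, u j ^ (e j : ℕ) := by
    rw [Ph, Fintype.sum_prod_type_right]
    refine Finset.sum_congr rfl fun e _ => ?_
    simp only [g, G, Finset.sum_mul, smul_mul_assoc]
  have hmem : Ph E F u d D a ∈ V := by
    rw [hPh]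
    refine Submodule.sum_mem _ fun e _ => Submodule.mem_iSup_of_mem e ⟨_, ?_, rfl⟩
    have := prod_mem_pow (U := ⨆ j, U j) Finset.univ D (fun j => u j ^ (e j : ℕ)) fun j _ => by
      obtain ⟨t, ht⟩ := Nat.exists_eq_add_of_le (Nat.lt_succ_iff.1 (e j).2)
      have := Submodule.mul_mem_mul
        (Submodule.pow_mem_pow _ (Submodule.mem_iSup_of_mem j (h3 j)) (e j : ℕ))
        (Submodule.pow_mem_pow _ (Submodule.mem_iSup_of_mem j (h2 j)) t)
      rwa [one_pow, mul_one, ← pow_add, ← ht] at this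
    rwa [Finset.card_fin] at this
  have k1 := zero_est2 (12 * d) V hVinv _ hmem h0 μ hq
  have k2 := (Submodule.finrank_mono hVle).trans (finrank_range_le_card _)
  rw [Fintype.card_prod, Fintype.card_fun, Fintype.card_fun, Fintype.card_fin, Fintype.card_fin,
    Fintype.card_fin, Fintype.card_coe] at k2
  have k3 : r * D + 1 ≤ D ^ 2 := by nlinarith
  have k4 : D + 1 ≤ D ^ 2 := by nlinarith
  have k5 : Module.finrank ℂ V ≤ (D ^ 2) ^ (r + S.card) := by
    rw [pow_add]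
    exact k2.trans (Nat.mul_le_mul (Nat.pow_le_pow_left k4 _) (Nat.pow_le_pow_left k3 _))
  set X := (D ^ 2) ^ (r + S.card) with hX
  have hD2 : 2 ≤ D := by omega
  have k6 : 1 ≤ X := Nat.one_le_pow _ _ (by positivity)
  have k7 : 16 ≤ D ^ 4 := le_trans (by norm_num) (Nat.pow_le_pow_left hD2 4)
  have k8 : 12 * d + X ≤ 16 * X * d := by nlinarith
  calc μ ≤ (12 * d + X) * X := k1.trans (Nat.mul_le_mul (by omega) k5)
    _ ≤ (16 * X * d) * X := Nat.mul_le_mul_right _ k8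
    _ ≤ (D ^ 4 * X * d) * X := by gcongr
    _ = _ := by rw [hX]; ring

end Pool.Agent.Work.MP_db07cb_ag
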