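import Mathlib
import Pool.Agent.Work.MP_db07cb_ag.Defs2
import Mathlib.FieldTheory.AlgebraicClosure
import Mathlib.Algebra.Polynomial.Taylor
import Mathlib.NumberTheory.SiegelsLemma
import Pool.Agent.Work.MP_db07cb_ag.Omega
import Pool.Agent.Work.MP_db07cb_ag.AlgRel
import Pool.Agent.Work.MP_db07cb_ag.CM
import Pool.Agent.Work.MP_db07cb_ag.Indep2
import Pool.Agent.Work.MP_db07cb_ag.ZeroEst2
import Pool.Agent.Work.MP_db07cb_ag.Small2
import Pool.Agent.Work.MP_db07cb_ag.Arith2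
import Pool.Agent.Work.MP_db07cb_ag.Eis
import Pool.Agent.Work.MP_db07cb_ag.Final2

-- merged part: Pool.Agent.Work.MP_db07cb_ag.AuxPoly
section
namespace Pool.Agent.Work.MP_db07cb_ag

open Finset

/-- `x` is a sum of at most `B` terms, each a product of at most `s` elements of `X`. -/
def Sz {R : Type*} [CommRing R] (X : Set R) (s B : ℕ) (x : R) : Prop :=
  ∃ L : List (List R), L.length ≤ B ∧ (∀ l ∈ L, l.length ≤ s ∧ ∀ y ∈ l, y ∈ X) ∧
    (L.map List.prod).sum = x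

section basic
variable {R : Type*} [CommRing R] {X : Set R}

theorem Sz.mono {s B s' B' : ℕ} {x : R} (h : Sz X s B x) (hs : s ≤ s') (hB : B ≤ B') :
    Sz X s' B' x := by
  obtain ⟨L, h1, h2, h3⟩ := h
  exact ⟨L, h1.trans hB, fun l hl => ⟨(h2 l hl).1.trans hs, (h2 l hl).2⟩, h3⟩

theorem Sz.zero (s : ℕ) : Sz X s 0 0 := ⟨[], le_rfl, by simp, by simp⟩

theorem Sz.prod (l : List R) (hl : ∀ y ∈ l, y ∈ X) : Sz X l.length 1 l.prod :=
  ⟨[l], le_rfl, by simpa using hl, by simp⟩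

theorem Sz.one : Sz X 0 1 1 := by simpa using Sz.prod (X := X) [] (by simp)

theorem Sz.of_mem {x : R} (hx : x ∈ X) : Sz X 1 1 x := by
  simpa using Sz.prod (X := X) [x] (by simpa using hx)

theorem Sz.add {s B B' : ℕ} {x y : R} (h : Sz X s B x) (h' : Sz X s B' y) :
    Sz X s (B + B') (x + y) := by
  obtain ⟨L, h1, h2, h3⟩ := h
  obtain ⟨L', h1', h2', h3'⟩ := h'
  refine ⟨L ++ L', by simp; omega, ?_, by simp [h3, h3']⟩
  intro l hl
  rcases List.mem_append.1 hl with hl | hl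
  · exact h2 l hl
  · exact h2' l hl

theorem Sz.list_mul {s s' B' : ℕ} {y : R} (l : List R) (hl : l.length ≤ s)
    (hX : ∀ y ∈ l, y ∈ X) (h' : Sz X s' B' y) : Sz X (s + s') B' (l.prod * y) := by
  obtain ⟨L', h1', h2', h3'⟩ := h'
  refine ⟨L'.map (fun m => l ++ m), by simpa using h1', ?_, ?_⟩
  · intro m hm
    obtain ⟨m', hm', rfl⟩ := List.mem_map.1 hm
    refine ⟨by have := (h2' m' hm').1; simp; omega, ?_⟩
    intro y hy
    rcases List.mem_append.1 hy with hy | hy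
    · exact hX y hy
    · exact (h2' m' hm').2 y hy
  · rw [← h3', List.map_map, ← List.sum_map_mul_left]
    congr 1
    apply List.map_congr_left
    intro m _
    simp

omit [CommRing R] in
theorem Sz.sum_bound {S : Type*} [CommRing S] {Z : Set S} {s' C : ℕ} (L : List (List R))
    (φ : List R → S) (h : ∀ l ∈ L, Sz Z s' C (φ l)) :
    Sz Z s' (L.length * C) ((L.map φ).sum) := by
  induction L with
  | nil => simpa using Sz.zero s'
  | cons l L ih =>
    have h1 := h l (by simp)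
    have h2 := ih (fun m hm => h m (by simp [hm]))
    have := h1.add h2
    simp only [List.length_cons, List.map_cons, List.sum_cons]
    exact this.mono le_rfl (by linarith only [])

theorem Sz.mul {s B s' B' : ℕ} {x y : R} (h : Sz X s B x) (h' : Sz X s' B' y) :
    Sz X (s + s') (B * B') (x * y) := by
  obtain ⟨L, h1, h2, h3⟩ := h
  have := Sz.sum_bound (Z := X) (s' := s + s') (C := B') L (fun l => l.prod * y)
    (fun l hl => Sz.list_mul l (h2 l hl).1 (h2 l hl).2 h')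
  rw [List.sum_map_mul_right, h3] at this
  exact this.mono le_rfl (Nat.mul_le_mul_right _ h1)

theorem Sz.finset_sum {ι : Type*} (A : Finset ι) (f : ι → R) {s C : ℕ}
    (h : ∀ i ∈ A, Sz X s C (f i)) : Sz X s (A.card * C) (∑ i ∈ A, f i) := by
  classical
  induction A using Finset.induction_on with
  | empty => simpa using Sz.zero s
  | insert a A ha ih =>
    rw [Finset.sum_insert ha, Finset.card_insert_of_notMem ha]
    have := (h a (by simp)).add (ih (fun i hi => h i (by simp [hi])))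
    exact this.mono le_rfl (by linarith only [])

theorem Sz.finset_prod {ι : Type*} (A : Finset ι) (f : ι → R) {s : ℕ}
    (h : ∀ i ∈ A, Sz X s 1 (f i)) : Sz X (A.card * s) 1 (∏ i ∈ A, f i) := by
  classical
  induction A using Finset.induction_on with
  | empty => simpa using Sz.one
  | insert a A ha ih =>
    rw [Finset.prod_insert ha, Finset.card_insert_of_notMem ha]
    have := (h a (by simp)).mul (ih (fun i hi => h i (by simp [hi])))
    exact this.mono (by linarith only []) (by simp)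

theorem Sz.pow {x : R} (hx : x ∈ X) (n : ℕ) : Sz X n 1 (x ^ n) := by
  induction n with
  | zero => simpa using Sz.one
  | succ n ih =>
    rw [pow_succ]
    simpa using ih.mul (Sz.of_mem hx)

theorem Sz.of_closure {Y : Set R} {x : R} (hx : x ∈ Subring.closure Y) :
    ∃ s B, Sz (insert (-1) Y) s B x := by
  obtain ⟨L, h1, h2⟩ := Subring.exists_list_of_mem_closure hx
  refine ⟨(L.map List.length).sum, L.length, L, le_rfl, ?_, h2⟩
  intro l hl
  refine ⟨List.single_le_sum (by simp) _ (List.mem_map_of_mem hl), ?_⟩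
  intro y hy
  rcases h1 l hl y hy with h | h
  · exact Or.inr h
  · exact Or.inl h

theorem Sz.map {S : Type*} [CommRing S] {Z : Set S} (φ : R →+* S) {e C : ℕ} (hC : 1 ≤ C)
    (hφ : ∀ y ∈ X, Sz Z e C (φ y)) {s B : ℕ} {x : R} (h : Sz X s B x) :
    Sz Z (s * e) (B * C ^ s) (φ x) := by
  obtain ⟨L, h1, h2, h3⟩ := h
  have key : ∀ l : List R, (∀ y ∈ l, y ∈ X) → Sz Z (l.length * e) (C ^ l.length) (φ l.prod) := by
    intro l hl
    induction l with
    | nil => simpa using Sz.one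
    | cons y l ih =>
      have h1 := hφ y (hl y (by simp))
      have h2 := ih (fun m hm => hl m (by simp [hm]))
      have := h1.mul h2
      simp only [List.length_cons, List.prod_cons, map_mul]
      exact this.mono (by linarith only []) (by rw [pow_succ]; linarith only [])
  have := Sz.sum_bound (Z := Z) (s' := s * e) (C := C ^ s) L (fun l => φ l.prod)
    (fun l hl => (key l (h2 l hl).2).mono (Nat.mul_le_mul_right _ (h2 l hl).1)
      (Nat.pow_le_pow_right hC (h2 l hl).1))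
  have e1 : (L.map (fun l => φ l.prod)).sum = φ x := by
    rw [← h3, map_list_sum, List.map_map]; rfl
  rw [e1] at this
  exact this.mono le_rfl (Nat.mul_le_mul_right _ h1)

end basic

theorem exists_finset_prods {M : Type*} [CommMonoid M] (X : Finset M) (s : ℕ) :
    ∃ P : Finset M, P.card ≤ (s + 1) ^ X.card ∧
      ∀ l : List M, l.length ≤ s → (∀ y ∈ l, y ∈ X) → l.prod ∈ P := by
  classical
  refine ⟨(Fintype.piFinset (fun _ : X => range (s + 1))).image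
    (fun m => ∏ y : X, (y : M) ^ m y), ?_, ?_⟩
  · refine card_image_le.trans ?_
    simp
  · intro l hl hX
    rw [mem_image]
    refine ⟨fun y => l.count (y : M), ?_, ?_⟩
    · rw [Fintype.mem_piFinset]
      intro y
      have := List.count_le_length (a := (y : M)) (l := l)
      simp; omega
    · rw [prod_list_count_of_subset l X (fun y hy => hX y (List.mem_toFinset.1 hy))]
      exact Finset.prod_coe_sort X (fun y => y ^ l.count y)

theorem exists_finset_sums {M : Type*} [AddCommMonoid M] (X : Finset M) (s : ℕ) :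
    ∃ P : Finset M, P.card ≤ (s + 1) ^ X.card ∧
      ∀ l : List M, l.length ≤ s → (∀ y ∈ l, y ∈ X) → l.sum ∈ P :=
  exists_finset_prods (M := Multiplicative M) X s

theorem exists_finset_Sz {R : Type*} [CommRing R] (X : Finset R) (s B : ℕ) :
    ∃ P : Finset R, P.card ≤ (B + 1) ^ ((s + 1) ^ X.card) ∧
      ∀ x, Sz (X : Set R) s B x → x ∈ P := by
  obtain ⟨P, hP, hP'⟩ := exists_finset_prods X s
  obtain ⟨Q, hQ, hQ'⟩ := exists_finset_sums P B
  refine ⟨Q, hQ.trans (Nat.pow_le_pow_right (by omega) hP), ?_⟩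
  rintro x ⟨L, h1, h2, rfl⟩
  refine hQ' _ (by simpa using h1) ?_
  intro y hy
  obtain ⟨l, hl, rfl⟩ := List.mem_map.1 hy
  exact hP' l (h2 l hl).1 (fun y hy => (h2 l hl).2 y hy)

section deriv
variable {X : Set (ℂ → ℂ)} {Ω : Set ℂ} {e C : ℕ}

theorem Sz.deriv_list (hX : ∀ g ∈ X, ∃ h, Sz X e C h ∧ ∀ z ∈ Ω, HasDerivAt g (h z) z)
    (l : List (ℂ → ℂ)) (hl : ∀ y ∈ l, y ∈ X) :
    ∃ h, Sz X (l.length + e) (l.length * C) h ∧ ∀ z ∈ Ω, HasDerivAt l.prod (h z) z := by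
  induction l with
  | nil =>
    refine ⟨0, by simpa using Sz.zero e, fun z _ => ?_⟩
    exact hasDerivAt_const z (1 : ℂ)
  | cons y l ih =>
    obtain ⟨h1, h2, h3⟩ := hX y (hl y (by simp))
    have hl' : ∀ m ∈ l, m ∈ X := fun m hm => hl m (by simp [hm])
    obtain ⟨k1, k2, k3⟩ := ih hl'
    refine ⟨h1 * l.prod + y * k1, ?_, fun z hz => ?_⟩
    · have a1 := h2.mul (Sz.prod l hl')
      have a2 := (Sz.of_mem (hl y (by simp))).mul k2
      have := (a1.mono (s' := (y :: l).length + e) (by simp; omega) le_rfl).add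
        (a2.mono (s' := (y :: l).length + e) (by simp; omega) le_rfl)
      exact this.mono le_rfl (by simp; linarith only [])
    · simpa using (h3 z hz).mul (k3 z hz)

theorem Sz.deriv (hX : ∀ g ∈ X, ∃ h, Sz X e C h ∧ ∀ z ∈ Ω, HasDerivAt g (h z) z)
    {s B : ℕ} {x : ℂ → ℂ} (hx : Sz X s B x) :
    ∃ h, Sz X (s + e) (B * (s * C)) h ∧ ∀ z ∈ Ω, HasDerivAt x (h z) z := by
  obtain ⟨L, h1, h2, rfl⟩ := hx
  suffices H : ∃ h, Sz X (s + e) (L.length * (s * C)) h ∧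
      ∀ z ∈ Ω, HasDerivAt (L.map List.prod).sum (h z) z by
    obtain ⟨h, a, b⟩ := H
    exact ⟨h, a.mono le_rfl (Nat.mul_le_mul_right _ h1), b⟩
  clear h1
  induction L with
  | nil =>
    refine ⟨0, by simpa using Sz.zero (s + e), fun z _ => ?_⟩
    exact hasDerivAt_const z (0 : ℂ)
  | cons l L ih =>
    obtain ⟨k1, k2, k3⟩ := ih (fun m hm => h2 m (by simp [hm]))
    obtain ⟨hl1, hl2⟩ := h2 l (by simp)
    obtain ⟨h1, h2, h3⟩ := Sz.deriv_list hX l hl2
    refine ⟨h1 + k1, ?_, fun z hz => ?_⟩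
    · have := (h2.mono (s' := s + e) (B' := s * C) (by omega)
        (Nat.mul_le_mul_right _ hl1)).add k2
      exact this.mono le_rfl (by simp; linarith only [])
    · simpa using (h3 z hz).add (k3 z hz)

theorem Sz.iterated (hΩ : IsOpen Ω)
    (hX : ∀ g ∈ X, ∃ h, Sz X e C h ∧ ∀ z ∈ Ω, HasDerivAt g (h z) z)
    {s B : ℕ} {x : ℂ → ℂ} (hx : Sz X s B x) (t : ℕ) :
    ∃ h, Sz X (s + t * e) (B * ((s + t * e) * C) ^ t) h ∧ ∀ z ∈ Ω, iteratedDeriv t x z = h z := by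
  induction t with
  | zero => exact ⟨x, by simpa using hx, fun z _ => by simp⟩
  | succ t ih =>
    obtain ⟨h, h1, h2⟩ := ih
    obtain ⟨k, k1, k2⟩ := Sz.deriv hX h1
    refine ⟨k, k1.mono (by linarith only []) ?_, fun z hz => ?_⟩
    · rw [pow_succ, mul_assoc]
      gcongr <;> omega
    · rw [iteratedDeriv_succ]
      have : iteratedDeriv t x =ᶠ[nhds z] h :=
        Filter.eventually_of_mem (hΩ.mem_nhds hz) h2
      rw [this.deriv_eq]
      exact (k2 z hz).deriv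

end deriv

theorem uniform_bound {ι : Type*} (A : Finset ι) (P : ι → ℕ → ℕ → Prop)
    (hmono : ∀ i s B s' B', P i s B → s ≤ s' → B ≤ B' → P i s' B')
    (h : ∀ i ∈ A, ∃ s B, P i s B) : ∃ K, 1 ≤ K ∧ ∀ i ∈ A, P i K K := by
  classical
  induction A using Finset.induction_on with
  | empty => exact ⟨1, le_rfl, by simp⟩
  | insert a A ha ih =>
    obtain ⟨K, hK, hK'⟩ := ih (fun i hi => h i (by simp [hi]))
    obtain ⟨s, B, hsB⟩ := h a (by simp)
    refine ⟨K + s + B, by omega, fun i hi => ?_⟩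
    rcases Finset.mem_insert.1 hi with rfl | hi
    · exact hmono _ _ _ _ _ hsB (by omega) (by omega)
    · exact hmono _ _ _ _ _ (hK' i hi) (by omega) (by omega)

theorem count_bound (κ r K D : ℕ) (hr : 4 * κ + 40 ≤ r) (hK : 1 ≤ K)
    (hD : (r + K) * K + 4 ≤ D) :
    (((D + 1) ^ r * ((r * D + D ^ 2 * K) * K) ^ (D ^ 2) * K ^ (r * D + D ^ 2 * K) + 1) ^
      (((r * D + D ^ 2 * K) * K + 1) ^ (κ + 1))) ^ (D ^ 2) < 2 ^ ((D + 1) ^ r) := by
  have hrD : r ≤ D := by nlinarith only [hD, hK]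
  have hKD : K ≤ D := by nlinarith only [hr, hD, hrD]
  have hD4 : 4 ≤ D := by omega
  set s := r * D + D ^ 2 * K with hs
  have hD2 : D ≤ D ^ 2 := by nlinarith only [hr, hK, hD, hrD]
  have hs1 : s ≤ (r + K) * D ^ 2 := by
    rw [hs]; linarith only [hD2, Nat.mul_le_mul_left r hD2]
  have hsK : s * K + 1 ≤ D ^ 3 := by
    have a1 : s * K ≤ (r + K) * K * D ^ 2 := by
      calc s * K ≤ (r + K) * D ^ 2 * K := Nat.mul_le_mul_right _ hs1
        _ = _ := by ring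
    have a2 : ((r + K) * K + 4) * D ^ 2 ≤ D * D ^ 2 := Nat.mul_le_mul_right _ hD
    linarith only [hr, hrD, hD2, a1, a2]
  have two : ∀ n : ℕ, n ≤ 2 ^ n := fun n => Nat.lt_two_pow_self.le
  have p1 : (D + 1) ^ r ≤ 2 ^ (D ^ 6) := by
    calc (D + 1) ^ r ≤ (2 ^ D) ^ r := Nat.pow_le_pow_left Nat.lt_two_pow_self _
      _ = 2 ^ (D * r) := by rw [← pow_mul]
      _ ≤ 2 ^ (D ^ 6) := by
        apply Nat.pow_le_pow_right (by norm_num)
        calc D * r ≤ D ^ 2 := by nlinarith only [hrD]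
          _ ≤ D ^ 6 := Nat.pow_le_pow_right (by omega) (by norm_num)
  have p2 : (s * K) ^ (D ^ 2) ≤ 2 ^ (D ^ 6) := by
    calc (s * K) ^ (D ^ 2) ≤ (2 ^ (D ^ 3)) ^ (D ^ 2) :=
          Nat.pow_le_pow_left (le_trans (by omega) (two _)) _
      _ = 2 ^ (D ^ 5) := by rw [← pow_mul]; congr 1; ring
      _ ≤ 2 ^ (D ^ 6) := by
        apply Nat.pow_le_pow_right (by norm_num)
        exact Nat.pow_le_pow_right (by omega) (by norm_num)
  have p3 : K ^ s ≤ 2 ^ (D ^ 6) := by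
    calc K ^ s ≤ (2 ^ K) ^ s := Nat.pow_le_pow_left (two _) _
      _ = 2 ^ (s * K) := by rw [← pow_mul, mul_comm]
      _ ≤ 2 ^ (D ^ 6) := by
        apply Nat.pow_le_pow_right (by norm_num)
        calc s * K ≤ D ^ 3 := by omega
          _ ≤ D ^ 6 := Nat.pow_le_pow_right (by omega) (by norm_num)
  have p4 : (D + 1) ^ r * (s * K) ^ (D ^ 2) * K ^ s + 1 ≤ 2 ^ (D ^ 7) := by
    have a1 : (D + 1) ^ r * (s * K) ^ (D ^ 2) * K ^ s ≤ 2 ^ (D ^ 6) * 2 ^ (D ^ 6) * 2 ^ (D ^ 6) := by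
      gcongr
    have a2 : 2 ^ (D ^ 6) * 2 ^ (D ^ 6) * 2 ^ (D ^ 6) < 2 ^ (D ^ 7) := by
      rw [← pow_add, ← pow_add]
      apply Nat.pow_lt_pow_right (by norm_num)
      have : 0 < D ^ 6 := by positivity
      calc D ^ 6 + D ^ 6 + D ^ 6 < 4 * D ^ 6 := by omega
        _ ≤ D * D ^ 6 := Nat.mul_le_mul_right _ hD4
        _ = D ^ 7 := by ring
    omega
  calc _ ≤ ((2 ^ (D ^ 7)) ^ ((D ^ 3) ^ (κ + 1))) ^ (D ^ 2) := by
        apply Nat.pow_le_pow_left
        calc _ ≤ (2 ^ (D ^ 7)) ^ ((s * K + 1) ^ (κ + 1)) := Nat.pow_le_pow_left p4 _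
          _ ≤ _ := Nat.pow_le_pow_right (by positivity) (Nat.pow_le_pow_left hsK _)
    _ = 2 ^ (D ^ (3 * κ + 12)) := by
        rw [← pow_mul, ← pow_mul]; congr 1; ring
    _ < 2 ^ ((D + 1) ^ r) := by
        apply Nat.pow_lt_pow_right (by norm_num)
        calc D ^ (3 * κ + 12) ≤ D ^ r := Nat.pow_le_pow_right (by omega) (by omega)
          _ < (D + 1) ^ r := Nat.pow_lt_pow_left (by omega) (by omega)

theorem aux_poly (κ : ℕ) (Y : Finset ℂ) (hY : Y.card ≤ κ) (Ω : Set ℂ) (hΩ : IsOpen Ω) (z₀ : ℂ)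
    (hz : z₀ ∈ Ω) (G : Finset (ℂ → ℂ))
    (hder : ∀ g ∈ G, ∃ h ∈ Subring.closure (G : Set (ℂ → ℂ)), ∀ z ∈ Ω, HasDerivAt g (h z) z)
    (hval : ∀ g ∈ G, g z₀ ∈ Subring.closure (Y : Set ℂ))
    (r : ℕ) (hr : 4 * κ + 40 ≤ r) (F : Fin r → ℂ → ℂ) (hF : ∀ j, F j ∈ G) :
    ∃ D₀ : ℕ, ∀ D ≥ D₀, ∃ a : (Fin r → Fin (D + 1)) → ℤ, a ≠ 0 ∧ (∀ e, |a e| ≤ 1) ∧
      ∀ t < D ^ 2, iteratedDeriv t (fun z => ∑ e, (a e : ℂ) * ∏ j, F j z ^ (e j : ℕ)) z₀ = 0 := by
  classical
  set X : Set (ℂ → ℂ) := insert (-1) (G : Set (ℂ → ℂ)) with hXdef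
  set Y' : Finset ℂ := insert (-1) Y with hY'
  have hY'c : Y'.card ≤ κ + 1 := (card_insert_le _ _).trans (by omega)
  obtain ⟨K, hK, hK'⟩ := uniform_bound G
    (fun g s B => (∃ h, Sz X s B h ∧ ∀ z ∈ Ω, HasDerivAt g (h z) z) ∧ Sz (Y' : Set ℂ) s B (g z₀))
    (fun g s B s' B' h hs hB => ⟨by
      obtain ⟨k, k1, k2⟩ := h.1
      exact ⟨k, k1.mono hs hB, k2⟩, h.2.mono hs hB⟩)
    (fun g hg => by
      obtain ⟨h, h1, h2⟩ := hder g hg
      obtain ⟨s, B, h3⟩ := Sz.of_closure h1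
      obtain ⟨s', B', h4⟩ := Sz.of_closure (hval g hg)
      refine ⟨s + s', B + B', ⟨h, h3.mono (by omega) (by omega), h2⟩, ?_⟩
      rw [hY', coe_insert]
      exact h4.mono (by omega) (by omega))
  have hX : ∀ g ∈ X, ∃ h, Sz X K K h ∧ ∀ z ∈ Ω, HasDerivAt g (h z) z := by
    intro g hg
    rcases hg with rfl | hg
    · refine ⟨0, (Sz.zero K).mono le_rfl (by omega), fun z _ => ?_⟩
      exact hasDerivAt_const z (-1 : ℂ)
    · exact (hK' g hg).1
  have hV : ∀ g ∈ X, Sz (Y' : Set ℂ) K K (Pi.evalRingHom (fun _ : ℂ => ℂ) z₀ g) := by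
    intro g hg
    rcases hg with rfl | hg
    · have : (-1 : ℂ) ∈ (Y' : Set ℂ) := by simp [hY']
      simpa using (Sz.of_mem this).mono hK hK
    · exact (hK' g hg).2
  refine ⟨(r + K) * K + 4, fun D hD => ?_⟩
  set s := r * D + D ^ 2 * K with hs
  set B := (D + 1) ^ r * (s * K) ^ (D ^ 2) * K ^ s with hB
  obtain ⟨P, hP, hP'⟩ := exists_finset_Sz Y' (s * K) B
  let f : Finset (Fin r → Fin (D + 1)) → ℂ → ℂ := fun A => ∑ e ∈ A, ∏ j, F j ^ (e j : ℕ)
  have hf : ∀ A, Sz X (r * D) ((D + 1) ^ r) (f A) := by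
    clear * - r D X F G hF s
    intro A
    have := Sz.finset_sum (X := X) A (fun e => ∏ j, F j ^ (e j : ℕ)) (s := r * D) (C := 1)
      (fun e _ => by
        have := Sz.finset_prod (X := X) univ (fun j => F j ^ (e j : ℕ)) (s := D)
          (fun j _ => (Sz.pow (X := X) (Set.mem_insert_of_mem _ (hF j)) _).mono (Nat.lt_succ_iff.1 (e j).2) le_rfl)
        simpa using this)
    refine this.mono le_rfl ?_
    have := card_le_univ A
    simpa using this
  have hmem : ∀ A, ∀ t < D ^ 2, iteratedDeriv t (f A) z₀ ∈ P := by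
    intro A t ht
    obtain ⟨h, h1, h2⟩ := Sz.iterated hΩ hX (hf A) t
    rw [h2 z₀ hz]
    apply hP'
    have h3 : Sz X s ((D + 1) ^ r * (s * K) ^ (D ^ 2)) h := by
      clear * - r D t K s hs ht X h h1 κ Y hD P hK
      have a1 : r * D + t * K ≤ s := by rw [hs]; gcongr
      refine h1.mono a1 ?_
      apply Nat.mul_le_mul_left
      have hD0 : 0 < D := by omega
      have : 0 < s * K := by rw [hs]; positivity
      calc _ ≤ (s * K) ^ t := by gcongr
        _ ≤ _ := Nat.pow_le_pow_right this ht.le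
    exact Sz.map (Pi.evalRingHom (fun _ : ℂ => ℂ) z₀) hK hV h3
  have hsm : ∀ A (t : ℕ), ContDiffAt ℂ t (f A) z₀ := by
    intro A t
    obtain ⟨h, -, h2⟩ := Sz.deriv hX (hf A)
    have : DifferentiableOn ℂ (f A) Ω := fun z hz =>
      (h2 z hz).differentiableAt.differentiableWithinAt
    exact (this.contDiffOn hΩ).contDiffAt (hΩ.mem_nhds hz)
  obtain ⟨A, -, A', -, hne, heq⟩ := Finset.exists_ne_map_eq_of_card_lt_of_maps_to
    (s := (univ : Finset (Finset (Fin r → Fin (D + 1)))))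
    (t := Fintype.piFinset (fun _ : Fin (D ^ 2) => P))
    (f := fun A t => iteratedDeriv t (f A) z₀)
    (by
      have c := count_bound κ r K D hr hK hD
      have c2 : P.card ≤ (B + 1) ^ ((s * K + 1) ^ (κ + 1)) :=
        hP.trans (Nat.pow_le_pow_right (by omega) (Nat.pow_le_pow_right (by omega) hY'c))
      simp only [Fintype.card_piFinset, prod_const, card_univ, Fintype.card_fin,
        Fintype.card_finset, Fintype.card_fun]
      exact lt_of_le_of_lt (Nat.pow_le_pow_left c2 _) c)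
    (fun A _ => by
      rw [mem_coe, Fintype.mem_piFinset]
      intro t
      exact hmem A t t.2)
  refine ⟨fun e => (if e ∈ A then 1 else 0) - (if e ∈ A' then 1 else 0), ?_, ?_, ?_⟩
  · intro h
    apply hne
    ext e
    have := congrFun h e
    by_cases h1 : e ∈ A <;> by_cases h2 : e ∈ A' <;> simp_all
  · intro e
    by_cases h1 : e ∈ A <;> by_cases h2 : e ∈ A' <;> simp [h1, h2]
  · intro t ht
    have e1 : (fun z => ∑ e : Fin r → Fin (D + 1),
        (((if e ∈ A then 1 else 0) - (if e ∈ A' then 1 else 0) : ℤ) : ℂ) *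
          ∏ j, F j z ^ (e j : ℕ)) = f A - f A' := by
      clear * - r D A A' F f
      ext z
      simp [f, sub_mul, sum_sub_distrib]
    rw [e1, iteratedDeriv_sub (hsm A t) (hsm A' t)]
    have := congrFun heq ⟨t, ht⟩
    simp only at this
    rw [this, sub_self]

end Pool.Agent.Work.MP_db07cb_ag
end

-- merged part: Pool.Agent.Work.MP_db07cb_ag.GSer
section
/-! Closure properties of `Rp` and `GS`. -/

namespace Pool.Agent.Work.MP_db07cb_ag

open PowerSeries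

variable {W W' Y Y' : Finset ℂ} {δ δ' B B' : ℕ} {x y : ℂ} {φ ψ : ℂ⟦X⟧}

lemma Rp.mono (h : Rp W Y δ B x) (hW : W ⊆ W') (hY : Y ⊆ Y') (hδ : δ ≤ δ') (hB : B ≤ B') :
    Rp W' Y' δ' B' x := by
  obtain ⟨L, h1, h2, h3⟩ := h
  refine ⟨L, h1.trans hB, fun z hz => ?_, h3⟩
  obtain ⟨w, hw, l, a, b, c⟩ := h2 z hz
  exact ⟨w, hW hw, l, a.trans hδ, fun y hy => hY (b y hy), c⟩

lemma Rp.le (h : Rp W Y δ B x) (hB : B ≤ B') : Rp W Y δ B' x :=
  h.mono subset_rfl subset_rfl le_rfl hB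

lemma Rp.zero : Rp W Y δ B 0 := ⟨[], Nat.zero_le _, by simp, rfl⟩

lemma Rp.add (h : Rp W Y δ B x) (h' : Rp W Y δ B' y) : Rp W Y δ (B + B') (x + y) := by
  obtain ⟨L, h1, h2, h3⟩ := h
  obtain ⟨L', h1', h2', h3'⟩ := h'
  refine ⟨L ++ L', by rw [List.length_append]; omega, fun z hz => ?_, by
    rw [List.sum_append, h3, h3']⟩
  rcases List.mem_append.1 hz with hz | hz
  · exact h2 z hz
  · exact h2' z hz

lemma Rp.sum {ι : Type*} (s : Finset ι) (f : ι → ℂ) (h : ∀ i ∈ s, Rp W Y δ B (f i)) :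
    Rp W Y δ (s.card * B) (∑ i ∈ s, f i) := by
  classical
  induction s using Finset.induction_on with
  | empty => simpa using Rp.zero
  | insert a s ha ih =>
    rw [Finset.sum_insert ha, Finset.card_insert_of_notMem ha, add_mul, one_mul, add_comm _ B]
    exact (h a (Finset.mem_insert_self _ _)).add (ih fun i hi => h i (Finset.mem_insert_of_mem hi))

lemma Rp.natmul (h : Rp W Y δ B x) (n : ℕ) : Rp W Y δ (n * B) (n * x) := by
  simpa using Rp.sum (Finset.range n) (fun _ => x) fun _ _ => h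

lemma Rp.neg (hW : Cl W) (h : Rp W Y δ B x) : Rp W Y δ B (-x) := by
  obtain ⟨L, h1, h2, h3⟩ := h
  refine ⟨L.map Neg.neg, by simpa using h1, fun z hz => ?_, by rw [← h3, List.sum_neg]⟩
  obtain ⟨z, hz', rfl⟩ := List.mem_map.1 hz
  obtain ⟨w, hw, l, a, b, c⟩ := h2 z hz'
  exact ⟨-w, hW.2.1 w hw, l, a, b, by rw [c, neg_mul]⟩

lemma Rp.intmul (hW : Cl W) (h : Rp W Y δ B x) (n : ℤ) : Rp W Y δ (n.natAbs * B) (n * x) := by
  obtain ⟨m, rfl | rfl⟩ := n.eq_nat_or_neg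
  · simpa using h.natmul m
  · simpa using (h.natmul m).neg hW

lemma Rp.of_W (h : x ∈ W) : Rp W Y δ 1 x :=
  ⟨[x], le_rfl, fun z hz => ⟨x, h, [], Nat.zero_le _, by simp, by simpa using hz⟩, by simp⟩

lemma Rp.one (hW : Cl W) : Rp W Y δ 1 1 := Rp.of_W hW.1

lemma Rp.of_mem (h : x ∈ AddSubmonoid.closure (W : Set ℂ)) : ∃ B, Rp W Y 0 B x := by
  induction h using AddSubmonoid.closure_induction with
  | mem x hx => exact ⟨1, Rp.of_W hx⟩
  | zero => exact ⟨0, Rp.zero⟩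
  | add x y _ _ hx hy =>
    obtain ⟨B, h⟩ := hx
    obtain ⟨B', h'⟩ := hy
    exact ⟨_, h.add h'⟩

lemma Rp.listsum (L : List ℂ) (f : ℂ → ℂ) (h : ∀ z ∈ L, Rp W Y δ B (f z)) :
    Rp W Y δ (L.length * B) (L.map f).sum := by
  induction L with
  | nil => simpa using Rp.zero
  | cons a L ih =>
    rw [List.map_cons, List.sum_cons, List.length_cons, add_mul, one_mul, add_comm _ B]
    exact (h a List.mem_cons_self).add (ih fun z hz => h z (List.mem_cons_of_mem _ hz))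

lemma Cl.exists_mul (hW : Cl W) : ∃ C : ℕ, 1 ≤ C ∧ ∀ {Y : Finset ℂ} {δ δ' B B' : ℕ} {x y : ℂ},
    Rp W Y δ B x → Rp W Y δ' B' y → Rp W Y (δ + δ') (C * B * B') (x * y) := by
  obtain ⟨C, hC, h⟩ := uniform_bound (W ×ˢ W) (fun p _ B => Rp W ∅ 0 B (p.1 * p.2))
    (fun _ _ _ _ _ h _ hB => h.le hB) fun p hp => by
      obtain ⟨B, hB⟩ := Rp.of_mem (Y := ∅)
        (hW.2.2 _ (Finset.mem_product.1 hp).1 _ (Finset.mem_product.1 hp).2)
      exact ⟨0, B, hB⟩
  refine ⟨C, hC, ?_⟩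
  rintro Y δ δ' B B' x y ⟨L, h1, h2, rfl⟩ ⟨L', h1', h2', rfl⟩
  have key : ∀ z ∈ L, ∀ z' ∈ L', Rp W Y (δ + δ') C (z * z') := by
    intro z hz z' hz'
    obtain ⟨w, hw, l, a, b, rfl⟩ := h2 z hz
    obtain ⟨w', hw', l', a', b', rfl⟩ := h2' z' hz'
    obtain ⟨M, m1, m2, m3⟩ := h (w, w') (Finset.mem_product.2 ⟨hw, hw'⟩)
    refine ⟨M.map (· * (l ++ l').prod), by simpa using m1, fun z hz => ?_, ?_⟩
    · obtain ⟨z, hz1, rfl⟩ := List.mem_map.1 hz
      obtain ⟨v, hv, k, k1, -, rfl⟩ := m2 z hz1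
      rw [List.length_eq_zero_iff.1 (Nat.le_zero.1 k1), List.prod_nil, mul_one]
      refine ⟨v, hv, l ++ l', by rw [List.length_append]; omega, fun y hy => ?_, rfl⟩
      rcases List.mem_append.1 hy with hy | hy
      · exact b y hy
      · exact b' y hy
    · rw [List.sum_map_mul_right, List.map_id', m3, List.prod_append]; ring
  have k2 := Rp.listsum L (fun z => z * L'.sum) fun z hz => by
    have := Rp.listsum L' (fun z' => z * z') (key z hz)
    rwa [List.sum_map_mul_left, List.map_id'] at this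
  rw [List.sum_map_mul_right, List.map_id'] at k2
  refine k2.le ?_
  calc L.length * (L'.length * C) ≤ B * (B' * C) := by gcongr
    _ = _ := by ring

lemma Rp.coords (W Y : Finset ℂ) (δ : ℕ) : ∃ P : Finset ℂ, P.card ≤ W.card * (δ + 1) ^ Y.card ∧
    ∀ B x, Rp W Y δ B x → ∃ n : ℂ → ℕ, (∀ p, n p ≤ B) ∧ x = ∑ p ∈ P, n p * p := by
  classical
  obtain ⟨P, h1, h2⟩ := exists_finset_prods Y δ
  refine ⟨(W ×ˢ P).image fun p => p.1 * p.2, Finset.card_image_le.trans ?_, ?_⟩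
  · rw [Finset.card_product]; gcongr
  · rintro B x ⟨L, a, b, rfl⟩
    refine ⟨fun p => L.count p, fun p => List.count_le_length.trans a, ?_⟩
    rw [Finset.sum_list_count_of_subset L ((W ×ˢ P).image fun p => p.1 * p.2) fun z hz => ?_]
    · simp only [nsmul_eq_mul]
    · obtain ⟨w, hw, l, c, d, rfl⟩ := b z (List.mem_toFinset.1 hz)
      exact Finset.mem_image.2 ⟨(w, l.prod), Finset.mem_product.2 ⟨hw, h2 l c d⟩, rfl⟩

lemma exists_Cl (Z : Finset ℂ) (hZ : ∀ z ∈ Z, IsAlgebraic ℚ z) : ∃ (W : Finset ℂ) (b : ℕ),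
    Cl W ∧ 0 < b ∧ ∀ z ∈ Z, (b : ℂ) * z ∈ AddSubmonoid.closure (W : Set ℂ) := by
  classical
  have h1 : ∀ z ∈ Z, ∃ n : ℕ, 0 < n ∧ IsIntegral ℤ ((n : ℂ) * z) := fun z hz => by
    obtain ⟨y, hy, h⟩ := ((IsFractionRing.isAlgebraic_iff ℤ ℚ ℂ).2 (hZ z hz)).exists_integral_multiple
    refine ⟨y.natAbs, Int.natAbs_pos.2 hy, ?_⟩
    rw [zsmul_eq_mul] at h
    obtain ⟨m, rfl | rfl⟩ := y.eq_nat_or_neg
    · simpa using h
    · simpa using h.neg
  choose! n hn hn' using h1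
  let b := ∏ z ∈ Z, n z
  have h2 : ∀ z ∈ Z, IsIntegral ℤ ((b : ℂ) * z) := fun z hz => by
    obtain ⟨m, hm⟩ := Finset.dvd_prod_of_mem n hz
    have : IsIntegral ℤ (m : ℂ) := by simpa using isIntegral_algebraMap (R := ℤ) (A := ℂ) (x := m)
    rw [show b = n z * m from hm, Nat.cast_mul, mul_comm (n z : ℂ), mul_assoc]
    exact this.mul (hn' z hz)
  obtain ⟨S, hS⟩ := fg_adjoin_of_finite (R := ℤ) (s := (fun z => (b : ℂ) * z) '' Z)
    (Z.finite_toSet.image _) (by rintro _ ⟨z, hz, rfl⟩; exact h2 z hz)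
  set A := Algebra.adjoin ℤ ((fun z => (b : ℂ) * z) '' Z)
  let W : Finset ℂ := insert 1 S ∪ (insert 1 S).image Neg.neg
  have hneg : ∀ w ∈ W, -w ∈ W := fun w hw => by
    rcases Finset.mem_union.1 hw with hw | hw
    · exact Finset.mem_union_right _ (Finset.mem_image_of_mem _ hw)
    · obtain ⟨v, hv, rfl⟩ := Finset.mem_image.1 hw
      rw [neg_neg]; exact Finset.mem_union_left _ hv
  have hA : ∀ x ∈ A, x ∈ AddSubmonoid.closure (W : Set ℂ) := fun x hx => by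
    have hx' : x ∈ Submodule.span ℤ (S : Set ℂ) := hS ▸ hx
    have hn : ∀ x ∈ AddSubmonoid.closure (W : Set ℂ), -x ∈ AddSubmonoid.closure (W : Set ℂ) := by
      intro x hx
      induction hx using AddSubmonoid.closure_induction with
      | mem x hx => exact AddSubmonoid.subset_closure (hneg x hx)
      | zero => simp
      | add x y _ _ hx hy => rw [neg_add]; exact add_mem hx hy
    clear hx
    induction hx' using Submodule.span_induction with
    | mem x hx =>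
      exact AddSubmonoid.subset_closure (Finset.mem_union_left _ (Finset.mem_insert_of_mem hx))
    | zero => exact zero_mem _
    | add x y _ _ hx hy => exact add_mem hx hy
    | smul a x _ hx =>
      obtain ⟨m, rfl | rfl⟩ := a.eq_nat_or_neg
      · simpa using nsmul_mem hx m
      · simpa using hn _ (nsmul_mem hx m)
  have hWA : ∀ w ∈ W, w ∈ A := fun w hw => by
    have k : ∀ v ∈ insert 1 S, v ∈ A := fun v hv => by
      rcases Finset.mem_insert.1 hv with rfl | hv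
      · exact one_mem _
      · have : v ∈ Subalgebra.toSubmodule A := hS ▸ Submodule.subset_span hv
        exact this
    rcases Finset.mem_union.1 hw with hw | hw
    · exact k w hw
    · obtain ⟨v, hv, rfl⟩ := Finset.mem_image.1 hw
      exact neg_mem (k v hv)
  exact ⟨W, b, ⟨Finset.mem_union_left _ (Finset.mem_insert_self _ _), hneg,
    fun w hw w' hw' => hA _ (mul_mem (hWA w hw) (hWA w' hw'))⟩, Finset.prod_pos hn,
    fun z hz => hA _ (Algebra.subset_adjoin ⟨z, hz, rfl⟩)⟩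

lemma Cl.merge (hW : Cl W) (hW' : Cl W') : ∃ V : Finset ℂ, Cl V ∧ W ⊆ V ∧ W' ⊆ V := by
  classical
  let V := (W ×ˢ W').image fun p => p.1 * p.2
  have m : ∀ w ∈ W, ∀ w' ∈ W', w * w' ∈ V := fun w hw w' hw' =>
    Finset.mem_image.2 ⟨(w, w'), Finset.mem_product.2 ⟨hw, hw'⟩, rfl⟩
  refine ⟨V, ⟨by simpa using m 1 hW.1 1 hW'.1, fun v hv => ?_, fun v hv v' hv' => ?_⟩,
    fun w hw => by simpa using m w hw 1 hW'.1, fun w hw => by simpa using m 1 hW.1 w hw⟩
  · obtain ⟨p, hp, rfl⟩ := Finset.mem_image.1 hv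
    rw [← neg_mul]
    exact m _ (hW.2.1 _ (Finset.mem_product.1 hp).1) _ (Finset.mem_product.1 hp).2
  · obtain ⟨p, hp, rfl⟩ := Finset.mem_image.1 hv
    obtain ⟨p', hp', rfl⟩ := Finset.mem_image.1 hv'
    rw [mul_mul_mul_comm]
    have := AddSubmonoid.mul_mem_mul
      (hW.2.2 _ (Finset.mem_product.1 hp).1 _ (Finset.mem_product.1 hp').1)
      (hW'.2.2 _ (Finset.mem_product.1 hp).2 _ (Finset.mem_product.1 hp').2)
    rw [AddSubmonoid.closure_mul_closure] at this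
    refine AddSubmonoid.closure_mono ?_ this
    rintro _ ⟨w, hw, w', hw', rfl⟩
    exact m w hw w' hw'

lemma cl_one : Cl {1, -1} := by
  refine ⟨by simp, by simp, fun w hw w' hw' => AddSubmonoid.subset_closure ?_⟩
  simp only [Finset.mem_insert, Finset.mem_singleton] at hw hw'
  rcases hw with rfl | rfl <;> rcases hw' with rfl | rfl <;> simp

lemma GS.mono (h : GS Y δ φ) (hY : Y ⊆ Y') (hδ : δ ≤ δ') : GS Y' δ' φ := by
  obtain ⟨W, c, hW, h⟩ := h
  refine ⟨W, c, hW, fun T => ?_⟩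
  obtain ⟨Λ, a, b, h⟩ := h T
  exact ⟨Λ, a, b, fun t ht => (h t ht).mono subset_rfl hY hδ le_rfl⟩

lemma GS.common_aux {ι : Type*} (s : Finset ι) (F : ι → ℂ⟦X⟧) (h : ∀ j ∈ s, GS Y δ (F j)) :
    ∃ (W : Finset ℂ) (c : ℕ), Cl W ∧ ∀ T : ℕ, ∃ Λ : ℕ, 0 < Λ ∧ Λ ≤ c ^ (T + 1) ∧
      ∀ j ∈ s, ∀ t ≤ T, Rp W Y δ (c ^ (T + 1)) (Λ * coeff t (F j)) := by
  classical
  induction s using Finset.induction_on with
  | empty => exact ⟨_, 1, cl_one, fun T => ⟨1, one_pos, by simp, by simp⟩⟩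
  | insert a s ha ih =>
    obtain ⟨W, c, hW, h1⟩ := ih fun j hj => h j (Finset.mem_insert_of_mem hj)
    obtain ⟨W', c', hW', h2⟩ := h a (Finset.mem_insert_self _ _)
    obtain ⟨V, hV, s1, s2⟩ := hW.merge hW'
    refine ⟨V, c * c', hV, fun T => ?_⟩
    obtain ⟨Λ, a1, b1, h1⟩ := h1 T
    obtain ⟨Λ', a2, b2, h2⟩ := h2 T
    refine ⟨Λ * Λ', by positivity, by rw [mul_pow]; gcongr, fun j hj t ht => ?_⟩
    rw [mul_pow, Nat.cast_mul]
    rcases Finset.mem_insert.1 hj with rfl | hj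
    · rw [mul_assoc]
      exact ((h2 t ht).natmul Λ).mono s2 subset_rfl le_rfl (by gcongr)
    · rw [mul_comm (Λ : ℂ), mul_assoc, mul_comm (c ^ _)]
      exact ((h1 j hj t ht).natmul Λ').mono s1 subset_rfl le_rfl (by gcongr)

lemma GS.common {ι : Type*} [Fintype ι] (F : ι → ℂ⟦X⟧) (h : ∀ j, GS Y δ (F j)) :
    ∃ (W : Finset ℂ) (c : ℕ), Cl W ∧ ∀ T : ℕ, ∃ Λ : ℕ, 0 < Λ ∧ Λ ≤ c ^ (T + 1) ∧
      ∀ j, ∀ t ≤ T, Rp W Y δ (c ^ (T + 1)) (Λ * coeff t (F j)) := by
  simpa using GS.common_aux Finset.univ F fun j _ => h j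

lemma GS.add (h : GS Y δ φ) (h' : GS Y δ ψ) : GS Y δ (φ + ψ) := by
  obtain ⟨W, c, hW, h⟩ := GS.common (Y := Y) (δ := δ) ![φ, ψ] (by simp [Fin.forall_fin_two, h, h'])
  refine ⟨W, 2 * c, hW, fun T => ?_⟩
  obtain ⟨Λ, a, b, h⟩ := h T
  have k : 2 * c ^ (T + 1) ≤ (2 * c) ^ (T + 1) := by
    rw [mul_pow]; exact Nat.mul_le_mul_right _ (Nat.le_self_pow (by omega) 2)
  refine ⟨Λ, a, by omega, fun t ht => ?_⟩
  rw [map_add, mul_add]
  exact ((h 0 t ht).add (h 1 t ht)).le (by omega)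

lemma GS.mul (h : GS Y δ φ) (h' : GS Y δ' ψ) : GS Y (δ + δ') (φ * ψ) := by
  obtain ⟨W, c, hW, h⟩ := h
  obtain ⟨W', c', hW', h'⟩ := h'
  obtain ⟨V, hV, s1, s2⟩ := hW.merge hW'
  obtain ⟨C, hC, hm⟩ := hV.exists_mul
  refine ⟨V, 2 * C * (c * c'), hV, fun T => ?_⟩
  obtain ⟨Λ, a1, b1, h1⟩ := h T
  obtain ⟨Λ', a2, b2, h2⟩ := h' T
  have k : (T + 1) * C ≤ (2 * C) ^ (T + 1) := by
    rw [mul_pow]
    exact Nat.mul_le_mul Nat.lt_two_pow_self.le (Nat.le_self_pow (by omega) C)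
  refine ⟨Λ * Λ', by positivity, ?_, fun t ht => ?_⟩
  · rw [mul_pow, mul_pow c]
    exact (Nat.mul_le_mul b1 b2).trans (Nat.le_mul_of_pos_left _ (by positivity))
  · rw [coeff_mul, Finset.mul_sum]
    refine (Rp.sum (B := C * c ^ (T + 1) * c' ^ (T + 1)) _ _ fun p hp => ?_).le ?_
    · have : p.1 + p.2 = t := by simpa using hp
      rw [Nat.cast_mul, mul_mul_mul_comm]
      exact hm ((h1 _ (by omega)).mono s1 subset_rfl le_rfl le_rfl)
        ((h2 _ (by omega)).mono s2 subset_rfl le_rfl le_rfl)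
    · rw [Finset.Nat.card_antidiagonal, mul_pow, mul_pow c, mul_assoc C, ← mul_assoc]
      gcongr
      exact le_trans (by gcongr) k

lemma GS.rat (a : ℕ → ℚ) (c : ℕ) (ha : ∀ T, ∃ Λ : ℕ, 0 < Λ ∧ Λ ≤ c ^ (T + 1) ∧
    ∀ t ≤ T, ∃ n : ℤ, (n : ℚ) = Λ * a t ∧ n.natAbs ≤ c ^ (T + 1)) :
    GS Y 0 (mk fun t => (a t : ℂ)) := by
  refine ⟨_, c, cl_one, fun T => ?_⟩
  obtain ⟨Λ, h1, h2, h⟩ := ha T
  refine ⟨Λ, h1, h2, fun t ht => ?_⟩
  obtain ⟨n, e, hn⟩ := h t ht
  have e' : (Λ : ℂ) * a t = n * 1 := by rw [mul_one]; exact_mod_cast congrArg (Rat.cast (K := ℂ)) e.symm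
  rw [coeff_mk, e']
  exact ((Rp.one cl_one).intmul cl_one n).le (by omega)

lemma GS.int (a : ℕ → ℤ) (c : ℕ) (ha : ∀ t, (a t).natAbs ≤ c ^ (t + 1)) :
    GS Y 0 (mk fun t => (a t : ℂ)) := by
  have := GS.rat (Y := Y) (fun t => a t) (c + 1) fun T => ⟨1, one_pos, Nat.one_le_pow _ _ (by omega),
    fun t ht => ⟨a t, by simp, (ha t).trans ((Nat.pow_le_pow_left (Nat.le_succ c) _).trans
      (Nat.pow_le_pow_right (by omega) (by omega)))⟩⟩
  simpa using this

lemma GS.C_Rp (hW : Cl W) (h : Rp W Y δ B x) : GS Y δ (C x) := by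
  refine ⟨W, B + 1, hW, fun T => ⟨1, one_pos, Nat.one_le_pow _ _ (by omega), fun t _ => ?_⟩⟩
  rw [coeff_C, Nat.cast_one, one_mul]
  split_ifs
  · exact h.le ((Nat.le_succ B).trans (Nat.le_self_pow (by omega) _))
  · exact Rp.zero

lemma GS.pow (h : GS Y δ φ) (n : ℕ) : GS Y (n * δ) (φ ^ n) := by
  induction n with
  | zero => simpa using GS.C_Rp cl_one (Rp.one (Y := Y) (δ := 0) cl_one)
  | succ n ih => rw [pow_succ, add_mul, one_mul]; exact ih.mul h

lemma GS.C_mem (h : x ∈ Y) : GS Y 1 (C x) :=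
  GS.C_Rp (B := 1) cl_one ⟨[x], le_rfl, fun z hz => ⟨1, cl_one.1, [x], le_rfl, by simpa using h,
    by simpa using hz⟩, by simp⟩

lemma GS.C_int (n : ℤ) : GS Y 0 (C (n : ℂ)) := by
  simpa using GS.C_Rp cl_one ((Rp.one (Y := Y) (δ := 0) cl_one).intmul cl_one n)

lemma GS.C_closure (h : x ∈ Subring.closure (Y : Set ℂ)) : ∃ δ, GS Y δ (C x) := by
  induction h using Subring.closure_induction with
  | mem x hx => exact ⟨1, GS.C_mem hx⟩
  | zero => exact ⟨0, by simpa using GS.C_int (Y := Y) 0⟩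
  | one => exact ⟨0, by simpa using GS.C_int (Y := Y) 1⟩
  | add x y _ _ hx hy =>
    obtain ⟨δ, h⟩ := hx
    obtain ⟨δ', h'⟩ := hy
    exact ⟨δ + δ', by
      rw [map_add]; exact (h.mono subset_rfl (by omega)).add (h'.mono subset_rfl (by omega))⟩
  | neg x _ hx =>
    obtain ⟨δ, h⟩ := hx
    exact ⟨0 + δ, by simpa using (GS.C_int (-1)).mul h⟩
  | mul x y _ _ hx hy =>
    obtain ⟨δ, h⟩ := hx
    obtain ⟨δ', h'⟩ := hy
    exact ⟨δ + δ', by rw [map_mul]; exact h.mul h'⟩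

lemma lcmUpto_le (n : ℕ) : Nat.lcmUpto n ≤ 256 ^ n := by
  have h1 := Chebyshev.psi_le_const_mul_self (x := n) (Nat.cast_nonneg n)
  rw [Chebyshev.psi_eq_log_lcmUpto] at h1
  have h2 : Real.log 4 + 4 ≤ Real.log 256 := by
    have : Real.log 256 = Real.log 4 + 6 * Real.log 2 := by
      rw [show (256 : ℝ) = 4 * 2 ^ 6 by norm_num, Real.log_mul (by norm_num) (by norm_num),
        Real.log_pow]; norm_num
    linarith only [this, Real.log_two_gt_d9]
  have h3 : Real.log (Nat.lcmUpto n) ≤ Real.log (256 ^ n) := by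
    rw [Real.log_pow]; linarith only [h1, h2, (Nat.cast_nonneg n : (0 : ℝ) ≤ n), mul_nonneg_of_nonpos_of_nonpos (Mathlib.Tactic.Linarith.sub_nonpos_of_le (Mathlib.Tactic.Linarith.natCast_nonneg ℝ n)) (Mathlib.Tactic.Linarith.sub_nonpos_of_le h2)]
  rw [Real.log_le_log_iff (by exact_mod_cast Nat.lcmUpto_pos n) (by positivity)] at h3
  exact_mod_cast h3

lemma GS.integral (h : GS Y δ (d⁄dX ℂ φ)) (h0 : GS Y δ (C (constantCoeff φ))) : GS Y δ φ := by
  obtain ⟨W, c, hW, h⟩ := GS.common (Y := Y) (δ := δ) ![d⁄dX ℂ φ, C (constantCoeff φ)]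
    (by simp [Fin.forall_fin_two, h, h0])
  refine ⟨W, 256 * c, hW, fun T => ?_⟩
  obtain ⟨Λ, a, b, h⟩ := h T
  have hl := lcmUpto_le (T + 1)
  have hp := Nat.lcmUpto_pos (T + 1)
  refine ⟨Nat.lcmUpto (T + 1) * Λ, by positivity, by rw [mul_pow]; gcongr, fun t ht => ?_⟩
  rw [mul_pow, Nat.cast_mul, mul_assoc]
  cases t with
  | zero =>
    have := (h 1 0 ht).natmul (Nat.lcmUpto (T + 1))
    simp only [Matrix.cons_val_one, Matrix.cons_val_zero, coeff_zero_C] at this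
    rw [coeff_zero_eq_constantCoeff]
    exact this.le (by gcongr)
  | succ t =>
    obtain ⟨m, hm⟩ : t + 1 ∣ Nat.lcmUpto (T + 1) :=
      Finset.dvd_lcm (f := id) (Finset.mem_Icc.2 ⟨by omega, by omega⟩)
    have := (h 0 t (by omega)).natmul m
    simp only [Matrix.cons_val_zero, coeff_derivative] at this
    have hm' : m ≤ 256 ^ (T + 1) := le_trans (by rw [hm]; linarith only [mul_nonneg_of_nonpos_of_nonpos (Mathlib.Tactic.Linarith.sub_nonpos_of_le (Mathlib.Tactic.Linarith.natCast_nonneg ℤ t)) (Mathlib.Tactic.Linarith.sub_nonpos_of_le (Mathlib.Tactic.Linarith.natCast_nonneg ℤ m))]) hl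
    convert this.le (B' := 256 ^ (T + 1) * c ^ (T + 1)) (by gcongr) using 1
    rw [hm]; push_cast; ring

end Pool.Agent.Work.MP_db07cb_ag
end

-- merged part: Pool.Agent.Work.MP_db07cb_ag.Eisen
section
/-! Eisenstein's theorem on algebraic power series. -/

namespace Pool.Agent.Work.MP_db07cb_ag

open PowerSeries

namespace Eisen

noncomputable section

/-- the algebraic numbers -/
abbrev AA : IntermediateField ℚ ℂ := algebraicClosure ℚ ℂ

/-- polynomials with algebraic coefficients inside the power series -/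
def RR : Subring ℂ⟦X⟧ where
  carrier := {φ | (∀ t, coeff t φ ∈ AA) ∧ ∃ d, ∀ t, d ≤ t → coeff t φ = 0}
  zero_mem' := ⟨fun t => by simp, 0, fun t _ => by simp⟩
  one_mem' := ⟨fun t => by rw [coeff_one]; split_ifs <;> simp, 1, fun t ht => by
    rw [coeff_one, if_neg (by omega)]⟩
  add_mem' := by
    rintro φ ψ ⟨h1, d, h2⟩ ⟨h3, e, h4⟩
    exact ⟨fun t => by rw [map_add]; exact add_mem (h1 t) (h3 t), d + e, fun t ht => by
      rw [map_add, h2 t (by omega), h4 t (by omega), add_zero]⟩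
  neg_mem' := by
    rintro φ ⟨h1, d, h2⟩
    exact ⟨fun t => by rw [map_neg]; exact neg_mem (h1 t), d, fun t ht => by
      rw [map_neg, h2 t ht, neg_zero]⟩
  mul_mem' := by
    rintro φ ψ ⟨h1, d, h2⟩ ⟨h3, e, h4⟩
    refine ⟨fun t => ?_, d + e, fun t ht => ?_⟩
    · rw [coeff_mul]; exact sum_mem fun p _ => mul_mem (h1 _) (h3 _)
    · rw [coeff_mul]
      refine Finset.sum_eq_zero fun p hp => ?_
      have := Finset.HasAntidiagonal.mem_antidiagonal.1 hp
      by_cases h : d ≤ p.1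
      · rw [h2 _ h, zero_mul]
      · rw [h4 _ (by omega), mul_zero]

lemma C_mem {a : ℂ} (h : a ∈ AA) : (C a : ℂ⟦X⟧) ∈ RR :=
  ⟨fun t => by rw [coeff_C]; split_ifs; exacts [h, zero_mem _], 1, fun t ht => by
    rw [coeff_C, if_neg (by omega)]⟩

lemma X_mem : (X : ℂ⟦X⟧) ∈ RR :=
  ⟨fun t => by rw [coeff_X]; split_ifs <;> simp, 2, fun t ht => by
    rw [coeff_X, if_neg (by omega)]⟩

lemma div_mem {φ : ℂ⟦X⟧} {k : ℕ} (h : X ^ k * φ ∈ RR) : φ ∈ RR := by
  obtain ⟨h1, d, h2⟩ := h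
  refine ⟨fun t => ?_, d, fun t ht => ?_⟩
  · rw [← coeff_X_pow_mul φ k t]; exact h1 _
  · rw [← coeff_X_pow_mul φ k t]; exact h2 _ (by omega)

lemma const_alg {H : ℂ⟦X⟧} (h : IsAlgebraic RR H) : coeff 0 H ∈ AA := by
  classical
  obtain ⟨P, h0, h1⟩ := h
  have hex : ∃ k, ∃ i, coeff k (P.coeff i : ℂ⟦X⟧) ≠ 0 := by
    by_contra hn
    push Not at hn
    apply h0
    ext i k
    simpa using hn k i
  obtain ⟨i0, hi0⟩ := Nat.find_spec hex
  set k := Nat.find hex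
  have hd : ∀ i, ∃ q : ℂ⟦X⟧, (P.coeff i : ℂ⟦X⟧) = X ^ k * q := fun i =>
    X_pow_dvd_iff.2 fun m hm => by
      by_contra hne
      exact Nat.find_min hex hm ⟨i, hne⟩
  choose q hq using hd
  have hq0 : ∀ i, coeff 0 (q i) = coeff k (P.coeff i : ℂ⟦X⟧) := fun i => by
    rw [hq, ← coeff_X_pow_mul (q i) k 0, zero_add]
  rw [Polynomial.aeval_eq_sum_range] at h1
  have h2 : ∑ i ∈ Finset.range (P.natDegree + 1), q i * H ^ i = 0 := by
    have : (X : ℂ⟦X⟧) ^ k * ∑ i ∈ Finset.range (P.natDegree + 1), q i * H ^ i = 0 := by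
      rw [Finset.mul_sum, ← h1]
      exact Finset.sum_congr rfl fun i _ => by rw [← mul_assoc, ← hq]; rfl
    exact (mul_eq_zero.1 this).resolve_left (pow_ne_zero _ X_ne_zero)
  have h3 := congrArg (constantCoeff (R := ℂ)) h2
  simp only [map_sum, map_mul, map_pow, map_zero] at h3
  let e : ℕ → AA := fun i => ⟨coeff k (P.coeff i : ℂ⟦X⟧), (P.coeff i).2.1 k⟩
  have h4 : IsAlgebraic AA (constantCoeff H) := by
    refine ⟨∑ i ∈ Finset.range (P.natDegree + 1), Polynomial.monomial i (e i), fun hz => ?_, ?_⟩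
    · have h5 := congrArg (fun p => Polynomial.coeff p i0) hz
      have hi : i0 ∈ Finset.range (P.natDegree + 1) := by
        rw [Finset.mem_range, Nat.lt_succ_iff]
        exact Polynomial.le_natDegree_of_ne_zero fun h => hi0 (by rw [h]; simp)
      simp only [Polynomial.finsetSum_coeff, Polynomial.coeff_monomial, Polynomial.coeff_zero] at h5
      rw [Finset.sum_eq_single i0 (fun c _ hc => if_neg hc) (fun h => absurd hi h),
        if_pos rfl] at h5
      exact hi0 (congrArg Subtype.val h5)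
    · rw [map_sum, ← h3]
      refine Finset.sum_congr rfl fun i _ => ?_
      rw [Polynomial.aeval_monomial, ← coeff_zero_eq_constantCoeff_apply (q i), hq0]
      rfl
  rw [coeff_zero_eq_constantCoeff_apply]
  exact mem_algebraicClosure_iff.2 (@IsAlgebraic.restrictScalars ℚ AA ℂ _ _ _ _ _ _ _ _
    (algebraicClosure.isAlgebraic ℚ ℂ) _ h4)

lemma coeff_alg (t : ℕ) : ∀ {H : ℂ⟦X⟧}, IsAlgebraic RR H → coeff t H ∈ AA := by
  induction t with
  | zero => exact const_alg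
  | succ t ih =>
    intro H h
    have h0 := const_alg h
    rw [coeff_zero_eq_constantCoeff_apply] at h0
    have h1 : IsAlgebraic RR (X * mk fun p => coeff (p + 1) H) := by
      rw [eq_sub_of_add_eq (eq_X_mul_shift_add_const H).symm]
      exact h.sub (isAlgebraic_algebraMap (A := ℂ⟦X⟧) (⟨_, C_mem h0⟩ : RR))
    have h2 := ih (IsAlgebraic.of_mul (mem_nonZeroDivisors_of_ne_zero X_ne_zero)
      (isAlgebraic_algebraMap (A := ℂ⟦X⟧) (⟨_, X_mem⟩ : RR)) h1)
    rwa [coeff_mk] at h2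

lemma sep {x : ℂ⟦X⟧} (n : ℕ) : ∀ Q : Polynomial RR, Q.natDegree ≤ n → Q ≠ 0 →
    Polynomial.aeval x Q = 0 → ∃ P : Polynomial RR, Polynomial.aeval x P = 0 ∧
      Polynomial.aeval x (Polynomial.derivative P) ≠ 0 := by
  have : CharZero ℂ⟦X⟧ := charZero_of_injective_algebraMap (algebraMap ℂ ℂ⟦X⟧).injective
  have hC : ∀ Q : Polynomial RR, Q.natDegree = 0 → Q ≠ 0 → Polynomial.aeval x Q ≠ 0 := by
    intro Q h h0 h1
    rw [Polynomial.eq_C_of_natDegree_eq_zero h, Polynomial.aeval_C] at h1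
    apply h0
    rw [Polynomial.eq_C_of_natDegree_eq_zero h, show Q.coeff 0 = 0 from Subtype.ext h1]
    exact map_zero _
  induction n with
  | zero => exact fun Q h h0 h1 => absurd h1 (hC Q (by omega) h0)
  | succ n ih =>
    intro Q h h0 h1
    by_cases h2 : Polynomial.aeval x (Polynomial.derivative Q) = 0
    · have h3 : Q.natDegree ≠ 0 := fun h3 => hC Q h3 h0 h1
      have h4 := Polynomial.natDegree_derivative_lt h3
      exact ih _ (by omega) (fun h5 => h3 (Polynomial.derivative_eq_zero.1 h5)) h2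
    · exact ⟨Q, h1, h2⟩

/-- majorant predicate -/
def Maj (W Y : Finset ℂ) (ε : ℝ) (T : ℕ) (s : ℝ) (φ : ℂ⟦X⟧) : Prop :=
  ∃ n : ℕ → ℕ, (∀ t < T, Rp W Y 0 (n t) (coeff t φ)) ∧
    ∑ t ∈ Finset.range T, (n t : ℝ) * ε ^ t ≤ s

variable {W Y : Finset ℂ} {ε s s' : ℝ} {T : ℕ} {φ ψ : ℂ⟦X⟧}

lemma Maj.mono (h : Maj W Y ε T s φ) (hs : s ≤ s') : Maj W Y ε T s' φ := by
  obtain ⟨n, h1, h2⟩ := h
  exact ⟨n, h1, h2.trans hs⟩

lemma Maj.add (h : Maj W Y ε T s φ) (h' : Maj W Y ε T s' ψ) : Maj W Y ε T (s + s') (φ + ψ) := by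
  obtain ⟨n, h1, h2⟩ := h
  obtain ⟨m, h3, h4⟩ := h'
  refine ⟨fun t => n t + m t, fun t ht => by rw [map_add]; exact (h1 t ht).add (h3 t ht), ?_⟩
  simp only [Nat.cast_add, add_mul, Finset.sum_add_distrib]
  exact add_le_add h2 h4

lemma Maj.sum {ι : Type} (S : Finset ι) (σ : ι → ℝ) (F : ι → ℂ⟦X⟧)
    (h : ∀ i ∈ S, Maj W Y ε T (σ i) (F i)) : Maj W Y ε T (∑ i ∈ S, σ i) (∑ i ∈ S, F i) := by
  classical
  induction S using Finset.induction_on with
  | empty => exact ⟨fun _ => 0, fun t _ => by simpa using Rp.zero, by simp⟩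
  | insert a S ha ih =>
    rw [Finset.sum_insert ha, Finset.sum_insert ha]
    exact (h a (Finset.mem_insert_self _ _)).add (ih fun i hi => h i (Finset.mem_insert_of_mem hi))

lemma Rp_sum {ι : Type} (S : Finset ι) (B : ι → ℕ) (f : ι → ℂ)
    (h : ∀ i ∈ S, Rp W Y 0 (B i) (f i)) : Rp W Y 0 (∑ i ∈ S, B i) (∑ i ∈ S, f i) := by
  classical
  induction S using Finset.induction_on with
  | empty => simpa using Rp.zero
  | insert a S ha ih =>
    rw [Finset.sum_insert ha, Finset.sum_insert ha]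
    exact (h a (Finset.mem_insert_self _ _)).add (ih fun i hi => h i (Finset.mem_insert_of_mem hi))

lemma Maj.mul {c : ℕ} (hc : ∀ {B B' : ℕ} {x y : ℂ}, Rp W Y 0 B x → Rp W Y 0 B' y →
    Rp W Y 0 (c * B * B') (x * y)) (hε : 0 ≤ ε) (h : Maj W Y ε T s φ)
    (h' : Maj W Y ε T s' ψ) : Maj W Y ε T (c * s * s') (φ * ψ) := by
  obtain ⟨n, h1, h2⟩ := h
  obtain ⟨m, h3, h4⟩ := h'
  refine ⟨fun t => ∑ k ∈ Finset.range (t + 1), c * n k * m (t - k), fun t ht => ?_, ?_⟩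
  · rw [coeff_mul, Finset.Nat.sum_antidiagonal_eq_sum_range_succ_mk]
    refine Rp_sum _ _ _ fun k hk => ?_
    have := Finset.mem_range.1 hk
    exact hc (h1 _ (by omega)) (h3 _ (by omega))
  · have e : ∑ t ∈ Finset.range T, ((∑ k ∈ Finset.range (t + 1), c * n k * m (t - k) : ℕ) : ℝ)
        * ε ^ t = ∑ t ∈ Finset.range T, ∑ k ∈ Finset.range (t + 1),
          (fun i j => (c : ℝ) * (n i * ε ^ i) * (m j * ε ^ j)) k (t - k) := by
      refine Finset.sum_congr rfl fun t _ => ?_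
      rw [Nat.cast_sum, Finset.sum_mul]
      refine Finset.sum_congr rfl fun k hk => ?_
      have : t = k + (t - k) := by have := Finset.mem_range.1 hk; omega
      conv_lhs => rw [show ε ^ t = ε ^ k * ε ^ (t - k) by rw [← pow_add, ← this]]
      push_cast; ring
    rw [e, Finset.sum_range_diag_flip T fun i j => (c : ℝ) * (n i * ε ^ i) * (m j * ε ^ j)]
    have hm : 0 ≤ ∑ t ∈ Finset.range T, (m t : ℝ) * ε ^ t := by positivity
    calc _ ≤ ∑ i ∈ Finset.range T, (c : ℝ) * (n i * ε ^ i) * s' := by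
          refine Finset.sum_le_sum fun i _ => ?_
          rw [← Finset.mul_sum]
          refine mul_le_mul_of_nonneg_left (le_trans ?_ h4) (by positivity)
          exact Finset.sum_le_sum_of_subset_of_nonneg (Finset.range_mono (by omega))
            fun _ _ _ => by positivity
      _ = c * (∑ i ∈ Finset.range T, (n i * ε ^ i)) * s' := by
          rw [Finset.mul_sum, Finset.sum_mul]
      _ ≤ _ := by
          have := hm.trans h4
          gcongr

lemma Maj.one (hW : Cl W) : Maj W Y ε T 1 1 := by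
  refine ⟨fun t => if t = 0 then 1 else 0, fun t _ => ?_, ?_⟩
  · rw [coeff_one]
    beta_reduce
    split_ifs
    exacts [Rp.one hW, Rp.zero]
  · cases T with
    | zero => simp
    | succ T => rw [Finset.sum_range_succ']; simp

lemma Maj.pow {c : ℕ} (hc : ∀ {B B' : ℕ} {x y : ℂ}, Rp W Y 0 B x → Rp W Y 0 B' y →
    Rp W Y 0 (c * B * B') (x * y)) (hW : Cl W) (hε : 0 ≤ ε) (h : Maj W Y ε T s φ)
    (i : ℕ) : Maj W Y ε T ((c * s) ^ i) (φ ^ i) := by
  induction i with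
  | zero => simpa using Maj.one hW
  | succ i ih =>
    have := h.mul hc hε ih
    rwa [← pow_succ', ← pow_succ'] at this

lemma Maj.X_mul (h : Maj W Y ε T s φ) (hε : 0 ≤ ε) : Maj W Y ε (T + 1) (ε * s) (X * φ) := by
  obtain ⟨n, h1, h2⟩ := h
  refine ⟨fun t => Nat.casesOn t 0 n, fun t ht => ?_, ?_⟩
  · cases t with
    | zero => simpa using Rp.zero
    | succ t => rw [coeff_succ_X_mul]; exact h1 t (by omega)
  · rw [Finset.sum_range_succ']
    have : ∑ t ∈ Finset.range T, (n t : ℝ) * ε ^ (t + 1) =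
        ε * ∑ t ∈ Finset.range T, (n t : ℝ) * ε ^ t := by
      rw [Finset.mul_sum]; exact Finset.sum_congr rfl fun t _ => by ring
    show ∑ t ∈ Finset.range T, (n t : ℝ) * ε ^ (t + 1) + ((0 : ℕ) : ℝ) * ε ^ 0 ≤ _
    rw [this, Nat.cast_zero, zero_mul, add_zero]
    exact mul_le_mul_of_nonneg_left h2 hε

lemma Maj.of_poly (h : ∀ t, coeff t φ ∈ AddSubmonoid.closure (W : Set ℂ))
    (h' : ∃ d, ∀ t, d ≤ t → coeff t φ = 0) :
    ∃ s : ℕ, ∀ ε : ℝ, 0 ≤ ε → ε ≤ 1 → ∀ T, Maj W Y ε T s φ := by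
  obtain ⟨d, hd⟩ := h'
  choose B hB using fun t => Rp.of_mem (Y := Y) (h t)
  refine ⟨∑ t ∈ Finset.range d, B t, fun ε h0 h1 T => ⟨fun t => if t < d then B t else 0,
    fun t _ => ?_, ?_⟩⟩
  · beta_reduce
    split_ifs with ht
    · exact hB t
    · rw [hd t (by omega)]; exact Rp.zero
  · calc _ ≤ ∑ t ∈ Finset.range (T + d), ((if t < d then B t else 0 : ℕ) : ℝ) := by
          refine le_trans (Finset.sum_le_sum fun t _ => ?_)
            (Finset.sum_le_sum_of_subset_of_nonneg (Finset.range_mono (Nat.le_add_right T d))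
              fun _ _ _ => by positivity)
          exact mul_le_of_le_one_right (by positivity) (pow_le_one₀ h0 h1)
      _ = _ := by
          rw [← Nat.cast_sum, ← Finset.sum_filter]
          congr 2
          ext t
          simp only [Finset.mem_filter, Finset.mem_range]
          omega

lemma exists_Wb (S : Finset ℂ⟦X⟧) (hS : ∀ φ ∈ S, φ ∈ RR) : ∃ (W : Finset ℂ) (b : ℕ),
    Cl W ∧ 0 < b ∧ ∀ φ ∈ S, ∀ t, (b : ℂ) * coeff t φ ∈ AddSubmonoid.closure (W : Set ℂ) := by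
  classical
  choose! d hd using fun φ hφ => (hS φ hφ).2
  obtain ⟨W, b, hW, hb, h⟩ := exists_Cl
    (S.biUnion fun φ => (Finset.range (d φ)).image fun t => coeff t φ) (fun z hz => by
      obtain ⟨φ, hφ, hz⟩ := Finset.mem_biUnion.1 hz
      obtain ⟨t, -, rfl⟩ := Finset.mem_image.1 hz
      exact mem_algebraicClosure_iff.1 ((hS φ hφ).1 t))
  refine ⟨W, b, hW, hb, fun φ hφ t => ?_⟩
  by_cases ht : t < d φ
  · exact h _ (Finset.mem_biUnion.2 ⟨φ, hφ, Finset.mem_image_of_mem _ (Finset.mem_range.2 ht)⟩)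
  · rw [hd φ hφ t (by omega), mul_zero]; exact zero_mem _

lemma fix_GS {z g : ℂ⟦X⟧} (hg : g ∈ RR) {n : ℕ} (G : ℕ → ℂ⟦X⟧) (hG : ∀ i, G i ∈ RR)
    (h : z = g + X * ∑ i ∈ Finset.range n, G i * z ^ i) (Y : Finset ℂ) : GS Y 0 z := by
  classical
  obtain ⟨W, b, hW, hb, hWb⟩ := exists_Wb (insert g ((Finset.range n).image G)) (fun φ hφ => by
    rcases Finset.mem_insert.1 hφ with rfl | hφ
    · exact hg
    · obtain ⟨i, -, rfl⟩ := Finset.mem_image.1 hφ
      exact hG i)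
  obtain ⟨c, -, hc⟩ := hW.exists_mul
  have hc' : ∀ {B B' : ℕ} {x y : ℂ}, Rp W Y 0 B x → Rp W Y 0 B' y →
    Rp W Y 0 (c * B * B') (x * y) := fun h1 h2 => hc h1 h2
  have key : ∀ φ ∈ insert g ((Finset.range n).image G), φ ∈ RR → ∀ j : ℕ, ∃ s : ℕ, ∀ ε : ℝ,
      0 ≤ ε → ε ≤ 1 → ∀ T, Maj W Y ε T s (C ((b : ℂ) ^ (j + 1)) * rescale ((b : ℂ) ^ n) φ) := by
    intro φ hφ hR j
    refine Maj.of_poly (fun t => ?_) ?_
    · rw [coeff_C_mul, coeff_rescale]
      have := nsmul_mem (hWb φ hφ t) (b ^ j * (b ^ n) ^ t)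
      convert this using 1
      rw [nsmul_eq_mul]; push_cast; ring
    · obtain ⟨d, hd⟩ := hR.2
      exact ⟨d, fun t ht => by rw [coeff_C_mul, coeff_rescale, hd t ht, mul_zero, mul_zero]⟩
  obtain ⟨s, hs⟩ := key g (Finset.mem_insert_self _ _) hg 0
  choose! σ hσ using fun i (hi : i ∈ Finset.range n) => key (G i)
    (Finset.mem_insert_of_mem (Finset.mem_image_of_mem _ hi)) (hG i) (n - i)
  set w : ℂ⟦X⟧ := C (b : ℂ) * rescale ((b : ℂ) ^ n) z with hw
  have hw2 : w = C ((b : ℂ) ^ (0 + 1)) * rescale ((b : ℂ) ^ n) g + X * ∑ i ∈ Finset.range n,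
      (C ((b : ℂ) ^ (n - i + 1)) * rescale ((b : ℂ) ^ n) (G i)) * w ^ i := by
    conv_lhs => rw [hw, h]
    rw [map_add, map_mul, map_sum, rescale_X, mul_add, zero_add, pow_one]
    simp only [Finset.mul_sum]
    congr 1
    refine Finset.sum_congr rfl fun i hi => ?_
    have : n = n - i + i := by have := Finset.mem_range.1 hi; omega
    have e : (C ((b : ℂ) ^ n) : ℂ⟦X⟧) = C (b : ℂ) ^ (n - i) * C (b : ℂ) ^ i := by
      rw [← pow_add, ← this, map_pow]
    rw [hw, map_mul, map_pow (rescale _), e, map_pow C]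
    ring
  set M : ℕ := ∑ i ∈ Finset.range n, c * σ i * (c * (s + 1)) ^ i + 1 with hM
  have hM0 : (0 : ℝ) < M := by rw [hM]; positivity
  have hM1 : 1 ≤ M := by omega
  have he0 : (0 : ℝ) ≤ (M : ℝ)⁻¹ := by positivity
  have he1 : (M : ℝ)⁻¹ ≤ 1 := inv_le_one_of_one_le₀ (by exact_mod_cast hM1)
  have main : ∀ T, Maj W Y (M : ℝ)⁻¹ T (s + 1) w := by
    intro T
    induction T with
    | zero => exact ⟨fun _ => 0, fun t ht => absurd ht (by omega), by simp; positivity⟩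
    | succ T ih =>
      rw [hw2]
      refine ((hs _ he0 he1 _).add ((Maj.sum _ _ _ fun i hi => Maj.mul hc' he0
        (hσ i hi _ he0 he1 T) (ih.pow hc' hW he0 i)).X_mul he0)).mono ?_
      rw [add_le_add_iff_left, inv_mul_le_iff₀ hM0, hM]
      push_cast
      linarith only []
  refine ⟨W, b ^ (n + 1) * M * (s + 1), hW, fun T => ⟨b ^ (n * T + 1), by positivity, ?_,
    fun t ht => ?_⟩⟩
  · calc b ^ (n * T + 1) ≤ (b ^ (n + 1)) ^ (T + 1) := by
          rw [← pow_mul]; exact Nat.pow_le_pow_right hb (by linarith only [])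
      _ ≤ _ := Nat.pow_le_pow_left (by
          rw [mul_assoc]; exact Nat.le_mul_of_pos_right _ (by positivity)) _
  · obtain ⟨m, h1, h2⟩ := main (T + 1)
    have h3 : (m t : ℝ) * (M : ℝ)⁻¹ ^ t ≤ s + 1 := le_trans (Finset.single_le_sum
      (f := fun t => (m t : ℝ) * (M : ℝ)⁻¹ ^ t) (fun _ _ => by positivity)
      (Finset.mem_range.2 (by omega))) h2
    have h4 : m t ≤ (s + 1) * M ^ t := by
      rw [inv_pow, mul_inv_le_iff₀ (by positivity)] at h3
      exact_mod_cast h3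
    have h5 := (h1 t (by omega)).natmul (b ^ (n * (T - t)))
    obtain ⟨r, rfl⟩ := Nat.exists_eq_add_of_le ht
    rw [Nat.add_sub_cancel_left] at h5
    have h6 : ((b ^ (n * (t + r) + 1) : ℕ) : ℂ) * coeff t z =
        ((b ^ (n * r) : ℕ) : ℂ) * coeff t w := by
      rw [hw, coeff_C_mul, coeff_rescale]; push_cast; ring
    rw [h6]
    refine h5.mono subset_rfl subset_rfl le_rfl ?_
    rw [mul_pow, mul_pow, ← pow_mul, mul_assoc]
    refine Nat.mul_le_mul (Nat.pow_le_pow_right hb (by linarith only [mul_nonneg_of_nonpos_of_nonpos (Mathlib.Tactic.Linarith.sub_nonpos_of_le (Mathlib.Tactic.Linarith.natCast_nonneg ℤ t)) (Mathlib.Tactic.Linarith.sub_nonpos_of_le (Mathlib.Tactic.Linarith.natCast_nonneg ℤ n))])) (h4.trans ?_)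
    rw [mul_comm]
    exact Nat.mul_le_mul (Nat.pow_le_pow_right hM1 (by omega)) (Nat.le_self_pow (by omega) _)

lemma poly_GS {g : ℂ⟦X⟧} (hg : g ∈ RR) (Y : Finset ℂ) : GS Y 0 g :=
  fix_GS hg (n := 0) (fun _ => 0) (fun _ => zero_mem _) (by simp) Y

lemma alg_GS {H : ℂ⟦X⟧} (h : IsAlgebraic RR H) (Y : Finset ℂ) : GS Y 0 H := by
  have hco := fun t => coeff_alg t h
  obtain ⟨P₀, h0, h1⟩ := h
  obtain ⟨P, h2, h3⟩ := sep _ P₀ le_rfl h0 h1
  obtain ⟨m, e, he0, he⟩ : ∃ (m : ℕ) (e : ℂ⟦X⟧), constantCoeff e ≠ 0 ∧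
      Polynomial.aeval H (Polynomial.derivative P) = X ^ m * e :=
    ⟨_, _, fun h => h3 (constantCoeff_divXPowOrder_eq_zero_iff.1 h),
      X_pow_order_mul_divXPowOrder.symm⟩
  let u : RR := ⟨mk fun t => if t < m + 1 then coeff t H else 0, fun t => by
    rw [coeff_mk]; split_ifs; exacts [hco t, zero_mem _], m + 1, fun t ht => by
      rw [coeff_mk, if_neg (by omega)]⟩
  obtain ⟨z, hz⟩ : X ^ (m + 1) ∣ H - (u : ℂ⟦X⟧) := X_pow_dvd_iff.2 fun t ht => by
    rw [map_sub, coeff_mk, if_pos ht, sub_self]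
  set Q := Polynomial.taylor u P with hQ
  have hQ0 : Polynomial.aeval (X ^ (m + 1) * z : ℂ⟦X⟧) Q = 0 := by
    rw [hQ, Polynomial.taylor_apply, Polynomial.aeval_comp, map_add, Polynomial.aeval_X,
      Polynomial.aeval_C, ← hz, ← h2]
    congr 2
    exact sub_add_cancel _ _
  obtain ⟨y, hy⟩ : H - (u : ℂ⟦X⟧) ∣ X ^ m * e - (Q.coeff 1 : ℂ⟦X⟧) := by
    have : (Q.coeff 1 : ℂ⟦X⟧) = Polynomial.aeval (u : ℂ⟦X⟧) (Polynomial.derivative P) := by
      rw [hQ, Polynomial.taylor_coeff_one]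
      exact (Polynomial.aeval_algebraMap_apply_eq_algebraMap_eval u _).symm
    rw [this, ← he, Polynomial.aeval_def, Polynomial.aeval_def, Polynomial.eval₂_eq_eval_map,
      Polynomial.eval₂_eq_eval_map]
    exact Polynomial.sub_dvd_eval_sub _ _ _
  set a := constantCoeff e with ha
  obtain ⟨q, hq⟩ : ∃ q : ℂ⟦X⟧, e - X * (z * y) = C a + X * q :=
    ⟨(mk fun p => coeff (p + 1) e) - z * y, by
      conv_lhs => rw [eq_X_mul_shift_add_const e]
      ring⟩
  have hQ1 : (Q.coeff 1 : ℂ⟦X⟧) = X ^ m * (C a + X * q) := by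
    rw [← hq]; rw [hz] at hy; linear_combination -hy
  have hR1 : C a + X * q ∈ RR := div_mem (hQ1 ▸ (Q.coeff 1).2)
  have haA : a ∈ AA := by simpa using hR1.1 0
  have hqR : q ∈ RR := div_mem (k := 1) (by simpa using sub_mem hR1 (C_mem haA))
  rw [Polynomial.aeval_eq_sum_range' (n := Q.natDegree + 2) (by omega), Finset.sum_range_succ',
    Finset.sum_range_succ'] at hQ0
  simp only [Subring.smul_def, smul_eq_mul, zero_add, pow_zero, pow_one, mul_one] at hQ0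
  set S : ℂ⟦X⟧ := ∑ i ∈ Finset.range Q.natDegree,
    ((Q.coeff (i + 1 + 1) : ℂ⟦X⟧) * X ^ ((m + 1) * i)) * z ^ (i + 1 + 1) with hS
  have hS2 : ∑ i ∈ Finset.range Q.natDegree, (Q.coeff (i + 1 + 1) : ℂ⟦X⟧) *
      (X ^ (m + 1) * z) ^ (i + 1 + 1) = X ^ (2 * m + 2) * S := by
    rw [hS, Finset.mul_sum]
    exact Finset.sum_congr rfl fun i _ => by ring
  rw [hS2, hQ1] at hQ0
  have hg : (C a + X * q) * z + X * S ∈ RR := div_mem (k := 2 * m + 1) (by
    convert neg_mem (Q.coeff 0).2 using 1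
    linear_combination hQ0)
  have hi : (C a⁻¹ : ℂ⟦X⟧) * C a = 1 := by rw [← map_mul, inv_mul_cancel₀ he0, map_one]
  have hia := C_mem (inv_mem haA)
  have hzG : GS Y 0 z := by
    refine fix_GS (mul_mem hia hg) (n := Q.natDegree + 2) (fun i => Nat.casesOn i 0 fun i =>
      Nat.casesOn i (-(C a⁻¹ * q)) fun i =>
        -(C a⁻¹ * ((Q.coeff (i + 1 + 1) : ℂ⟦X⟧) * X ^ ((m + 1) * i))))
      (fun i => ?_) ?_ Y
    · rcases i with _ | _ | i
      · exact zero_mem _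
      · exact neg_mem (mul_mem hia hqR)
      · exact neg_mem (mul_mem hia (mul_mem (Q.coeff _).2 (pow_mem X_mem _)))
    · rw [Finset.sum_range_succ', Finset.sum_range_succ']
      have : ∑ i ∈ Finset.range Q.natDegree, -(C a⁻¹ * ((Q.coeff (i + 1 + 1) : ℂ⟦X⟧) *
          X ^ ((m + 1) * i))) * z ^ (i + 1 + 1) = -(C a⁻¹ * S) := by
        rw [hS, Finset.mul_sum, ← Finset.sum_neg_distrib]
        exact Finset.sum_congr rfl fun i _ => by ring
      simp only [Nat.rec_zero]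
      rw [this]
      linear_combination (-z) * hi
  have := (poly_GS u.2 Y).add ((poly_GS (pow_mem X_mem (m + 1)) Y).mul hzG)
  rwa [← hz, add_sub_cancel] at this

end

end Eisen

theorem eisenstein {ι : Type} [Fintype ι] (H : ℂ⟦X⟧) (c : ι → ℂ) (a b : ι → ℕ)
    (hinj : Function.Injective fun i => (a i, b i)) (hc : c ≠ 0)
    (halg : ∀ i, IsAlgebraic ℚ (c i)) (h : ∑ i, c i • (X ^ b i * H ^ a i) = 0) (Y : Finset ℂ) :
    GS Y 0 H := by
  classical
  let e : ι → Eisen.RR := fun i => ⟨C (c i) * X ^ b i,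
    mul_mem (Eisen.C_mem (mem_algebraicClosure_iff.2 (halg i))) (pow_mem Eisen.X_mem _)⟩
  refine Eisen.alg_GS ⟨∑ i, Polynomial.monomial (a i) (e i), fun hz => hc ?_, ?_⟩ Y
  · funext i
    have h1 := congrArg (fun p => coeff (b i) ((Polynomial.coeff p (a i) : Eisen.RR) : ℂ⟦X⟧)) hz
    simp only [Polynomial.finsetSum_coeff, Polynomial.coeff_monomial, Polynomial.coeff_zero,
      AddSubmonoidClass.coe_finsetSum, map_sum, ZeroMemClass.coe_zero, map_zero] at h1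
    rw [Finset.sum_eq_single i (fun j _ hj => ?_) (by simp), if_pos rfl] at h1
    · simpa [e] using h1
    · split_ifs with h2
      · have : b i ≠ b j := fun h3 => hj (hinj (Prod.ext h2 h3.symm))
        simp [e, coeff_X_pow, this]
      · simp
  · rw [map_sum, ← h]
    refine Finset.sum_congr rfl fun i _ => ?_
    rw [Polynomial.aeval_monomial, smul_eq_C_mul, ← mul_assoc]
    rfl

end Pool.Agent.Work.MP_db07cb_ag
end

-- merged part: Pool.Agent.Work.MP_db07cb_ag.Legendre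
section
/-! Solutions of a Legendre equation. -/

namespace Pool.Agent.Work.MP_db07cb_ag

open PowerSeries

namespace LegendreAux

open Finset

lemma fact_dvd (a m : ℕ) : m.factorial ∣ 12 ^ m * ∏ i ∈ range m, (12 * i + a) := by
  rw [Nat.dvd_iff_prime_pow_dvd_dvd]
  intro p k hp hk
  by_cases h12 : p ∣ 12
  · have h1 : k ≤ m := by
      have h2 : k ≤ m.factorial.factorization p :=
        (hp.pow_dvd_iff_le_factorization m.factorial_ne_zero).1 hk
      exact h2.trans ((Nat.factorization_factorial_le_div_pred hp m).trans (Nat.div_le_self _ _))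
    exact ((pow_dvd_pow p h1).trans (pow_dvd_pow_of_dvd h12 m)).mul_right _
  · have hc : Nat.Coprime 12 (p ^ k) :=
      (Nat.Coprime.pow_right k ((Nat.Prime.coprime_iff_not_dvd hp).2 h12).symm)
    obtain ⟨x, -, hx⟩ := Nat.exists_mul_mod_eq_of_coprime a hc (pow_ne_zero k hp.ne_zero)
    have h1 : ∏ i ∈ range m, (12 * i + a) ≡ ∏ i ∈ range m, (12 * (x + i)) [MOD p ^ k] := by
      refine Nat.ModEq.prod fun i _ => ?_
      have h3 : a ≡ 12 * x [MOD p ^ k] := hx.symm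
      rw [mul_add, add_comm (12 * x)]
      exact h3.add_left _
    have h2 : p ^ k ∣ ∏ i ∈ range m, (12 * (x + i)) := by
      rw [prod_mul_distrib, ← Nat.ascFactorial_eq_prod_range]
      exact (hk.trans (Nat.factorial_dvd_ascFactorial x m)).mul_left _
    exact ((h1.dvd_iff dvd_rfl).2 h2).mul_left _

/-- the common recursion of the even and the odd solution -/
def f : ℕ → ℚ
  | 0 => 1
  | 1 => 1
  | t + 2 => (6 * t + 1) * (6 * t + 5) / (36 * (t + 1) * (t + 2)) * f t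

lemma f_bd : ∀ t, 0 ≤ f t ∧ f t ≤ 1
  | 0 => by simp [f]
  | 1 => by simp [f]
  | t + 2 => by
    obtain ⟨h0, h1⟩ := f_bd t
    have ht : (0 : ℚ) ≤ t := t.cast_nonneg
    have h2 : (6 * t + 1) * (6 * t + 5) / (36 * (t + 1) * (t + 2)) ≤ (1 : ℚ) := by
      rw [div_le_one (by positivity)]; linarith only []
    rw [f]
    exact ⟨by positivity, mul_le_one₀ h2 h0 h1⟩

lemma f_eq (b : ℕ) (hb : b ≤ 1) (m : ℕ) : f (2 * m + b) * (36 ^ m * (2 * m + b).factorial) =
    ((∏ i ∈ range m, (12 * i + (6 * b + 1)) : ℕ) : ℚ) *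
      ((∏ i ∈ range m, (12 * i + (6 * b + 5)) : ℕ) : ℚ) := by
  induction m with
  | zero => interval_cases b <;> simp [f]
  | succ m ih =>
    rw [show 2 * (m + 1) + b = (2 * m + b) + 2 by ring, f, prod_range_succ, prod_range_succ,
      Nat.factorial_succ, Nat.factorial_succ]
    push_cast at ih ⊢
    have h1 : (2 * m + b + 1 : ℚ) ≠ 0 := by positivity
    have h2 : (2 * m + b + 2 : ℚ) ≠ 0 := by positivity
    have h3 : (6 * (2 * m + b) + 1) * (6 * (2 * m + b) + 5) /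
        (36 * (2 * m + b + 1) * (2 * m + b + 2)) * f (2 * m + b) *
        (36 ^ (m + 1) * ((2 * m + b + 1 + 1) * ((2 * m + b + 1) * ((2 * m + b).factorial : ℚ)))) =
        (6 * (2 * m + b) + 1) * (6 * (2 * m + b) + 5) *
          (f (2 * m + b) * (36 ^ m * (2 * m + b).factorial)) := by
      field_simp
      ring
    rw [h3, ih]
    ring

lemma dvd_lcm {a n : ℕ} (h1 : 1 ≤ a) (h2 : a ≤ n) : a ∣ Nat.lcmUpto n :=
  Finset.dvd_lcm (f := id) (mem_Icc.2 ⟨h1, h2⟩)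

lemma lcm_mono {a n : ℕ} (h : a ≤ n) : Nat.lcmUpto a ∣ Nat.lcmUpto n :=
  Finset.lcm_dvd fun _ hb => dvd_lcm (mem_Icc.1 hb).1 ((mem_Icc.1 hb).2.trans h)

lemma f_int (T t : ℕ) (ht : t ≤ T) :
    ∃ n : ℕ, (n : ℚ) = ((5184 ^ (T + 1) * Nat.lcmUpto (T + 1) ^ 2 : ℕ) : ℚ) * f t := by
  obtain ⟨m, b, hb, rfl⟩ : ∃ m b, b ≤ 1 ∧ t = 2 * m + b := ⟨t / 2, t % 2, by omega, by omega⟩
  obtain ⟨u, hu⟩ := fact_dvd (6 * b + 1) m
  obtain ⟨v, hv⟩ := fact_dvd (6 * b + 5) m
  have h1 : (2 * m).choose m ∣ Nat.lcmUpto (T + 1) :=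
    (Chebyshev.choose_dvd_lcmUpto (by omega)).trans (lcm_mono (by omega))
  obtain ⟨w, hw⟩ := h1
  have h2 : (2 * m + 1) ^ b ∣ Nat.lcmUpto (T + 1) := by
    interval_cases b
    · simp
    · rw [pow_one]; exact dvd_lcm (by omega) (by omega)
  obtain ⟨w', hw'⟩ := h2
  have h3 : (2 * m + b).factorial = (2 * m + 1) ^ b * ((2 * m).choose m * m.factorial * m.factorial) := by
    have h4 := Nat.choose_mul_factorial_mul_factorial (show m ≤ 2 * m by omega)
    rw [show 2 * m - m = m by omega] at h4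
    rw [h4]
    interval_cases b
    · simp
    · simp [Nat.factorial_succ]
  obtain ⟨s, hs⟩ : ∃ s, T + 1 = m + s := ⟨T + 1 - m, by omega⟩
  refine ⟨5184 ^ s * w * w' * u * v, ?_⟩
  have h5 := f_eq b hb m
  have hu' : (12 : ℚ) ^ m * ((∏ i ∈ range m, (12 * i + (6 * b + 1)) : ℕ) : ℚ) =
      m.factorial * u := by exact_mod_cast hu
  have hv' : (12 : ℚ) ^ m * ((∏ i ∈ range m, (12 * i + (6 * b + 5)) : ℕ) : ℚ) =
      m.factorial * v := by exact_mod_cast hv
  generalize ((∏ i ∈ range m, (12 * i + (6 * b + 1)) : ℕ) : ℚ) = P at h5 hu'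
  generalize ((∏ i ∈ range m, (12 * i + (6 * b + 5)) : ℕ) : ℚ) = R at h5 hv'
  have h6 : (Nat.lcmUpto (T + 1) ^ 2 : ℕ) = ((2 * m).choose m * w) * ((2 * m + 1) ^ b * w') := by
    rw [← hw, ← hw', sq]
  rw [h6, hs, h3] at *
  have h7 : (m.factorial : ℚ) ≠ 0 := by positivity
  push_cast at h5 ⊢
  have h8 : (5184 : ℚ) ^ m = 12 ^ m * 12 ^ m * 36 ^ m := by
    rw [← mul_pow, ← mul_pow]; norm_num
  apply mul_left_cancel₀ (mul_ne_zero h7 h7)
  rw [pow_add, h8]
  linear_combination (-(5184 : ℚ) ^ s * w * w' * 12 ^ m * 12 ^ m) * h5 -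
    (5184 : ℚ) ^ s * w * w' * (12 ^ m * R) * hu' - (5184 : ℚ) ^ s * w * w' * (m.factorial * u) * hv'

lemma gs_f (Y : Finset ℂ) (b : ℕ) :
    GS Y 0 (PowerSeries.mk fun t => ((if t % 2 = b then f t else 0 : ℚ) : ℂ)) := by
  refine GS.rat _ (5184 * 256 ^ 2) fun T => ?_
  have hL : 5184 ^ (T + 1) * Nat.lcmUpto (T + 1) ^ 2 ≤ (5184 * 256 ^ 2) ^ (T + 1) := by
    rw [mul_pow, ← pow_mul, mul_comm 2, pow_mul]
    exact Nat.mul_le_mul_left _ (Nat.pow_le_pow_left (lcmUpto_le _) 2)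
  refine ⟨5184 ^ (T + 1) * Nat.lcmUpto (T + 1) ^ 2, ?_, hL, fun t ht => ?_⟩
  · have := Nat.lcmUpto_pos (T + 1)
    positivity
  · split_ifs
    · obtain ⟨n, hn⟩ := f_int T t ht
      refine ⟨n, by exact_mod_cast hn, ?_⟩
      rw [Int.natAbs_natCast]
      refine le_trans ?_ hL
      have h1 : (n : ℚ) ≤ ((5184 ^ (T + 1) * Nat.lcmUpto (T + 1) ^ 2 : ℕ) : ℚ) := by
        rw [hn]
        exact mul_le_of_le_one_right (Nat.cast_nonneg _) (f_bd t).2
      exact_mod_cast h1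
    · exact ⟨0, by simp, by simp⟩

lemma rec_y (y : ℂ⟦X⟧) (h : d⁄dX ℂ ((1 - X ^ 2) * d⁄dX ℂ y) = (5 / 36 : ℂ) • y) (t : ℕ) :
    coeff (t + 2) y = (6 * t + 1) * (6 * t + 5) / (36 * (t + 1) * (t + 2)) * coeff t y := by
  have h1 := congrArg (coeff t) h
  rw [coeff_derivative, sub_mul, one_mul, map_sub, coeff_derivative, coeff_X_pow_mul',
    map_smul, smul_eq_mul] at h1
  have h2 : (if 2 ≤ t + 1 then coeff (t + 1 - 2) (d⁄dX ℂ y) else 0) = t * coeff t y := by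
    rcases t with _ | t
    · simp
    · rw [if_pos (by omega), show t + 1 + 1 - 2 = t by omega, coeff_derivative]
      push_cast; ring
  rw [h2] at h1
  have h3 : (t + 1 : ℂ) ≠ 0 := by exact_mod_cast t.succ_ne_zero
  have h4 : (t + 2 : ℂ) ≠ 0 := by exact_mod_cast (t + 1).succ_ne_zero
  push_cast at h1
  field_simp
  linear_combination 36 * h1

lemma coeff_y (y : ℂ⟦X⟧) (h : d⁄dX ℂ ((1 - X ^ 2) * d⁄dX ℂ y) = (5 / 36 : ℂ) • y) :
    ∀ t, coeff t y = (f t : ℂ) * coeff (t % 2) y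
  | 0 => by simp [f]
  | 1 => by simp [f]
  | t + 2 => by
    rw [rec_y y h t, coeff_y y h t, f, Nat.add_mod_right]
    push_cast; ring

end LegendreAux

open LegendreAux in
theorem legendre (y : ℂ⟦X⟧) (h : d⁄dX ℂ ((1 - X ^ 2) * d⁄dX ℂ y) = (5 / 36 : ℂ) • y)
    (Y : Finset ℂ) (h0 : coeff 0 y ∈ Y) (h1 : coeff 1 y ∈ Y) : GS Y 1 y := by
  have e : y = C (coeff 0 y) * (PowerSeries.mk fun t => ((if t % 2 = 0 then f t else 0 : ℚ) : ℂ)) +
      C (coeff 1 y) * (PowerSeries.mk fun t => ((if t % 2 = 1 then f t else 0 : ℚ) : ℂ)) := by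
    ext t
    rw [map_add, coeff_C_mul, coeff_C_mul, coeff_mk, coeff_mk, coeff_y y h t]
    rcases Nat.mod_two_eq_zero_or_one t with ht | ht <;> simp [ht, mul_comm]
  rw [e]
  exact ((GS.C_mem h0).mul (gs_f Y 0)).add ((GS.C_mem h1).mul (gs_f Y 1))

theorem exists_geom (Y : Finset ℂ) : ∃ u : ℂ⟦X⟧, (1 - X ^ 2) * u = 1 ∧ GS Y 0 u := by
  refine ⟨mk fun t => ((if t % 2 = 0 then 1 else 0 : ℤ) : ℂ), ?_, GS.int _ 1 fun t => ?_⟩
  · ext t
    rw [sub_mul, one_mul, map_sub, coeff_X_pow_mul', coeff_mk, coeff_one]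
    rcases t with _ | _ | t
    · simp
    · simp
    · rw [if_pos (show 2 ≤ t + 1 + 1 by omega), coeff_mk, show t + 1 + 1 - 2 = t by omega,
        show (t + 1 + 1) % 2 = t % 2 by omega]
      simp
  · split_ifs <;> simp

end Pool.Agent.Work.MP_db07cb_ag
end

-- merged part: Pool.Agent.Work.MP_db07cb_ag.Siegel
section
/-! The auxiliary polynomial. -/

namespace Pool.Agent.Work.MP_db07cb_ag

open PowerSeries

namespace SiegelAux

/-- uniform control of the first `T + 1` coefficients, with denominator `Λ ^ s` -/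
def Q (W Y : Finset ℂ) (δ T Λ G s : ℕ) (φ : ℂ⟦X⟧) : Prop :=
  ∀ t ≤ T, Rp W Y (s * δ) (G ^ s) ((Λ : ℂ) ^ s * coeff t φ)

variable {W Y : Finset ℂ} {δ T Λ G K C0 s : ℕ} {φ ψ : ℂ⟦X⟧}

lemma Q_X (hW : Cl W) (i : ℕ) : Q W Y δ T Λ G 0 (X ^ i) := by
  intro t _
  rw [coeff_X_pow]
  split_ifs
  · simpa using Rp.one hW
  · simpa using Rp.zero

lemma Q_pad (h : Q W Y δ T Λ G s φ) (hΛ : Λ ≤ G) : Q W Y δ T Λ G (s + 1) φ := by
  intro t ht
  have := (h t ht).natmul Λ
  rw [← mul_assoc, ← pow_succ'] at this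
  refine this.mono subset_rfl subset_rfl (by linarith only []) ?_
  rw [pow_succ']
  exact Nat.mul_le_mul_right _ hΛ

lemma Q_mul (hm : ∀ {δ δ' B B' : ℕ} {x y : ℂ},
      Rp W Y δ B x → Rp W Y δ' B' y → Rp W Y (δ + δ') (C0 * B * B') (x * y))
    (hG : C0 * (T + 1) * K ≤ G) (h : Q W Y δ T Λ G s φ)
    (hψ : ∀ t ≤ T, Rp W Y δ K (Λ * coeff t ψ)) : Q W Y δ T Λ G (s + 1) (φ * ψ) := by
  intro t ht
  rw [coeff_mul, Finset.mul_sum]
  have := Rp.sum (W := W) (Y := Y) (δ := s * δ + δ) (B := C0 * G ^ s * K)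
    (Finset.HasAntidiagonal.antidiagonal t)
    (fun p => (Λ : ℂ) ^ (s + 1) * (coeff p.1 φ * coeff p.2 ψ)) (by
      intro p hp
      have hp' := Finset.HasAntidiagonal.mem_antidiagonal.mp hp
      have := hm (h p.1 (by omega)) (hψ p.2 (by omega))
      convert this using 1
      ring)
  refine this.mono subset_rfl subset_rfl (by linarith only []) ?_
  rw [Finset.Nat.card_antidiagonal]
  calc (t + 1) * (C0 * G ^ s * K) ≤ (T + 1) * (C0 * G ^ s * K) :=
        Nat.mul_le_mul_right _ (by omega)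
    _ = G ^ s * (C0 * (T + 1) * K) := by ring
    _ ≤ G ^ s * G := Nat.mul_le_mul_left _ hG
    _ = G ^ (s + 1) := by ring

lemma Q_pow (hm : ∀ {δ δ' B B' : ℕ} {x y : ℂ},
      Rp W Y δ B x → Rp W Y δ' B' y → Rp W Y (δ + δ') (C0 * B * B') (x * y))
    (hG : C0 * (T + 1) * K ≤ G) (hΛ : Λ ≤ G) (h : Q W Y δ T Λ G s φ)
    (hψ : ∀ t ≤ T, Rp W Y δ K (Λ * coeff t ψ)) (D e : ℕ) (he : e ≤ D) :
    Q W Y δ T Λ G (s + D) (φ * ψ ^ e) := by
  induction D generalizing e with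
  | zero =>
    obtain rfl : e = 0 := by omega
    simpa using h
  | succ D ih =>
    rcases Nat.lt_or_ge e (D + 1) with h1 | h1
    · exact Q_pad (ih e (by omega)) hΛ
    · obtain rfl : e = D + 1 := by omega
      rw [pow_succ, ← mul_assoc]
      exact Q_mul hm hG (ih D le_rfl) hψ

lemma Q_prod {r : ℕ} {F : Fin r → ℂ⟦X⟧} (hW : Cl W) (hm : ∀ {δ δ' B B' : ℕ} {x y : ℂ},
      Rp W Y δ B x → Rp W Y δ' B' y → Rp W Y (δ + δ') (C0 * B * B') (x * y))
    (hG : C0 * (T + 1) * K ≤ G) (hΛ : Λ ≤ G)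
    (hF : ∀ j, ∀ t ≤ T, Rp W Y δ K (Λ * coeff t (F j))) (D i : ℕ) (e : Fin r → ℕ)
    (he : ∀ j, e j ≤ D) (S : Finset (Fin r)) :
    Q W Y δ T Λ G (S.card * D) (X ^ i * ∏ j ∈ S, F j ^ e j) := by
  classical
  induction S using Finset.induction_on with
  | empty => simpa using Q_X hW i
  | insert j S hj ih =>
    rw [Finset.prod_insert hj, Finset.card_insert_of_notMem hj, add_mul, one_mul,
      mul_comm (F j ^ e j), ← mul_assoc]
    exact Q_pow hm hG hΛ ih (hF j) D (e j) (he j)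

lemma num1 {C0 c D d r : ℕ} (hC : 1 ≤ C0) (hc : 1 ≤ c) (hD : 1 ≤ D) (hd : 1 ≤ d) :
    (d + 1) * (D + 1) ^ r * (C0 * (D * d + 1) * c ^ (D * d + 1)) ^ (r * D) ≤
      (2 * 2 ^ r * (C0 * 2 * c) ^ (2 * r)) ^ (D ^ 2 * d) := by
  have hT : 1 ≤ D * d := Nat.mul_pos hD hd
  have hN1 : d ≤ D ^ 2 * d := Nat.le_mul_of_pos_left _ (by positivity)
  have hN2 : D ≤ D ^ 2 * d := by nlinarith only [hd, hD]
  have h1 : d + 1 ≤ 2 ^ (D ^ 2 * d) :=
    (Nat.lt_two_pow_self (n := d)).trans_le (Nat.pow_le_pow_right (by norm_num) hN1)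
  have h2 : (D + 1) ^ r ≤ (2 ^ r) ^ (D ^ 2 * d) := by
    rw [← pow_mul, mul_comm r, pow_mul]
    exact Nat.pow_le_pow_left
      ((Nat.lt_two_pow_self (n := D)).trans_le (Nat.pow_le_pow_right (by norm_num) hN2)) _
  have h3 : C0 * (D * d + 1) * c ^ (D * d + 1) ≤ (C0 * 2 * c) ^ (2 * (D * d)) := by
    calc C0 * (D * d + 1) * c ^ (D * d + 1) ≤ C0 ^ (D * d + 1) * 2 ^ (D * d + 1) *
          c ^ (D * d + 1) := by
          gcongr
          · exact Nat.le_self_pow (by omega) _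
          · exact Nat.lt_two_pow_self.le
      _ = (C0 * 2 * c) ^ (D * d + 1) := by rw [mul_pow, mul_pow]
      _ ≤ _ := Nat.pow_le_pow_right (by positivity) (by omega)
  have h4 : (C0 * (D * d + 1) * c ^ (D * d + 1)) ^ (r * D) ≤
      ((C0 * 2 * c) ^ (2 * r)) ^ (D ^ 2 * d) := by
    refine (Nat.pow_le_pow_left h3 _).trans (le_of_eq ?_)
    rw [← pow_mul, ← pow_mul]
    congr 1
    ring
  rw [mul_pow (2 * 2 ^ r), mul_pow 2 (2 ^ r)]
  gcongr

lemma num2 {w k r δ D d p : ℕ} (hr : k + 3 ≤ r) (hD : 1 ≤ D)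
    (hp : p ≤ w * (r * D * δ + 1) ^ k) :
    D * d * p * D ^ 2 ≤ (w * (r * δ + 1) ^ k) * ((d + 1) * (D + 1) ^ r) := by
  have h1 : r * D * δ + 1 ≤ (r * δ + 1) * D := by linarith only [hD]
  have h2 : D ^ (k + 3) ≤ (D + 1) ^ r :=
    (Nat.pow_le_pow_right hD hr).trans (Nat.pow_le_pow_left (by omega) _)
  calc D * d * p * D ^ 2 ≤ D * d * (w * ((r * δ + 1) * D) ^ k) * D ^ 2 := by
        gcongr
        exact hp.trans (by gcongr)
    _ = (w * (r * δ + 1) ^ k) * (d * D ^ (k + 3)) := by rw [mul_pow]; ring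
    _ ≤ _ := by gcongr; omega

end SiegelAux

open SiegelAux

attribute [local instance] Matrix.seminormedAddCommGroup

theorem siegel (Y : Finset ℂ) (δ : ℕ) {r : ℕ} (hr : Y.card + 3 ≤ r) (F : Fin r → ℂ⟦X⟧)
    (hF : ∀ j, GS Y δ (F j)) : ∃ C D₀ : ℕ, ∀ D ≥ D₀, ∀ d ≥ 1,
      ∃ a : Fin (d + 1) × (Fin r → Fin (D + 1)) → ℤ, a ≠ 0 ∧ (∀ e, (a e).natAbs ≤ C ^ d) ∧
        X ^ (D * d) ∣ ∑ e, (a e : ℂ) • (X ^ (2 * (e.1 : ℕ)) * ∏ j, F j ^ (e.2 j : ℕ)) := by
  classical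
  obtain ⟨W, c, hW, hc⟩ := GS.common F hF
  obtain ⟨C0, hC0, hm⟩ := hW.exists_mul
  have hc1 : 1 ≤ c := by
    obtain ⟨Λ, h1, h2, -⟩ := hc 0
    simp at h2
    omega
  set c1 := W.card * (r * δ + 1) ^ Y.card with hc1def
  set c2 := 2 * 2 ^ r * (C0 * 2 * c) ^ (2 * r) with hc2def
  refine ⟨c2 ^ (2 * c1), 2 * c1 + 1, fun D hD d hd => ?_⟩
  have hD1 : 1 ≤ D := by omega
  obtain ⟨Λ, hΛ0, hΛ, hFΛ⟩ := hc (D * d)
  set G := C0 * (D * d + 1) * c ^ (D * d + 1) with hG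
  have hG1 : c ^ (D * d + 1) ≤ G := Nat.le_mul_of_pos_left _ (by positivity)
  have hG0 : 1 ≤ G := Nat.succ_le_of_lt (by positivity)
  obtain ⟨P, hP, hco⟩ := Rp.coords W Y (r * D * δ)
  have hQ : ∀ (e : Fin (d + 1) × (Fin r → Fin (D + 1))) (t : Fin (D * d)), ∃ n : ℂ → ℕ,
      (∀ p, n p ≤ G ^ (r * D)) ∧ (Λ : ℂ) ^ (r * D) *
        coeff t (X ^ (2 * (e.1 : ℕ)) * ∏ j, F j ^ (e.2 j : ℕ)) = ∑ p ∈ P, n p * p := by
    intro e t
    have := Q_prod (T := D * d) hW hm le_rfl (hΛ.trans hG1) hFΛ D (2 * (e.1 : ℕ))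
      (fun j => e.2 j) (fun j => Nat.lt_succ_iff.mp (e.2 j).2) Finset.univ t t.2.le
    rw [Finset.card_univ, Fintype.card_fin] at this
    exact hco _ _ this
  choose n hn hnsum using hQ
  have hPne : 0 < P.card := by
    rw [Finset.card_pos, Finset.nonempty_iff_ne_empty]
    rintro rfl
    obtain ⟨n, -, h⟩ := hco 1 1 (Rp.one hW)
    simp at h
  let A : Matrix (Fin (D * d) × P) (Fin (d + 1) × (Fin r → Fin (D + 1))) ℤ :=
    fun tp e => n e tp.1 tp.2
  have hcm : Fintype.card (Fin (D * d) × P) = D * d * P.card := by clear * - D d P; simp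
  have hcn : Fintype.card (Fin (d + 1) × (Fin r → Fin (D + 1))) = (d + 1) * (D + 1) ^ r := by simp
  have key := num2 (d := d) hr hD1 hP
  rw [← hc1def] at key
  have hm0 : 0 < D * d * P.card := by clear * - D d P hD1 hd hPne; positivity
  set m := D * d * P.card with hmdef
  set N := (d + 1) * (D + 1) ^ r with hNdef
  have hc10 : 0 < c1 := by
    clear * - c1 m D d P hD1 hd hPne Y δ r W c C0 Λ N key
    rcases Nat.eq_zero_or_pos c1 with h | h
    · rw [h] at key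
      have : 0 < m * D ^ 2 := by positivity
      omega
    · exact h
  have h2m : 2 * m ≤ N := by
    clear * - c1 D hD hc10 m N key hcm
    have : 2 * c1 ≤ D ^ 2 := by nlinarith only [hD, hc10]
    have : c1 * (2 * m) ≤ c1 * N := by nlinarith only [key, hcm, this]
    exact Nat.le_of_mul_le_mul_left this hc10
  obtain ⟨a, ha0, haA, hab⟩ := Int.Matrix.exists_ne_zero_int_vec_norm_le A
    (by rw [hcm, hcn]; omega) (by rw [hcm]; exact hm0)
  rw [hcm, hcn] at hab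
  refine ⟨a, ha0, fun e => ?_, ?_⟩
  · have hA : max 1 ‖A‖ ≤ ((G ^ (r * D) : ℕ) : ℝ) := by
      refine max_le (by exact_mod_cast Nat.one_le_pow _ _ hG0) ?_
      rw [Matrix.norm_le_iff (by positivity)]
      intro tp e
      simp only [A, Int.norm_natCast]
      exact_mod_cast hn e tp.1 tp.2
    have hb : (N : ℝ) * max 1 ‖A‖ ≤ ((c2 ^ (D ^ 2 * d) : ℕ) : ℝ) := by
      clear * - N D d P r A G c2 hA hd hD1 C0 c hC0 hc1
      calc (N : ℝ) * max 1 ‖A‖ ≤ N * ((G ^ (r * D) : ℕ) : ℝ) := by gcongr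
        _ = ((N * G ^ (r * D) : ℕ) : ℝ) := by push_cast; ring
        _ ≤ _ := by exact_mod_cast num1 hC0 hc1 hD1 hd
    have hc21 : (1 : ℝ) ≤ ((c2 ^ (D ^ 2 * d) : ℕ) : ℝ) := by
      exact_mod_cast Nat.one_le_pow _ _ (by positivity)
    have hmN : (0 : ℝ) < (N : ℝ) - m := by
      clear * - m N h2m hm0
      have : (2 * m : ℝ) ≤ N := by exact_mod_cast h2m
      have : (0 : ℝ) < m := by exact_mod_cast hm0
      linarith
    have hD0 : (0 : ℝ) < (D : ℝ) ^ 2 := by positivity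
    have hexp : (m : ℝ) / (N - m) ≤ 2 * c1 / (D : ℝ) ^ 2 := by
      clear * - m N c1 D hmN hD0 key h2m hc10
      rw [div_le_div_iff₀ hmN hD0]
      have h1 : (m : ℝ) * D ^ 2 ≤ c1 * N := by exact_mod_cast key
      have h2 : (2 * m : ℝ) ≤ N := by exact_mod_cast h2m
      have h3 : (0 : ℝ) ≤ c1 := by positivity
      linarith only [h1, h2, mul_nonneg_of_nonpos_of_nonpos (Mathlib.Tactic.Linarith.sub_nonpos_of_le (Mathlib.Tactic.Linarith.natCast_nonneg ℝ c1)) (Mathlib.Tactic.Linarith.sub_nonpos_of_le h2)]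
    have h1 : ‖a e‖ ≤ (((c2 ^ (2 * c1)) ^ d : ℕ) : ℝ) := by
      clear * - a e c2 D d c1 m N P r A hab hd hD1 hb hPne hmN hc21 hexp hc10
      calc ‖a e‖ ≤ ‖a‖ := norm_le_pi_norm a e
        _ ≤ _ := hab
        _ ≤ ((c2 ^ (D ^ 2 * d) : ℕ) : ℝ) ^ ((m : ℝ) / (N - m)) := by
          gcongr
        _ ≤ ((c2 ^ (D ^ 2 * d) : ℕ) : ℝ) ^ (2 * c1 / (D : ℝ) ^ 2) :=
          Real.rpow_le_rpow_of_exponent_le hc21 hexp
        _ = _ := by
          have h5 : ((D ^ 2 * d : ℕ) : ℝ) * (2 * c1 / (D : ℝ) ^ 2) = ((2 * c1 * d : ℕ) : ℝ) := by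
            push_cast
            field_simp
          rw [← pow_mul, Nat.cast_pow, Nat.cast_pow, ← Real.rpow_natCast _ (D ^ 2 * d),
            ← Real.rpow_mul (Nat.cast_nonneg _), h5, Real.rpow_natCast]
    rw [Int.norm_eq_abs, ← Int.cast_abs, ← Nat.cast_natAbs] at h1
    exact_mod_cast h1
  · rw [X_pow_dvd_iff]
    intro t ht
    have hΛc : (Λ : ℂ) ^ (r * D) ≠ 0 := pow_ne_zero _ (by exact_mod_cast hΛ0.ne')
    apply mul_left_cancel₀ hΛc
    rw [map_sum, Finset.mul_sum, mul_zero]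
    have h1 : ∀ e : Fin (d + 1) × (Fin r → Fin (D + 1)), (Λ : ℂ) ^ (r * D) *
        coeff t ((a e : ℂ) • (X ^ (2 * (e.1 : ℕ)) * ∏ j, F j ^ (e.2 j : ℕ))) =
        ∑ p ∈ P, (n e ⟨t, ht⟩ p * a e : ℂ) * p := by
      intro e
      rw [coeff_smul, smul_eq_mul, mul_left_comm, hnsum e ⟨t, ht⟩, Finset.mul_sum]
      exact Finset.sum_congr rfl fun p _ => by ring
    rw [Finset.sum_congr rfl fun e _ => h1 e, Finset.sum_comm]
    refine Finset.sum_eq_zero fun p hp => ?_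
    rw [← Finset.sum_mul]
    have h2 := congrFun haA (⟨t, ht⟩, ⟨p, hp⟩)
    simp only [Matrix.mulVec, dotProduct, A, Pi.zero_apply] at h2
    have h3 : (∑ e, (n e ⟨t, ht⟩ p * a e : ℂ)) = 0 := by exact_mod_cast h2
    rw [h3, zero_mul]

end Pool.Agent.Work.MP_db07cb_ag
end

-- merged part: Pool.Agent.Work.MP_db07cb_ag.Local2
section
/-! The auxiliary function with a zero of high order at a point equivalent to `i`. -/

namespace Pool.Agent.Work.MP_db07cb_ag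

open UpperHalfPlane hiding I
open Complex CongruenceSubgroup Filter Topology PowerSeries
open scoped MatrixGroups Real

lemma toC_an (u : MG) : AnalyticAt ℂ (toC u) I := (MG.hol u).analyticAt UpperHalfPlane.I

lemma toC_smul (c : ℂ) (u : MG) : toC (c • u) = c • toC u := rfl

lemma ev_im : ∀ᶠ z in 𝓝 I, 0 < z.im := isOpen_upperHalfPlaneSet.mem_nhds (by simp)

lemma toC_deriv (u : MG) : ∀ᶠ z in 𝓝 I, deriv (toC u) z = toC (Dm u) z := by
  filter_upwards [ev_im] with z hz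
  lift z to ℍ using hz
  rw [toC_apply]; rfl

lemma toC_jm (γ : SL(2, ℤ)) : ∀ᶠ z in 𝓝 I, toC (jm γ) z = (γ 1 0 : ℤ) * z + (γ 1 1 : ℤ) := by
  filter_upwards [ev_im] with z hz
  lift z to ℍ using hz
  rw [toC_apply]; rfl

lemma act_eq (k : ℕ) (γ : SL(2, ℤ)) (u : MG) : act γ u = jm γ ^ k * sl k γ u := by
  rw [sl_nat, ← mul_assoc, ← mul_pow, jm_mul_ji, one_pow, one_mul]

lemma order_act (γ : SL(2, ℤ)) (u : MG) : analyticOrderAt (toC (act γ u)) I =
    analyticOrderAt ((u : ℍ → ℂ) ∘ ofComplex) (γ • UpperHalfPlane.I : ℍ) := by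
  have e : toC (act γ u) = ((u : ℍ → ℂ) ∘ ofComplex) ∘ toC (act γ zz) := by
    funext z
    show (u : ℍ → ℂ) (γ • ofComplex z) = (u : ℍ → ℂ) (ofComplex (γ • ofComplex z : ℍ))
    rw [ofComplex_apply]
  rw [e, analyticOrderAt_comp_of_deriv_ne_zero (toC_an _)]
  · exact congrArg _ (toC_apply _ UpperHalfPlane.I)
  · rw [(toC_deriv _).self_of_nhds, Dm_act, Dm_zz, map_one, mul_one]
    exact (toC_apply _ UpperHalfPlane.I).trans_ne (pow_ne_zero 2 (inv_ne_zero (jf_ne_zero _ _)))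

section

variable {E F : MG} (h : EP E F) {ω s lam : ℂ → ℂ} (hω : AnalyticAt ℂ ω I) (hs : AnalyticAt ℂ s I)
  (hl : AnalyticAt ℂ lam I) (hω0 : ω I ≠ 0) (hE : toC E =ᶠ[𝓝 I] ω ^ 4)
  (hF : toC F =ᶠ[𝓝 I] s * ω ^ 6) (hX : tay lam I s = X)

include h hω hs hl hω0 hE hF hX in
lemma gs_alg (Γ : Subgroup SL(2, ℤ)) [Γ.FiniteIndex] (k : ℕ) (u : MG) (hu : AQ u)
    (hw : IsWt Γ k u) (γ : SL(2, ℤ)) (Y : Finset ℂ) :
    GS Y 0 (tay lam I (toC (sl k γ u) / ω ^ k)) := by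
  obtain ⟨B, c, hc, halg, e⟩ := alg_rel h Γ k u hu hw γ
  have hg : AnalyticAt ℂ (toC (sl k γ u) / ω ^ k) I :=
    (toC_an _).div (hω.pow k) (pow_ne_zero k hω0)
  refine eisenstein _ c (fun p => 12 * (p.1 : ℕ)) (fun p => 2 * (p.2 : ℕ)) (fun p q hpq => ?_) hc
    halg ?_ Y
  · simp only [Prod.mk.injEq] at hpq
    exact Prod.ext (Fin.ext (by omega)) (Fin.ext (by omega))
  have e2 : (∑ p : Fin (B + 1) × Fin (B + 1), c p • (s ^ (2 * (p.2 : ℕ)) *
      (toC (sl k γ u) / ω ^ k) ^ (12 * (p.1 : ℕ)))) =ᶠ[𝓝 I] fun _ => 0 := by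
    filter_upwards [hE, hF, hω.continuousAt.eventually_ne hω0] with z z1 z2 z3
    have := congrFun (congrArg toC e) z
    simp only [map_sum, toC_smul, map_mul, map_pow, map_zero, Finset.sum_apply, Pi.smul_apply,
      Pi.mul_apply, Pi.pow_apply, z1, z2, Pi.zero_apply, Pi.div_apply, smul_eq_mul] at this ⊢
    refine mul_left_cancel₀ (pow_ne_zero (12 * (k * B + B)) z3) ?_
    rw [mul_zero, ← this, Finset.mul_sum]
    refine Finset.sum_congr rfl fun p _ => ?_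
    obtain ⟨t, ht⟩ := Nat.exists_eq_add_of_le (Nat.lt_succ_iff.1 p.1.2)
    obtain ⟨t', ht'⟩ := Nat.exists_eq_add_of_le (Nat.lt_succ_iff.1 p.2.2)
    rw [show B - p.1 = t by omega, show B - p.2 = t' by omega,
      show 12 * (k * B + B) = k * (12 * p.1) + 12 * (k * t + t') + 12 * p.2 by
        have : k * B = k * p.1 + k * t := by rw [← mul_add, ← ht]
        rw [this, mul_left_comm k]; omega, div_pow, ← pow_mul]
    field_simp
    ring
  have e3 := tay_congr (lam := lam) e2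
  rw [tay_const, map_zero, tay_sum hl _ _ fun p _ => ((hs.pow _).mul (hg.pow _)).const_smul] at e3
  rw [← e3]
  refine Finset.sum_congr rfl fun p _ => ?_
  rw [tay_smul hl ((hs.pow _).mul (hg.pow _)), tay_mul hl (hs.pow _) (hg.pow _), tay_pow hl hs,
    tay_pow hl hg, hX]

end

theorem aux2 {N : ℕ} [NeZero N] {n : ℕ} {G : ℕ → MG} (hG : ∀ l, Dm (G (l + 1)) = G l)
    (hw : IsWt (Gamma1 N) (n + 2) (G 0)) {E F : MG} (h : EP E F) (b : ℕ → ℂ) (hb : PG b)
    (halg : ∀ m, IsAlgebraic ℚ (b m)) (hG0 : G 0 = (2 * π * I : ℂ) • ser b hb) :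
    ∃ (r : ℕ) (ν : Fin r → ℕ) (hν : ∀ j, 0 < ν j) (τ₀ : ℍ) (C D₀ : ℕ), Function.Injective ν ∧
      ∀ D ≥ D₀, ∀ d ≥ 1, ∃ a : Fin (d + 1) × (Fin r → Fin (D + 1)) → ℤ, a ≠ 0 ∧
        (∀ e, (a e).natAbs ≤ C ^ d) ∧ ((D * d : ℕ) : ℕ∞) ≤ analyticOrderAt
          ((Ph E F (fun j => scA (ν j) (hν j) (G 1)) d D a : ℍ → ℂ) ∘ ofComplex) τ₀ := by
  classical
  obtain ⟨ω, s, lam, hω, hs, hl, hω0, hl0, hE, hF, hX, hlam, hleg⟩ := omega h
  obtain ⟨Y₁, hY₁⟩ := values_mem (Gamma1 N) n G hG hw UpperHalfPlane.I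
  let y : ℂ → ℂ → ℂ → ℂ := fun c d z => (c * z + d) * ω z
  have hy : ∀ c d, AnalyticAt ℂ (y c d) I := fun c d =>
    ((analyticAt_const.mul analyticAt_id).add analyticAt_const).mul hω
  let Y : Finset ℂ := Y₁ ∪ {coeff 0 (tay lam I (y 1 0)), coeff 1 (tay lam I (y 1 0)),
    coeff 0 (tay lam I (y 0 1)), coeff 1 (tay lam I (y 0 1))}
  have hyG : ∀ c d : ℤ, GS Y 1 (tay lam I (y c d)) := fun c d => by
    have e : y c d = (c : ℂ) • y 1 0 + (d : ℂ) • y 0 1 := by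
      funext z; simp only [y, Pi.add_apply, Pi.smul_apply, smul_eq_mul]; ring
    rw [e, tay_add hl (hy 1 0).const_smul (hy 0 1).const_smul, tay_smul hl (hy 1 0),
      tay_smul hl (hy 0 1), smul_eq_C_mul, smul_eq_C_mul]
    exact ((GS.C_int c).mul (legendre (tay lam I (y 1 0)) (hleg 1 0) Y (by simp [Y])
      (by simp [Y]))).add ((GS.C_int d).mul (legendre (tay lam I (y 0 1)) (hleg 0 1) Y
        (by simp [Y]) (by simp [Y])))
  obtain ⟨U, hU, hUG⟩ := exists_geom Y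
  obtain ⟨τ₀, γ, hγ⟩ := cm_chain (s := 2) (t := 2) ⟨-8, 1, by norm_num⟩ UpperHalfPlane.I
    (by simp) 17 (by norm_num) (Y.card + 3)
  have hp : ∀ j : Fin (Y.card + 3), 0 < 17 ^ (j : ℕ) := fun j => by positivity
  have hτ : τ₀ = γ 0 • UpperHalfPlane.I := by
    rw [← hγ]; exact UpperHalfPlane.ext (by rw [coe_scl (hp 0)]; simp)
  have hpi : (2 * π * I : ℂ) ≠ 0 := by simp [Real.pi_ne_zero]
  have hwf : IsWt (Gamma1 N) (n + 2 : ℕ) (ser b hb) := isWt_iff.2 fun δ hδ τ => by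
    have := isWt_iff.1 hw δ hδ τ
    rw [hG0] at this
    refine mul_left_cancel₀ hpi (this.trans ?_)
    push_cast
    exact mul_left_comm _ _ _
  let u : Fin (Y.card + 3) → MG := fun j => act (γ 0) (scA _ (hp j) (G 1))
  have hu : ∀ j, ∃ δ, GS Y δ (tay lam I (toC (u j))) := fun j => by
    have : NeZero (N * 17 ^ (j : ℕ)) := ⟨mul_ne_zero (NeZero.ne N) (hp j).ne'⟩
    have k1 := gs_alg h hω hs hl hω0 hE hF hX (Gamma1 (N * 17 ^ (j : ℕ))) (n + 2) _
      (AQ_scA b hb halg _ (hp j)) (isWt_scA hwf _ (hp j)) (γ 0) Y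
    set v := sl (n + 2 : ℕ) (γ 0) (scA _ (hp j) (ser b hb)) with hv
    have hg : AnalyticAt ℂ (toC v / ω ^ (n + 2)) I :=
      (toC_an _).div (hω.pow _) (pow_ne_zero _ hω0)
    have k2 : Dm (u j) = ((17 ^ (j : ℕ) : ℕ) * (2 * π * I) : ℂ) • (jm (γ 0) ^ n * v) := by
      have := jm_mul_ji (γ 0)
      rw [Dm_act, Dm_scA, hG 0, hG0, map_mul, map_smul, map_smul, act_eq (n + 2) _ (scA _ _ _), ← hv,
        map_natCast, Algebra.smul_def, Algebra.smul_def, map_mul _ ((_ : ℕ) : ℂ), map_natCast]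
      linear_combination ((17 ^ (j : ℕ) : ℕ) * algebraMap ℂ MG (2 * π * I) * jm (γ 0) ^ n * v *
        (jm (γ 0) * ji (γ 0) + 1)) * this
    have k3 : ((fun _ => 1) + (-1 : ℂ) • s ^ 2) * dl lam (toC (u j)) =ᶠ[𝓝 I]
        (((-2 * 17 ^ (j : ℕ) : ℤ) : ℂ)) • (y (γ 0 1 0) (γ 0 1 1) ^ n * (toC v / ω ^ (n + 2))) := by
      filter_upwards [hlam, toC_deriv (u j), toC_jm (γ 0), hω.continuousAt.eventually_ne hω0]
        with z z1 z2 z3 z4
      simp only [Pi.mul_apply, Pi.add_apply, Pi.smul_apply, Pi.pow_apply, Pi.div_apply, dl, z2, k2,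
        toC_smul, map_mul, map_pow, z3, smul_eq_mul, y, mul_pow]
      push_cast
      field_simp
      linear_combination (-((γ 0 1 0 : ℤ) * z + (γ 0 1 1 : ℤ)) ^ n * toC v z * ω z ^ n) * z1
    have k4 := tay_congr (lam := lam) k3
    rw [tay_mul hl (analyticAt_const.add (hs.pow 2).const_smul) (dl_analytic hl (toC_an _)),
      tay_add hl analyticAt_const (hs.pow 2).const_smul, tay_const, tay_smul hl (hs.pow 2),
      tay_pow hl hs, hX, ← tay_deriv, tay_smul hl (((hy _ _).pow _).mul hg),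
      tay_mul hl ((hy _ _).pow _) hg, tay_pow hl (hy _ _), smul_eq_C_mul _ ((_ : ℤ) : ℂ), map_one,
      neg_one_smul, ← sub_eq_add_neg] at k4
    have k5 := hUG.mul ((GS.C_int (-2 * 17 ^ (j : ℕ))).mul (((hyG (γ 0 1 0) (γ 0 1 1)).pow n).mul k1))
    rw [← k4, ← mul_assoc, mul_comm U, hU, one_mul] at k5
    obtain ⟨δ, k6⟩ := GS.C_closure (Y := Y) (x := constantCoeff (tay lam I (toC (u j)))) (by
      rw [tay_coeff_zero, ← coe_I, toC_apply, act_apply, scA_apply, ← hτ, hγ]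
      exact Subring.closure_mono (fun x hx => by simp [Y, Finset.mem_coe.1 hx]) (hY₁ (γ j)))
    exact ⟨δ + n, GS.integral (k5.mono subset_rfl (by omega)) (k6.mono subset_rfl (by omega))⟩
  choose δ hδ using hu
  obtain ⟨C, D₀, hD⟩ := siegel Y (∑ j, δ j) le_rfl (fun j => tay lam I (toC (u j))) fun j =>
    (hδ j).mono subset_rfl (Finset.single_le_sum (f := δ) (fun _ _ => Nat.zero_le _)
      (Finset.mem_univ j))
  refine ⟨_, fun j => 17 ^ (j : ℕ), hp, τ₀, C, D₀,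
    fun a b h => Fin.ext (Nat.pow_right_injective (by norm_num) h), fun D hD' d hd => ?_⟩
  obtain ⟨a, ha0, ha, hdvd⟩ := hD D hD' d hd
  refine ⟨a, ha0, ha, ?_⟩
  let g : Fin (d + 1) × (Fin (Y.card + 3) → Fin (D + 1)) → ℂ → ℂ := fun e =>
    s ^ (2 * (e.1 : ℕ)) * ∏ j, toC (u j) ^ (e.2 j : ℕ)
  have hpr : ∀ e : Fin (Y.card + 3) → Fin (D + 1),
      AnalyticAt ℂ (∏ j, toC (u j) ^ (e j : ℕ)) I := fun e =>
    Finset.analyticAt_prod _ fun j _ => (toC_an _).pow _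
  have hg : ∀ e, AnalyticAt ℂ (g e) I := fun e => (hs.pow _).mul (hpr _)
  have hsum : AnalyticAt ℂ (∑ e, (a e : ℂ) • g e) I :=
    Finset.analyticAt_sum _ fun e _ => (hg e).const_smul
  have k1 := tay_order hl hl0 hsum (D * d) (by
    rw [tay_sum hl _ _ fun e _ => (hg e).const_smul]
    convert hdvd using 2 with e
    rw [tay_smul hl (hg e), tay_mul hl (hs.pow _) (hpr _), tay_pow hl hs, hX,
      tay_prod hl _ _ fun j _ => (toC_an _).pow _]
    simp only [tay_pow hl (toC_an _)])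
  have k2 : toC (act (γ 0) (Ph E F (fun j => scA _ (hp j) (G 1)) d D a)) =ᶠ[𝓝 I]
      (toC (jm (γ 0)) * ω) ^ (12 * d) * ∑ e, (a e : ℂ) • g e := by
    have e4 : act (γ 0) E = jm (γ 0) ^ 4 * E := by
      rw [act_eq 4]; exact congrArg _ (h.wt4 _ trivial)
    have e6 : act (γ 0) F = jm (γ 0) ^ 6 * F := by
      rw [act_eq 6]; exact congrArg _ (h.wt6 _ trivial)
    filter_upwards [hE, hF] with z z1 z2
    have z1' : toC E z = ω z ^ 4 := z1
    have z2' : toC F z = s z * ω z ^ 6 := z2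
    simp only [Ph, map_sum, map_smul, toC_smul, map_mul, map_pow, map_prod, e4, e6,
      Finset.sum_apply, Pi.smul_apply, Pi.mul_apply, Pi.pow_apply, z1', z2', g, u, smul_eq_mul,
      Finset.mul_sum]
    refine Finset.sum_congr rfl fun e _ => ?_
    obtain ⟨t, ht⟩ := Nat.exists_eq_add_of_le (Nat.lt_succ_iff.1 e.1.2)
    rw [show d - e.1 = t by omega, show 12 * d = 12 * e.1 + 12 * t by omega]
    ring
  rw [hτ, ← order_act, analyticOrderAt_congr k2,
    analyticOrderAt_mul (((toC_an _).mul hω).pow _) hsum]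
  exact k1.trans le_add_self

end Pool.Agent.Work.MP_db07cb_ag
end

-- merged part: Pool.Agent.Work.MP_db07cb_ag.Main2
section
/-! Exponential growth of the denominators of the primitive of a modular form. -/

namespace Pool.Agent.Work.MP_db07cb_ag

open UpperHalfPlane hiding I
open Complex CongruenceSubgroup
open scoped MatrixGroups Real

lemma Ph_mem {E F : MG} (h : EP E F) {r : ℕ} {u : Fin r → MG} (hu : ∀ j, u j ∈ Qs) (d D : ℕ)
    (a : Fin (d + 1) × (Fin r → Fin (D + 1)) → ℤ) : Ph E F u d D a ∈ Qs := by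
  obtain ⟨b4, h4, e4⟩ := h.int4
  obtain ⟨b6, h6, e6⟩ := h.int6
  exact Qs.sum_mem fun e _ => Qs.smul_mem (mul_mem (mul_mem (pow_mem (e4 ▸ ser_mem _ _) _)
    (pow_mem (e6 ▸ ser_mem _ _) _)) (Qs.prod_mem fun j _ => pow_mem (hu j) _)) _

theorem mainDen2 : MainDen2 := by
  intro N _ k hk K _ _ φ₀ b ⟨C₀, c, hC₀⟩ f hf hfw ⟨m₀, hm₀, hb₀⟩
  obtain ⟨n, rfl⟩ : ∃ n, k = n + 2 := ⟨k - 2, by omega⟩
  let b' : ℕ → K := fun m => if m = 0 then 0 else b m
  let C := max C₀ 1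
  have hgr : ∀ (σ : K →+* ℂ) (m : ℕ), ‖σ (b' m)‖ ≤ C * (m + 1) ^ c := fun σ m => by
    have : (0 : ℝ) ≤ C := zero_le_one.trans (le_max_right _ _)
    by_cases h : m = 0
    · simp only [b', if_pos h, map_zero, norm_zero]; positivity
    · simp only [b', if_neg h]
      exact (hC₀ σ m).trans (mul_le_mul_of_nonneg_right (le_max_left _ _) (by positivity))
  have hC : 1 ≤ C := le_max_right _ _
  let t : ℕ → ℂ := fun m => 2 * π * I * m
  have ht : ∀ m ≠ 0, 1 ≤ ‖t m‖ := fun m hm => by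
    have h1 : (1 : ℝ) ≤ m := by exact_mod_cast Nat.pos_of_ne_zero hm
    have : ‖t m‖ = 2 * π * m := by simp [t, abs_of_pos Real.pi_pos]
    linarith only [h1, this, Real.two_le_pi, mul_nonneg_of_nonpos_of_nonpos (Mathlib.Tactic.Linarith.sub_nonpos_of_le (Mathlib.Tactic.Linarith.natCast_nonneg ℝ m)) (Mathlib.Tactic.Linarith.sub_nonpos_of_le Real.two_le_pi)]
  have ht0 : ∀ m ≠ 0, t m ≠ 0 := fun m hm => norm_pos_iff.1 (one_pos.trans_le (ht m hm))
  let g : ℕ → ℕ → ℂ := fun l m => t m * φ₀ (b' m) / t m ^ l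
  have hg : ∀ l, PG (g l) := fun l => ⟨8 * C, c + 1, by positivity, fun m => by
    by_cases h : m = 0
    · simp only [g, b', if_pos h, map_zero, mul_zero, zero_div, norm_zero]; positivity
    · have h1 : ‖t m‖ ≤ 8 * (m + 1) := by
        have : ‖t m‖ = 2 * π * m := by simp [t, abs_of_pos Real.pi_pos]
        linarith only [this, Real.pi_le_four, (Nat.cast_nonneg m : (0 : ℝ) ≤ m), mul_nonneg_of_nonpos_of_nonpos (Mathlib.Tactic.Linarith.sub_nonpos_of_le (Mathlib.Tactic.Linarith.natCast_nonneg ℝ m)) (Mathlib.Tactic.Linarith.sub_nonpos_of_le Real.pi_le_four)]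
      simp only [g, norm_div, norm_mul, norm_pow]
      refine (div_le_self (by positivity) (one_le_pow₀ (ht m h))).trans ?_
      calc ‖t m‖ * ‖φ₀ (b' m)‖ ≤ 8 * (m + 1) * (C * (m + 1) ^ c) :=
            mul_le_mul h1 (hgr φ₀ m) (norm_nonneg _) (by positivity)
        _ = _ := by ring⟩
  let G : ℕ → MG := fun l => ser (g l) (hg l)
  have hG : ∀ l, Dm (G (l + 1)) = G l := fun l => Dm_ser _ _ fun m => by
    by_cases h : m = 0
    · simp [g, b', h]
    · have := ht0 m h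
      show t m * φ₀ (b' m) / t m ^ l = t m * (t m * φ₀ (b' m) / t m ^ (l + 1))
      field_simp
      ring
  have hG0 : ∀ τ, (G 0 : ℍ → ℂ) τ = 2 * π * I * f τ := fun τ => by
    rw [← (hf τ).tsum_eq, ← tsum_mul_left, ser_apply, ps]
    refine tsum_congr fun m => ?_
    by_cases h : m = 0
    · simp [g, b', h]
    · simp only [g, b', t, if_neg h]; ring
  have hw : IsWt (Gamma1 N) (n + 2) (G 0) := isWt_iff.2 fun γ hγ τ => by
    rw [hG0, hG0, hfw γ hγ]; push_cast; ring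
  have h0 : G 0 ≠ 0 := fun h => by
    have k1 := ser_expand (g 0) (hg 0) (m₀ + 1)
    have k2 := coeff_eq_zero_of_QD (m₀ + 1)
      (∑ i ∈ Finset.range (m₀ + 1), Polynomial.monomial i (g 0 i)) (by
        have := k1.smul (-1)
        rw [show ser (g 0) (hg 0) = 0 from h, zero_sub, neg_one_smul, neg_neg] at this
        simpa only [map_sum, Polynomial.aeval_monomial, Algebra.smul_def] using this) m₀ (by omega)
    have hm : m₀ ≠ 0 := by omega
    simp only [Polynomial.finsetSum_coeff, Polynomial.coeff_monomial, Finset.sum_ite_eq',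
      Finset.mem_range, Nat.lt_succ_self, if_true, g, pow_zero, div_one, b', if_neg hm] at k2
    exact mul_ne_zero (ht0 m₀ hm) ((map_ne_zero φ₀).2 hb₀) k2
  have hb : ∀ σ : K →+* ℂ, PG fun m => σ (b' m) := fun σ => ⟨C, c, by positivity, hgr σ⟩
  have hG1 : G 1 = ser _ (hb φ₀) := by
    have : g 1 = fun m => φ₀ (b' m) := funext fun m => by
      by_cases h : m = 0
      · simp [g, b', h]
      · have := ht0 m h
        simp only [g]; field_simp
    simp only [G]; congr 1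
  have hb1 : PG fun m : ℕ => (m : ℂ) * φ₀ (b' m) := ⟨C, c + 1, by positivity, fun m => by
    rw [norm_mul, Complex.norm_natCast, pow_succ, ← mul_assoc, mul_comm (m : ℝ)]
    exact mul_le_mul (hgr φ₀ m) (by linarith only []) (by positivity) (by positivity)⟩
  obtain ⟨E, F, hEF⟩ := exists_EP
  obtain ⟨r, ν, hν, τ₀, C₁, D₀, hinj, haux⟩ := aux2 hG hw hEF _ hb1 (fun m => by
    have := (Algebra.IsAlgebraic.isAlgebraic (R := ℚ) ((m : K) * b' m)).algHom φ₀.toRatAlgHom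
    simpa using this) (MG.ext fun τ => by
      show ps (g 0) (qf τ) = 2 * π * I * ps _ (qf τ)
      rw [ps, ps, ← tsum_mul_left]
      exact tsum_congr fun m => by simp only [g, t]; ring)
  obtain ⟨A, D₁, hord⟩ := ord_le2 hEF (fun j => scA (ν j) (hν j) (G 1)) fun j =>
    exists_U N n G hG hw (ν j) (hν j)
  obtain ⟨C₂, K₂, hC₂, hbd⟩ := Ph_bound E F fun (σ : K →+* ℂ) j => scA (ν j) (hν j) (ser _ (hb σ))
  have hy := τ₀.im_pos
  let η := min 1 (τ₀.im / 2)
  have hη : 0 < η := lt_min one_pos (by positivity)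
  obtain ⟨D₂, hfin⟩ := final_ineq2 (π * τ₀.im) C₂ η (mul_pos Real.pi_pos hy) hC₂ hη
    (min_le_left _ _) r (Module.finrank ℚ K) A K₂ C₁
  let D := D₀ + D₁ + D₂ + 1
  obtain ⟨α, hα, hfin⟩ := hfin D (by omega)
  refine ⟨D ^ A, D, α, by positivity, hα, fun d hd L hL hint => ?_⟩
  obtain ⟨a, ha0, ha, hz⟩ := haux D (by omega) d (by omega)
  have hne := Ph_ne_zero hG (fun l => ser_mem _ _) hw h0 hEF (by omega) ν hν hinj d D a ha0
  obtain ⟨M, β, w, hβ, hw', e, hM, -⟩ := exists_ord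
    (Ph_mem hEF (fun j => scA_mem _ (hν j) (ser_mem (g 1) (hg 1))) d D a) (D ^ A * d) fun μ hμ =>
      hord D (by omega) d (by omega) a μ hne hμ.dvd
  have e' := e
  rw [show ser (g 1) (hg 1) = ser _ (hb φ₀) from hG1] at e'
  rw [hG1] at hz
  obtain ⟨x, hx, hxi, hσ⟩ := arith2 hEF φ₀ b' hb ν hν d D a M L (fun m hm => by
    by_cases h : m = 0
    · simp only [b', if_pos h, mul_zero]; exact isIntegral_zero
    · simp only [b', if_neg h]; exact hint m (hm.trans hM)) β w hw' e'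
  have hD1 : (1 : ℝ) ≤ D ^ A := one_le_pow₀ (by exact_mod_cast (by omega : 1 ≤ D))
  have y0 : 0 < η / D ^ A := by positivity
  have y1 : η / D ^ A ≤ η := div_le_self hη.le hD1
  have y2 : 2 * (η / D ^ A) ≤ τ₀.im := by linarith only [y1, min_le_right 1 (τ₀.im / 2)]
  have hs := fun (σ : K →+* ℂ) => small2 _ τ₀ _ _ y0 y2 fun τ h1 h2 =>
    (hbd σ d D (C₁ ^ d) a ha τ (h1 ▸ y1.trans (min_le_left _ _)) h2).trans_eq (by rw [h1])
  refine hfin d hd L M hL hM ‖β‖ _ (norm_nonneg _) rfl (hs φ₀ M _ β w hw' e' hz) ?_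
  rw [← hx]
  refine norm_lower φ₀ x (fun h => hβ (by rw [← hx, h, map_zero])) L _ hL hxi _ fun σ => ?_
  obtain ⟨w', k1, k2⟩ := hσ σ
  simpa using hs σ M 0 _ w' k1 k2 (by simp)

end Pool.Agent.Work.MP_db07cb_ag
end
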