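import Pool.Agent.Work.MP_db07cb_ag.GDefs
import Pool.Agent.Work.MP_db07cb_ag.Main2
import Mathlib
import Pool.Agent.Work.MP_db07cb_ag.GLeg
import Pool.Agent.Work.MP_db07cb_ag.GHyp

-- merged part: Pool.Agent.Work.MP_db07cb_ag.GCore
section
/-! From the exponential growth of denominators to a positive proportion of primes at which
the operator `U_p` does not kill the form modulo `p`. -/

namespace Pool.Agent.Work.MP_db07cb_ag.Geo

open PowerSeries

lemma gcore_small (E : ℕ) {ε : ℝ} (hε : 0 < ε) :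
    ∀ᶠ x : ℕ in Filter.atTop, ((Nat.sqrt x + E + 1 : ℕ) : ℝ) * Real.log x ≤ ε * x := by
  have h := (isLittleO_log_rpow_atTop (r := 1 / 2) (by norm_num)).bound (c := ε / (E + 2))
    (by positivity)
  filter_upwards [tendsto_natCast_atTop_atTop.eventually h, Filter.eventually_ge_atTop 1]
    with x hx h1
  rw [← Real.sqrt_eq_rpow, Real.norm_of_nonneg (Real.log_natCast_nonneg x),
    Real.norm_of_nonneg (Real.sqrt_nonneg _)] at hx
  have h2 : (1 : ℝ) ≤ √x := Real.one_le_sqrt.2 (by exact_mod_cast h1)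
  have h3 : ((Nat.sqrt x + E + 1 : ℕ) : ℝ) ≤ (E + 2) * √x := by
    push_cast
    nlinarith [Real.nat_sqrt_le_real_sqrt (a := x), (Nat.cast_nonneg E : (0 : ℝ) ≤ E)]
  refine (mul_le_mul h3 hx (Real.log_natCast_nonneg x) (by positivity)).trans_eq ?_
  field_simp
  rw [Real.sq_sqrt (Nat.cast_nonneg x)]

theorem core1 (N k : ℕ) [NeZero N] (hk : 3 ≤ k) (φ : ℤ⟦X⟧) (h : MF N k φ)
    (h0 : coeff 0 φ = 0) (h1 : φ ≠ 0) (T : ℕ → Prop) (E : ℕ)
    (hT : ∀ p : ℕ, p.Prime → E < p → ¬ T p → ∀ m : ℕ, (p : ℤ) ∣ coeff (p * m) φ) :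
    ∃ c : ℝ, 0 < c ∧ ∀ᶠ x : ℕ in Filter.atTop,
      c * Nat.primeCounting x ≤ {p : ℕ | p ≤ x ∧ p.Prime ∧ T p}.ncard := by
  classical
  obtain ⟨hP, hW⟩ := h
  obtain ⟨A, D₀, α, hA, hα, hmain⟩ := mainDen2 N k hk ℚ (Rat.castHom ℂ)
    (fun m => ((coeff m φ : ℤ) : ℚ) / m)
    (by
      obtain ⟨C, c, hC, hc⟩ := hP
      refine ⟨C, c, fun σ m => ?_⟩
      rcases Nat.eq_zero_or_pos m with rfl | hm
      · simp only [Nat.cast_zero, div_zero, map_zero, norm_zero]
        positivity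
      · rw [map_div₀, norm_div, map_natCast, map_intCast, Complex.norm_natCast]
        exact (div_le_self (norm_nonneg _) (by exact_mod_cast hm)).trans (hc m))
    (ser _ hP : MG)
    (fun τ => by
      have h2 : ∀ m : ℕ, (m : ℂ) * Rat.castHom ℂ (((coeff m φ : ℤ) : ℚ) / m) =
          ((coeff m φ : ℤ) : ℂ) := fun m => by
        rcases Nat.eq_zero_or_pos m with rfl | hm
        · rw [h0, Nat.cast_zero, zero_mul, Int.cast_zero]
        · rw [map_div₀, map_natCast, map_intCast, mul_div_cancel₀ _ (Nat.cast_ne_zero.2 hm.ne')]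
      simp only [h2]
      exact (hP.summable (norm_qf_lt τ)).hasSum)
    (isWt_iff.1 hW)
    (by
      by_contra hn
      refine h1 (PowerSeries.ext fun m => ?_)
      rcases Nat.eq_zero_or_pos m with rfl | hm
      · exact h0
      · by_contra h2
        exact hn ⟨m, hm, div_ne_zero (Int.cast_ne_zero.2 h2) (Nat.cast_ne_zero.2 hm.ne')⟩)
  refine ⟨α / 2 / (6 * A), by positivity, ?_⟩
  filter_upwards [Final2.eventually_le A 0 (α / 2) hA (half_pos hα),
    gcore_small E (ε := α / (4 * A)) (by positivity),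
    Filter.eventually_ge_atTop (A * (D₀ + 1))] with x hx hy hx0
  obtain ⟨D, hD⟩ : ∃ D, D = x / A := ⟨_, rfl⟩
  have hD1 : A * D ≤ x := hD ▸ Nat.mul_div_le x A
  have hD2 : x < A * (D + 1) := hD ▸ Nat.lt_mul_div_succ x hA
  have hD3 : D₀ + 1 ≤ D := hD ▸ (Nat.le_div_iff_mul_le hA).2 (by rwa [mul_comm])
  have hx1 : 1 ≤ x := (Nat.mul_pos hA (Nat.succ_pos _)).trans_le hx0
  set S₁ := (Finset.range (x + 1)).filter fun p => p.Prime ∧ T p with hS₁
  have hcard : {p : ℕ | p ≤ x ∧ p.Prime ∧ T p}.ncard = S₁.card := by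
    rw [← Set.ncard_coe_finset]
    congr 1
    ext p
    simp [hS₁]
  set S := S₁ ∪ (Finset.range (Nat.sqrt x + E + 1)).filter Nat.Prime with hS
  set L := ∏ p ∈ S, p ^ Nat.log p x with hL
  have hSp : ∀ p ∈ S, p.Prime := by
    intro p hp
    rcases Finset.mem_union.1 hp with h | h
    · exact (Finset.mem_filter.1 h).2.1
    · exact (Finset.mem_filter.1 h).2
  have hL0 : 0 < L := Finset.prod_pos fun p hp => pow_pos (hSp p hp).pos _
  have hLx : L ≤ x ^ S.card :=
    Finset.prod_le_pow_card _ _ _ fun p _ => Nat.pow_log_le_self p (by omega)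
  have hlog := hmain D (by omega) L hL0 fun m hm => by
    rcases Nat.eq_zero_or_pos m with rfl | hm0
    · simp only [Nat.cast_zero, div_zero, mul_zero]
      exact isIntegral_zero
    have hmx : m ≤ x := hm.trans hD1
    have hdvd : (m : ℤ) ∣ (L : ℤ) * coeff m φ := by
      refine FinalAux.dvd_of_pow _ m hm0.ne' fun p j hp hj => ?_
      have h2 := (Nat.le_of_dvd hm0 hj).trans hmx
      by_cases hpS : p ∈ S
      · have h3 : p ^ j ∣ L := (pow_dvd_pow p (Nat.le_log_of_pow_le hp.one_lt h2)).trans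
          (Finset.dvd_prod_of_mem (fun p => p ^ Nat.log p x) hpS)
        exact Dvd.dvd.mul_right (by exact_mod_cast h3) _
      · rw [hS, Finset.mem_union, not_or, hS₁, Finset.mem_filter, Finset.mem_range,
          Finset.mem_filter, Finset.mem_range] at hpS
        have h3 : Nat.sqrt x + E + 1 ≤ p := not_lt.1 fun h => hpS.2 ⟨h, hp⟩
        have h4 : x < p ^ 2 := Nat.sqrt_lt'.1 (by omega)
        have h5 : j < 2 := (Nat.pow_lt_pow_iff_right hp.one_lt).1 (h2.trans_lt h4)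
        interval_cases j
        · simp
        · rw [pow_one] at hj h2 ⊢
          obtain ⟨n, rfl⟩ := hj
          exact (hT p hp (by omega) (fun h => hpS.1 ⟨by omega, hp, h⟩) n).mul_left _
    obtain ⟨y, hy⟩ := hdvd
    have hy' : (L : ℚ) * ((coeff m φ : ℤ) : ℚ) = m * (y : ℚ) := by exact_mod_cast hy
    rw [← mul_div_assoc, hy', mul_div_cancel_left₀ _ (Nat.cast_ne_zero.2 hm0.ne')]
    exact isIntegral_algebraMap (x := y)
  rw [hcard]
  refine hx D S₁.card hD2 ?_
  have h2 : Real.log L ≤ S.card * Real.log x := by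
    rw [← Real.log_pow]
    exact Real.log_le_log (by exact_mod_cast hL0) (by exact_mod_cast hLx)
  have h3 : (S.card : ℝ) ≤ S₁.card + (Nat.sqrt x + E + 1 : ℕ) := by
    exact_mod_cast (Finset.card_union_le _ _).trans (Nat.add_le_add_left
      ((Finset.card_filter_le _ _).trans_eq (Finset.card_range _)) _)
  have h4 := mul_le_mul_of_nonneg_right h3 (Real.log_natCast_nonneg x)
  have h5 : α / (4 * A) * x ≤ α / 2 * D := by
    have h6 : (x : ℝ) ≤ 2 * A * D := by exact_mod_cast (by nlinarith : x ≤ 2 * A * D)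
    refine (mul_le_mul_of_nonneg_left h6 (by positivity)).trans_eq ?_
    field_simp
    ring
  rw [Nat.cast_zero, add_zero]
  rw [add_mul] at h4
  linarith

end Pool.Agent.Work.MP_db07cb_ag.Geo
end

-- merged part: Pool.Agent.Work.MP_db07cb_ag.GKS1
section
/-! The number of points of a fibre power of the Weierstrass family modulo `p`. -/

namespace Pool.Agent.Work.MP_db07cb_ag.Geo

open Polynomial

theorem gks1_pow (p : ℕ) [Fact p.Prime] (j : ℕ) (hj : j < 2 * (p - 1)) :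
    ∑ x : ZMod p, x ^ j = if j = p - 1 then -1 else 0 := by
  have h2 : 2 ≤ p := (Fact.out : p.Prime).two_le
  have hc : Fintype.card (ZMod p) = p := ZMod.card p
  by_cases h0 : j < p - 1
  · rw [if_neg h0.ne, FiniteField.sum_pow_lt_card_sub_one (ZMod p) j (by rw [hc]; exact h0)]
  · have hj0 : j ≠ 0 := by omega
    have h1 : ∑ x : ZMod p, x ^ j = ∑ x : (ZMod p)ˣ, (x : ZMod p) ^ j := by
      rw [← Finset.sum_erase (s := Finset.univ) (f := fun x : ZMod p => x ^ j) (a := 0)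
        (zero_pow hj0)]
      symm
      refine Finset.sum_bij (fun x _ => (x : ZMod p)) (fun x _ => by simp)
        (fun x _ y _ h => Units.ext h) (fun y hy => ?_) fun _ _ => rfl
      exact ⟨Units.mk0 y (Finset.ne_of_mem_erase hy), Finset.mem_univ _, rfl⟩
    have h3 := FiniteField.sum_pow_units (ZMod p) j
    rw [h1, h3, hc]
    by_cases h4 : j = p - 1
    · rw [if_pos h4, if_pos (h4 ▸ dvd_rfl)]
    · rw [if_neg h4, if_neg]
      rintro ⟨k, rfl⟩
      have h5 : k < 2 := by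
        by_contra h6
        have : (p - 1) * 2 ≤ (p - 1) * k := Nat.mul_le_mul_left _ (by omega)
        omega
      interval_cases k <;> omega

theorem gks1_sum (p : ℕ) [Fact p.Prime] (g : (ZMod p)[X]) (hg : g.natDegree < 2 * (p - 1)) :
    ∑ x : ZMod p, g.eval x = -g.coeff (p - 1) := by
  have h2 : 2 ≤ p := (Fact.out : p.Prime).two_le
  simp only [eval_eq_sum_range' hg]
  rw [Finset.sum_comm, Finset.sum_eq_single (p - 1)]
  · rw [← Finset.mul_sum, gks1_pow p _ (by omega), if_pos rfl, mul_neg, mul_one]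
  · intro j hj h
    rw [← Finset.mul_sum, gks1_pow p _ (Finset.mem_range.1 hj), if_neg h, mul_zero]
  · intro h
    exact absurd (Finset.mem_range.2 (by omega)) h

theorem gks1_sqrt (p : ℕ) [Fact p.Prime] (hp : p ≠ 2) (c : ZMod p) :
    ∑ y : ZMod p, (if y ^ 2 = c then (1 : ZMod p) else 0) = 1 + c ^ (p / 2) := by
  have hr : ringChar (ZMod p) ≠ 2 := by rwa [ZMod.ringChar_zmod_n]
  have h1 := quadraticChar_card_sqrts hr c
  have h2 := quadraticChar_eq_pow_of_char_ne_two' hr c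
  rw [ZMod.card] at h2
  rw [← h2, add_comm, Finset.sum_boole]
  have h3 := congrArg (Int.cast : ℤ → ZMod p) h1
  rw [Int.cast_add, Int.cast_one, Int.cast_natCast] at h3
  rw [← h3]
  congr 2
  ext y
  simp

theorem gks1_fibre (p : ℕ) [Fact p.Prime] (hp : p ≠ 2) (a b : ZMod p) :
    ∑ v : ZMod p × ZMod p, (if v.2 ^ 2 = v.1 ^ 3 + a * v.1 + b then (1 : ZMod p) else 0) =
      -((X ^ 3 + C a * X + C b : (ZMod p)[X]) ^ (p / 2)).coeff (p - 1) := by
  have h2 : 2 ≤ p := (Fact.out : p.Prime).two_le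
  have ho : p % 2 = 1 := (Fact.out : p.Prime).eq_two_or_odd.resolve_left hp
  have hd : (X ^ 3 + C a * X + C b : (ZMod p)[X]).natDegree ≤ 3 := by compute_degree
  have hd' : ((X ^ 3 + C a * X + C b : (ZMod p)[X]) ^ (p / 2)).natDegree < 2 * (p - 1) := by
    refine (natDegree_pow_le.trans (Nat.mul_le_mul_left _ hd)).trans_lt ?_
    omega
  rw [Fintype.sum_prod_type, ← gks1_sum p _ hd']
  simp only [gks1_sqrt p hp, Finset.sum_add_distrib]
  simp

theorem ks_count (p : ℕ) [Fact p.Prime] (hp : p ≠ 2) (m : ℕ) :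
    (Nat.card {v : (ZMod p × ZMod p) × (Fin m → ZMod p × ZMod p) //
      ∀ i, (v.2 i).2 ^ 2 = (v.2 i).1 ^ 3 + v.1.1 * (v.2 i).1 + v.1.2} : ZMod p) =
    ∑ a : ZMod p, ∑ b : ZMod p,
      (-((X ^ 3 + C a * X + C b : (ZMod p)[X]) ^ (p / 2)).coeff (p - 1)) ^ m := by
  rw [Nat.card_eq_fintype_card, Fintype.card_subtype, ← Finset.sum_boole, Fintype.sum_prod_type,
    Fintype.sum_prod_type]
  refine Finset.sum_congr rfl fun a _ => Finset.sum_congr rfl fun b _ => ?_
  rw [← gks1_fibre p hp, ← Fin.prod_const, Finset.prod_univ_sum, Fintype.piFinset_univ]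
  refine Finset.sum_congr rfl fun w _ => ?_
  rw [Finset.prod_boole]
  simp

end Pool.Agent.Work.MP_db07cb_ag.Geo
end

-- merged part: Pool.Agent.Work.MP_db07cb_ag.GKS2
section
/-! Exactness modulo `p` of the top differential form on a fibre power of the Weierstrass
family at a non-ordinary prime. -/

namespace Pool.Agent.Work.MP_db07cb_ag.Geo

open Polynomial

/-- weighted homogeneity for the weights `2, 4, 6` -/
def gks2_Hom {K : Type*} [CommRing K] (N : ℕ) (r : (MvPolynomial (Fin 2) K)[X]) : Prop :=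
  ∀ k d, MvPolynomial.coeff d (r.coeff k) ≠ 0 → 2 * k + 4 * d 0 + 6 * d 1 = N

theorem gks2_add {K : Type*} [CommRing K] {N : ℕ} {r s : (MvPolynomial (Fin 2) K)[X]}
    (hr : gks2_Hom N r) (hs : gks2_Hom N s) : gks2_Hom N (r + s) := fun k d h => by
  by_cases h1 : MvPolynomial.coeff d (r.coeff k) = 0
  · refine hs k d fun h2 => h ?_
    rw [coeff_add, MvPolynomial.coeff_add, h1, h2, add_zero]
  · exact hr k d h1

theorem gks2_mul {K : Type*} [CommRing K] {N M : ℕ} {r s : (MvPolynomial (Fin 2) K)[X]}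
    (hr : gks2_Hom N r) (hs : gks2_Hom M s) : gks2_Hom (N + M) (r * s) := fun k d h => by
  rw [coeff_mul, MvPolynomial.coeff_sum] at h
  obtain ⟨x, hx, h1⟩ := Finset.exists_ne_zero_of_sum_ne_zero h
  rw [MvPolynomial.coeff_mul] at h1
  obtain ⟨y, hy, h2⟩ := Finset.exists_ne_zero_of_sum_ne_zero h1
  have h3 := hr _ _ (left_ne_zero_of_mul h2)
  have h4 := hs _ _ (right_ne_zero_of_mul h2)
  rw [← Finset.HasAntidiagonal.mem_antidiagonal.1 hx, ← Finset.HasAntidiagonal.mem_antidiagonal.1 hy]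
  simp only [Finsupp.add_apply]
  omega

theorem gks2_C {K : Type*} [CommRing K] {N : ℕ} {a : MvPolynomial (Fin 2) K}
    (h : ∀ d, MvPolynomial.coeff d a ≠ 0 → 4 * d 0 + 6 * d 1 = N) : gks2_Hom N (C a) :=
  fun k d h1 => by
    rw [coeff_C] at h1
    split_ifs at h1 with h2
    · have := h d h1
      omega
    · simp at h1

theorem gks2_pow {K : Type*} [CommRing K] {N : ℕ} {r : (MvPolynomial (Fin 2) K)[X]}
    (hr : gks2_Hom N r) (n : ℕ) : gks2_Hom (n * N) (r ^ n) := by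
  induction n with
  | zero =>
    rw [pow_zero, ← C_1]
    refine gks2_C fun d h => ?_
    rw [MvPolynomial.coeff_one] at h
    split_ifs at h with h2
    · simp [← h2]
    · exact absurd rfl h
  | succ n ih =>
    rw [pow_succ, add_mul, one_mul]
    exact gks2_mul ih hr

theorem gks2_X {K : Type*} [CommRing K] : gks2_Hom 2 (X : (MvPolynomial (Fin 2) K)[X]) :=
  fun k d h => by
    rw [coeff_X] at h
    split_ifs at h with h1
    · rw [MvPolynomial.coeff_one] at h
      split_ifs at h with h2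
      · simp [← h1, ← h2]
      · exact absurd rfl h
    · simp at h

theorem gks2_cubic {K : Type*} [CommRing K] : gks2_Hom 6
    (X ^ 3 + C (MvPolynomial.X 0) * X + C (MvPolynomial.X 1) : (MvPolynomial (Fin 2) K)[X]) := by
  refine gks2_add (gks2_add (gks2_pow gks2_X 3) (gks2_mul (N := 4) (gks2_C fun d h => ?_) gks2_X))
    (gks2_C fun d h => ?_)
  all_goals
    rw [MvPolynomial.coeff_X] at h
    split_ifs at h with h2
    · simp [← h2]
    · exact absurd rfl h

/-- the Hasse invariant of the Weierstrass family -/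
noncomputable def gks2_H (p : ℕ) : MvPolynomial (Fin 2) (ZMod p) :=
  ((X ^ 3 + C (MvPolynomial.X 0) * X + C (MvPolynomial.X 1) :
    (MvPolynomial (Fin 2) (ZMod p))[X]) ^ (p / 2)).coeff (p - 1)

theorem gks2_weight (p : ℕ) [Fact p.Prime] (hp : p ≠ 2) (m : ℕ) :
    ∀ d ∈ (gks2_H p ^ m).support, 4 * d 0 + 6 * d 1 = m * (p - 1) := by
  have hodd : p % 2 = 1 := (Fact.out : p.Prime).eq_two_or_odd.resolve_left hp
  have h1 : gks2_Hom (p - 1) (C (gks2_H p)) := gks2_C fun d h => by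
    have := gks2_pow gks2_cubic (p / 2) _ d h
    omega
  intro d hd
  have h2 := gks2_pow h1 m 0 d (by
    rw [← C_pow, coeff_C_zero]
    exact MvPolynomial.mem_support_iff.1 hd)
  omega

theorem gks2_eval (p m : ℕ) {S : Type*} [CommRing S] [Algebra (ZMod p) S] (a b : S) :
    ((X ^ 3 + C a * X + C b : S[X]) ^ (p / 2)).coeff (p - 1) ^ m =
      ∑ d ∈ (gks2_H p ^ m).support,
        MvPolynomial.coeff d (gks2_H p ^ m) • (a ^ d 0 * b ^ d 1) := by
  have h1 : MvPolynomial.aeval ![a, b] (gks2_H p) =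
      ((X ^ 3 + C a * X + C b : S[X]) ^ (p / 2)).coeff (p - 1) := by
    have := coeff_map (p := (X ^ 3 + C (MvPolynomial.X 0) * X + C (MvPolynomial.X 1) :
      (MvPolynomial (Fin 2) (ZMod p))[X]) ^ (p / 2))
      (MvPolynomial.aeval (R := ZMod p) ![a, b]).toRingHom (p - 1)
    refine this.symm.trans ?_
    simp
  rw [← h1, ← map_pow, MvPolynomial.aeval_def, MvPolynomial.eval₂_eq']
  refine Finset.sum_congr rfl fun d _ => ?_
  rw [Fin.prod_univ_two, Algebra.smul_def]
  rfl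

theorem gks2_sum (p : ℕ) [Fact p.Prime] {e : ℕ} (he : e ≠ 0) :
    ∑ x : ZMod p, x ^ e = if p - 1 ∣ e then -1 else 0 := by
  have h := FiniteField.sum_pow_units (ZMod p) e
  rw [ZMod.card] at h
  rw [← h, ← Finset.add_sum_erase _ _ (Finset.mem_univ (0 : ZMod p)), zero_pow he, zero_add]
  refine (Finset.sum_bij (fun (x : (ZMod p)ˣ) _ => (x : ZMod p)) (fun x _ => ?_)
    (fun x _ y _ h => Units.ext h) (fun x hx => ?_) fun _ _ => rfl).symm
  · exact Finset.mem_erase.2 ⟨x.ne_zero, Finset.mem_univ _⟩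
  · exact ⟨Units.mk0 x (Finset.mem_erase.1 hx).1, Finset.mem_univ _, rfl⟩

theorem gks2_sum_one (p : ℕ) [Fact p.Prime] (i : ℕ) :
    ∑ x : ZMod p, x ^ ((p - 1) * (i + 1)) = -1 := by
  have hp2 : 2 ≤ p := (Fact.out : p.Prime).two_le
  rw [gks2_sum p (mul_ne_zero (by omega) (by omega)), if_pos (dvd_mul_right _ _)]

theorem gks2_sum_ne (p : ℕ) [Fact p.Prime] {e : ℕ} (h : ∑ x : ZMod p, x ^ e ≠ 0) :
    ∃ i, e = (p - 1) * (i + 1) := by
  have he : e ≠ 0 := by
    rintro rfl
    simp at h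
  rw [gks2_sum p he] at h
  split_ifs at h with h1
  · obtain ⟨c, rfl⟩ := h1
    rcases c with _ | c
    · simp at he
    · exact ⟨c, rfl⟩
  · exact absurd rfl h

theorem gks2_mono (p : ℕ) [Fact p.Prime] (hp : p ≠ 2) {R : Type*} [CommRing R]
    [Algebra (ZMod p) R] (D : Derivation (ZMod p) R R) (α β : R) {u v i j m : ℕ}
    (h : 4 * (u + i + 1) + 6 * (v + j + 1) = m * p)
    (hn : p ∣ u + i + 1 → p ∣ v + j + 1 → False) :
    α ^ u * β ^ v * (α ^ i * β ^ j * (4 * α * D β - 6 * β * D α)) ∈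
      LinearMap.range (D : R →ₗ[ZMod p] R) := by
  have h2 : (2 : ZMod p) ≠ 0 := fun h2 => hp ((Nat.prime_dvd_prime_iff_eq Fact.out
    Nat.prime_two).1 ((ZMod.natCast_eq_zero_iff 2 p).1 (by exact_mod_cast h2)))
  have h4 : (4 : ZMod p) ≠ 0 := by
    have := mul_ne_zero h2 h2
    rwa [show (2 : ZMod p) * 2 = 4 by norm_num] at this
  obtain ⟨k, hk⟩ : ∃ k : ZMod p, ((v + j + 1 : ℕ) : ZMod p) = 4 * k :=
    ⟨_, (mul_div_cancel₀ _ h4).symm⟩
  have h5 : ((u + i + 1 : ℕ) : ZMod p) = -6 * k := by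
    have h6 := congrArg (Nat.cast : ℕ → ZMod p) h
    rw [Nat.cast_mul m, ZMod.natCast_self, mul_zero, Nat.cast_add, Nat.cast_mul, Nat.cast_mul,
      hk] at h6
    refine mul_left_cancel₀ h4 ?_
    push_cast at h6 ⊢
    linear_combination h6
  have h6 : k ≠ 0 := by
    rintro rfl
    rw [mul_zero, ZMod.natCast_eq_zero_iff] at hk h5
    exact hn h5 hk
  refine ⟨k⁻¹ • (α ^ (u + i + 1) * β ^ (v + j + 1)), ?_⟩
  rw [map_smul, inv_smul_eq_iff₀ h6]
  change D _ = _
  have e1 : ((u + i + 1 : ℕ) : R) = -6 * algebraMap (ZMod p) R k := by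
    rw [← map_natCast (algebraMap (ZMod p) R), h5, map_mul, map_neg, map_ofNat]
  have e2 : ((v + j + 1 : ℕ) : R) = 4 * algebraMap (ZMod p) R k := by
    rw [← map_natCast (algebraMap (ZMod p) R), hk, map_mul, map_ofNat]
  rw [Derivation.leibniz, Derivation.leibniz_pow, Derivation.leibniz_pow, Algebra.smul_def k]
  simp only [smul_eq_mul, nsmul_eq_mul, Nat.add_sub_cancel, e1, e2]
  ring

theorem ks_exact (p : ℕ) [Fact p.Prime] (hp : p ≠ 2) {R : Type*} [CommRing R]
    [Algebra (ZMod p) R] (D : Derivation (ZMod p) R R) (α β : R) (i j : ℕ)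
    (hij : ∀ i' j' : ℕ, 4 * (i' + 1) + 6 * (j' + 1) = 4 * (i + 1) + 6 * (j + 1) → i' = i)
    (h1 : ((X ^ 3 + C α * X + C β : R[X]) ^ (p / 2)).coeff (p - 1) ^ 2 = 1)
    (h0 : ∑ a : ZMod p, ∑ b : ZMod p,
      (-((X ^ 3 + C a * X + C b : (ZMod p)[X]) ^ (p / 2)).coeff (p - 1)) ^
        (4 * (i + 1) + 6 * (j + 1)) = 0) :
    ∃ g : R, D g = α ^ i * β ^ j * (4 * α * D β - 6 * β * D α) := by
  have hp2 : 2 ≤ p := (Fact.out : p.Prime).two_le
  obtain ⟨m, hm⟩ : ∃ m, m = 4 * (i + 1) + 6 * (j + 1) := ⟨_, rfl⟩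
  have hm2 : m = 2 * (2 * (i + 1) + 3 * (j + 1)) := by omega
  rw [← hm] at h0 hij
  have hP := gks2_weight p hp m
  have hz := fun a b : ZMod p => gks2_eval p m a b
  have hR := gks2_eval p m α β
  generalize gks2_H p ^ m = P at hP hz hR
  have hsp : ∀ d ∈ P.support, ¬ (d 0 = (p - 1) * (i + 1) ∧ d 1 = (p - 1) * (j + 1)) := by
    rintro d hd ⟨e0, e1⟩
    have h2 : ∑ d ∈ P.support, MvPolynomial.coeff d P *
        ((∑ a : ZMod p, a ^ d 0) * ∑ b : ZMod p, b ^ d 1) = 0 := by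
      rw [← h0]
      simp only [Finset.sum_mul_sum]
      simp only [Finset.mul_sum]
      rw [Finset.sum_comm]
      refine Finset.sum_congr rfl fun a _ => ?_
      rw [Finset.sum_comm]
      refine Finset.sum_congr rfl fun b _ => ?_
      rw [Even.neg_pow ⟨2 * (i + 1) + 3 * (j + 1), by omega⟩, hz a b]
      rfl
    rw [Finset.sum_eq_single_of_mem d hd] at h2
    · rw [e0, e1, gks2_sum_one, gks2_sum_one] at h2
      exact MvPolynomial.mem_support_iff.1 hd (by simpa using h2)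
    · intro d' hd' hne
      by_contra hc
      obtain ⟨i', k0⟩ := gks2_sum_ne p (left_ne_zero_of_mul (right_ne_zero_of_mul hc))
      obtain ⟨j', k1⟩ := gks2_sum_ne p (right_ne_zero_of_mul (right_ne_zero_of_mul hc))
      have h3 := hP d' hd'
      rw [k0, k1] at h3
      have h4 : 4 * (i' + 1) + 6 * (j' + 1) = m :=
        Nat.eq_of_mul_eq_mul_left (show 0 < p - 1 by omega) (by linarith)
      have h5 := hij i' j' h4
      have h6 : j' = j := by omega
      refine hne (Finsupp.ext fun l => ?_)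
      fin_cases l
      · exact k0.trans (h5 ▸ e0.symm)
      · exact k1.trans (h6 ▸ e1.symm)
  rw [hm2, pow_mul, h1, one_pow] at hR
  have key : (∑ d ∈ P.support, MvPolynomial.coeff d P • (α ^ d 0 * β ^ d 1)) *
      (α ^ i * β ^ j * (4 * α * D β - 6 * β * D α)) ∈
        LinearMap.range (D : R →ₗ[ZMod p] R) := by
    rw [Finset.sum_mul]
    refine sum_mem fun d hd => ?_
    rw [smul_mul_assoc]
    refine Submodule.smul_mem _ _ (gks2_mono p hp D α β (m := m) ?_ fun h2 h3 => hsp d hd ?_)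
    · have := hP d hd
      obtain ⟨q, rfl⟩ : ∃ q, p = q + 1 := ⟨p - 1, by omega⟩
      rw [Nat.add_sub_cancel] at this
      linarith
    · have h4 := hP d hd
      obtain ⟨u, hu⟩ := h2
      obtain ⟨v, hv⟩ := h3
      obtain ⟨q, rfl⟩ : ∃ q, p = q + 1 := ⟨p - 1, by omega⟩
      rw [Nat.add_sub_cancel] at h4 ⊢
      obtain ⟨i', rfl⟩ : ∃ i', u = i' + 1 := ⟨u - 1, by
        rcases u with _ | u
        · omega
        · omega⟩
      obtain ⟨j', rfl⟩ : ∃ j', v = j' + 1 := ⟨v - 1, by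
        rcases v with _ | v
        · omega
        · omega⟩
      have h5 : 4 * (i' + 1) + 6 * (j' + 1) = m :=
        Nat.eq_of_mul_eq_mul_left (show 0 < q + 1 by omega) (by linarith)
      have h6 := hij i' j' h5
      have h7 : j' = j := by omega
      subst h6 h7
      constructor <;> linarith
  rw [← hR, one_mul] at key
  exact key

end Pool.Agent.Work.MP_db07cb_ag.Geo
end

-- merged part: Pool.Agent.Work.MP_db07cb_ag.GKS3
section
/-! The Hasse invariant of a Weierstrass cubic with rational two-torsion. -/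

namespace Pool.Agent.Work.MP_db07cb_ag.Geo

open Polynomial

theorem gks3_comp (p : ℕ) [Fact p.Prime] {R : Type*} [CommRing R] [Algebra (ZMod p) R]
    (Q : R[X]) (hQ : Q.natDegree ≤ 2 * p - 2) (s r : R) :
    (Q.comp (C s + C r * X)).coeff (p - 1) = Q.coeff (p - 1) * r ^ (p - 1) := by
  have hp : p.Prime := Fact.out
  have h2 := hp.two_le
  have e : Q.comp (C s + C r * X) = (taylor s Q).comp (C r * X) := by
    rw [taylor_apply, comp_assoc]
    simp [add_comm]
  have hd : hasseDeriv (p - 1) Q = C (Q.coeff (p - 1)) := by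
    ext n
    rw [hasseDeriv_coeff, coeff_C]
    split_ifs with hn
    · simp [hn]
    · by_cases hle : n < p
      · obtain ⟨t, ht⟩ : p ∣ (p - 1 + n).choose (p - 1) :=
          hp.dvd_choose_add (by omega) hle (by omega)
        have hz : (p : R) = 0 := by
          rw [← map_natCast (algebraMap (ZMod p) R), ZMod.natCast_self, map_zero]
        rw [add_comm n, ht, Nat.cast_mul, hz, zero_mul, zero_mul]
      · rw [coeff_eq_zero_of_natDegree_lt (by omega), mul_zero]
  rw [e, comp_C_mul_X_coeff, taylor_coeff, hd, eval_C]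

theorem gks3_choose (p : ℕ) [Fact p.Prime] (n : ℕ) (hn : p = 2 * n + 1) (k : ℕ) (hk : k ≤ n) :
    (n.choose k : ZMod p) * (-4) ^ k = Nat.centralBinom k := by
  induction k with
  | zero => simp
  | succ k ih =>
    have ih := ih (by omega)
    have hne : ((k + 1 : ℕ) : ZMod p) ≠ 0 := by
      rw [Ne, ZMod.natCast_eq_zero_iff]
      exact Nat.not_dvd_of_pos_of_lt (by omega) (by omega)
    have h1 : ((n.choose (k + 1) * (k + 1) : ℕ) : ZMod p) = ((n.choose k * (n - k) : ℕ) : ZMod p) := by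
      rw [Nat.choose_succ_right_eq]
    have h2 : (((k + 1) * Nat.centralBinom (k + 1) : ℕ) : ZMod p) =
        ((2 * (2 * k + 1) * Nat.centralBinom k : ℕ) : ZMod p) := by
      rw [Nat.succ_mul_centralBinom_succ]
    have h3 : (2 * n + 1 : ZMod p) = 0 := by
      have := ZMod.natCast_self p
      rw [show ((p : ℕ) : ZMod p) = ((2 * n + 1 : ℕ) : ZMod p) from by rw [← hn]] at this
      exact_mod_cast this
    rw [Nat.cast_mul, Nat.cast_mul, Nat.cast_sub (by omega)] at h1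
    apply mul_left_cancel₀ hne
    push_cast at h1 h2 ⊢
    linear_combination (-4) ^ (k + 1) * h1 - h2 + 2 * (2 * k + 1) * ih -
      2 * (n.choose k : ZMod p) * (-4) ^ k * h3

theorem gks3_unit (p : ℕ) [Fact p.Prime] (hp : 3 < p) {R : Type*} [CommRing R]
    [Algebra (ZMod p) R] : (3 : R) ^ (p - 1) = 1 := by
  have hne : ((3 : ℕ) : ZMod p) ≠ 0 := by
    rw [Ne, ZMod.natCast_eq_zero_iff]
    exact Nat.not_dvd_of_pos_of_lt (by omega) hp
  have := congrArg (algebraMap (ZMod p) R) (ZMod.pow_card_sub_one_eq_one hne)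
  rw [map_pow, map_natCast, map_one] at this
  exact_mod_cast this

theorem ks_key (p : ℕ) [Fact p.Prime] (hp : 3 < p) {R : Type*} [CommRing R]
    [Algebra (ZMod p) R] (A c : R)
    (h : ∑ k ∈ Finset.range (p / 2 + 1),
      ((Nat.centralBinom k ^ 2 : ℕ) : R) * c ^ k * A ^ (p / 2 - k) = 1) :
    ((X ^ 3 + C (-3 * (A ^ 2 - 16 * A * c + 256 * c ^ 2)) * X +
      C (2 * ((A + 16 * c) * (A - 8 * c) * (A - 32 * c))) : R[X]) ^ (p / 2)).coeff (p - 1) ^ 2
      = 1 := by
  have hp' : p.Prime := Fact.out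
  obtain ⟨n, hn⟩ : ∃ n, p = 2 * n + 1 := hp'.odd_of_ne_two (by omega)
  have hn2 : p / 2 = n := by omega
  have hn1 : p - 1 = n + n := by omega
  rw [hn2] at h ⊢
  generalize hQ : (X ^ 3 + C (-3 * (A ^ 2 - 16 * A * c + 256 * c ^ 2)) * X +
      C (2 * ((A + 16 * c) * (A - 8 * c) * (A - 32 * c))) : R[X]) = Q
  have hdeg : Q.natDegree ≤ 3 := by rw [← hQ]; compute_degree
  have hc : Q.comp (C (A + 16 * c) + C (-3) * X) =
      C (-27) * (X * ((X + C (-A)) * (X + C (-(16 * c))))) := by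
    rw [← hQ]
    simp only [add_comp, mul_comp, pow_comp, X_comp, C_comp]
    simp only [map_add, map_mul, map_sub, map_neg, map_pow, map_ofNat]
    ring
  have h1 := gks3_comp p (Q ^ n) (natDegree_pow_le.trans (by
    have := Nat.mul_le_mul_left n hdeg
    omega)) (A + 16 * c) (-3)
  have h3 : (3 : R) ^ (n + n) = 1 := hn1 ▸ gks3_unit p hp
  have h4 : ∀ k ≤ n, (n.choose k : R) * (-4) ^ k = Nat.centralBinom k := fun k hk => by
    have := congrArg (algebraMap (ZMod p) R) (gks3_choose p n hn k hk)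
    simpa only [map_mul, map_pow, map_natCast, map_neg, map_ofNat] using this
  rw [pow_comp, hc, hn1, Even.neg_pow ⟨n, rfl⟩, h3, mul_one, mul_pow, mul_pow, mul_pow, ← C_pow,
    coeff_C_mul, coeff_X_pow_mul, coeff_mul,
    Finset.Nat.sum_antidiagonal_eq_sum_range_succ_mk] at h1
  have h5 : ∑ k ∈ Finset.range n.succ, ((X + C (-A)) ^ n).coeff k *
      ((X + C (-(16 * c))) ^ n).coeff (n - k) = (-1) ^ n := by
    refine Eq.trans ?_ ((congrArg (fun t => (-1 : R) ^ n * t) h).trans (mul_one _))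
    rw [Finset.mul_sum]
    refine Finset.sum_congr rfl fun k hk => ?_
    have hk' : k ≤ n := Nat.lt_succ_iff.1 (Finset.mem_range.1 hk)
    rw [coeff_X_add_C_pow, coeff_X_add_C_pow, Nat.choose_symm hk', Nat.sub_sub_self hk',
      Nat.cast_pow, ← h4 k hk']
    obtain ⟨j, rfl⟩ := Nat.exists_eq_add_of_le hk'
    rw [Nat.add_sub_cancel_left, neg_pow A, neg_pow (16 * c), mul_pow 16, mul_pow _ _ 2,
      ← pow_mul (-4 : R), mul_comm k 2, pow_mul (-4 : R), pow_add (-1 : R)]
    norm_num only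
    ring
  rw [hn1, ← h1, h5, ← mul_pow]
  calc ((-27 * -1 : R) ^ n) ^ 2 = (3 ^ (n + n)) ^ 3 := by
        rw [show (-27 * -1 : R) = 3 ^ 3 by norm_num, ← pow_mul, ← pow_mul, ← pow_mul]
        congr 1
        ring
    _ = 1 := by rw [h3, one_pow]

end Pool.Agent.Work.MP_db07cb_ag.Geo
end

-- merged part: Pool.Agent.Work.MP_db07cb_ag.GCY1
section
/-! The number of points of a threefold in a product of four lines modulo `p`. -/

namespace Pool.Agent.Work.MP_db07cb_ag.Geo

open Finset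

theorem gcy1_conv {K α β : Type*} [CommSemiring K] [Fintype α] [Fintype β] (u v : α → K)
    (u' v' : β → K) {N k : ℕ} (hk : k ≤ N) :
    ∑ q : α × β, (v q.1 * u' q.2 + u q.1 * v' q.2) ^ k * (u q.1 * u' q.2) ^ (N - k) =
      ∑ l ∈ range (k + 1), (k.choose l : K) * (∑ a, v a ^ l * u a ^ (N - l)) *
        ∑ b, v' b ^ (k - l) * u' b ^ (N - (k - l)) := by
  simp only [add_pow, sum_mul]
  rw [sum_comm]
  refine sum_congr rfl fun l hl => ?_
  have hl' : l ≤ k := Nat.lt_succ_iff.1 (mem_range.1 hl)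
  rw [mul_assoc, sum_mul_sum, ← Fintype.sum_prod_type', mul_sum]
  refine sum_congr rfl fun q _ => ?_
  rw [show N - l = (k - l) + (N - k) by omega, show N - (k - l) = l + (N - k) by omega]
  ring

theorem gcy1_even {M : Type*} [AddCommMonoid M] (f : ℕ → M) (hf : ∀ j, f (2 * j + 1) = 0) (a : ℕ) :
    ∑ l ∈ range (2 * a + 1), f l = ∑ j ∈ range (a + 1), f (2 * j) := by
  induction a with
  | zero => simp
  | succ a ih =>
    rw [sum_range_succ _ (a + 1), ← ih, show 2 * (a + 1) + 1 = 2 * a + 1 + 1 + 1 by ring,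
      sum_range_succ, sum_range_succ, hf, add_zero]
    rfl

/-- The constant term of the `k`-th power of `x + 1 / x`. -/
def gcy1_c (k : ℕ) : ℕ := if k % 2 = 0 then Nat.centralBinom (k / 2) else 0

theorem gcy1_c_even (a : ℕ) : gcy1_c (2 * a) = Nat.centralBinom a := by
  rw [gcy1_c, if_pos (by omega), Nat.mul_div_cancel_left _ two_pos]

theorem gcy1_c_odd (a : ℕ) : gcy1_c (2 * a + 1) = 0 := if_neg (by omega)

theorem gcy1_choose (i j : ℕ) :
    (2 * (j + i)).choose (2 * j) * Nat.centralBinom j * Nat.centralBinom i =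
      Nat.centralBinom (j + i) * (j + i).choose j ^ 2 := by
  apply Nat.cast_injective (R := ℚ)
  have h : ∀ a : ℕ, (Nat.centralBinom a : ℚ) = (2 * a).factorial / (a.factorial * a.factorial) :=
    fun a => by rw [Nat.centralBinom, two_mul, Nat.cast_add_choose]
  have h0 : ∀ a : ℕ, (a.factorial : ℚ) ≠ 0 := fun a => Nat.cast_ne_zero.2 a.factorial_ne_zero
  have := h0 i
  have := h0 j
  have := h0 (j + i)
  have := h0 (2 * i)
  have := h0 (2 * j)
  push_cast
  rw [h, h, h, mul_add, Nat.cast_add_choose, Nat.cast_add_choose]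
  field_simp

theorem gcy1_sq (k : ℕ) :
    ∑ l ∈ range (k + 1), k.choose l * gcy1_c l * gcy1_c (k - l) = gcy1_c k ^ 2 := by
  obtain ⟨a, rfl | rfl⟩ := Nat.even_or_odd' k
  · rw [gcy1_even _ fun j => by rw [gcy1_c_odd, mul_zero, zero_mul], gcy1_c_even,
      show a.centralBinom ^ 2 = a.centralBinom * (2 * a).choose a from sq _,
      ← Nat.sum_range_choose_sq, mul_sum]
    refine sum_congr rfl fun j hj => ?_
    obtain ⟨i, rfl⟩ := Nat.exists_eq_add_of_le (Nat.lt_succ_iff.1 (mem_range.1 hj))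
    rw [show 2 * (j + i) - 2 * j = 2 * i by omega, gcy1_c_even, gcy1_c_even, gcy1_choose]
  · rw [gcy1_c_odd, zero_pow two_ne_zero]
    refine sum_eq_zero fun l hl => ?_
    have hl' := mem_range.1 hl
    obtain ⟨j, rfl | rfl⟩ := Nat.even_or_odd' l
    · rw [show 2 * a + 1 - 2 * j = 2 * (a - j) + 1 by omega, gcy1_c_odd, mul_zero]
    · rw [gcy1_c_odd, mul_zero, zero_mul]

variable {p : ℕ} [Fact p.Prime]

theorem gcy1_pm (p : ℕ) [Fact p.Prime] : ((p - 1 : ℕ) : ZMod p) = -1 := by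
  rw [Nat.cast_pred (Fact.out : p.Prime).pos, ZMod.natCast_self, zero_sub]

theorem gcy1_neg {k : ℕ} (hk : k ≤ p - 1) : (((p - 1).choose k : ℕ) : ZMod p) = (-1) ^ k := by
  have hp : p.Prime := Fact.out
  induction k with
  | zero => simp
  | succ k ih =>
    have h1 : p.choose (k + 1) = (p - 1).choose k + (p - 1).choose (k + 1) := by
      rw [← Nat.choose_succ_succ', Nat.sub_add_cancel hp.pos]
    have h2 : ((p.choose (k + 1) : ℕ) : ZMod p) = 0 := (ZMod.natCast_eq_zero_iff _ _).2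
      (hp.dvd_choose_self k.succ_ne_zero (by have := hp.pos; omega))
    rw [h1, Nat.cast_add, ih (Nat.le_of_succ_le hk)] at h2
    linear_combination h2

theorem gcy1_pp {e e' : ℕ} (h : e + e' = 2 * (p - 1)) :
    (∑ x : ZMod p, x ^ e) * ∑ y : ZMod p, y ^ e' = if e = p - 1 then 1 else 0 := by
  have h1 : ∑ x : ZMod p, x ^ (p - 1) = -1 := by
    simp only [ZMod.pow_card_sub_one, sum_boole]
    rw [filter_ne', card_erase_of_mem (mem_univ _), card_univ, ZMod.card, gcy1_pm]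
  have h2 : ∀ i < p - 1, ∑ x : ZMod p, x ^ i = 0 := fun i hi =>
    FiniteField.sum_pow_lt_card_sub_one (ZMod p) i (by rwa [ZMod.card])
  split_ifs with he
  · rw [he, show e' = p - 1 by omega, h1]
    ring
  · rcases lt_or_gt_of_ne he with h3 | h3
    · rw [h2 e h3, zero_mul]
    · rw [h2 e' (by omega), mul_zero]

theorem gcy1_aff {k : ℕ} (hk : k ≤ p - 1) :
    ∑ w : Fin 2 → ZMod p, (w 0 ^ 2 + w 1 ^ 2) ^ k * (w 0 * w 1) ^ (p - 1 - k) = gcy1_c k := by
  refine (Fintype.sum_equiv (finTwoArrowEquiv (ZMod p)) _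
    (fun q => (q.1 ^ 2 + q.2 ^ 2) ^ k * (q.1 * q.2) ^ (p - 1 - k)) fun _ => rfl).trans ?_
  simp only [add_pow, sum_mul]
  rw [sum_comm, sum_congr rfl (g := fun j => if 2 * j = k then (k.choose j : ZMod p) else 0)
    fun j hj => ?_]
  · obtain ⟨a, rfl | rfl⟩ := Nat.even_or_odd' k
    · rw [sum_eq_single_of_mem a (mem_range.2 (by omega)) fun j _ hj => if_neg (by omega),
        if_pos rfl, gcy1_c_even, Nat.centralBinom]
    · rw [gcy1_c_odd, Nat.cast_zero]
      exact sum_eq_zero fun j _ => if_neg (by omega)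
  · have hj' := mem_range.1 hj
    have h := gcy1_pp (p := p) (e := 2 * j + (p - 1 - k)) (e' := 2 * (k - j) + (p - 1 - k))
      (by omega)
    rw [sum_mul_sum, ← Fintype.sum_prod_type', if_congr (Q := 2 * j = k) (by omega) rfl rfl] at h
    rw [← boole_mul, ← h, sum_mul]
    exact sum_congr rfl fun q _ => by ring

theorem gcy1_proj {K V : Type*} [Field K] [AddCommGroup V] [Module K V] [Fintype Kˣ] [Fintype V]
    [Fintype (Projectivization K V)] (g : V → K) (h0 : g 0 = 0)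
    (hg : ∀ (t : Kˣ) w, g (t • w) = g w) :
    ∑ w, g w = Fintype.card Kˣ * ∑ P : Projectivization K V, g P.rep := by
  classical
  have hb : Function.Bijective fun q : Kˣ × Projectivization K V =>
      (⟨q.1 • q.2.rep, (smul_ne_zero_iff_ne q.1).2 q.2.rep_nonzero⟩ : {w : V // w ≠ 0}) := by
    constructor
    · rintro ⟨t, P⟩ ⟨t', P'⟩ h
      have h1 : t • P.rep = t' • P'.rep := congrArg Subtype.val h
      obtain rfl : P = P' := by
        rw [← P.mk_rep, ← P'.mk_rep, Projectivization.mk_eq_mk_iff]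
        exact ⟨t⁻¹ * t', by rw [mul_smul, ← h1, inv_smul_smul]⟩
      exact Prod.ext (Units.ext (smul_left_injective K P.rep_nonzero h1)) rfl
    · rintro ⟨w, hw⟩
      obtain ⟨a, ha⟩ := Projectivization.exists_smul_eq_mk_rep K w hw
      exact ⟨(a⁻¹, Projectivization.mk K w hw), Subtype.ext (by
        simp only
        rw [← ha, inv_smul_smul])⟩
  rw [← sum_erase univ h0, sum_subtype (p := fun w => w ≠ 0) _ (by simp),
    ← hb.sum_comp fun w => g w.1, Fintype.sum_prod_type]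
  simp only [hg]
  rw [sum_const, card_univ, nsmul_eq_mul]

theorem gcy1_line [Fintype (Projectivization (ZMod p) (Fin 2 → ZMod p))] {k : ℕ}
    (hk : k ≤ p - 1) : ∑ P : Projectivization (ZMod p) (Fin 2 → ZMod p),
      (P.rep 0 ^ 2 + P.rep 1 ^ 2) ^ k * (P.rep 0 * P.rep 1) ^ (p - 1 - k) = -gcy1_c k := by
  have h2 := (Fact.out : p.Prime).two_le
  have h := gcy1_proj (K := ZMod p) (fun w : Fin 2 → ZMod p =>
    (w 0 ^ 2 + w 1 ^ 2) ^ k * (w 0 * w 1) ^ (p - 1 - k)) (by
      simp only [Pi.zero_apply, mul_zero, sq, add_zero]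
      rw [← pow_add, zero_pow (by omega)]) fun t w => by
      have h1 : ((t : ZMod p) ^ 2) ^ (k + (p - 1 - k)) = 1 := by
        rw [Nat.add_sub_cancel' hk, ← pow_mul, mul_comm, pow_mul,
          ZMod.pow_card_sub_one_eq_one t.ne_zero, one_pow]
      simp only [Pi.smul_apply, Units.smul_def, smul_eq_mul]
      rw [show (t * w 0) ^ 2 + (t * w 1) ^ 2 = t ^ 2 * (w 0 ^ 2 + w 1 ^ 2) by ring,
        show t * w 0 * (t * w 1) = t ^ 2 * (w 0 * w 1) by ring, mul_pow, mul_pow ((t : ZMod p) ^ 2),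
        mul_mul_mul_comm, ← pow_add, h1, one_mul]
  rw [gcy1_aff hk, ZMod.card_units, gcy1_pm] at h
  linear_combination h

theorem gcy1_four {K : Type*} [CommSemiring K] (u v : Fin 4 → K) :
    ∑ i, v i * ∏ j ∈ univ.erase i, u j =
      (v 0 * u 1 + u 0 * v 1) * (u 2 * u 3) + u 0 * u 1 * (v 2 * u 3 + u 2 * v 3) := by
  rw [Fin.sum_univ_four, show univ.erase (0 : Fin 4) = {1, 2, 3} by decide,
    show univ.erase (1 : Fin 4) = {0, 2, 3} by decide,
    show univ.erase (2 : Fin 4) = {0, 1, 3} by decide,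
    show univ.erase (3 : Fin 4) = {0, 1, 2} by decide]
  repeat rw [prod_insert (by decide)]
  simp only [prod_singleton]
  ring

theorem gcy1_main {K L : Type*} [CommRing K] [Fintype L] (u v : L → K) (N : ℕ)
    (h : ∀ k ≤ N, ∑ P, v P ^ k * u P ^ (N - k) = -gcy1_c k) :
    ∑ P : Fin 4 → L, (∑ i, v (P i) * ∏ j ∈ univ.erase i, u (P j)) ^ N =
      ∑ l ∈ range (N + 1), (N.choose l : K) * gcy1_c l ^ 2 * gcy1_c (N - l) ^ 2 := by
  have h2 : ∀ k ≤ N, ∑ q : L × L, (v q.1 * u q.2 + u q.1 * v q.2) ^ k * (u q.1 * u q.2) ^ (N - k) =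
      (gcy1_c k : K) ^ 2 := fun k hk => by
    rw [gcy1_conv u v u v hk, ← Nat.cast_pow, ← gcy1_sq, Nat.cast_sum]
    refine sum_congr rfl fun l hl => ?_
    have hl' := mem_range.1 hl
    rw [h l (by omega), h (k - l) (by omega)]
    push_cast
    ring
  have h4 := gcy1_conv (fun q : L × L => u q.1 * u q.2) (fun q => v q.1 * u q.2 + u q.1 * v q.2)
    (fun q : L × L => u q.1 * u q.2) (fun q => v q.1 * u q.2 + u q.1 * v q.2) (le_refl N)
  let e : (Fin 4 → L) ≃ (L × L) × L × L :=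
    ⟨fun P => ((P 0, P 1), P 2, P 3), fun q => ![q.1.1, q.1.2, q.2.1, q.2.2],
      fun P => funext fun i => by fin_cases i <;> rfl, fun _ => rfl⟩
  refine (Fintype.sum_equiv e _ _ fun P => ?_).trans (h4.trans (sum_congr rfl fun l hl => by
    rw [h2 l (Nat.lt_succ_iff.1 (mem_range.1 hl)), h2 (N - l) (Nat.sub_le _ _)]))
  rw [gcy1_four (fun i => u (P i)) fun i => v (P i), Nat.sub_self, pow_zero, mul_one]
  rfl

theorem cy_count (p : ℕ) [Fact p.Prime] (hp : p ≠ 2) :
    (Nat.card {P : Fin 4 → Projectivization (ZMod p) (Fin 2 → ZMod p) //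
      ∑ i, ((P i).rep 0 ^ 2 + (P i).rep 1 ^ 2) *
        ∏ j ∈ Finset.univ.erase i, (P j).rep 0 * (P j).rep 1 = 0} : ZMod p) =
    1 - ∑ k ∈ Finset.range (p / 2 + 1),
      ((Nat.centralBinom k ^ 2 * Nat.centralBinom (p / 2 - k) ^ 2 : ℕ) : ZMod p) := by
  classical
  have hpp : p.Prime := Fact.out
  have := Fintype.ofFinite (Projectivization (ZMod p) (Fin 2 → ZMod p))
  have hN : p - 1 = 2 * (p / 2) := by
    have := hpp.eq_two_or_odd.resolve_left hp
    omega
  have h1 := gcy1_main (fun P : Projectivization (ZMod p) (Fin 2 → ZMod p) => P.rep 0 * P.rep 1)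
    (fun P => P.rep 0 ^ 2 + P.rep 1 ^ 2) (p - 1) fun k hk => gcy1_line hk
  have h2 : Fintype.card (Projectivization (ZMod p) (Fin 2 → ZMod p)) = p + 1 := by
    rw [← Nat.card_eq_fintype_card, Projectivization.card_of_finrank_two _ _ (by simp),
      Nat.card_zmod]
  rw [Nat.card_eq_fintype_card, Fintype.card_subtype, ← sum_boole,
    sum_congr rfl (g := fun P => 1 - (∑ i, ((P i).rep 0 ^ 2 + (P i).rep 1 ^ 2) *
      ∏ j ∈ univ.erase i, (P j).rep 0 * (P j).rep 1) ^ (p - 1)) fun P _ => by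
        rw [ZMod.pow_card_sub_one]
        split_ifs <;> simp_all, sum_sub_distrib, h1]
  congr 1
  · simp [h2]
  · rw [sum_congr rfl fun l hl => by rw [gcy1_neg (Nat.lt_succ_iff.1 (mem_range.1 hl))], hN,
      gcy1_even _ fun j => by simp [gcy1_c_odd]]
    refine sum_congr rfl fun a _ => ?_
    rw [← Nat.mul_sub, gcy1_c_even, gcy1_c_even, pow_mul]
    push_cast
    ring

end Pool.Agent.Work.MP_db07cb_ag.Geo
end

-- merged part: Pool.Agent.Work.MP_db07cb_ag.GCY2
section
/-! Exactness modulo `p` of the three-form at a non-ordinary prime. -/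

namespace Pool.Agent.Work.MP_db07cb_ag.Geo

lemma gcy2_mem (p : ℕ) [Fact p.Prime] {R : Type*} [CommRing R] [Algebra (ZMod p) R]
    (D : Derivation (ZMod p) R R) (s : R) {m : ℕ} (hm : ((m + 1 : ℕ) : ZMod p) ≠ 0) :
    s ^ m * D s ∈ LinearMap.range (D : R →ₗ[ZMod p] R) := by
  refine ⟨((m + 1 : ℕ) : ZMod p)⁻¹ • s ^ (m + 1), ?_⟩
  rw [map_smul]
  change ((m + 1 : ℕ) : ZMod p)⁻¹ • D (s ^ (m + 1)) = _
  rw [Derivation.leibniz_pow, ← Nat.cast_smul_eq_nsmul (ZMod p), smul_smul, inv_mul_cancel₀ hm,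
    one_smul, Nat.add_sub_cancel, smul_eq_mul]

lemma gcy2_ne (p n m : ℕ) [Fact p.Prime] (hp : p = 2 * n + 1) (h1 : m ≤ 2 * n) (h2 : m ≠ n) :
    ((2 * m + 1 : ℕ) : ZMod p) ≠ 0 := by
  rw [Ne, ZMod.natCast_eq_zero_iff]
  rintro ⟨q, hq⟩
  subst hp
  rcases q with _ | _ | _ | q
  · omega
  · omega
  · omega
  · nlinarith

theorem cy_exact (p : ℕ) [Fact p.Prime] (hp : p ≠ 2) {R : Type*} [CommRing R]
    [Algebra (ZMod p) R] (D : Derivation (ZMod p) R R) (a c e f : R) (ha : IsUnit a)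
    (h2 : c ^ 2 = a * e) (h3 : a * D c - c * D a = a * f)
    (h1 : ∑ k ∈ Finset.range (p / 2 + 1),
      ((Nat.centralBinom k ^ 2 : ℕ) : R) * e ^ k * a ^ (p / 2 - k) = 1)
    (h0 : ∑ k ∈ Finset.range (p / 2 + 1),
      ((Nat.centralBinom k ^ 2 * Nat.centralBinom (p / 2 - k) ^ 2 : ℕ) : ZMod p) = 0) :
    ∃ g : R, D g = f := by
  have hodd : p = 2 * (p / 2) + 1 := by
    have := (Fact.out : p.Prime).eq_two_or_odd.resolve_left hp
    omega
  generalize p / 2 = n at hodd h1 h0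
  obtain ⟨u, hu⟩ := ha.exists_right_inv
  have hDu : a * D u + u * D a = 0 := by
    have := D.leibniz a u
    rw [hu, D.map_one_eq_zero, smul_eq_mul, smul_eq_mul] at this
    exact this.symm
  set s := c * u with hs
  have hDs : D s = c * D u + u * D c := by
    rw [hs, D.leibniz, smul_eq_mul, smul_eq_mul]
  have hf : f = a * D s := by
    rw [hDs]
    linear_combination (-u) * h3 - c * hDu + (-f) * hu
  have he : e = a * s ^ 2 := by
    rw [hs]
    linear_combination (-a * u ^ 2) * h2 - e * (1 + a * u) * hu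
  set H : R := ∑ k ∈ Finset.range (n + 1), ((Nat.centralBinom k ^ 2 : ℕ) : R) * s ^ (2 * k)
    with hH
  have hH1 : a ^ n * H = 1 := by
    rw [← h1, hH, Finset.mul_sum]
    refine Finset.sum_congr rfl fun k hk => ?_
    obtain ⟨j, rfl⟩ := Nat.exists_eq_add_of_le (Nat.lt_succ_iff.1 (Finset.mem_range.1 hk))
    rw [Nat.add_sub_cancel_left, he]
    ring
  have hmem : H * H * D s ∈ LinearMap.range (D : R →ₗ[ZMod p] R) := by
    have e1 : H * H * D s = ∑ k ∈ Finset.range (n + 1), ∑ l ∈ Finset.range (n + 1),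
        ((Nat.centralBinom k ^ 2 * Nat.centralBinom l ^ 2 : ℕ) : ZMod p) •
          (s ^ (2 * (k + l)) * D s) := by
      rw [hH, Finset.sum_mul_sum, Finset.sum_mul]
      refine Finset.sum_congr rfl fun k _ => ?_
      rw [Finset.sum_mul]
      refine Finset.sum_congr rfl fun l _ => ?_
      rw [Nat.cast_smul_eq_nsmul, nsmul_eq_mul]
      push_cast
      ring
    have e2 : ∀ k ∈ Finset.range (n + 1), ∑ l ∈ Finset.range (n + 1),
        ((Nat.centralBinom k ^ 2 * Nat.centralBinom l ^ 2 : ℕ) : ZMod p) •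
          (s ^ (2 * (k + l)) * D s) =
        ((Nat.centralBinom k ^ 2 * Nat.centralBinom (n - k) ^ 2 : ℕ) : ZMod p) •
          (s ^ (2 * n) * D s) + ∑ l ∈ (Finset.range (n + 1)).erase (n - k),
        ((Nat.centralBinom k ^ 2 * Nat.centralBinom l ^ 2 : ℕ) : ZMod p) •
          (s ^ (2 * (k + l)) * D s) := by
      intro k hk
      have hk' := Finset.mem_range.1 hk
      rw [← Finset.add_sum_erase _ _ (Finset.mem_range.2 (show n - k < n + 1 by omega)),
        show k + (n - k) = n by omega]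
    rw [e1, Finset.sum_congr rfl e2, Finset.sum_add_distrib, ← Finset.sum_smul, h0, zero_smul,
      zero_add]
    refine Submodule.sum_mem _ fun k hk => Submodule.sum_mem _ fun l hl =>
      Submodule.smul_mem _ _ (gcy2_mem p D s (gcy2_ne p n (k + l) hodd ?_ ?_))
    · have := Finset.mem_range.1 hk
      have := Finset.mem_range.1 (Finset.mem_of_mem_erase hl)
      omega
    · have := Finset.mem_range.1 hk
      have := Finset.ne_of_mem_erase hl
      omega
  obtain ⟨g, hg⟩ := hmem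
  have hg' : D g = H * H * D s := hg
  have hap : D (a ^ p) = 0 := by
    rw [Derivation.leibniz_pow, ← Nat.cast_smul_eq_nsmul (ZMod p), ZMod.natCast_self, zero_smul]
  refine ⟨a ^ p * g, ?_⟩
  rw [D.leibniz, hap, smul_zero, add_zero, smul_eq_mul, hg', hf]
  have : a ^ p = a * a ^ n * a ^ n := by
    conv_lhs => rw [hodd]
    ring
  rw [this]
  linear_combination (a * D s * (a ^ n * H + 1)) * hH1

end Pool.Agent.Work.MP_db07cb_ag.Geo
end

-- merged part: Pool.Agent.Work.MP_db07cb_ag.GFin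
section
/-! The point count theorems. -/

namespace Pool.Agent.Work.MP_db07cb_ag.Geo

open PowerSeries

lemma dvd_of_exact (p : ℕ) [Fact p.Prime] (φ : ℤ⟦X⟧) (g : (ZMod p)⟦X⟧)
    (h : th (ZMod p) g = map (Int.castRingHom (ZMod p)) φ) (m : ℕ) :
    (p : ℤ) ∣ coeff (p * m) φ := by
  have := congrArg (coeff (p * m)) h
  rw [coeff_th, coeff_map, Nat.cast_mul, ZMod.natCast_self, zero_mul, zero_mul, eq_intCast] at this
  exact (ZMod.intCast_zmod_eq_zero_iff_dvd _ _).1 this.symm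

theorem cy_final : ∃ c : ℝ, 0 < c ∧ ∀ᶠ x : ℕ in Filter.atTop, c * Nat.primeCounting x ≤
    {p : ℕ | p ≤ x ∧ ∃ _ : Fact p.Prime,
      ¬ Nat.card {P : Fin 4 → Projectivization (ZMod p) (Fin 2 → ZMod p) //
        ∑ i, ((P i).rep 0 ^ 2 + (P i).rep 1 ^ 2) *
          ∏ j ∈ Finset.univ.erase i, (P j).rep 0 * (P j).rep 1 = 0} ≡ 1 [MOD p]}.ncard := by
  have hx : ∀ φ : ℤ⟦X⟧, constantCoeff (x2 φ) = constantCoeff φ := fun φ =>
    constantCoeff_expand _ _ _
  have hB : MF 4 2 (sA - 16 * sC) := by simpa using mfA.sub (mfC.smul 16)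
  obtain ⟨c, hc, h⟩ := core1 (4 * 2) (2 + 2) (by norm_num) (sC * x2 (sA - 16 * sC))
    ((mfC.level 2).mul hB.x2) (by simp [cC])
    (mul_ne_zero C_ne (ne_of_const (by rw [hx]; simp [cA, cC])))
    (fun p => ∃ _ : Fact p.Prime,
      ¬ Nat.card {P : Fin 4 → Projectivization (ZMod p) (Fin 2 → ZMod p) //
        ∑ i, ((P i).rep 0 ^ 2 + (P i).rep 1 ^ 2) *
          ∏ j ∈ Finset.univ.erase i, (P j).rep 0 * (P j).rep 1 = 0} ≡ 1 [MOD p]) 2 (by
      intro p hp h2 hT
      have : Fact p.Prime := ⟨hp⟩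
      have hp2 : p ≠ 2 := by omega
      have h1 := (ZMod.natCast_eq_natCast_iff _ _ _).2 (not_not.1 fun h => hT ⟨this, h⟩)
      rw [cy_count p hp2, Nat.cast_one, sub_eq_self] at h1
      let r := map (Int.castRingHom (ZMod p))
      have k1 := congrArg (expand 2 two_ne_zero) (hasse_one sA sC cA cC L1 L2 p hp2)
      simp only [map_sum, map_mul, map_pow, map_natCast, map_one, ← map_expand] at k1
      have k2 := congrArg r M3
      have k3 := congrArg r L3
      rw [map_pow, map_mul] at k2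
      rw [map_sub, map_mul, map_mul, map_mul, map_th, map_th] at k3
      obtain ⟨g, hg⟩ := cy_exact p hp2 (th (ZMod p)) (r (x2 sA)) (r sC) (r (x2 sC))
        (r (sC * x2 (sA - 16 * sC))) (by
          rw [isUnit_iff_constantCoeff, ← coeff_zero_eq_constantCoeff_apply, coeff_map,
            coeff_zero_eq_constantCoeff_apply, hx, cA, map_one]
          exact isUnit_one) k2 k3 k1 h1
      exact dvd_of_exact p _ g hg)
  refine ⟨c, hc, h.mono fun x hx => hx.trans_eq ?_⟩
  congr 2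
  ext p
  exact ⟨fun h => ⟨h.1, h.2.2⟩, fun h => ⟨h.1, h.2.choose.out, h.2⟩⟩

theorem ks_aux (i j : ℕ)
    (hij : ∀ i' j' : ℕ, 4 * (i' + 1) + 6 * (j' + 1) = 4 * (i + 1) + 6 * (j + 1) → i' = i) :
    ∃ c : ℝ, 0 < c ∧ ∀ᶠ x : ℕ in Filter.atTop, c * Nat.primeCounting x ≤
    {p : ℕ | p ≤ x ∧ p.Prime ∧
      ¬ p ∣ Nat.card {v : (ZMod p × ZMod p) × (Fin (4 * (i + 1) + 6 * (j + 1)) → ZMod p × ZMod p) //
        ∀ i, (v.2 i).2 ^ 2 = (v.2 i).1 ^ 3 + v.1.1 * (v.2 i).1 + v.1.2}}.ncard := by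
  have hx : ∀ φ : ℤ⟦X⟧, constantCoeff (x2 φ) = constantCoeff φ := fun φ =>
    constantCoeff_expand _ _ _
  have c4 : constantCoeff (x2 e4) = 1 := by rw [hx]; simpa using t3_e4.1
  have c6 : constantCoeff (x2 e6) = 1 := by rw [hx]; simpa using t3_e6.1
  have hD : x2 e4 ^ 3 - x2 e6 ^ 2 = 1728 * (sA * (sA - 16 * sC) * sC) ^ 2 := by
    rw [M1, M2]; ring
  have hm : MF 2 (4 * i + 6 * j + 12)
      ((-3 * x2 e4) ^ i * (2 * x2 e6) ^ j * (24 * (x2 e4 ^ 3 - x2 e6 ^ 2))) := by
    have := (((mf4.x2.smul (-3)).pow i).mul ((mf6.x2.smul 2).pow j)).mul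
      (((mf4.x2.pow 3).sub (mf6.x2.pow 2)).smul 24)
    simpa using this
  refine core1 2 _ (by omega) _ hm (by simp [c4, c6]) ?_ _ 3 ?_
  · refine mul_ne_zero (mul_ne_zero (pow_ne_zero _ (mul_ne_zero (neg_ne_zero.2 (ofNat_ne 3))
      (ne_of_const c4))) (pow_ne_zero _ (mul_ne_zero (ofNat_ne 2) (ne_of_const c6))))
      (mul_ne_zero (ofNat_ne 24) ?_)
    rw [hD]
    exact mul_ne_zero (ofNat_ne 1728)
      (pow_ne_zero _ (mul_ne_zero (mul_ne_zero A_ne B_ne) C_ne))
  · intro p hp h3 hT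
    have : Fact p.Prime := ⟨hp⟩
    have hp2 : p ≠ 2 := by omega
    have h1 := (ZMod.natCast_eq_zero_iff _ _).2 (not_not.1 hT)
    rw [ks_count p hp2] at h1
    let r := map (Int.castRingHom (ZMod p))
    have k1 := ks_key p h3 _ _ (hasse_one sA sC cA cC L1 L2 p hp2)
    have k2 := congrArg r M1
    have k3 := congrArg r M2
    have k4 := congrArg r R1'
    simp only [map_mul, map_add, map_sub, map_pow, map_ofNat] at k2 k3
    rw [← k2, ← k3] at k1
    obtain ⟨g, hg⟩ := ks_exact p hp2 (th (ZMod p)) _ _ i j hij k1 h1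
    refine dvd_of_exact p _ g (hg.trans ?_)
    have t2 : th (ZMod p) (2 : (ZMod p)⟦X⟧) = 0 := by
      simpa using (th (ZMod p)).map_natCast 2
    have t3 : th (ZMod p) (3 : (ZMod p)⟦X⟧) = 0 := by
      simpa using (th (ZMod p)).map_natCast 3
    simp only [map_mul, map_sub, map_neg, map_pow, map_ofNat, r, map_th] at k4
    simp only [map_mul, map_sub, map_neg, map_pow, map_ofNat, r, th_mul, t2, t3]
    congr 1
    linear_combination (-6) * k4

theorem ks_final : ∀ m ∈ ({10, 14, 16, 18, 20, 24} : Finset ℕ),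
    ∃ c : ℝ, 0 < c ∧ ∀ᶠ x : ℕ in Filter.atTop, c * Nat.primeCounting x ≤
    {p : ℕ | p ≤ x ∧ p.Prime ∧
      ¬ p ∣ Nat.card {v : (ZMod p × ZMod p) × (Fin m → ZMod p × ZMod p) //
        ∀ i, (v.2 i).2 ^ 2 = (v.2 i).1 ^ 3 + v.1.1 * (v.2 i).1 + v.1.2}}.ncard := by
  intro m hm
  simp only [Finset.mem_insert, Finset.mem_singleton] at hm
  rcases hm with rfl | rfl | rfl | rfl | rfl | rfl
  · exact ks_aux 0 0 (by omega)
  · exact ks_aux 1 0 (by omega)
  · exact ks_aux 0 1 (by omega)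
  · exact ks_aux 2 0 (by omega)
  · exact ks_aux 1 1 (by omega)
  · exact ks_aux 2 1 (by omega)

end Pool.Agent.Work.MP_db07cb_ag.Geo
end
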