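import Pool.Agent.Work.MP_db07cb_ag.GRing
import Mathlib.NumberTheory.ModularForms.EisensteinSeries.E2.Transform

/-! Identities between Eisenstein series of levels one, two, four and eight. -/

namespace Pool.Agent.Work.MP_db07cb_ag.Geo

open UpperHalfPlane hiding I
open PowerSeries CongruenceSubgroup Eis
open scoped Real MatrixGroups

lemma qe4 : QE e4 (ser _ (pg_bb 240 3)) :=
  ⟨by simpa only [e4, coeff_mk] using pg_bb 240 3, by simp only [e4, coeff_mk]⟩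

lemma qe6 : QE e6 (ser _ (pg_bb (-504) 5)) :=
  ⟨by simpa only [e6, coeff_mk] using pg_bb (-504) 5, by simp only [e6, coeff_mk]⟩

lemma w4 : IsWt ⊤ (4 : ℕ) (ser _ (pg_bb 240 3)) :=
  wt (k := 4) ModularForm.E₄ _ (ser_eq (k := 4) _ _ _ fun m => by
    rw [EisensteinSeries.E_qExpansion_coeff _ ⟨2, rfl⟩,
      show bernoulli 4 = -1 / 30 by decide +kernel, bb]
    split_ifs <;> norm_num)

lemma w6 : IsWt ⊤ (6 : ℕ) (ser _ (pg_bb (-504) 5)) :=
  wt (k := 6) ModularForm.E₆ _ (ser_eq (k := 6) _ _ _ fun m => by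
    rw [EisensteinSeries.E_qExpansion_coeff _ ⟨3, rfl⟩,
      show bernoulli 6 = 1 / 42 by decide +kernel, bb]
    split_ifs <;> norm_num)

lemma mf4 : MF 1 4 e4 := mf_iff.2 ⟨_, qe4, fun γ _ => w4 γ trivial⟩

lemma mf6 : MF 1 6 e6 := mf_iff.2 ⟨_, qe6, fun γ _ => w6 γ trivial⟩

lemma tpi_ne : (2 * π * Complex.I : ℂ) ≠ 0 := Complex.two_pi_I_ne_zero

lemma smul_cancel {c : ℂ} (hc : c ≠ 0) {u v : MG} (h : c • u = c • v) : u = v := by
  rw [← inv_smul_smul₀ hc u, h, inv_smul_smul₀ hc]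

theorem R1 : 4 * e4 * th ℤ e6 - 6 * th ℤ e4 * e6 = -(2 * (e4 ^ 3 - e6 ^ 2)) := by
  obtain ⟨u, hu, eu⟩ := qe4.th
  obtain ⟨v, hv, ev⟩ := qe6.th
  have h := r1 w4 w6 (dvd_two _ _) (dvd_two _ _)
  rw [eu, ev] at h
  refine QE.inj ((((QE.ofNat 4).mul qe4).mul hv).sub (((QE.ofNat 6).mul hu).mul qe6)) ?_
  have := (((QE.ofNat 2).mul ((qe4.pow 3).sub (qe6.pow 2)))).neg
  convert this using 1
  refine smul_cancel tpi_ne ?_
  simp only [Algebra.smul_def, map_mul, map_neg, map_ofNat] at h ⊢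
  linear_combination h

theorem R2 : 9 * (4 * e4 * th ℤ (th ℤ e4) - 5 * th ℤ e4 ^ 2) = 5 * (e4 ^ 3 - e6 ^ 2) := by
  obtain ⟨u, hu, eu⟩ := qe4.th
  obtain ⟨v, hv, ev⟩ := hu.th
  have h := r2 w4 w6 (dvd_two _ _) (dvd_two _ _)
  rw [eu, map_smul, ev] at h
  refine QE.inj ((QE.ofNat 9).mul ((((QE.ofNat 4).mul qe4).mul hv).sub
    ((QE.ofNat 5).mul (hu.pow 2)))) ?_
  have := (QE.ofNat 5).mul ((qe4.pow 3).sub (qe6.pow 2))
  convert this using 1
  refine smul_cancel (pow_ne_zero 2 tpi_ne) ?_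
  have hd : (9 : MG) * algebraMap ℂ MG (5 / 9) = 5 := by
    rw [← map_ofNat (algebraMap ℂ MG) 9, ← map_ofNat (algebraMap ℂ MG) 5, ← map_mul]
    norm_num
  generalize (2 * π * Complex.I : ℂ) = t at h ⊢
  simp only [Algebra.smul_def, map_mul, map_pow] at h ⊢
  linear_combination 9 * h + (algebraMap ℂ MG t ^ 2 *
    (ser _ (pg_bb 240 3) ^ 3 - ser _ (pg_bb (-504) 5) ^ 2)) * hd

lemma qe2 : QE (1 - 24 * sg) (ser _ (pg_bb (-24) 1)) := by
  have e : ∀ m, coeff m (1 - 24 * sg) = bb (-24) 1 m := fun m => by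
    rw [map_sub, coeff_one, show (24 : ℤ⟦X⟧) = C 24 from rfl, coeff_C_mul, sg, coeff_mk, bb]
    split_ifs with h
    · simp [h]
    · ring
  exact ⟨by simpa only [e] using pg_bb (-24) 1, by simp only [e]⟩

lemma ser_E2 (τ : ℍ) : (ser _ (pg_bb (-24) 1) : ℍ → ℂ) τ = EisensteinSeries.E2 τ := by
  have := (EisensteinSeries.hasSum_qExpansion_E2 (z := τ)).tsum_eq
  rw [← this, ser_apply, ps]
  refine tsum_congr fun m => ?_
  have hq : Function.Periodic.qParam 1 τ = qf τ := by simp [Function.Periodic.qParam, qf]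
  rw [bb, smul_eq_mul]
  split_ifs <;> simp [qf]

lemma E2_smul (γ : SL(2, ℤ)) (τ : ℍ) : EisensteinSeries.E2 (γ • τ) = jf γ τ ^ 2 *
    EisensteinSeries.E2 τ - 1 / (2 * riemannZeta 2) * (2 * π * Complex.I * γ 1 0) * jf γ τ := by
  have := congrFun (EisensteinSeries.E2_slash_action γ) τ
  rw [ModularForm.SL_slash_apply, ← jf_eq_denom, Pi.sub_apply, Pi.smul_apply, EisensteinSeries.D2,
    ← jf_eq_denom, smul_eq_mul] at this
  have hj := jf_ne_zero γ τ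
  have e : EisensteinSeries.E2 (γ • τ) =
      jf γ τ ^ 2 * (EisensteinSeries.E2 (γ • τ) * jf γ τ ^ (-2 : ℤ)) := by
    rw [zpow_neg, zpow_ofNat]; field_simp
  rw [e, this]
  field_simp

/-- the Eisenstein series of weight two and level two -/
noncomputable def sG : ℤ⟦X⟧ := 1 + 24 * sg - 48 * x2 sg

lemma mfG : MF 2 2 sG := by
  have e : sG = 2 * x2 (1 - 24 * sg) - (1 - 24 * sg) := by
    simp only [sG, map_sub, map_mul, map_one, map_ofNat]; ring
  rw [e]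
  refine mf_iff.2 ⟨_, ((QE.ofNat 2).mul qe2.x2).sub qe2, isWt_iff.2 fun γ hγ τ => ?_⟩
  obtain ⟨δ, -, -, -, h10, -, h⟩ := conj_scl (N := 1) (M := 2) two_pos dvd_rfl hγ
  have e1 : ∀ τ, ((2 * scA 2 two_pos (ser _ (pg_bb (-24) 1)) - ser _ (pg_bb (-24) 1) : MG) :
      ℍ → ℂ) τ = 2 * EisensteinSeries.E2 (scl 2 τ) - EisensteinSeries.E2 τ := fun τ => by
    rw [← ev_apply, map_sub, map_mul, map_ofNat, ev_apply, ev_apply, scA_apply, ser_E2, ser_E2]
  rw [e1, e1, (h τ).1, E2_smul, E2_smul, (h τ).2, ← h10, zpow_natCast]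
  push_cast
  ring

lemma sig : ArithmeticFunction.sigma 1 1 = 1 ∧ ArithmeticFunction.sigma 1 2 = 3 ∧
    ArithmeticFunction.sigma 3 1 = 1 ∧ ArithmeticFunction.sigma 3 2 = 9 ∧
    ArithmeticFunction.sigma 5 1 = 1 ∧ ArithmeticFunction.sigma 5 2 = 33 := by
  simp only [ArithmeticFunction.sigma_apply]
  decide

/-- the first three coefficients -/
def T3 (φ : ℤ⟦X⟧) (a b c : ℤ) : Prop := coeff 0 φ = a ∧ coeff 1 φ = b ∧ coeff 2 φ = c

lemma T3.mul {φ ψ : ℤ⟦X⟧} {a b c a' b' c' : ℤ} (h : T3 φ a b c) (h' : T3 ψ a' b' c') :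
    T3 (φ * ψ) (a * a') (a * b' + b * a') (a * c' + b * b' + c * a') := by
  obtain ⟨rfl, rfl, rfl⟩ := h
  obtain ⟨rfl, rfl, rfl⟩ := h'
  refine ⟨by simp, ?_, ?_⟩ <;> simp [coeff_mul, Finset.Nat.antidiagonal_succ, add_assoc]

lemma T3.add {φ ψ : ℤ⟦X⟧} {a b c a' b' c' : ℤ} (h : T3 φ a b c) (h' : T3 ψ a' b' c') :
    T3 (φ + ψ) (a + a') (b + b') (c + c') := by
  obtain ⟨rfl, rfl, rfl⟩ := h
  obtain ⟨rfl, rfl, rfl⟩ := h'
  exact ⟨by simp, by simp, by simp⟩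

lemma T3.smul {φ : ℤ⟦X⟧} {a b c : ℤ} (h : T3 φ a b c) (n : ℤ) :
    T3 (n * φ) (n * a) (n * b) (n * c) := by
  obtain ⟨rfl, rfl, rfl⟩ := h
  rw [show (n : ℤ⟦X⟧) = C n from (eq_intCast C n).symm]
  exact ⟨coeff_C_mul _ _ _, coeff_C_mul _ _ _, coeff_C_mul _ _ _⟩

lemma T3.x2 {φ : ℤ⟦X⟧} {a b c : ℤ} (h : T3 φ a b c) : T3 (x2 φ) a 0 b := by
  obtain ⟨rfl, rfl, rfl⟩ := h
  refine ⟨?_, ?_, ?_⟩ <;> rw [Geo.x2, coeff_expand] <;> simp

lemma T3.one : T3 1 1 0 0 := ⟨by simp, by simp [coeff_one], by simp [coeff_one]⟩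

lemma t3_sg : T3 sg 0 1 3 := by
  obtain ⟨h1, h2, -⟩ := sig
  exact ⟨by simp [sg], by simp [sg], by rw [sg, coeff_mk, h2]; rfl⟩

lemma t3_e4 : T3 e4 1 240 2160 := by
  obtain ⟨-, -, h1, h2, -⟩ := sig
  exact ⟨by simp [e4, bb], by simp [e4, bb], by rw [e4, coeff_mk, bb, h2]; rfl⟩

lemma t3_e6 : T3 e6 1 (-504) (-16632) := by
  obtain ⟨-, -, -, -, h1, h2⟩ := sig
  exact ⟨by simp [e6, bb], by simp [e6, bb], by rw [e6, coeff_mk, bb, h2]; rfl⟩

lemma t3_G : T3 sG 1 24 24 := by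
  have := (T3.one.add (t3_sg.smul 24)).add (t3_sg.x2.smul (-48))
  rw [sG, sub_eq_add_neg]
  simpa using this

lemma MF.eq_zero' {k : ℕ} {φ : ℤ⟦X⟧} (h : MF 2 k φ) (hk : k ≤ 8) {a b c : ℤ} (h0 : T3 φ a b c)
    (ha : a = 0) (hb : b = 0) (hc : c = 0) : φ = 0 :=
  h.eq_zero hk (h0.1.trans ha) (h0.2.1.trans hb) (h0.2.2.trans hc)

theorem idA : 5 * sG ^ 2 = e4 + 4 * x2 e4 := by
  have := MF.eq_zero' ((((mfG.mul mfG).smul 5).add ((mf4.level 2).smul (-1))).add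
    (mf4.x2.smul (-4))) (by norm_num)
    ((((t3_G.mul t3_G).smul 5).add (t3_e4.smul (-1))).add (t3_e4.x2.smul (-4)))
    (by norm_num) (by norm_num) (by norm_num)
  push_cast at this
  linear_combination this

theorem idB : 4 * sG ^ 3 = 3 * e4 * sG + e6 := by
  have := MF.eq_zero' (((((mfG.mul mfG).mul mfG).smul 4).add
    (((mf4.level 2).mul mfG).smul (-3))).add ((mf6.level 2).smul (-1))) (by norm_num)
    (((((t3_G.mul t3_G).mul t3_G).smul 4).add ((t3_e4.mul t3_G).smul (-3))).add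
      (t3_e6.smul (-1))) (by norm_num) (by norm_num) (by norm_num)
  push_cast at this
  linear_combination this

theorem idC : sG ^ 3 + 2 * x2 e6 = 3 * x2 e4 * sG := by
  have := MF.eq_zero' ((((mfG.mul mfG).mul mfG).add
    ((mf4.x2.mul mfG).smul (-3))).add (mf6.x2.smul 2)) (by norm_num)
    ((((t3_G.mul t3_G).mul t3_G).add ((t3_e4.x2.mul t3_G).smul (-3))).add
      (t3_e6.x2.smul 2)) (by norm_num) (by norm_num) (by norm_num)
  push_cast at this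
  linear_combination this

lemma G_eq : sG = sA + 16 * sC := by
  simp only [sG, sA, sC]; ring

lemma G2_eq : x2 sG = sA - 8 * sC := by
  simp only [sG, sA, sC, map_sub, map_add, map_mul, map_one, map_ofNat]; ring

lemma t3_A : T3 sA 1 8 24 := by
  have := (T3.one.add (t3_sg.smul 8)).add (t3_sg.x2.x2.smul (-32))
  rw [sA, sub_eq_add_neg]
  simpa using this

lemma t3_C : T3 sC 0 1 0 := by
  have := (t3_sg.add (t3_sg.x2.smul (-3))).add (t3_sg.x2.x2.smul 2)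
  rw [sC, sub_eq_add_neg]
  simpa using this

lemma A_ne : sA ≠ 0 := fun h => by simpa [h] using t3_A.1

lemma C_ne : sC ≠ 0 := fun h => by simpa [h] using t3_C.2.1

lemma ofNat_ne (n : ℕ) [n.AtLeastTwo] : (OfNat.ofNat n : ℤ⟦X⟧) ≠ 0 := fun h => by
  have := congrArg constantCoeff h
  rw [map_ofNat, map_zero] at this
  exact OfNat.ofNat_ne_zero n this

theorem M1 : x2 e4 = sA ^ 2 - 16 * sA * sC + 256 * sC ^ 2 := by
  have h1 := congrArg x2 idB
  have h2 := idC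
  simp only [map_mul, map_add, map_pow, map_ofNat, G2_eq] at h1
  rw [G_eq] at h2
  refine mul_left_cancel₀ (mul_ne_zero (ofNat_ne 9) A_ne) ?_
  linear_combination (-2) * h1 - h2

theorem M2 : x2 e6 = (sA + 16 * sC) * (sA - 8 * sC) * (sA - 32 * sC) := by
  have h2 := idC
  rw [G_eq, M1] at h2
  refine mul_left_cancel₀ (ofNat_ne 2) ?_
  linear_combination h2

theorem M3 : sC ^ 2 = x2 sA * x2 sC := by
  have h1 := congrArg x2 idA
  have h2 := congrArg x2 M1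
  have h3 := congrArg x2 G_eq
  simp only [map_mul, map_add, map_sub, map_pow, map_ofNat, G2_eq] at h1 h2 h3
  rw [h2, M1] at h1
  refine mul_left_cancel₀ (ofNat_ne 192) ?_
  linear_combination -h1 + 4 * (sA - 8 * sC + x2 sA + 16 * x2 sC) * h3

theorem mfA : MF 4 2 sA := by
  refine MF.cancel 3 (by norm_num) ?_
  have := (mfG.level 2).add (mfG.x2.smul 2)
  rw [G2_eq, G_eq] at this
  convert this using 1
  push_cast
  ring

theorem mfC : MF 4 2 sC := by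
  refine MF.cancel 24 (by norm_num) ?_
  have := (mfG.level 2).sub mfG.x2
  rw [G2_eq, G_eq] at this
  convert this using 1
  push_cast
  ring

end Pool.Agent.Work.MP_db07cb_ag.Geo
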