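import Pool.Agent.Work.MP_db07cb_ag.GDefs
import Pool.Agent.Work.MP_db07cb_ag.AlgRel

/-! Integral power series with polynomially bounded coefficients as functions on the upper
half-plane. -/

namespace Pool.Agent.Work.MP_db07cb_ag.Geo

open UpperHalfPlane hiding I
open PowerSeries CongruenceSubgroup
open scoped Real MatrixGroups

/-- `φ` is the `q`-expansion of `u` -/
def QE (φ : ℤ⟦X⟧) (u : MG) : Prop := ∃ h : PG fun m => ((coeff m φ : ℤ) : ℂ), u = ser _ h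

lemma QE.of_hasSum {φ : ℤ⟦X⟧} {u : MG} (h : PG fun m => ((coeff m φ : ℤ) : ℂ))
    (hs : ∀ τ, HasSum (fun m => ((coeff m φ : ℤ) : ℂ) * qf τ ^ m) ((u : ℍ → ℂ) τ)) : QE φ u :=
  ⟨h, MG.ext fun τ => (hs τ).tsum_eq.symm⟩

lemma QE.hasSum {φ : ℤ⟦X⟧} {u : MG} (h : QE φ u) (τ : ℍ) :
    HasSum (fun m => ((coeff m φ : ℤ) : ℂ) * qf τ ^ m) ((u : ℍ → ℂ) τ) := by
  obtain ⟨h, rfl⟩ := h
  exact (h.summable (norm_qf_lt τ)).hasSum

lemma QE.unique {φ : ℤ⟦X⟧} {u v : MG} (h : QE φ u) (h' : QE φ v) : u = v := by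
  obtain ⟨_, rfl⟩ := h
  obtain ⟨_, rfl⟩ := h'
  rfl

lemma QE.add {φ ψ : ℤ⟦X⟧} {u v : MG} (h : QE φ u) (h' : QE ψ v) : QE (φ + ψ) (u + v) := by
  refine QE.of_hasSum ?_ fun τ => ?_
  · obtain ⟨⟨C, K, hC, hK⟩, -⟩ := h
    obtain ⟨⟨C', K', hC', hK'⟩, -⟩ := h'
    refine ⟨C + C', K + K', by positivity, fun m => ?_⟩
    have h1 : (1 : ℝ) ≤ m + 1 := by linarith [Nat.cast_nonneg (α := ℝ) m]
    have a : ((m : ℝ) + 1) ^ K ≤ (m + 1) ^ (K + K') := pow_le_pow_right₀ h1 (by omega)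
    have b : ((m : ℝ) + 1) ^ K' ≤ (m + 1) ^ (K + K') := pow_le_pow_right₀ h1 (by omega)
    beta_reduce
    rw [map_add, Int.cast_add]
    refine (norm_add_le _ _).trans ?_
    have k1 := hK m
    have k2 := hK' m
    beta_reduce at k1 k2
    nlinarith [mul_le_mul_of_nonneg_left a hC, mul_le_mul_of_nonneg_left b hC']
  · have := (h.hasSum τ).add (h'.hasSum τ)
    simp only [map_add, Int.cast_add, add_mul]
    exact this

lemma QE.mul {φ ψ : ℤ⟦X⟧} {u v : MG} (h : QE φ u) (h' : QE ψ v) : QE (φ * ψ) (u * v) := by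
  have hb : PG fun m => ((coeff m (φ * ψ) : ℤ) : ℂ) := by
    obtain ⟨⟨C, K, hC, hK⟩, -⟩ := h
    obtain ⟨⟨C', K', hC', hK'⟩, -⟩ := h'
    refine ⟨C * C', K + K' + 1, by positivity, fun m => ?_⟩
    beta_reduce
    rw [coeff_mul, Int.cast_sum]
    refine (norm_sum_le _ _).trans ?_
    refine (Finset.sum_le_card_nsmul _ _ (C * (m + 1) ^ K * (C' * (m + 1) ^ K')) ?_).trans ?_
    · intro x hx
      have hx' := Finset.mem_antidiagonal.1 hx
      have h1 : (x.1 : ℝ) ≤ m := by exact_mod_cast (by omega : x.1 ≤ m)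
      have h2 : (x.2 : ℝ) ≤ m := by exact_mod_cast (by omega : x.2 ≤ m)
      rw [Int.cast_mul, norm_mul]
      refine mul_le_mul ((hK _).trans ?_) ((hK' _).trans ?_) (norm_nonneg _) (by positivity)
      · gcongr
      · gcongr
    · rw [Finset.Nat.card_antidiagonal, nsmul_eq_mul]
      push_cast
      exact le_of_eq (by ring)
  refine ⟨hb, MG.ext fun τ => ?_⟩
  have h1 := h.hasSum τ
  have h2 := h'.hasSum τ
  have := tsum_mul_tsum_eq_tsum_sum_antidiagonal_of_summable_norm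
    (summable_norm_iff.2 h1.summable) (summable_norm_iff.2 h2.summable)
  rw [h1.tsum_eq, h2.tsum_eq] at this
  refine this.trans (tsum_congr fun m => ?_)
  beta_reduce
  rw [coeff_mul, Int.cast_sum, Finset.sum_mul]
  refine Finset.sum_congr rfl fun x hx => ?_
  rw [← Finset.mem_antidiagonal.1 hx]
  push_cast
  ring

lemma QE.intCast (a : ℤ) : QE (a : ℤ⟦X⟧) (a : MG) := by
  have e : ∀ m, coeff m (a : ℤ⟦X⟧) = if m = 0 then a else 0 := fun m => by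
    rw [show (a : ℤ⟦X⟧) = C a from (eq_intCast C a).symm, coeff_C]
  refine QE.of_hasSum ⟨‖(a : ℂ)‖, 0, norm_nonneg _, fun m => ?_⟩ fun τ => ?_
  · beta_reduce
    rw [e]
    split_ifs <;> simp
  · have : ((a : MG) : ℍ → ℂ) τ = ((coeff 0 (a : ℤ⟦X⟧) : ℤ) : ℂ) * qf τ ^ 0 := by
      rw [e, ← ev_apply, map_intCast]; simp
    rw [this]
    exact hasSum_single 0 fun m hm => by rw [e, if_neg hm]; simp

lemma QE.one : QE 1 1 := by simpa using QE.intCast 1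

lemma QE.ofNat (n : ℕ) [n.AtLeastTwo] : QE (OfNat.ofNat n) (OfNat.ofNat n) := by
  simpa using QE.intCast (OfNat.ofNat n)

lemma QE.neg {φ : ℤ⟦X⟧} {u : MG} (h : QE φ u) : QE (-φ) (-u) := by
  simpa using (QE.intCast (-1)).mul h

lemma QE.sub {φ ψ : ℤ⟦X⟧} {u v : MG} (h : QE φ u) (h' : QE ψ v) : QE (φ - ψ) (u - v) := by
  simpa only [sub_eq_add_neg] using h.add h'.neg

lemma QE.pow {φ : ℤ⟦X⟧} {u : MG} (h : QE φ u) (n : ℕ) : QE (φ ^ n) (u ^ n) := by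
  induction n with
  | zero => simpa using QE.one
  | succ n ih => simpa only [pow_succ] using ih.mul h

lemma QE.th {φ : ℤ⟦X⟧} {u : MG} (h : QE φ u) :
    ∃ v, QE (th ℤ φ) v ∧ Dm u = (2 * π * Complex.I : ℂ) • v := by
  obtain ⟨⟨C, K, hC, hK⟩, rfl⟩ := h
  have h1 : PG fun m => ((coeff m (Geo.th ℤ φ) : ℤ) : ℂ) := ⟨C, K + 1, hC, fun m => by
    beta_reduce
    rw [coeff_th]
    push_cast
    rw [norm_mul, Complex.norm_natCast, pow_succ, ← mul_assoc, mul_comm (m : ℝ)]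
    exact mul_le_mul (hK m) (by linarith) (by positivity) (by positivity)⟩
  have h2 : PG fun m => (2 * π * Complex.I : ℂ) * ((coeff m (Geo.th ℤ φ) : ℤ) : ℂ) := by
    obtain ⟨C', K', hC', hK'⟩ := h1
    refine ⟨‖(2 * π * Complex.I : ℂ)‖ * C', K', by positivity, fun m => ?_⟩
    rw [norm_mul, mul_assoc _ C']
    exact mul_le_mul_of_nonneg_left (hK' m) (norm_nonneg _)
  refine ⟨_, ⟨h1, rfl⟩, ?_⟩
  rw [Dm_ser _ h2 fun m => by rw [coeff_th]; push_cast; ring]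
  refine MG.ext fun τ => ?_
  rw [← ev_apply, ← ev_apply, map_smul, ev_apply, ev_apply, ser_apply, ser_apply, ps, ps,
    smul_eq_mul, ← tsum_mul_left]
  exact tsum_congr fun m => by ring

lemma QE.x2 {φ : ℤ⟦X⟧} {u : MG} (h : QE φ u) : QE (x2 φ) (scA 2 two_pos u) := by
  refine QE.of_hasSum ?_ fun τ => ?_
  · obtain ⟨⟨C, K, hC, hK⟩, -⟩ := h
    refine ⟨C, K, hC, fun m => ?_⟩
    beta_reduce
    rw [Geo.x2, coeff_expand]
    split_ifs
    · refine (hK _).trans ?_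
      have : ((m / 2 : ℕ) : ℝ) ≤ m := by exact_mod_cast Nat.div_le_self m 2
      gcongr
    · simp only [Int.cast_zero, norm_zero]; positivity
  · have h1 := h.hasSum (scl 2 τ)
    rw [scA_apply]
    rw [qf_scl two_pos] at h1
    have hi : Function.Injective fun m : ℕ => 2 * m := mul_right_injective₀ two_ne_zero
    rw [← hi.hasSum_iff]
    · have e : ((fun m => ((coeff m (Geo.x2 φ) : ℤ) : ℂ) * qf τ ^ m) ∘ fun m : ℕ => 2 * m) =
          fun m => ((coeff m φ : ℤ) : ℂ) * (qf τ ^ 2) ^ m := by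
        funext m
        simp only [Function.comp_apply, Geo.x2, coeff_expand_mul, pow_mul]
      rw [e]
      exact h1
    · intro m hm
      rw [Geo.x2, coeff_expand_of_not_dvd]
      · simp
      · rintro ⟨k, rfl⟩
        exact hm ⟨k, rfl⟩

lemma QE.eq_zero {φ : ℤ⟦X⟧} (h : QE φ 0) : φ = 0 := by
  obtain ⟨hb, h⟩ := h
  ext m
  have k1 := ser_expand _ hb (m + 1)
  have k2 := coeff_eq_zero_of_QD (m + 1)
    (∑ i ∈ Finset.range (m + 1), Polynomial.monomial i ((coeff i φ : ℤ) : ℂ)) (by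
      have := k1.smul (-1)
      rw [← h, zero_sub, neg_one_smul, neg_neg] at this
      simpa only [map_sum, Polynomial.aeval_monomial, Algebra.smul_def] using this) m (by omega)
  simp only [Polynomial.finsetSum_coeff, Polynomial.coeff_monomial, Finset.sum_ite_eq',
    Finset.mem_range, Nat.lt_succ_self, if_true] at k2
  exact_mod_cast k2

lemma QE.inj {φ ψ : ℤ⟦X⟧} {u : MG} (h : QE φ u) (h' : QE ψ u) : φ = ψ :=
  sub_eq_zero.1 (QE.eq_zero (by simpa using h.sub h'))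

lemma QE.dvd {φ : ℤ⟦X⟧} {u : MG} (h : QE φ u) (μ : ℕ) (h0 : ∀ m < μ, coeff m φ = 0) :
    qq ^ μ ∣ u := by
  obtain ⟨hb, rfl⟩ := h
  have := (ser_expand _ hb μ).dvd
  rwa [Finset.sum_eq_zero fun i hi => by rw [h0 i (Finset.mem_range.1 hi)]; simp, sub_zero] at this

lemma mf_iff {N k : ℕ} {φ : ℤ⟦X⟧} : MF N k φ ↔ ∃ u, QE φ u ∧ IsWt (Gamma1 N) k u :=
  ⟨fun ⟨h, hw⟩ => ⟨_, ⟨h, rfl⟩, hw⟩, fun ⟨_, ⟨h, e⟩, hw⟩ => ⟨h, e ▸ hw⟩⟩

lemma MF.add {N k : ℕ} {φ ψ : ℤ⟦X⟧} (h : MF N k φ) (h' : MF N k ψ) : MF N k (φ + ψ) := by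
  obtain ⟨u, h1, h2⟩ := mf_iff.1 h
  obtain ⟨v, h3, h4⟩ := mf_iff.1 h'
  refine mf_iff.2 ⟨_, h1.add h3, fun γ hγ => ?_⟩
  have a := h2 γ hγ
  have b := h4 γ hγ
  rw [sl_nat] at a b ⊢
  rw [map_add, mul_add, a, b]

lemma MF.mul {N k l : ℕ} {φ ψ : ℤ⟦X⟧} (h : MF N k φ) (h' : MF N l ψ) : MF N (k + l) (φ * ψ) := by
  obtain ⟨u, h1, h2⟩ := mf_iff.1 h
  obtain ⟨v, h3, h4⟩ := mf_iff.1 h'
  refine mf_iff.2 ⟨_, h1.mul h3, fun γ hγ => ?_⟩
  have a := h2 γ hγ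
  have b := h4 γ hγ
  rw [sl_nat] at a b ⊢
  conv_rhs => rw [← a, ← b]
  rw [map_mul]
  ring

lemma MF.intCast (N : ℕ) (a : ℤ) : MF N 0 (a : ℤ⟦X⟧) :=
  mf_iff.2 ⟨_, QE.intCast a, fun γ _ => by rw [sl_nat, map_intCast]; simp⟩

lemma MF.smul {N k : ℕ} {φ : ℤ⟦X⟧} (h : MF N k φ) (a : ℤ) : MF N k (a * φ) := by
  simpa using (MF.intCast N a).mul h

lemma MF.sub {N k : ℕ} {φ ψ : ℤ⟦X⟧} (h : MF N k φ) (h' : MF N k ψ) : MF N k (φ - ψ) := by
  simpa [sub_eq_add_neg] using h.add (h'.smul (-1))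

lemma MF.pow {N k : ℕ} {φ : ℤ⟦X⟧} (h : MF N k φ) (n : ℕ) : MF N (k * n) (φ ^ n) := by
  induction n with
  | zero => simpa using MF.intCast N 1
  | succ n ih => simpa only [pow_succ, Nat.mul_succ] using ih.mul h

lemma MF.x2 {N k : ℕ} {φ : ℤ⟦X⟧} (h : MF N k φ) : MF (N * 2) k (x2 φ) := by
  obtain ⟨u, h1, h2⟩ := mf_iff.1 h
  exact mf_iff.2 ⟨_, h1.x2, isWt_scA h2 2 two_pos⟩

lemma MF.level {N k : ℕ} {φ : ℤ⟦X⟧} (h : MF N k φ) (M : ℕ) : MF (N * M) k φ := by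
  obtain ⟨h1, h2⟩ := h
  refine ⟨h1, fun γ hγ => h2 γ ?_⟩
  obtain ⟨δ, hδ, a, b, c, d, -⟩ := conj_scl (ν := 1) one_pos (one_dvd M) hγ
  have : δ = γ := by
    ext i j
    fin_cases i <;> fin_cases j
    · exact a
    · simpa using b
    · simpa using c
    · exact d
  exact this ▸ hδ

/-- cancellation of a nonzero integer -/
lemma MF.cancel {N k : ℕ} {φ : ℤ⟦X⟧} (a : ℤ) (ha : a ≠ 0) (h : MF N k (a * φ)) : MF N k φ := by
  obtain ⟨⟨C, K, hC, hK⟩, h2⟩ := h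
  have h1 : PG fun m => ((coeff m φ : ℤ) : ℂ) := ⟨C, K, hC, fun m => by
    refine le_trans ?_ (hK m)
    beta_reduce
    rw [show (a : ℤ⟦X⟧) = PowerSeries.C a from (eq_intCast PowerSeries.C a).symm, coeff_C_mul,
      Int.cast_mul, norm_mul, Complex.norm_intCast (n := a)]
    refine le_mul_of_one_le_left (norm_nonneg _) ?_
    exact_mod_cast Int.one_le_abs ha⟩
  refine ⟨h1, fun γ hγ => ?_⟩
  have e := QE.unique ⟨⟨C, K, hC, hK⟩, rfl⟩ ((QE.intCast a).mul ⟨h1, rfl⟩)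
  have b := h2 γ hγ
  rw [e, sl_nat, map_mul, map_intCast] at b
  rw [sl_nat]
  have ha' : (a : MG) ≠ 0 := fun h0 => ha (by
    have := congrArg (ev UpperHalfPlane.I) h0
    rw [map_intCast, map_zero] at this
    exact_mod_cast this)
  exact mul_left_cancel₀ ha' (by linear_combination b)

lemma index_two : (Gamma1 2).index ≤ 4 := by
  have : Fintype.card (ZMod 2 × ZMod 2) = 4 := by decide
  rw [← this, ← Nat.card_eq_fintype_card]
  let f : SL(2, ℤ) → ZMod 2 × ZMod 2 := fun g => ((g 0 0 : ℤ), (g 1 0 : ℤ))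
  have key : ∀ g h : SL(2, ℤ), f g = f h → g⁻¹ * h ∈ Gamma1 2 := by
    intro g h e
    obtain ⟨e1, e2⟩ := Prod.mk.inj e
    have dg := congrArg (Int.cast : ℤ → ZMod 2) (det_eq g)
    have dh := congrArg (Int.cast : ℤ → ZMod 2) (det_eq h)
    push_cast at dg dh
    rw [Gamma1_mem]
    simp only [Matrix.SpecialLinearGroup.coe_mul, Matrix.SpecialLinearGroup.coe_inv,
      Matrix.adjugate_fin_two, Matrix.mul_apply, Fin.sum_univ_two, Matrix.of_apply,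
      Matrix.cons_val', Matrix.cons_val_zero, Matrix.cons_val_one, Matrix.cons_val_fin_one]
    push_cast
    refine ⟨?_, ?_, ?_⟩
    · linear_combination dg - (g 1 1 : ZMod 2) * e1 + (g 0 1 : ZMod 2) * e2
    · linear_combination dh + (h 1 1 : ZMod 2) * e1 - (h 0 1 : ZMod 2) * e2
    · linear_combination (g 1 0 : ZMod 2) * e1 - (g 0 0 : ZMod 2) * e2
  refine Nat.card_le_card_of_injective (fun c : SL(2, ℤ) ⧸ Gamma1 2 => f c.out) fun c c' e => ?_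
  rw [← c.out_eq', ← c'.out_eq']
  exact QuotientGroup.eq.2 (key _ _ e)

/-- Sturm bound in level two -/
lemma MF.eq_zero {k : ℕ} {φ : ℤ⟦X⟧} (h : MF 2 k φ) (hk : k ≤ 8)
    (h0 : coeff 0 φ = 0) (h1 : coeff 1 φ = 0) (h2 : coeff 2 φ = 0) : φ = 0 := by
  obtain ⟨u, hu, hw⟩ := mf_iff.1 h
  have : u = 0 := valence (Gamma1 2) u k 3 (hu.dvd 3 fun m hm => by
    interval_cases m <;> assumption) hw (by
      have := index_two
      have h3 : k * (Gamma1 2).index ≤ 8 * 4 := Nat.mul_le_mul hk this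
      have h4 : k * (Gamma1 2).index < 12 * 3 := by omega
      exact_mod_cast h4)
  exact QE.eq_zero (this ▸ hu)

end Pool.Agent.Work.MP_db07cb_ag.Geo
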