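import Mathlib.RingTheory.MvPolynomial.MonomialOrder
import Mathlib.Algebra.MvPolynomial.PDeriv
import Mathlib.Data.Complex.Basic
import Mathlib.Tactic.LinearCombination
import Mathlib.Data.Finsupp.Weight

/-!
# Homotheties preserving a proper algebraic set preserve an affine hyperplane
-/

set_option autoImplicit false

namespace Pool.Agent.Work.MP_db07cb_ag

open MvPolynomial

/-- the substitution `X j ↦ t X j + b j` -/
noncomputable def hsub {r : ℕ} (p : ℂ × (Fin r → ℂ)) :
    MvPolynomial (Fin r) ℂ →ₐ[ℂ] MvPolynomial (Fin r) ℂ :=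
  aeval (fun j => C p.1 * X j + C (p.2 j))

lemma eval_hsub {r : ℕ} (p : ℂ × (Fin r → ℂ)) (z : Fin r → ℂ) (B : MvPolynomial (Fin r) ℂ) :
    eval z (hsub p B) = eval (fun j => p.1 * z j + p.2 j) B := by
  induction B using MvPolynomial.induction_on with
  | C a => simp [hsub]
  | add f g hf hg => simp [hf, hg]
  | mul_X f j hf => rw [map_mul, map_mul, map_mul, hf]; simp [hsub]

lemma pderiv_hsub {r : ℕ} (p : ℂ × (Fin r → ℂ)) (i : Fin r) (B : MvPolynomial (Fin r) ℂ) :
    pderiv i (hsub p B) = C p.1 * hsub p (pderiv i B) := by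
  induction B using MvPolynomial.induction_on with
  | C a => simp [hsub]
  | add f g hf hg => simp [hf, hg, mul_add]
  | mul_X f j hf =>
    rw [map_mul, Derivation.leibniz, Derivation.leibniz, hf]
    by_cases h : j = i
    · subst h
      simp [hsub]; ring
    · simp [hsub, pderiv_X_of_ne h]; ring

lemma degree_hsub_le {r : ℕ} (m : MonomialOrder (Fin r)) (p : ℂ × (Fin r → ℂ))
    (B : MvPolynomial (Fin r) ℂ) : m.toSyn (m.degree (hsub p B)) ≤ m.toSyn (m.degree B) := by
  conv_lhs => rw [B.as_sum, map_sum]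
  refine m.degree_sum_le.trans (Finset.sup_le fun d hd => le_trans ?_ (m.le_degree hd))
  have h1 : ∀ j, m.toSyn (m.degree (C p.1 * X j + C (p.2 j) : MvPolynomial (Fin r) ℂ))
      ≤ m.toSyn (Finsupp.single j 1) := by
    intro j
    refine m.degree_add_le.trans (sup_le ?_ ?_)
    · refine m.degree_mul_le.trans ?_
      rw [m.degree_C, zero_add]
      exact m.degree_X_le_single
    · rw [m.degree_C, map_zero]; exact m.zero_le _
  rw [hsub, aeval_monomial, Finsupp.prod]
  refine m.degree_mul_le.trans ?_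
  rw [algebraMap_eq, m.degree_C, zero_add]
  refine m.degree_prod_le.trans ?_
  conv_rhs => rw [← Finsupp.sum_single d, Finsupp.sum]
  rw [map_sum, map_sum]
  refine Finset.sum_le_sum fun j _ => (m.degree_pow_le _).trans ?_
  have : Finsupp.single j (d j) = d j • Finsupp.single j 1 := by simp
  rw [this, map_nsmul, map_nsmul]
  exact nsmul_le_nsmul_right (h1 j) _

theorem homothety {r : ℕ} (Z : Set (Fin r → ℂ)) (hZ : Z.Nonempty) (Λ : Set (ℂ × (Fin r → ℂ)))
    (h0 : ∀ p ∈ Λ, p.1 ≠ 0)
    (hΛ : ∀ B : MvPolynomial (Fin r) ℂ, (∀ z ∈ Z, MvPolynomial.eval z B = 0) → ∀ p ∈ Λ, ∀ z ∈ Z,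
      MvPolynomial.eval (fun j => p.1 * z j + p.2 j) B = 0)
    (A : MvPolynomial (Fin r) ℂ) (hA : A ≠ 0) (hAZ : ∀ z ∈ Z, MvPolynomial.eval z A = 0) :
    ∃ (l : Fin r → ℂ) (c : ℂ), l ≠ 0 ∧ ∀ p ∈ Λ, ∑ j, l j * p.2 j = (p.1 - 1) * c := by
  classical
  let m : MonomialOrder (Fin r) := MonomialOrder.lex
  have wf : WellFounded fun f g : MvPolynomial (Fin r) ℂ =>
      m.toSyn (m.degree f) < m.toSyn (m.degree g) :=
    InvImage.wf (fun f => m.toSyn (m.degree f)) wellFounded_lt
  -- step 1: a non-constant common eigenvector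
  have h1 : ∃ B : MvPolynomial (Fin r) ℂ, m.degree B ≠ 0 ∧ ∀ p ∈ Λ, ∃ μ, hsub p B = C μ * B := by
    obtain ⟨B, ⟨hB0, hBZ⟩, hmin⟩ := wf.has_min
      {B | B ≠ 0 ∧ ∀ z ∈ Z, eval z B = 0} ⟨A, hA, hAZ⟩
    refine ⟨B, fun h => hB0 ?_, fun p hp => ⟨(hsub p B).coeff (m.degree B) / m.leadingCoeff B, ?_⟩⟩
    · obtain ⟨z, hz⟩ := hZ
      have e := m.eq_C_of_degree_eq_zero h
      have := hBZ z hz
      rw [e, eval_C] at this
      rw [e, this, C_0]
    · set μ := (hsub p B).coeff (m.degree B) / m.leadingCoeff B with hμ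
      by_contra hne
      have hne' : hsub p B - C μ * B ≠ 0 := sub_ne_zero.2 hne
      refine hmin _ ⟨hne', fun z hz => ?_⟩ ?_
      · rw [map_sub, map_mul, eval_hsub, hΛ B hBZ p hp z hz, hBZ z hz]; simp
      · have hle : m.toSyn (m.degree (hsub p B - C μ * B)) ≤ m.toSyn (m.degree B) := by
          refine m.degree_sub_le.trans (sup_le (degree_hsub_le m p B) ?_)
          refine m.degree_mul_le.trans ?_
          rw [m.degree_C, zero_add]
        refine lt_of_le_of_ne hle fun he => ?_
        have he' := m.toSyn.injective he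
        have hc := m.coeff_degree_ne_zero_iff.2 hne'
        rw [he', coeff_sub, coeff_C_mul, hμ] at hc
        apply hc
        have : m.leadingCoeff B ≠ 0 := m.leadingCoeff_ne_zero_iff.2 hB0
        change _ - _ * m.leadingCoeff B = 0
        rw [div_mul_cancel₀ _ this, sub_self]
  -- step 2: a minimal one is affine
  obtain ⟨B, ⟨hB0, hB⟩, hmin⟩ := wf.has_min
    {B | m.degree B ≠ 0 ∧ ∀ p ∈ Λ, ∃ μ, hsub p B = C μ * B} h1
  have hc : ∀ i, m.degree (pderiv i B) = 0 := by
    intro i
    by_contra hne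
    refine hmin _ ⟨hne, fun p hp => ?_⟩ ?_
    · obtain ⟨μ, hμ⟩ := hB p hp
      have := pderiv_hsub p i B
      rw [hμ, pderiv_C_mul] at this
      refine ⟨μ / p.1, ?_⟩
      have hp1 : (C p.1 : MvPolynomial (Fin r) ℂ) ≠ 0 := by simpa using h0 p hp
      refine mul_left_cancel₀ hp1 ?_
      rw [← this, ← mul_assoc, ← C_mul, mul_div_cancel₀ _ (h0 p hp)]
    · have h2 := m.coeff_degree_ne_zero_iff.2 (m.ne_zero_of_degree_ne_zero hne)
      rw [coeff_pderiv] at h2
      have h3 := m.le_degree (mem_support_iff.2 (left_ne_zero_of_mul h2))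
      refine lt_of_lt_of_le (m.toSyn_strictMono ?_) h3
      refine lt_add_of_pos_right _ ?_
      exact pos_iff_ne_zero.2 (by simp)
  have hcoef : ∀ d : Fin r →₀ ℕ, d ≠ 0 → ∀ i, B.coeff (d + Finsupp.single i 1) = 0 := by
    intro d hd i
    have h2 := coeff_pderiv (i := i) B d
    rw [m.eq_C_of_degree_eq_zero (hc i), coeff_C, if_neg hd.symm] at h2
    refine (mul_eq_zero.1 h2.symm).resolve_right ?_
    exact Nat.cast_add_one_ne_zero _
  set l : Fin r → ℂ := fun j => B.coeff (Finsupp.single j 1) with hl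
  have hBe : B = ∑ j, C (l j) * X j + C (B.coeff 0) := by
    ext d
    rw [coeff_add, coeff_sum, coeff_C]
    simp only [coeff_C_mul, coeff_X]
    by_cases hd : d = 0
    · subst hd
      have : ∀ j : Fin r, (Finsupp.single j 1 : Fin r →₀ ℕ) ≠ 0 := fun j => by simp
      simp [this]
    · rw [if_neg (Ne.symm hd), add_zero]
      obtain ⟨i, hi⟩ := Finsupp.ne_iff.1 hd
      have hle : Finsupp.single i 1 ≤ d := by
        rw [Finsupp.single_le_iff]
        exact Nat.one_le_iff_ne_zero.2 (by simpa using hi)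
      obtain ⟨e, rfl⟩ := exists_add_of_le hle
      by_cases he : e = 0
      · subst he
        rw [add_zero, Finset.sum_eq_single i]
        · simp [hl]
        · intro j _ hj
          rw [if_neg, mul_zero]
          intro h
          exact hj ((Finsupp.single_left_inj one_ne_zero).1 h)
        · simp
      · rw [add_comm, hcoef e he i]
        refine (Finset.sum_eq_zero fun j _ => ?_).symm
        rw [if_neg, mul_zero]
        intro h
        have := congrArg (fun f : Fin r →₀ ℕ => f.degree) h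
        simp only [map_add, Finsupp.degree_single] at this
        exact he ((Finsupp.degree_eq_zero_iff e).1 (by omega))
  have hl0 : l ≠ 0 := by
    intro h
    apply hB0
    rw [hBe, h]
    simp [m.degree_C]
  refine ⟨l, B.coeff 0, hl0, fun p hp => ?_⟩
  obtain ⟨μ, hμ⟩ := hB p hp
  have hev : ∀ z : Fin r → ℂ, ∑ j, l j * (p.1 * z j + p.2 j) + B.coeff 0
      = μ * (∑ j, l j * z j + B.coeff 0) := by
    intro z
    have := congrArg (eval z) hμ
    rw [eval_hsub, map_mul, eval_C] at this
    have e : ∀ w : Fin r → ℂ, eval w B = ∑ j, l j * w j + B.coeff 0 := by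
      intro w
      conv_lhs => rw [hBe]
      simp
    rwa [e, e] at this
  obtain ⟨i, hi⟩ := Function.ne_iff.1 hl0
  have e0 := hev 0
  have e1 := hev (Pi.single i 1)
  simp only [Pi.zero_apply, mul_zero, zero_add, Finset.sum_const_zero] at e0
  simp only [mul_add, Finset.sum_add_distrib] at e1
  have e2 : ∑ j, l j * (Pi.single i 1 : Fin r → ℂ) j = l i := by
    simp [Pi.single_apply]
  have e3 : ∑ j, l j * (p.1 * (Pi.single i 1 : Fin r → ℂ) j) = p.1 * l i := by
    rw [← e2, Finset.mul_sum]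
    exact Finset.sum_congr rfl fun j _ => by ring
  rw [e2, e3] at e1
  have e4 : μ = p.1 := by
    have hi' : l i ≠ 0 := by simpa using hi
    refine mul_right_cancel₀ hi' ?_
    linear_combination e0 - e1
  rw [e4] at e0
  linear_combination e0

end Pool.Agent.Work.MP_db07cb_ag
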