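import Pool.Agent.Work.MP_db07cb_ag.Action
import Mathlib.Analysis.Complex.RemovableSingularity
import Mathlib.Analysis.Calculus.SmoothSeries
import Mathlib.Analysis.SpecialFunctions.Complex.Log
import Mathlib.Algebra.Polynomial.Inductions

/-! Functions of `q` and their expansions. -/

namespace Pool.Agent.Work.MP_db07cb_ag

open UpperHalfPlane hiding I
open Complex Filter Topology Metric
open scoped MatrixGroups Real

noncomputable section

lemma qf_mem_ball (τ : ℍ) : qf τ ∈ ball (0 : ℂ) 1 := by simpa using norm_qf_lt τ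

lemma exists_qf {z : ℂ} (h0 : z ≠ 0) (h1 : ‖z‖ < 1) : ∃ τ : ℍ, qf τ = z ∧ |τ.re| ≤ 1 / 2 := by
  have hpi := Real.pi_pos
  have e : log z / (2 * π * I) = (arg z / (2 * π) : ℝ) + (-Real.log ‖z‖ / (2 * π) : ℝ) * I := by
    rw [div_eq_iff (by simp [hpi.ne']), Complex.log]
    push_cast
    have : (π : ℂ) ≠ 0 := by exact_mod_cast hpi.ne'
    field_simp
    linear_combination (↑(Real.log ‖z‖)) * I_sq
  have hl : Real.log ‖z‖ < 0 := Real.log_neg (norm_pos_iff.2 h0) h1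
  refine ⟨⟨log z / (2 * π * I), ?_⟩, ?_, ?_⟩
  · rw [e]
    simp only [add_im, ofReal_im, mul_im, ofReal_re, Complex.I_im, mul_one, Complex.I_re, mul_zero, add_zero,
      zero_add]
    exact div_pos (by linarith) (by positivity)
  · show exp (2 * π * I * (log z / (2 * π * I))) = z
    rw [mul_div_cancel₀ _ (by simp [hpi.ne']), exp_log h0]
  · show |(log z / (2 * π * I)).re| ≤ 1 / 2
    rw [e]
    simp only [add_re, ofReal_re, mul_re, Complex.I_re, mul_zero, ofReal_im, Complex.I_im, mul_one, sub_self,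
      add_zero]
    rw [abs_div, abs_of_pos (by positivity : 0 < 2 * π), div_le_iff₀ (by positivity)]
    linarith [abs_arg_le_pi z]

/-- functions of `q` -/
def Qs : Subalgebra ℂ MG where
  carrier := {u | ∃ φ : ℂ → ℂ, DifferentiableOn ℂ φ (ball 0 1) ∧ ∀ τ, (u : ℍ → ℂ) τ = φ (qf τ)}
  mul_mem' := by
    rintro a b ⟨φ, h1, h2⟩ ⟨ψ, h3, h4⟩
    exact ⟨φ * ψ, h1.mul h3, fun τ => by rw [Pi.mul_apply, ← h2, ← h4]; rfl⟩
  add_mem' := by
    rintro a b ⟨φ, h1, h2⟩ ⟨ψ, h3, h4⟩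
    exact ⟨φ + ψ, h1.add h3, fun τ => by rw [Pi.add_apply, ← h2, ← h4]; rfl⟩
  algebraMap_mem' c := ⟨fun _ => c, differentiableOn_const c, fun _ => rfl⟩

lemma qq_mem : qq ∈ Qs := ⟨id, differentiableOn_id, fun _ => rfl⟩

lemma eq_of_qf_eq {u : MG} (hu : u ∈ Qs) {τ τ' : ℍ} (h : qf τ = qf τ') :
    (u : ℍ → ℂ) τ = (u : ℍ → ℂ) τ' := by
  obtain ⟨φ, -, h2⟩ := hu
  rw [h2, h2, h]

lemma qf_scl {n : ℕ} (hn : 0 < n) (τ : ℍ) : qf (scl n τ) = qf τ ^ n :=
  congrFun (congrArg MG.val (scA_qq n hn)) τ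

lemma scA_mem (n : ℕ) (hn : 0 < n) {u : MG} (hu : u ∈ Qs) : scA n hn u ∈ Qs := by
  obtain ⟨φ, h1, h2⟩ := hu
  refine ⟨fun z => φ (z ^ n), h1.comp (differentiableOn_id.pow n) fun z hz => ?_, fun τ => ?_⟩
  · simp only [mem_ball, dist_zero_right, norm_pow] at hz ⊢
    exact pow_lt_one₀ (norm_nonneg _) hz hn.ne'
  · rw [scA_apply, h2, qf_scl hn]

lemma hd_of_q {u : ℍ → ℂ} {φ ψ : ℂ → ℂ} (h1 : ∀ z ∈ ball (0 : ℂ) 1, HasDerivAt φ (ψ z) z)
    (h2 : ∀ τ, u τ = φ (qf τ)) : HD u (fun τ => 2 * π * I * (qf τ * ψ (qf τ))) := by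
  refine hd_of_eq (fun z => φ (exp (2 * π * I * z))) h2 fun τ => ?_
  have a := ((hasDerivAt_id (τ : ℂ)).const_mul (2 * π * I)).cexp
  simp only [id, mul_one] at a
  exact ((h1 _ (qf_mem_ball τ)).comp (τ : ℂ) a).congr_deriv (by rw [qf]; ring)

lemma hol_of_q {u : ℍ → ℂ} {φ : ℂ → ℂ} (h1 : DifferentiableOn ℂ φ (ball 0 1))
    (h2 : ∀ τ, u τ = φ (qf τ)) : Hol u :=
  (hd_of_q (fun _ hz => (h1.differentiableAt (isOpen_ball.mem_nhds hz)).hasDerivAt) h2).hol

lemma Dm_mem {u : MG} (hu : u ∈ Qs) : Dm u ∈ Qs := by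
  obtain ⟨φ, h1, h2⟩ := hu
  refine ⟨fun z => 2 * π * I * (z * deriv φ z),
    (differentiableOn_id.mul (h1.deriv isOpen_ball)).const_mul _, fun τ => ?_⟩
  exact congrFun (hd_of_q
    (fun _ hz => (h1.differentiableAt (isOpen_ball.mem_nhds hz)).hasDerivAt) h2).dd_eq τ

lemma gr_of_q_mul {u : ℍ → ℂ} {φ : ℂ → ℂ} (h1 : DifferentiableOn ℂ φ (ball 0 1))
    (hu : Gr u) (h2 : ∀ τ, u τ = qf τ * φ (qf τ)) : Gr fun τ => φ (qf τ) := by
  obtain ⟨C, K, hC, hK⟩ := hu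
  obtain ⟨B, hB⟩ := (isCompact_closedBall (0 : ℂ) (1 / 2)).exists_bound_of_continuousOn
    (h1.continuousOn.mono (closedBall_subset_ball (by norm_num)))
  have hB0 : 0 ≤ B := (norm_nonneg _).trans (hB 0 (by simp))
  refine ⟨B + 2 * C, K, by positivity, fun τ => ?_⟩
  have h3 : 1 ≤ Nm τ ^ K := one_le_pow₀ (one_le_Nm τ)
  by_cases h : ‖qf τ‖ ≤ 1 / 2
  · have := hB (qf τ) (by simpa using h)
    nlinarith
  · have h4 := hK τ
    rw [h2, norm_mul] at h4
    push Not at h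
    nlinarith [norm_nonneg (φ (qf τ))]

lemma q_split {u : MG} (hu : u ∈ Qs) : ∃ c : ℂ, ∃ w ∈ Qs, u = algebraMap ℂ MG c + qq * w := by
  obtain ⟨φ, h1, h2⟩ := hu
  have h3 : DifferentiableOn ℂ (dslope φ 0) (ball 0 1) :=
    (differentiableOn_dslope (ball_mem_nhds 0 one_pos)).2 h1
  have h4 : ∀ τ, ((u - algebraMap ℂ MG (φ 0) : MG) : ℍ → ℂ) τ = qf τ * dslope φ 0 (qf τ) := by
    intro τ
    have := sub_smul_dslope φ 0 (qf τ)
    rw [sub_zero, smul_eq_mul] at this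
    rw [this, ← h2]; rfl
  refine ⟨φ 0, MG.mk (fun τ => dslope φ 0 (qf τ)) (hol_of_q h3 fun _ => rfl)
    (gr_of_q_mul h3 (MG.gr _) h4), ⟨_, h3, fun _ => rfl⟩, ?_⟩
  rw [← sub_eq_iff_eq_add']
  exact MG.ext h4

lemma const_eq_of_q {φ : ℂ → ℂ} (h1 : DifferentiableOn ℂ φ (ball 0 1)) {c : ℂ}
    (h : ∀ τ, φ (qf τ) = c) : φ 0 = c := by
  have a : Tendsto φ (𝓝[≠] 0) (𝓝 (φ 0)) :=
    (h1.continuousOn.continuousAt (ball_mem_nhds 0 one_pos)).tendsto.mono_left nhdsWithin_le_nhds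
  have b : φ =ᶠ[𝓝[≠] 0] fun _ => c := by
    filter_upwards [self_mem_nhdsWithin, nhdsWithin_le_nhds (ball_mem_nhds (0 : ℂ) one_pos)]
      with z hz hz'
    obtain ⟨τ, rfl, -⟩ := exists_qf hz (by simpa using hz')
    exact h τ
  exact tendsto_nhds_unique (a.congr' b) tendsto_const_nhds

lemma const_eq_zero {w : MG} (hw : w ∈ Qs) {c : ℂ} (h : algebraMap ℂ MG c = qq * w) : c = 0 := by
  obtain ⟨φ, h1, h2⟩ := hw
  have := const_eq_of_q (φ := fun z => z * φ z) (differentiableOn_id.mul h1) (c := c) fun τ => by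
    rw [← h2]; exact (congrFun (congrArg MG.val h) τ).symm
  simpa using this.symm

/-- divisibility by a power of `q` -/
def QD (M : ℕ) (u : MG) : Prop := ∃ w ∈ Qs, u = qq ^ M * w

lemma QD.dvd {M : ℕ} {u : MG} (h : QD M u) : qq ^ M ∣ u := let ⟨w, _, h⟩ := h; ⟨w, h⟩

lemma QD.zero (M : ℕ) : QD M 0 := ⟨0, zero_mem _, by simp⟩

lemma QD.add {M : ℕ} {u v : MG} (h : QD M u) (h' : QD M v) : QD M (u + v) := by
  obtain ⟨w, h1, rfl⟩ := h
  obtain ⟨w', h2, rfl⟩ := h'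
  exact ⟨w + w', add_mem h1 h2, by ring⟩

lemma QD.mul_left {M : ℕ} {u v : MG} (h : QD M u) (hv : v ∈ Qs) : QD M (v * u) := by
  obtain ⟨w, h1, rfl⟩ := h
  exact ⟨v * w, mul_mem hv h1, by ring⟩

lemma QD.smul {M : ℕ} {u : MG} (h : QD M u) (c : ℂ) : QD M (c • u) := by
  rw [Algebra.smul_def]; exact h.mul_left (Subalgebra.algebraMap_mem _ c)

lemma QD.sub {M : ℕ} {u v : MG} (h : QD M u) (h' : QD M v) : QD M (u - v) := by
  have := h.add (h'.smul (-1))
  rwa [neg_one_smul, ← sub_eq_add_neg] at this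

lemma QD.sum {M : ℕ} {ι : Type*} {s : Finset ι} {u : ι → MG} (h : ∀ i ∈ s, QD M (u i)) :
    QD M (∑ i ∈ s, u i) :=
  Finset.sum_induction _ _ (fun _ _ => QD.add) (QD.zero M) h

lemma QD.mono {M M' : ℕ} {u : MG} (h : QD M u) (hM : M' ≤ M) : QD M' u := by
  obtain ⟨w, h1, rfl⟩ := h
  obtain ⟨k, rfl⟩ := Nat.exists_eq_add_of_le hM
  exact ⟨qq ^ k * w, mul_mem (pow_mem qq_mem k) h1, by ring⟩

lemma aeval_qq_mem (p : Polynomial ℂ) : Polynomial.aeval qq p ∈ Qs := by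
  have := Polynomial.aeval_mem_adjoin_singleton ℂ qq (p := p)
  exact Algebra.adjoin_le (by simpa using qq_mem) this

lemma q_expand {u : MG} (hu : u ∈ Qs) (M : ℕ) :
    ∃ c : ℕ → ℂ, QD M (u - ∑ i ∈ Finset.range M, c i • qq ^ i) := by
  induction M with
  | zero => exact ⟨0, u, hu, by simp⟩
  | succ M ih =>
    obtain ⟨c, w, hw, h⟩ := ih
    obtain ⟨c', w', hw', h'⟩ := q_split hw
    refine ⟨Function.update c M c', w', hw', ?_⟩
    rw [Finset.sum_range_succ, Function.update_self, Finset.sum_congr rfl (fun i hi => by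
      rw [Function.update_of_ne (Finset.mem_range.1 hi).ne]), Algebra.smul_def c']
    linear_combination h + qq ^ M * h'

lemma coeff_eq_zero_of_QD (M : ℕ) : ∀ p : Polynomial ℂ, QD M (Polynomial.aeval qq p) →
    ∀ i < M, p.coeff i = 0 := by
  induction M with
  | zero => intro p _ i hi; omega
  | succ M ih =>
    rintro p ⟨w, hw, h⟩ i hi
    have e := congrArg (Polynomial.aeval qq) (Polynomial.X_mul_divX_add p)
    rw [map_add, map_mul, Polynomial.aeval_X, Polynomial.aeval_C] at e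
    have h0 : p.coeff 0 = 0 := const_eq_zero
      (sub_mem (mul_mem (pow_mem qq_mem M) hw) (aeval_qq_mem p.divX))
      (by linear_combination e + h)
    cases i with
    | zero => exact h0
    | succ i =>
      rw [← Polynomial.coeff_divX]
      refine ih _ ⟨w, hw, ?_⟩ i (by omega)
      rw [h0, map_zero, add_zero] at e
      exact mul_left_cancel₀ qq_ne_zero (by linear_combination e + h)

/-- polynomial growth of a sequence -/
def PG (b : ℕ → ℂ) : Prop := ∃ (C : ℝ) (K : ℕ), 0 ≤ C ∧ ∀ m : ℕ, ‖b m‖ ≤ C * (m + 1) ^ K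

lemma hasSum_bound (K : ℕ) {r : ℝ} (h0 : 0 ≤ r) (hr : r < 1) :
    Summable (fun m : ℕ => ((m : ℝ) + 1) ^ K * r ^ m) ∧
      ∑' m : ℕ, ((m : ℝ) + 1) ^ K * r ^ m ≤ K.factorial * (1 / (1 - r) ^ (K + 1)) := by
  have h := (hasSum_choose_mul_geometric_of_norm_lt_one K
    (r := r) (by rwa [Real.norm_of_nonneg h0])).mul_left (K.factorial : ℝ)
  have hle : ∀ m : ℕ, ((m : ℝ) + 1) ^ K * r ^ m ≤ K.factorial * (((m + K).choose K : ℕ) * r ^ m) := by
    intro m
    rw [← mul_assoc]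
    refine mul_le_mul_of_nonneg_right ?_ (by positivity)
    have := Nat.pow_succ_le_ascFactorial (m + 1) K
    rw [Nat.ascFactorial_eq_factorial_mul_choose] at this
    exact_mod_cast this
  have hs := Summable.of_nonneg_of_le (fun m => by positivity) hle h.summable
  exact ⟨hs, h.tsum_eq ▸ hs.tsum_le_tsum hle h.summable⟩

/-- power series -/
def ps (b : ℕ → ℂ) (z : ℂ) : ℂ := ∑' m, b m * z ^ m

lemma PG.summable {b : ℕ → ℂ} (hb : PG b) {z : ℂ} (hz : ‖z‖ < 1) :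
    Summable fun m => b m * z ^ m := by
  obtain ⟨C, K, hC, hK⟩ := hb
  refine Summable.of_norm_bounded ((hasSum_bound K (norm_nonneg z) hz).1.mul_left C) fun m => ?_
  rw [norm_mul, norm_pow, ← mul_assoc]
  exact mul_le_mul_of_nonneg_right (hK m) (by positivity)

lemma PG.hasDerivAt {b : ℕ → ℂ} (hb : PG b) {z : ℂ} (hz : z ∈ ball (0 : ℂ) 1) :
    HasDerivAt (ps b) (∑' m, b m * (m * z ^ (m - 1))) z := by
  have hb' := hb
  obtain ⟨C, K, hC, hK⟩ := hb
  rw [mem_ball, dist_zero_right] at hz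
  set r := (‖z‖ + 1) / 2 with hr
  have h0 : 0 < r := by positivity
  have h1 : r < 1 := by linarith
  refine hasDerivAt_tsum_of_isPreconnected (t := ball 0 r) (y₀ := 0)
    (((hasSum_bound (K + 1) h0.le h1).1.mul_left C).div_const r) isOpen_ball
    (convex_ball _ _).isPreconnected (fun m y _ => (hasDerivAt_pow m y).const_mul (b m))
    (fun m y hy => ?_) (mem_ball_self h0) (hb'.summable (by simp)) (by simp; linarith)
  rw [mem_ball, dist_zero_right] at hy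
  cases m with
  | zero => simp; positivity
  | succ m =>
    rw [norm_mul, norm_mul, norm_pow, Complex.norm_natCast, add_tsub_cancel_right,
      le_div_iff₀ h0]
    have a := hK (m + 1)
    have c : ‖y‖ ^ m ≤ r ^ m := pow_le_pow_left₀ (norm_nonneg _) hy.le m
    calc ‖b (m + 1)‖ * (((m + 1 : ℕ) : ℝ) * ‖y‖ ^ m) * r
        ≤ (C * (((m + 1 : ℕ) : ℝ) + 1) ^ K) * ((((m + 1 : ℕ) : ℝ) + 1) * r ^ m) * r := by
          gcongr; linarith
      _ = _ := by ring

lemma PG.differentiableOn {b : ℕ → ℂ} (hb : PG b) : DifferentiableOn ℂ (ps b) (ball 0 1) :=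
  fun _ hz => (hb.hasDerivAt hz).differentiableAt.differentiableWithinAt

lemma inv_one_sub_le (τ : ℍ) : 1 / (1 - ‖qf τ‖) ≤ 2 * Nm τ := by
  have hy := τ.im_pos
  have h1 := inv_im_le_Nm τ
  have h2 := one_le_Nm τ
  have h3 : ‖qf τ‖ ≤ 1 / (1 + τ.im) := by
    rw [norm_qf, le_div_iff₀ (by positivity)]
    have a := Real.add_one_le_exp τ.im
    have b : Real.exp (-2 * π * τ.im) ≤ Real.exp (-τ.im) := by
      rw [Real.exp_le_exp]; nlinarith [Real.two_le_pi]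
    calc Real.exp (-2 * π * τ.im) * (1 + τ.im) ≤ Real.exp (-τ.im) * Real.exp τ.im := by
          gcongr; linarith
      _ = 1 := by rw [← Real.exp_add]; simp
  have h4 : τ.im / (1 + τ.im) ≤ 1 - ‖qf τ‖ := by
    have : τ.im / (1 + τ.im) = 1 - 1 / (1 + τ.im) := by field_simp; ring
    linarith
  calc 1 / (1 - ‖qf τ‖) ≤ 1 / (τ.im / (1 + τ.im)) := one_div_le_one_div_of_le (by positivity) h4
    _ = 1 / τ.im + 1 := by field_simp
    _ ≤ _ := by linarith

lemma PG.gr {b : ℕ → ℂ} (hb : PG b) : Gr fun τ => ps b (qf τ) := by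
  have hb' := hb
  obtain ⟨C, K, hC, hK⟩ := hb
  refine ⟨C * K.factorial * 2 ^ (K + 1), K + 1, by positivity, fun τ => ?_⟩
  obtain ⟨h1, h2⟩ := hasSum_bound K (norm_nonneg _) (norm_qf_lt τ)
  have h3 := tsum_of_norm_bounded (h1.mul_left C).hasSum (f := fun m => b m * qf τ ^ m) fun m => by
    rw [norm_mul, norm_pow, ← mul_assoc]
    exact mul_le_mul_of_nonneg_right (hK m) (by positivity)
  refine h3.trans ?_
  rw [tsum_mul_left, mul_assoc, mul_assoc]
  refine mul_le_mul_of_nonneg_left (h2.trans ?_) hC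
  rw [← mul_pow, ← one_div_pow]
  have := norm_qf_lt τ
  exact mul_le_mul_of_nonneg_left (pow_le_pow_left₀ (by
    apply div_nonneg zero_le_one; linarith) (inv_one_sub_le τ) _) (by positivity)

/-- a power series in `q` as an element of `MG` -/
def ser (b : ℕ → ℂ) (hb : PG b) : MG :=
  MG.mk (fun τ => ps b (qf τ)) (hol_of_q hb.differentiableOn fun _ => rfl) hb.gr

lemma ser_apply (b : ℕ → ℂ) (hb : PG b) (τ : ℍ) : (ser b hb : ℍ → ℂ) τ = ps b (qf τ) := rfl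

lemma ser_mem (b : ℕ → ℂ) (hb : PG b) : ser b hb ∈ Qs := ⟨_, hb.differentiableOn, fun _ => rfl⟩

lemma Dm_ser {b b' : ℕ → ℂ} (hb : PG b) (hb' : PG b') (h : ∀ m : ℕ, b' m = 2 * π * I * m * b m) :
    Dm (ser b hb) = ser b' hb' := by
  refine MG.ext fun τ => ?_
  have := congrFun (hd_of_q (u := ser b hb) (fun _ hz => hb.hasDerivAt hz) fun _ => rfl).dd_eq τ
  refine this.trans ?_
  rw [ser_apply, ps, ← tsum_mul_left, ← tsum_mul_left]
  refine tsum_congr fun m => ?_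
  rw [h]
  cases m with
  | zero => simp
  | succ m => rw [add_tsub_cancel_right]; ring

lemma PG.shift {b : ℕ → ℂ} (hb : PG b) (M : ℕ) : PG fun m => b (m + M) := by
  obtain ⟨C, K, hC, hK⟩ := hb
  refine ⟨C * (M + 1) ^ K, K, by positivity, fun m => (hK _).trans ?_⟩
  rw [mul_assoc, ← mul_pow]
  refine mul_le_mul_of_nonneg_left (pow_le_pow_left₀ (by positivity) ?_ K) hC
  push_cast
  nlinarith [(Nat.cast_nonneg m : (0 : ℝ) ≤ m), (Nat.cast_nonneg M : (0 : ℝ) ≤ M)]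

lemma ser_expand (b : ℕ → ℂ) (hb : PG b) (M : ℕ) :
    QD M (ser b hb - ∑ i ∈ Finset.range M, b i • qq ^ i) := by
  refine ⟨ser _ (hb.shift M), ser_mem _ _, ?_⟩
  rw [sub_eq_iff_eq_add']
  refine MG.ext fun τ => ?_
  have := (hb.summable (norm_qf_lt τ)).sum_add_tsum_nat_add M
  rw [ser_apply, ps, ← this, ← ev_apply, map_add, map_sum, map_mul, map_pow, ev_apply, ev_apply,
    ser_apply, ps, ← tsum_mul_left]
  refine congrArg₂ (· + ·) (Finset.sum_congr rfl fun i _ => ?_) (tsum_congr fun m => ?_)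
  · rw [map_smul, map_pow]; rfl
  · rw [qq_apply]; ring

end

end Pool.Agent.Work.MP_db07cb_ag
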