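import Pool.Agent.Work.MP_db07cb_ag.Eichler
import Pool.Agent.Work.MP_db07cb_ag.Qring
import Pool.Agent.Work.MP_db07cb_ag.Valence
import Pool.Agent.Work.MP_db07cb_ag.Homothety

/-! Algebraic independence of the rescaled primitives. -/

namespace Pool.Agent.Work.MP_db07cb_ag

open UpperHalfPlane hiding I
open Complex CongruenceSubgroup
open scoped MatrixGroups Real

noncomputable section

/-- polynomial functions -/
def PF : Subalgebra ℂ (ℂ → ℂ) := Algebra.adjoin ℂ {id}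

lemma PF_zero {φ : ℂ → ℂ} (hφ : φ ∈ PF) (s : ℕ → ℂ) (hs : Function.Injective s)
    (h : ∀ m, φ (s m) = 0) (y : ℂ) : φ y = 0 := by
  rw [PF, Algebra.adjoin_singleton_eq_range_aeval] at hφ
  obtain ⟨P, rfl⟩ := hφ
  have e : ∀ y, (Polynomial.aeval (id : ℂ → ℂ) P) y = P.eval y := fun y => by
    have := Polynomial.aeval_algHom_apply (Pi.evalAlgHom ℂ (fun _ : ℂ => ℂ) y) id P
    rw [← Polynomial.coe_aeval_eq_eval]
    exact this.symm
  have : P = 0 := Polynomial.eq_zero_of_infinite_isRoot P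
    (Set.infinite_of_injective_forall_mem hs fun m => (e _).symm.trans (h m))
  exact (e y).trans (by rw [this, Polynomial.eval_zero])

lemma PF_id : (fun y => y) ∈ PF := Algebra.subset_adjoin rfl

lemma PF_const (c : ℂ) : (fun _ => c) ∈ PF := PF.algebraMap_mem c

lemma PF_lin (a b : ℂ) : (fun y => a + y * b) ∈ PF :=
  add_mem (PF_const a) (mul_mem PF_id (PF_const b))

lemma PF_Ei (n : ℕ) (s : ℕ → ℂ) {x J : ℂ → ℂ} (hx : x ∈ PF) (hJ : J ∈ PF) :
    (fun y => Ei n s (x y) (J y)) ∈ PF := by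
  have h := Ei_mem PF.toSubring n (fun l _ => s l) (fun l _ => PF_const (s l)) hx hJ
  have e : (fun y => Ei n s (x y) (J y)) = Ei n (fun l _ => s l) x J :=
    funext fun y => (map_Ei (Pi.evalRingHom (fun _ : ℂ => ℂ) y) n (fun l _ => s l) x J).symm
  rw [e]; exact h

lemma PF_eval {r : ℕ} {g : Fin r → ℂ → ℂ} (hg : ∀ j, g j ∈ PF) (B : MvPolynomial (Fin r) ℂ) :
    (fun y => MvPolynomial.eval (fun j => g j y) B) ∈ PF := by
  induction B using MvPolynomial.induction_on with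
  | C c => simpa using PF_const c
  | add p q hp hq => simp only [map_add]; exact add_mem hp hq
  | mul_X p j hp => simp only [map_mul, MvPolynomial.eval_X]; exact mul_mem hp (hg j)

lemma PF_per (n : ℕ) (G : ℕ → MG) (δ : SL(2, ℤ)) {y : ℂ → ℂ} (hy : y ∈ PF) :
    (fun t => per n G δ 1 (y t)) ∈ PF := by
  simp only [per, EF_apply]
  refine sub_mem (PF_Ei n _ (PF_const 1) (add_mem (PF_const _) hy)) (PF_Ei n _ ?_ ?_)
  · exact add_mem (PF_const _) (mul_mem hy (PF_const _))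
  · exact add_mem (mul_mem (add_mem (PF_const _) (mul_mem hy (PF_const _))) (PF_const _))
      (add_mem (PF_const _) (mul_mem hy (PF_const _)))

lemma per_scl {u : MG} (hu : u ∈ Qs) {ν : ℕ} (hν : 0 < ν) (m : ℕ) (τ : ℍ) :
    (u : ℍ → ℂ) (scl ν ((m : ℝ) +ᵥ τ)) = (u : ℍ → ℂ) (scl ν τ) := by
  refine eq_of_qf_eq hu ?_
  rw [qf_scl hν, qf_scl hν, qf, qf, coe_vadd, mul_add, Complex.exp_add]
  have := Complex.exp_nat_mul_two_pi_mul_I m
  rw [show 2 * π * I * ((m : ℝ) : ℂ) = m * (2 * π * I) by push_cast; ring, this, one_mul]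

lemma vadd_inj (τ : ℍ) : Function.Injective fun m : ℕ => (((m : ℝ) +ᵥ τ : ℍ) : ℂ) := by
  intro a b h
  simp only [coe_vadd, add_left_inj] at h
  exact_mod_cast h

lemma exists_ord {u : MG} (hu : u ∈ Qs) (B : ℕ) (hB : ∀ μ, QD μ u → μ ≤ B) :
    ∃ (μ : ℕ) (β : ℂ) (w : MG), β ≠ 0 ∧ w ∈ Qs ∧ u = qq ^ μ * (algebraMap ℂ MG β + qq * w) ∧
      μ ≤ B ∧ ∀ μ', QD μ' u → μ' ≤ μ := by
  classical
  have h0 : QD 0 u := ⟨u, hu, by simp⟩
  have h1 := Nat.findGreatest_spec (P := fun μ => QD μ u) (Nat.zero_le B) h0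
  have h2 : ∀ μ', QD μ' u → μ' ≤ Nat.findGreatest (fun μ => QD μ u) B :=
    fun μ' h => Nat.le_findGreatest (hB μ' h) h
  obtain ⟨w, hw, e⟩ := h1
  obtain ⟨β, w', hw', e'⟩ := q_split hw
  refine ⟨_, β, w', fun hβ => ?_, hw', by rw [← e', ← e], Nat.findGreatest_le B, h2⟩
  have := h2 (Nat.findGreatest (fun μ => QD μ u) B + 1) ⟨w', hw', by
    rw [hβ, map_zero, zero_add] at e'
    rw [pow_succ, mul_assoc, ← e', ← e]⟩
  omega

lemma lin_indep {u : MG} {μ : ℕ} (hμ : 1 ≤ μ) {β : ℂ} (hβ : β ≠ 0) {w : MG} (hw : w ∈ Qs)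
    (e : u = qq ^ μ * (algebraMap ℂ MG β + qq * w)) {r : ℕ} (ν : Fin r → ℕ) (hν : ∀ j, 0 < ν j)
    (hinj : Function.Injective ν) (l : Fin r → ℂ) (h : ∑ j, l j • scA (ν j) (hν j) u = 0) :
    l = 0 := by
  classical
  by_contra hl
  obtain ⟨j₀, hj₀, hmin⟩ := (Finset.univ.filter fun j => l j ≠ 0).exists_min_image ν (by
    obtain ⟨j, hj⟩ := Function.ne_iff.1 hl
    exact ⟨j, by simpa using hj⟩)
  simp only [Finset.mem_filter, Finset.mem_univ, true_and] at hj₀ hmin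
  have e1 : ∀ j, scA (ν j) (hν j) u = qq ^ (ν j * μ) * (algebraMap ℂ MG β +
      qq ^ ν j * scA (ν j) (hν j) w) := fun j => by
    rw [e, map_mul, map_add, map_mul, map_pow, scA_qq, AlgHom.commutes, pow_mul]
  have hm : ∀ j, algebraMap ℂ MG β + qq ^ ν j * scA (ν j) (hν j) w ∈ Qs := fun j =>
    add_mem (Qs.algebraMap_mem β) (mul_mem (pow_mem qq_mem _) (scA_mem _ _ hw))
  have h1 : QD (ν j₀ * μ + 1) (∑ j ∈ Finset.univ.erase j₀, l j • scA (ν j) (hν j) u) := by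
    refine QD.sum fun j hj => ?_
    by_cases hj0 : l j = 0
    · rw [hj0, zero_smul]; exact QD.zero _
    · have a := lt_of_le_of_ne (hmin j hj0) fun h => Finset.ne_of_mem_erase hj (hinj h).symm
      refine (QD.mono ⟨_, hm j, e1 j⟩ ?_).smul _
      nlinarith
  have h2 : QD (ν j₀ * μ + 1) (l j₀ • (qq ^ (ν j₀ * μ) * qq ^ ν j₀ * scA _ (hν j₀) w)) :=
    (QD.mono ⟨_, scA_mem _ (hν j₀) hw, by rw [← pow_add]⟩ (by have := hν j₀; omega)).smul _
  obtain ⟨v, hv, ev⟩ := h1.add h2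
  rw [← Finset.add_sum_erase _ _ (Finset.mem_univ j₀), e1 j₀] at h
  have h3 : algebraMap ℂ MG (-(l j₀ * β)) = qq * v := by
    refine mul_left_cancel₀ (pow_ne_zero (ν j₀ * μ) qq_ne_zero) ?_
    rw [map_neg, map_mul]
    rw [Algebra.smul_def] at h ev
    linear_combination ev - h
  exact neg_ne_zero.2 (mul_ne_zero hj₀ hβ) (const_eq_zero hv h3)

section

variable {N : ℕ} [NeZero N] {n : ℕ} {G : ℕ → MG} (hG : ∀ l, Dm (G (l + 1)) = G l)
  (hq : ∀ l, G l ∈ Qs) (hw : IsWt (Gamma1 N) (n + 2) (G 0)) (h0 : G 0 ≠ 0)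

include hG hq hw h0 in
lemma lin_indep_G {r : ℕ} (ν : Fin r → ℕ) (hν : ∀ j, 0 < ν j) (hinj : Function.Injective ν)
    (m : ℕ) : ∀ l : Fin r → ℂ, Dm (∑ j, l j • scA (ν j) (hν j) (G (m + 1))) = 0 → l = 0 := by
  have key : ∀ (m : ℕ) (l : Fin r → ℂ), Dm (∑ j, l j • scA (ν j) (hν j) (G (m + 1))) =
      ∑ j, (l j * ν j) • scA (ν j) (hν j) (G m) := fun m l => by
    rw [map_sum]
    refine Finset.sum_congr rfl fun j _ => ?_
    rw [map_smul, Dm_scA, hG, mul_smul, ← nsmul_eq_mul, Nat.cast_smul_eq_nsmul]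
  have fin : ∀ l : Fin r → ℂ, (fun j => l j * ν j) = 0 → l = 0 := fun l h => funext fun j =>
    (mul_eq_zero.1 (congrFun h j)).resolve_right (by exact_mod_cast (hν j).ne')
  induction m with
  | zero =>
    intro l hl
    rw [key] at hl
    obtain ⟨μ, β, w, hβ, hw', e, -, hmax⟩ := exists_ord (hq 0) ((n + 2) * (Gamma1 N).index)
      fun μ hμ => by
        by_contra hn
        refine h0 (valence (Gamma1 N) _ _ μ hμ.dvd hw ?_)
        have : (n + 2) * (Gamma1 N).index < 12 * μ := by omega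
        exact_mod_cast this
    obtain ⟨c, v, hv, ev⟩ := q_split (hq 1)
    have h1 : QD 1 (G 0) := ⟨algebraMap ℂ MG (2 * π * I) * v + Dm v,
      add_mem (mul_mem (Qs.algebraMap_mem _) hv) (Dm_mem hv), by
        rw [← hG 0, zero_add, ev, map_add, Dm_algebraMap, Dm_mul, Dm_qq]; ring⟩
    exact fin l (lin_indep (hmax 1 h1) hβ hw' e ν hν hinj _ hl)
  | succ m ih =>
    intro l hl
    rw [key] at hl
    exact fin l (ih _ (by rw [hl, map_zero]))

include hG in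
lemma top_smul (δ : SL(2, ℤ)) (hδ : sl (n + 2) δ (G 0) = G 0) (σ : ℍ) :
    (G (n + 1) : ℍ → ℂ) (δ • σ) = (δ 0 0 + -((δ • σ : ℍ) : ℂ) * δ 1 0) ^ n * (G (n + 1) : ℍ → ℂ) σ +
      ((-1) ^ n * n.factorial : ℂ)⁻¹ * per n G δ 1 (-((δ • σ : ℍ) : ℂ)) := by
  have h := cocycle n G hG δ hδ 1 (-((δ • σ : ℍ) : ℂ)) σ
  have e : (1 * (δ 0 0 : ℂ) + -((δ • σ : ℍ) : ℂ) * δ 1 0) * σ +
      (1 * δ 0 1 + -((δ • σ : ℍ) : ℂ) * δ 1 1) = 0 := by
    have := jf_ne_zero δ σ
    rw [coe_smul_eq]; field_simp; rw [jf]; ring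
  rw [EF_apply, EF_apply, e, one_mul, add_neg_cancel, Ei_J0, Ei_J0, one_mul, neg_pow (_ + _)] at h
  have hn : ((-1) ^ n * n.factorial : ℂ) ≠ 0 :=
    mul_ne_zero (pow_ne_zero _ (by norm_num)) (by exact_mod_cast n.factorial_ne_zero)
  refine mul_left_cancel₀ hn ?_
  rw [mul_add, mul_inv_cancel_left₀ hn]
  linear_combination h

lemma lin_eq_inv (δ : SL(2, ℤ)) (σ : ℍ) :
    δ 0 0 + -((δ • σ : ℍ) : ℂ) * δ 1 0 = (jf δ σ)⁻¹ := by
  have := jf_ne_zero δ σ
  rw [coe_smul_eq]; field_simp; rw [jf]; linear_combination det_eqC δ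

include hG hq hw h0 in
theorem indep (hn : 1 ≤ n) {r : ℕ} (ν : Fin r → ℕ) (hν : ∀ j, 0 < ν j)
    (hinj : Function.Injective ν) (A : MvPolynomial (Fin r) ℂ)
    (hA : MvPolynomial.aeval (fun j => scA (ν j) (hν j) (G 1)) A = 0) : A = 0 := by
  by_contra hA0
  set M := ∏ j, ν j with hM
  have hM0 : 0 < M := Finset.prod_pos fun j _ => hν j
  have : NeZero (N * M) := ⟨mul_ne_zero (NeZero.ne N) hM0.ne'⟩
  choose! δ' hδ' ha hb hc hd hs using fun (δ : SL(2, ℤ)) (j : Fin r) (hδ : δ ∈ Gamma1 (N * M)) =>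
    conj_scl (hν j) (Finset.dvd_prod_of_mem ν (Finset.mem_univ j)) hδ
  let E : ℍ → Fin r → ℂ := fun τ j => (G (n + 1) : ℍ → ℂ) (scl (ν j) τ)
  -- first step: a relation among the top primitives
  obtain ⟨A', hA', hAZ⟩ : ∃ A' : MvPolynomial (Fin r) ℂ, A' ≠ 0 ∧
      ∀ z ∈ Set.range E, MvPolynomial.eval z A' = 0 := by
    let δ : SL(2, ℤ) := ⟨!![1, 0; (N * M : ℕ), 1], by rw [Matrix.det_fin_two_of]; ring⟩
    have hδ : δ ∈ Gamma1 (N * M) := by
      rw [Gamma1_mem]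
      exact ⟨Int.cast_one, Int.cast_one, (Int.cast_natCast _).trans (ZMod.natCast_self _)⟩
    have h10 : δ 1 0 = (N * M : ℕ) := rfl
    let lam : Fin r → ℂ := fun j => (-(δ' δ j 1 0 : ℂ)) ^ n * n.factorial
    have hlam : ∀ j, lam j ≠ 0 := fun j => by
      refine mul_ne_zero (pow_ne_zero _ (neg_ne_zero.2 ?_)) (by exact_mod_cast n.factorial_ne_zero)
      have a := hc δ j hδ
      rw [h10] at a
      have b : δ' δ j 1 0 ≠ 0 := fun h => by
        rw [h, mul_zero] at a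
        exact NeZero.ne (N * M) (by exact_mod_cast a.symm)
      exact_mod_cast b
    let p : Fin r → ℂ := fun j => per n G (δ' δ j) 0 1
    let ψ : MvPolynomial (Fin r) ℂ →ₐ[ℂ] MvPolynomial (Fin r) ℂ := MvPolynomial.aeval fun j =>
      MvPolynomial.C (lam j) * MvPolynomial.X j + MvPolynomial.C (p j)
    let χ : MvPolynomial (Fin r) ℂ →ₐ[ℂ] MvPolynomial (Fin r) ℂ := MvPolynomial.aeval fun j =>
      MvPolynomial.C (lam j)⁻¹ * (MvPolynomial.X j - MvPolynomial.C (p j))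
    have hχ : χ.comp ψ = AlgHom.id ℂ _ := MvPolynomial.algHom_ext fun j => by
      simp only [ψ, χ, AlgHom.comp_apply, MvPolynomial.aeval_X, map_add, map_mul,
        MvPolynomial.algHom_C, MvPolynomial.algebraMap_eq, AlgHom.id_apply]
      rw [← mul_assoc, ← map_mul, mul_inv_cancel₀ (hlam j)]; simp
    refine ⟨ψ A, fun h => hA0 ?_, ?_⟩
    · have := DFunLike.congr_fun hχ A
      rw [AlgHom.comp_apply, h, map_zero] at this
      exact this.symm
    · rintro _ ⟨τ, rfl⟩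
      have k1 := PF_zero (PF_eval (g := fun j J =>
        Ei n (fun l => (G l : ℍ → ℂ) (scl (ν j) τ)) (δ' δ j 1 0) J + p j)
        (fun j => add_mem (PF_Ei n _ (PF_const _) PF_id) (PF_const _)) A)
        (fun m => jf δ ((m : ℝ) +ᵥ τ)) (fun a b h => vadd_inj τ (by
          have h' : ((N * M : ℕ) : ℂ) ≠ 0 := by exact_mod_cast NeZero.ne (N * M)
          simp only [jf, h10, add_left_inj, Int.cast_natCast] at h
          exact mul_left_cancel₀ h' h)) (fun m => by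
          have k2 := congrArg (ev (δ • ((m : ℝ) +ᵥ τ))) hA
          rw [← AlgHom.comp_apply, MvPolynomial.comp_aeval, map_zero,
            MvPolynomial.aeval_eq_eval] at k2
          rw [← k2]
          congr 2
          funext j
          rw [ev_apply, scA_apply, (hs δ j hδ _).1, ← EF_zero_one n G,
            cocycle n G hG _ (hw _ (hδ' δ j hδ)), EF_apply, ← (hs δ j hδ _).2]
          simp only [per_scl (hq _) (hν j), zero_mul, one_mul, zero_add, jf, p]) 0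
      simp only [Ei_J0] at k1
      rw [← k1, ← MvPolynomial.aeval_eq_eval, ← MvPolynomial.aeval_eq_eval, ← AlgHom.comp_apply]
      congr 1
      exact MvPolynomial.algHom_ext fun j => by simp [ψ, lam, E]
  -- second step: the homothety lemma
  let lam : SL(2, ℤ) → ℂ → ℂ := fun δ y => (δ 0 0 + -y * δ 1 0) ^ n
  let p : SL(2, ℤ) → ℂ → Fin r → ℂ := fun δ y j =>
    ((-1) ^ n * n.factorial : ℂ)⁻¹ * per n G (δ' δ j) 1 (-(ν j * y))
  have hE : ∀ δ ∈ Gamma1 (N * M), ∀ τ j,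
      E (δ • τ) j = lam δ (δ • τ : ℍ) * E τ j + p δ (δ • τ : ℍ) j := by
    intro δ hδ τ j
    have k := top_smul hG _ (hw _ (hδ' δ j hδ)) (scl (ν j) τ)
    rw [lin_eq_inv, (hs δ j hδ _).2, ← lin_eq_inv, ← (hs δ j hδ _).1, coe_scl (hν j)] at k
    exact k
  obtain ⟨l, c, hl, hlc⟩ := homothety (Set.range E) (Set.range_nonempty E)
    {x | ∃ δ ∈ Gamma1 (N * M), ∃ t : ℍ, x = (lam δ (δ • t : ℍ), p δ (δ • t : ℍ))}
    (by
      rintro _ ⟨δ, -, t, rfl⟩
      exact pow_ne_zero _ (by rw [lin_eq_inv]; exact inv_ne_zero (jf_ne_zero δ t)))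
    (by
      rintro B hB _ ⟨δ, hδ, t, rfl⟩ _ ⟨τ, rfl⟩
      refine PF_zero (PF_eval (g := fun j y => lam δ y * E τ j + p δ y j) (fun j => ?_) B)
        (fun m => (δ • ((m : ℝ) +ᵥ τ) : ℍ)) (fun a b h => vadd_inj τ ?_) (fun m => ?_) _
      · exact add_mem (mul_mem (pow_mem (add_mem (PF_const _) (mul_mem (neg_mem PF_id) (PF_const _)))
          n) (PF_const _)) (mul_mem (PF_const _) (PF_per n G _
            (neg_mem (mul_mem (PF_const _) PF_id))))
      · exact congrArg _ (smul_left_cancel δ (UpperHalfPlane.ext h))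
      · rw [← hB _ ⟨δ • ((m : ℝ) +ᵥ τ), rfl⟩]
        congr 2
        funext j
        rw [hE δ hδ]
        simp only [E, per_scl (hq _) (hν j)]) A' hA' hAZ
  let H : MG := ∑ j, l j • scA (ν j) (hν j) (G (n + 1)) + algebraMap ℂ MG c
  have hH : ∀ τ, (H : ℍ → ℂ) τ = ∑ j, l j * E τ j + c := fun τ => by
    rw [← ev_apply, map_add, map_sum, AlgHom.commutes]
    simp only [map_smul]; rfl
  have hHw : IsWt (Gamma1 (N * M)) (-n) H := isWt_iff.2 fun δ hδ τ => by
    have k := hlc _ ⟨δ, hδ, τ, rfl⟩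
    have k2 : jf δ τ ^ (-n : ℤ) = lam δ (δ • τ : ℍ) := by
      simp only [lam, lin_eq_inv, zpow_neg, zpow_natCast, inv_pow]
    rw [hH, hH, k2, mul_add, Finset.mul_sum]
    simp only [hE δ hδ, mul_add, Finset.sum_add_distrib, k, mul_left_comm (l _)]
    ring
  have hH0 : H = 0 := valence _ H _ 0 (by simp) hHw (by
    have : 0 < (Gamma1 (N * M)).index := Nat.pos_of_ne_zero Subgroup.FiniteIndex.index_ne_zero
    have : 0 < n * (Gamma1 (N * M)).index := by positivity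
    have : (0 : ℤ) < n * (Gamma1 (N * M)).index := by exact_mod_cast this
    simp only [Nat.cast_zero, mul_zero, neg_mul]; omega)
  refine hl (lin_indep_G hG hq hw h0 ν hν hinj n l ?_)
  have := congrArg Dm hH0
  rwa [map_add, Dm_algebraMap, add_zero, map_zero] at this

end

end

end Pool.Agent.Work.MP_db07cb_ag
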