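import Pool.Agent.Work.MP_db07cb_ag.Eichler
import Pool.Agent.Work.MP_db07cb_ag.ADE
import Pool.Agent.Work.MP_db07cb_ag.CM
import Pool.Agent.Work.MP_db07cb_ag.AuxPoly

/-! The auxiliary function with a zero of high order at a CM point. -/

namespace Pool.Agent.Work.MP_db07cb_ag

open UpperHalfPlane hiding I
open Complex CongruenceSubgroup
open scoped MatrixGroups Real

theorem aux_exists {N : ℕ} [NeZero N] {n : ℕ} {G : ℕ → MG} (hG : ∀ l, Dm (G (l + 1)) = G l)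
    (hq : ∀ l, G l ∈ Qs) (hw : IsWt (Gamma1 N) (n + 2) (G 0)) (h0 : G 0 ≠ 0) :
    ∃ (r : ℕ) (ν : Fin r → ℕ) (hν : ∀ j, 0 < ν j) (τ₀ : ℍ) (D₀ : ℕ), Function.Injective ν ∧
      ∀ D ≥ D₀, ∃ a : (Fin r → Fin (D + 1)) → ℤ, a ≠ 0 ∧ (∀ e, |a e| ≤ 1) ∧
        ∀ t < D ^ 2, iteratedDeriv t (fun z => ∑ e, (a e : ℂ) *
          ∏ j, ((scA (ν j) (hν j) (G 1) : ℍ → ℂ) ∘ ofComplex) z ^ (e j : ℕ)) τ₀ = 0 := by
  classical
  have hw' : IsWt (Gamma1 N) (n + 2 : ℕ) (G 0) := by exact_mod_cast hw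
  choose s H hs hu hd using fun c : SL(2, ℤ) ⧸ Gamma1 N =>
    ade (Gamma1 N) (n + 2) (by omega) (G 0) (hq 0) hw' h0 c.out⁻¹
  have := Fintype.ofFinite (SL(2, ℤ) ⧸ Gamma1 N)
  obtain ⟨τs, ν, hν, hτs, hcm⟩ := exists_cm (∏ c, s c) (Finset.prod_ne_zero_iff.2 fun c _ => hs c)
  obtain ⟨Y₁, hY₁⟩ := values_mem (Gamma1 N) n G hG hw τs
  let H₀ : Finset (ℂ → ℂ) := Finset.univ.biUnion H
  let Y : Finset ℂ := Y₁ ∪ H₀.image (fun g => g τs) ∪ {(τs : ℂ)}
  let r := 4 * Y.card + 40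
  obtain ⟨τ₀, γ, hγ⟩ := hcm r
  have hp : ∀ j : Fin r, 0 < ν ^ (j : ℕ) := fun j => by positivity
  let m : Fin r → ℍ → ℍ := fun j τ => (γ j)⁻¹ • scl (ν ^ (j : ℕ)) τ
  let φ : Fin r → MG → MG := fun j u => scA _ (hp j) (act (γ j)⁻¹ u)
  let σ : Fin r → ℂ → ℂ := fun j => (φ j zz : ℍ → ℂ) ∘ ofComplex
  let F : Fin r → ℂ → ℂ := fun j => (scA _ (hp j) (G 1) : ℍ → ℂ) ∘ ofComplex
  let J : Fin r → ℂ → ℂ := fun j => (γ j 1 0 : ℤ) * σ j + (γ j 1 1 : ℤ)
  have hσ : ∀ j (τ : ℍ), σ j τ = m j τ := fun j τ => by simp [σ, φ, m]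
  have hJ : ∀ j (τ : ℍ), J j τ = jf (γ j) (m j τ) := fun j τ => by simp [J, hσ, jf]
  have hm : ∀ j τ, γ j • m j τ = scl (ν ^ (j : ℕ)) τ := fun j τ => smul_inv_smul _ _
  have hm0 : ∀ j, m j τ₀ = τs := fun j => by simp only [m, hγ, inv_smul_smul]
  have hσ' : ∀ j (τ : ℍ), HasDerivAt (σ j) ((ν ^ (j : ℕ) : ℕ) * J j τ ^ 2) τ := fun j τ => by
    refine (hd_Dm (φ j zz) τ).congr_deriv ?_
    have e := jf_mul (γ j) (γ j)⁻¹ ((γ j) • m j τ)
    rw [mul_inv_cancel, jf_one, inv_smul_smul, hm] at e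
    rw [Dm_scA, Dm_act, Dm_zz, map_one, mul_one, hJ, ← ev_apply, map_mul, map_natCast, map_pow,
      map_pow, eq_inv_of_mul_eq_one_left e.symm]
    rfl
  let S : MG := ∏ j, φ j (∏ c, s c)
  have hS : ∀ τ, (S : ℍ → ℂ) τ ≠ 0 ↔ ∀ j c, (s c : ℍ → ℂ) (m j τ) ≠ 0 := fun τ => by
    rw [← ev_apply, map_prod, Finset.prod_ne_zero_iff]
    simp only [φ, map_prod, Finset.prod_ne_zero_iff, Finset.mem_univ, true_imp_iff]
    rfl
  let G' : Finset (ℂ → ℂ) := Finset.univ.image F ∪ Finset.univ.image σ ∪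
    (Finset.univ ×ˢ H₀).image fun p => p.2 ∘ σ p.1
  have m1 : ∀ j, σ j ∈ Subring.closure (G' : Set (ℂ → ℂ)) := fun j =>
    Subring.subset_closure (by simp [G'])
  have m2 : ∀ j, J j ∈ Subring.closure (G' : Set (ℂ → ℂ)) := fun j =>
    add_mem (mul_mem (intCast_mem _ _) (m1 j)) (intCast_mem _ _)
  have m3 : ∀ j c, ∀ g ∈ Subring.closure (H c : Set (ℂ → ℂ)),
      g ∘ σ j ∈ Subring.closure (G' : Set (ℂ → ℂ)) := fun j c g hg =>
    (Subring.closure_le (t := (Subring.closure (G' : Set (ℂ → ℂ))).comap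
      (RingHom.pi fun z => Pi.evalRingHom (fun _ : ℂ => ℂ) (σ j z)))).2 (fun g hg =>
        Subring.subset_closure (Finset.mem_union_right _ (Finset.mem_image.2 ⟨(j, g),
          Finset.mem_product.2 ⟨Finset.mem_univ _,
            Finset.mem_biUnion.2 ⟨c, Finset.mem_univ _, hg⟩⟩, rfl⟩))) hg
  obtain ⟨D₀, hD⟩ := aux_poly Y.card Y le_rfl
    ({z : ℂ | 0 < z.im} ∩ ((S : ℍ → ℂ) ∘ ofComplex) ⁻¹' {0}ᶜ)
    (S.hol.differentiableOn.continuousOn.isOpen_inter_preimage isOpen_upperHalfPlaneSet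
      isOpen_compl_singleton) τ₀ ⟨τ₀.im_pos, by
        have : (S : ℍ → ℂ) τ₀ ≠ 0 := (hS τ₀).2 fun j c => by
          rw [← ev_apply, map_prod, Finset.prod_ne_zero_iff] at hτs
          rw [hm0]; exact hτs c (Finset.mem_univ _)
        simpa using this⟩ G' (by
      intro g hg
      simp only [G', Finset.mem_union, Finset.mem_image, Finset.mem_univ, true_and,
        Finset.mem_product] at hg
      rcases hg with (⟨j, rfl⟩ | ⟨j, rfl⟩) | ⟨⟨j, g⟩, hg, rfl⟩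
      · obtain ⟨δ, hδ, e⟩ := exists_rep (Gamma1 N) (γ j)
        have e2 := sl_mul (n + 2 : ℕ) δ (((γ j)⁻¹ : SL(2, ℤ)) : SL(2, ℤ) ⧸ Gamma1 N).out⁻¹ (G 0)
        rw [← e, hw' δ hδ] at e2
        have k := m3 j _ _ (Subring.subset_closure (hu ((γ j)⁻¹ : SL(2, ℤ))))
        rw [← e2] at k
        refine ⟨_, mul_mem (natCast_mem _ (ν ^ (j : ℕ))) (mul_mem (pow_mem (m2 j) (n + 2)) k), ?_⟩
        rintro z ⟨hz, -⟩
        lift z to ℍ using hz
        refine (hd_Dm _ z).congr_deriv ?_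
        rw [Dm_scA, ← ev_apply, map_mul, map_natCast, ev_apply, scA_apply, ← hm, hG 0,
          apply_smul_eq (n + 2 : ℕ), zpow_natCast]
        simp only [Pi.mul_apply, Pi.pow_apply, Function.comp_apply, hJ, hσ, ofComplex_apply,
          Pi.natCast_apply]
      · refine ⟨_, mul_mem (natCast_mem _ (ν ^ (j : ℕ))) (pow_mem (m2 j) 2), ?_⟩
        rintro z ⟨hz, -⟩
        lift z to ℍ using hz
        exact hσ' j z
      · obtain ⟨c, -, hc⟩ := Finset.mem_biUnion.1 hg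
        obtain ⟨h, hh, hh'⟩ := hd c g hc
        refine ⟨_, mul_mem (m3 j c h hh)
          (mul_mem (natCast_mem _ (ν ^ (j : ℕ))) (pow_mem (m2 j) 2)), ?_⟩
        rintro z ⟨hz, hz'⟩
        lift z to ℍ using hz
        have k := hh' (m j z) ((hS z).1 (by simpa using hz') j c)
        rw [← hσ] at k
        exact k.comp (z : ℂ) (hσ' j z)) (by
      intro g hg
      simp only [G', Finset.mem_union, Finset.mem_image, Finset.mem_univ, true_and,
        Finset.mem_product] at hg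
      rcases hg with (⟨j, rfl⟩ | ⟨j, rfl⟩) | ⟨⟨j, g⟩, hg, rfl⟩
      · simp only [F, Function.comp_apply, ofComplex_apply, scA_apply, hγ]
        exact Subring.closure_mono (fun x hx => by simp [Y, Finset.mem_coe.1 hx]) (hY₁ (γ j))
      · rw [hσ, hm0]; exact Subring.subset_closure (by simp [Y])
      · rw [Function.comp_apply, hσ, hm0]
        exact Subring.subset_closure (Finset.mem_union_left _ (Finset.mem_union_right _
          (Finset.mem_image_of_mem _ hg)))) r le_rfl F (fun j => by simp [G'])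
  exact ⟨r, fun j => ν ^ (j : ℕ), hp, τ₀, D₀,
    fun a b h => Fin.ext (Nat.pow_right_injective hν h), hD⟩

end Pool.Agent.Work.MP_db07cb_ag
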