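import Pool.Agent.Work.MP_db07cb_ag.Local
import Pool.Agent.Work.MP_db07cb_ag.Indep
import Pool.Agent.Work.MP_db07cb_ag.Ord
import Pool.Agent.Work.MP_db07cb_ag.Small
import Pool.Agent.Work.MP_db07cb_ag.Arith
import Pool.Agent.Work.MP_db07cb_ag.Final

/-! The growth of the denominators of the primitive of a modular form. -/

namespace Pool.Agent.Work.MP_db07cb_ag

open UpperHalfPlane hiding I
open Complex CongruenceSubgroup
open scoped MatrixGroups Real

theorem core_small {N : ℕ} [NeZero N] {n : ℕ} (hn : 1 ≤ n) {G : ℕ → MG}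
    (hG : ∀ l, Dm (G (l + 1)) = G l) (hq : ∀ l, G l ∈ Qs) (hw : IsWt (Gamma1 N) (n + 2) (G 0))
    (h0 : G 0 ≠ 0) :
    ∃ (r : ℕ) (ν : Fin r → ℕ) (hν : ∀ j, 0 < ν j) (A D₀ K : ℕ) (α C : ℝ), 0 < α ∧ 1 ≤ C ∧
      ∀ D ≥ D₀, ∃ (a : (Fin r → Fin (D + 1)) → ℤ) (M : ℕ) (β : ℂ) (w : MG), (∀ e, |a e| ≤ 1) ∧
        M ≤ D ^ A ∧ β ≠ 0 ∧ w ∈ Qs ∧ ∑ e, (a e : ℂ) • ∏ j, scA (ν j) (hν j) (G 1) ^ (e j : ℕ) =
          qq ^ M * (algebraMap ℂ MG β + qq * w) ∧ ‖β‖ * Real.exp (α * (D ^ 2 : ℕ)) ≤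
            Real.exp α * (D + 1) ^ r * (C * (M + 1) ^ K) ^ (r * D) := by
  classical
  obtain ⟨r, ν, hν, τ₀, D₀, hinj, hD⟩ := aux_exists hG hq hw h0
  obtain ⟨A, hA⟩ := ord_le (fun j => scA (ν j) (hν j) (G 1)) fun j =>
    exists_U N n G hG hw (ν j) (hν j)
  obtain ⟨C, K, hC, hK⟩ := small_coeff τ₀ fun j => scA (ν j) (hν j) (G 1)
  refine ⟨r, ν, hν, A, max D₀ (r + 2), K, π * τ₀.im, C, mul_pos Real.pi_pos τ₀.im_pos, hC,
    fun D hD' => ?_⟩
  obtain ⟨a, ha0, ha, hz⟩ := hD D (le_of_max_le_left hD')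
  have hne : ∑ e, (a e : ℂ) • ∏ j, scA (ν j) (hν j) (G 1) ^ (e j : ℕ) ≠ 0 := by
    intro h
    let mon : (Fin r → Fin (D + 1)) → Fin r →₀ ℕ := fun e =>
      Finsupp.equivFunOnFinite.symm fun j => (e j : ℕ)
    have hmon : Function.Injective mon := fun e e' h => funext fun j =>
      Fin.ext (congrFun (Finsupp.equivFunOnFinite.symm.injective h) j)
    have k := indep hG hq hw h0 hn ν hν hinj (∑ e, MvPolynomial.monomial (mon e) (a e : ℂ)) (by
      rw [map_sum, ← h]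
      refine Finset.sum_congr rfl fun e _ => ?_
      rw [MvPolynomial.aeval_monomial, Finsupp.prod_fintype _ _ (fun _ => pow_zero _),
        Algebra.smul_def]
      rfl)
    refine ha0 (funext fun e => ?_)
    have k2 := congrArg (MvPolynomial.coeff (mon e)) k
    simp only [MvPolynomial.coeff_sum, MvPolynomial.coeff_monomial, hmon.eq_iff,
      Finset.sum_ite_eq', Finset.mem_univ, if_true, MvPolynomial.coeff_zero] at k2
    exact_mod_cast k2
  obtain ⟨M, β, w, hβ, hw', e, hM, -⟩ := exists_ord (Qs.sum_mem fun e _ => Qs.smul_mem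
    (Qs.prod_mem fun j _ => pow_mem (scA_mem _ (hν j) (hq 1)) _) _) (D ^ A) fun μ hμ =>
      hA D (le_of_max_le_right hD') (fun e => (a e : ℂ)) μ hne hμ.dvd
  exact ⟨a, M, β, w, ha, hM, hβ, hw', e, hK D a ha _ M β w hw' e hz⟩

theorem mainDen : MainDen := by
  intro N _ k hk K _ _ φ₀ b ⟨C₀, c, hC₀⟩ f hf hfw ⟨m₀, hm₀, hb₀⟩
  obtain ⟨n, rfl⟩ : ∃ n, k = n + 2 := ⟨k - 2, by omega⟩
  let b' : ℕ → K := fun m => if m = 0 then 0 else b m
  let C := max C₀ 1
  have hgr : ∀ (σ : K →+* ℂ) (m : ℕ), ‖σ (b' m)‖ ≤ C * (m + 1) ^ c := fun σ m => by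
    have : (0 : ℝ) ≤ C := zero_le_one.trans (le_max_right _ _)
    by_cases h : m = 0
    · simp only [b', if_pos h, map_zero, norm_zero]; positivity
    · simp only [b', if_neg h]
      exact (hC₀ σ m).trans (mul_le_mul_of_nonneg_right (le_max_left _ _) (by positivity))
  have hC : 1 ≤ C := le_max_right _ _
  let t : ℕ → ℂ := fun m => 2 * π * I * m
  have ht : ∀ m ≠ 0, 1 ≤ ‖t m‖ := fun m hm => by
    have h1 : (1 : ℝ) ≤ m := by exact_mod_cast Nat.pos_of_ne_zero hm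
    have : ‖t m‖ = 2 * π * m := by simp [t, abs_of_pos Real.pi_pos]
    nlinarith [Real.two_le_pi]
  have ht0 : ∀ m ≠ 0, t m ≠ 0 := fun m hm => norm_pos_iff.1 (one_pos.trans_le (ht m hm))
  let g : ℕ → ℕ → ℂ := fun l m => t m * φ₀ (b' m) / t m ^ l
  have hg : ∀ l, PG (g l) := fun l => ⟨8 * C, c + 1, by positivity, fun m => by
    by_cases h : m = 0
    · simp only [g, b', if_pos h, map_zero, mul_zero, zero_div, norm_zero]; positivity
    · have h1 : ‖t m‖ ≤ 8 * (m + 1) := by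
        have : ‖t m‖ = 2 * π * m := by simp [t, abs_of_pos Real.pi_pos]
        nlinarith [Real.pi_le_four, (Nat.cast_nonneg m : (0 : ℝ) ≤ m)]
      simp only [g, norm_div, norm_mul, norm_pow]
      refine (div_le_self (by positivity) (one_le_pow₀ (ht m h))).trans ?_
      calc ‖t m‖ * ‖φ₀ (b' m)‖ ≤ 8 * (m + 1) * (C * (m + 1) ^ c) :=
            mul_le_mul h1 (hgr φ₀ m) (norm_nonneg _) (by positivity)
        _ = _ := by ring⟩
  let G : ℕ → MG := fun l => ser (g l) (hg l)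
  have hG : ∀ l, Dm (G (l + 1)) = G l := fun l => Dm_ser _ _ fun m => by
    by_cases h : m = 0
    · simp [g, b', h]
    · have := ht0 m h
      show t m * φ₀ (b' m) / t m ^ l = t m * (t m * φ₀ (b' m) / t m ^ (l + 1))
      field_simp
      ring
  have hG0 : ∀ τ, (G 0 : ℍ → ℂ) τ = 2 * π * I * f τ := fun τ => by
    rw [← (hf τ).tsum_eq, ← tsum_mul_left, ser_apply, ps]
    refine tsum_congr fun m => ?_
    by_cases h : m = 0
    · simp [g, b', h]
    · simp only [g, b', t, if_neg h]; ring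
  have hw : IsWt (Gamma1 N) (n + 2) (G 0) := isWt_iff.2 fun γ hγ τ => by
    rw [hG0, hG0, hfw γ hγ]; push_cast; ring
  have h0 : G 0 ≠ 0 := fun h => by
    have k1 := ser_expand (g 0) (hg 0) (m₀ + 1)
    have k2 := coeff_eq_zero_of_QD (m₀ + 1)
      (∑ i ∈ Finset.range (m₀ + 1), Polynomial.monomial i (g 0 i)) (by
        have := k1.smul (-1)
        rw [show ser (g 0) (hg 0) = 0 from h, zero_sub, neg_one_smul, neg_neg] at this
        simpa only [map_sum, Polynomial.aeval_monomial, Algebra.smul_def] using this) m₀ (by omega)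
    have hm : m₀ ≠ 0 := by omega
    simp only [Polynomial.finsetSum_coeff, Polynomial.coeff_monomial, Finset.sum_ite_eq',
      Finset.mem_range, Nat.lt_succ_self, if_true, g, pow_zero, div_one, b', if_neg hm] at k2
    exact mul_ne_zero (ht0 m₀ hm) ((map_ne_zero φ₀).2 hb₀) k2
  have hb : PG fun m => φ₀ (b' m) := ⟨C, c, by positivity, hgr φ₀⟩
  have hG1 : G 1 = ser _ hb := by
    have : g 1 = fun m => φ₀ (b' m) := funext fun m => by
      by_cases h : m = 0
      · simp [g, b', h]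
      · have := ht0 m h
        simp only [g]; field_simp
    simp only [G]; congr 1
  obtain ⟨r, ν, hν, A, D₀, K', α, C', hα, hC', hD⟩ :=
    core_small (by omega) hG (fun l => ser_mem _ _) hw h0
  obtain ⟨D₁, α', hα', hfin⟩ := final_ineq α C' C hα hC' hC r (Module.finrank ℚ K) A K' (c + 2)
  refine ⟨A, max D₀ D₁, α', hα', fun D hD' L hL hint => ?_⟩
  obtain ⟨a, M, β, w, ha, hM, hβ, hw', e, hs⟩ := hD D (le_of_max_le_left hD')
  rw [hG1] at e
  refine hfin D (le_of_max_le_right hD') L M ‖β‖ hL hM (norm_nonneg _) hs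
    (arith_lower φ₀ b' C c hC hgr hb ν hν D a ha M L hL (fun m hm => ?_) β hβ w hw' e)
  by_cases h : m = 0
  · simp only [b', if_pos h, mul_zero]; exact isIntegral_zero
  · simp only [b', if_neg h]; exact hint m (hm.trans hM)

end Pool.Agent.Work.MP_db07cb_ag
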