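import Pool.Agent.Work.MP_db07cb_ag.Defs2

/-! Taylor series for a derivation. -/

namespace Pool.Agent.Work.MP_db07cb_ag

open UpperHalfPlane hiding I
open Complex Filter Topology PowerSeries
open scoped Real

namespace TayAux

variable {lam g g' : ℂ → ℂ} {z₀ : ℂ}

lemma dl_congr (h : g =ᶠ[𝓝 z₀] g') : dl lam g =ᶠ[𝓝 z₀] dl lam g' := by
  filter_upwards [h.deriv] with z hz
  simp only [dl, hz]

lemma iter_congr (t : ℕ) : ∀ {g g' : ℂ → ℂ}, g =ᶠ[𝓝 z₀] g' →
    (dl lam)^[t] g =ᶠ[𝓝 z₀] (dl lam)^[t] g' := by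
  induction t with
  | zero => intro g g' h; simpa using h
  | succ t ih =>
    intro g g' h
    simp only [Function.iterate_succ_apply]
    exact ih (dl_congr h)

lemma dl_add (hg : AnalyticAt ℂ g z₀) (hg' : AnalyticAt ℂ g' z₀) :
    dl lam (g + g') =ᶠ[𝓝 z₀] dl lam g + dl lam g' := by
  filter_upwards [hg.eventually_analyticAt, hg'.eventually_analyticAt] with z h1 h2
  simp only [dl, Pi.add_apply]
  rw [deriv_add h1.differentiableAt h2.differentiableAt, mul_add]

lemma dl_mul (hg : AnalyticAt ℂ g z₀) (hg' : AnalyticAt ℂ g' z₀) :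
    dl lam (g * g') =ᶠ[𝓝 z₀] dl lam g * g' + g * dl lam g' := by
  filter_upwards [hg.eventually_analyticAt, hg'.eventually_analyticAt] with z h1 h2
  simp only [dl, Pi.add_apply, Pi.mul_apply]
  rw [deriv_mul h1.differentiableAt h2.differentiableAt]
  ring

lemma coeff_ext {φ ψ : PowerSeries ℂ} {t : ℕ}
    (h : coeff t (d⁄dX ℂ φ) = coeff t (d⁄dX ℂ ψ)) : coeff (t + 1) φ = coeff (t + 1) ψ := by
  rw [coeff_derivative, coeff_derivative] at h
  have : ((t : ℂ) + 1) ≠ 0 := by exact_mod_cast Nat.succ_ne_zero t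
  exact mul_right_cancel₀ this h

end TayAux

open TayAux

section

variable {lam g g' : ℂ → ℂ} {z₀ : ℂ}

lemma dl_analytic (hl : AnalyticAt ℂ lam z₀) (hg : AnalyticAt ℂ g z₀) :
    AnalyticAt ℂ (dl lam g) z₀ := hl.mul hg.deriv

lemma tay_congr (h : g =ᶠ[𝓝 z₀] g') : tay lam z₀ g = tay lam z₀ g' := by
  ext t
  simp only [tay, coeff_mk, (iter_congr (lam := lam) t h).self_of_nhds]

lemma tay_coeff_zero : constantCoeff (tay lam z₀ g) = g z₀ := by
  rw [← coeff_zero_eq_constantCoeff_apply]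
  simp [tay]

lemma tay_deriv : d⁄dX ℂ (tay lam z₀ g) = tay lam z₀ (dl lam g) := by
  ext t
  rw [coeff_derivative]
  simp only [tay, coeff_mk, Function.iterate_succ_apply, Nat.factorial_succ]
  have h1 : ((t : ℂ) + 1) ≠ 0 := by exact_mod_cast Nat.succ_ne_zero t
  have h2 : (t.factorial : ℂ) ≠ 0 := by exact_mod_cast t.factorial_ne_zero
  push_cast
  field_simp

lemma tay_const (c : ℂ) : tay lam z₀ (fun _ => c) = C c := by
  have h0 : ∀ t : ℕ, (dl lam)^[t] (fun _ => (0 : ℂ)) = fun _ => 0 := by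
    intro t
    induction t with
    | zero => rfl
    | succ t ih =>
      rw [Function.iterate_succ_apply']
      rw [ih]
      funext z
      simp [dl]
  ext t
  cases t with
  | zero => simp [tay]
  | succ t =>
    have : dl lam (fun _ => c) = fun _ => 0 := by
      funext z
      simp [dl]
    simp [tay, Function.iterate_succ_apply, this, h0]

lemma tay_add (hl : AnalyticAt ℂ lam z₀) (hg : AnalyticAt ℂ g z₀) (hg' : AnalyticAt ℂ g' z₀) :
    tay lam z₀ (g + g') = tay lam z₀ g + tay lam z₀ g' := by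
  ext t
  induction t generalizing g g' with
  | zero => simp [tay_coeff_zero]
  | succ t ih =>
    apply coeff_ext
    rw [map_add, tay_deriv, tay_deriv, tay_deriv, tay_congr (dl_add hg hg')]
    exact ih (dl_analytic hl hg) (dl_analytic hl hg')

lemma tay_mul (hl : AnalyticAt ℂ lam z₀) (hg : AnalyticAt ℂ g z₀) (hg' : AnalyticAt ℂ g' z₀) :
    tay lam z₀ (g * g') = tay lam z₀ g * tay lam z₀ g' := by
  ext t
  induction t generalizing g g' with
  | zero => simp [tay_coeff_zero]
  | succ t ih =>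
    apply coeff_ext
    have h1 := dl_analytic hl hg
    have h2 := dl_analytic hl hg'
    rw [Derivation.leibniz, tay_deriv, tay_deriv, tay_deriv, tay_congr (dl_mul hg hg'),
      tay_add hl (h1.mul hg') (hg.mul h2), map_add, map_add, ih h1 hg', ih hg h2, smul_eq_mul,
      smul_eq_mul, add_comm, mul_comm (tay lam z₀ g')]

lemma tay_smul (hl : AnalyticAt ℂ lam z₀) (hg : AnalyticAt ℂ g z₀) (c : ℂ) :
    tay lam z₀ (c • g) = c • tay lam z₀ g := by
  have : c • g = (fun _ => c) * g := by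
    funext z
    simp
  rw [this, tay_mul hl analyticAt_const hg, tay_const, smul_eq_C_mul]

lemma tay_pow (hl : AnalyticAt ℂ lam z₀) (hg : AnalyticAt ℂ g z₀) (n : ℕ) :
    tay lam z₀ (g ^ n) = tay lam z₀ g ^ n := by
  induction n with
  | zero =>
    rw [pow_zero, pow_zero]
    exact (tay_const (lam := lam) (z₀ := z₀) 1).trans (map_one _)
  | succ n ih => rw [pow_succ, pow_succ, tay_mul hl (hg.pow n) hg, ih]

lemma tay_sum (hl : AnalyticAt ℂ lam z₀) {ι : Type*} (s : Finset ι) (f : ι → ℂ → ℂ)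
    (hf : ∀ i ∈ s, AnalyticAt ℂ (f i) z₀) :
    tay lam z₀ (∑ i ∈ s, f i) = ∑ i ∈ s, tay lam z₀ (f i) := by
  classical
  induction s using Finset.induction_on with
  | empty =>
    rw [Finset.sum_empty, Finset.sum_empty]
    exact (tay_const (lam := lam) (z₀ := z₀) 0).trans (map_zero _)
  | insert a s ha ih =>
    have hs : ∀ i ∈ s, AnalyticAt ℂ (f i) z₀ := fun i hi => hf i (Finset.mem_insert_of_mem hi)
    rw [Finset.sum_insert ha, Finset.sum_insert ha,
      tay_add hl (hf a (Finset.mem_insert_self a s)) (Finset.analyticAt_sum s hs), ih hs]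

lemma tay_prod (hl : AnalyticAt ℂ lam z₀) {ι : Type*} (s : Finset ι) (f : ι → ℂ → ℂ)
    (hf : ∀ i ∈ s, AnalyticAt ℂ (f i) z₀) :
    tay lam z₀ (∏ i ∈ s, f i) = ∏ i ∈ s, tay lam z₀ (f i) := by
  classical
  induction s using Finset.induction_on with
  | empty =>
    rw [Finset.prod_empty, Finset.prod_empty]
    exact (tay_const (lam := lam) (z₀ := z₀) 1).trans (map_one _)
  | insert a s ha ih =>
    have hs : ∀ i ∈ s, AnalyticAt ℂ (f i) z₀ := fun i hi => hf i (Finset.mem_insert_of_mem hi)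
    rw [Finset.prod_insert ha, Finset.prod_insert ha,
      tay_mul hl (hf a (Finset.mem_insert_self a s)) (Finset.analyticAt_prod s hs), ih hs]

lemma tay_eq_X (h0 : g z₀ = 0) (h : dl lam g =ᶠ[𝓝 z₀] fun _ => 1) : tay lam z₀ g = X := by
  apply PowerSeries.derivative.ext
  · rw [tay_deriv, tay_congr h, tay_const, derivative_X, map_one]
  · rw [tay_coeff_zero, h0, constantCoeff_X]

lemma tay_order (hl : AnalyticAt ℂ lam z₀) (h0 : lam z₀ ≠ 0) (hg : AnalyticAt ℂ g z₀) (T : ℕ)
    (h : X ^ T ∣ tay lam z₀ g) : (T : ℕ∞) ≤ analyticOrderAt g z₀ := by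
  induction T generalizing g with
  | zero => simp
  | succ T ih =>
    rw [X_pow_dvd_iff] at h
    have hz : g z₀ = 0 := by
      rw [← tay_coeff_zero (lam := lam) (g := g) (z₀ := z₀), ← coeff_zero_eq_constantCoeff_apply]
      exact h 0 (Nat.succ_pos T)
    have hd : X ^ T ∣ tay lam z₀ (dl lam g) := by
      rw [X_pow_dvd_iff, ← tay_deriv]
      intro m hm
      rw [coeff_derivative, h (m + 1) (by omega), zero_mul]
    have h1 := ih (dl_analytic hl hg) hd
    have h2 : analyticOrderAt (dl lam g) z₀ = analyticOrderAt (deriv g) z₀ := by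
      have : dl lam g = lam * deriv g := rfl
      rw [this, analyticOrderAt_mul hl hg.deriv, hl.analyticOrderAt_eq_zero.mpr h0, zero_add]
    rw [h2, analyticOrderAt_deriv_ge_iff hg hz] at h1
    exact_mod_cast h1

end

end Pool.Agent.Work.MP_db07cb_ag
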