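import Mathlib.LinearAlgebra.Matrix.ToLinearEquiv
import Mathlib.LinearAlgebra.Matrix.Block
import Mathlib.Data.Complex.Basic
import Mathlib.Algebra.BigOperators.Intervals

/-! Abstract Wronskians. -/

namespace Pool.Agent.Work.MP_db07cb_ag

open Matrix

variable {R : Type*} [CommRing R] [Algebra ℂ R]

/-- Wronskian matrix -/
def wrM (D : Module.End ℂ R) {d : ℕ} (v : Fin d → R) : Matrix (Fin d) (Fin d) R :=
  Matrix.of fun i j => (D ^ (i : ℕ)) (v j)

theorem wr_ne_zero [IsDomain R] (D : Module.End ℂ R) (hD : ∀ a b, D (a * b) = D a * b + a * D b)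
    (hc : ∀ u v : R, v ≠ 0 → D u * v = u * D v → ∃ c : ℂ, u = c • v) :
    ∀ (d : ℕ) (v : Fin d → R), LinearIndependent ℂ v → (wrM D v).det ≠ 0 := by
  intro d
  induction d with
  | zero => intro v _; simp
  | succ d ih =>
    intro v hv h0
    have hv' : LinearIndependent ℂ (fun j : Fin d => v j.castSucc) :=
      hv.comp _ (Fin.castSucc_injective d)
    have ih' := ih _ hv'
    obtain ⟨c, hc0, hcv⟩ := Matrix.exists_mulVec_eq_zero_iff.2 h0
    have e : ∀ i : ℕ, i < d + 1 → ∑ j, (D ^ i) (v j) * c j = 0 := fun i hi =>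
      congrFun hcv ⟨i, hi⟩
    have e' : ∀ i : ℕ, i < d → ∑ j, (D ^ i) (v j) * D (c j) = 0 := by
      intro i hi
      have h1 := congrArg D (e i (by omega))
      rw [map_sum, map_zero] at h1
      simp_rw [hD, Finset.sum_add_distrib] at h1
      have h2 := e (i + 1) (by omega)
      simp_rw [pow_succ', Module.End.mul_apply] at h2
      rw [h2, zero_add] at h1
      exact h1
    have key : ∀ u : Fin (d + 1) → R, u (Fin.last d) = 0 →
        (∀ i : ℕ, i < d → ∑ j, (D ^ i) (v j) * u j = 0) → ∀ j : Fin d, u j.castSucc = 0 := by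
      intro u hu h
      have : (fun j : Fin d => u j.castSucc) = 0 := by
        apply Matrix.eq_zero_of_mulVec_eq_zero ih'
        funext i
        have := h i i.2
        rw [Fin.sum_univ_castSucc, hu, mul_zero, add_zero] at this
        exact this
      exact fun j => congrFun this j
    have hl : c (Fin.last d) ≠ 0 := by
      intro hl
      apply hc0
      funext j
      refine Fin.lastCases hl (fun j => key c hl (fun i hi => e i (by omega)) j) j
    have h3 := key (fun j => D (c j) * c (Fin.last d) - c j * D (c (Fin.last d))) (by ring) (by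
      intro i hi
      have a := e i (by omega)
      have b := e' i hi
      calc ∑ j, (D ^ i) (v j) * (D (c j) * c (Fin.last d) - c j * D (c (Fin.last d)))
          = (∑ j, (D ^ i) (v j) * D (c j)) * c (Fin.last d) -
            (∑ j, (D ^ i) (v j) * c j) * D (c (Fin.last d)) := by
            rw [Finset.sum_mul, Finset.sum_mul, ← Finset.sum_sub_distrib]
            exact Finset.sum_congr rfl fun j _ => by ring
        _ = 0 := by rw [a, b]; ring)
    have h4 : ∀ j : Fin (d + 1), ∃ l : ℂ, c j = l • c (Fin.last d) := by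
      intro j
      refine Fin.lastCases ⟨1, by simp⟩ (fun j => hc _ _ hl (sub_eq_zero.1 (h3 j))) j
    choose l hl' using h4
    have h5 : ∑ j, l j • v j = 0 := by
      have a := e 0 (by omega)
      simp only [pow_zero, Module.End.one_apply] at a
      have : (∑ j, l j • v j) * c (Fin.last d) = 0 := by
        rw [Finset.sum_mul, ← a]
        refine Finset.sum_congr rfl fun j _ => ?_
        conv_rhs => rw [hl' j]
        rw [smul_mul_assoc, mul_smul_comm]
      exact (mul_eq_zero.1 this).resolve_right hl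
    have h6 := Fintype.linearIndependent_iff.1 hv l h5 (Fin.last d)
    have h7 := hl' (Fin.last d)
    rw [h6, zero_smul] at h7
    exact hl h7

theorem iter_comp (D : Module.End ℂ R) (hD : ∀ a b, D (a * b) = D a * b + a * D b)
    (c : R →ₐ[ℂ] R) (lam : R) (h : ∀ u, D (c u) = lam * c (D u)) (b : ℕ) :
    ∃ L : ℕ → R, L b = lam ^ b ∧ (∀ i, b < i → L i = 0) ∧
      ∀ u, (D ^ b) (c u) = ∑ i ∈ Finset.range (b + 1), L i * c ((D ^ i) u) := by
  induction b with
  | zero => exact ⟨fun i => if i = 0 then 1 else 0, by simp, fun i hi => by simp [hi.ne'], by simp⟩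
  | succ b ih =>
    obtain ⟨L, h1, h2, h3⟩ := ih
    refine ⟨fun i => D (L i) + (if i = 0 then 0 else L (i - 1) * lam), ?_, ?_, fun u => ?_⟩
    · simp [h2 (b + 1) (by omega), h1, pow_succ]
    · intro i hi
      simp [h2 i (by omega), h2 (i - 1) (by omega)]
    · rw [pow_succ', Module.End.mul_apply, h3, map_sum]
      simp_rw [hD, h, add_mul, Finset.sum_add_distrib]
      congr 1
      · rw [Finset.sum_range_succ _ (b + 1), h2 (b + 1) (by omega)]; simp
      · rw [Finset.sum_range_succ' _ (b + 1)]
        simp only [Nat.add_eq_zero_iff, one_ne_zero, and_false, if_false, add_tsub_cancel_right,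
          if_true, zero_mul, add_zero]
        refine Finset.sum_congr rfl fun i _ => ?_
        rw [pow_succ', Module.End.mul_apply]; ring

theorem wr_comp (D : Module.End ℂ R) (hD : ∀ a b, D (a * b) = D a * b + a * D b)
    (c : R →ₐ[ℂ] R) (lam : R) (h : ∀ u, D (c u) = lam * c (D u)) {d : ℕ} (v : Fin d → R) :
    (wrM D (fun j => c (v j))).det = lam ^ (∑ i : Fin d, (i : ℕ)) * c (wrM D v).det := by
  choose L h1 h2 h3 using iter_comp D hD c lam h
  let M : Matrix (Fin d) (Fin d) R := Matrix.of fun b i => L b i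
  have e : wrM D (fun j => c (v j)) = M * c.mapMatrix (wrM D v) := by
    ext b j
    rw [Matrix.mul_apply]
    simp only [wrM, M, of_apply, AlgHom.mapMatrix_apply, map_apply, h3]
    rw [Fin.sum_univ_eq_sum_range (fun i => L b i * c ((D ^ i) (v j))) d]
    refine Finset.sum_subset (Finset.range_mono (by omega)) fun i _ hi => ?_
    rw [h2 b i (by simpa using hi), zero_mul]
  have hM : M.BlockTriangular OrderDual.toDual := fun b i hi => h2 b i hi
  rw [e, det_mul, Matrix.det_of_isLowerTriangular M hM, AlgHom.map_det, ← Finset.prod_pow_eq_pow_sum]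
  congr 1
  exact Finset.prod_congr rfl fun i _ => h1 i

theorem wr_lin (D : Module.End ℂ R) {d : ℕ} (v w : Fin d → R) (M : Matrix (Fin d) (Fin d) ℂ)
    (h : ∀ j, w j = ∑ i, M i j • v i) :
    (wrM D w).det = algebraMap ℂ R M.det * (wrM D v).det := by
  have e : wrM D w = wrM D v * (algebraMap ℂ R).mapMatrix M := by
    ext b j
    rw [Matrix.mul_apply]
    simp only [wrM, of_apply, RingHom.mapMatrix_apply, map_apply, h, map_sum, map_smul]
    exact Finset.sum_congr rfl fun i _ => by rw [Algebra.smul_def, mul_comm]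
  rw [e, det_mul, RingHom.map_det, mul_comm]

theorem dvd_wr (D : Module.End ℂ R) {d : ℕ} (v : Fin d → R) (a : R)
    (ha : ∀ x, a ∣ x → a ∣ D x) (l : Fin d → ℂ) (j : Fin d) (h : a ∣ ∑ i, l i • v i) :
    a ∣ algebraMap ℂ R (l j) * (wrM D v).det := by
  have h1 : ∀ b : ℕ, a ∣ (D ^ b) (∑ i, l i • v i) := by
    intro b
    induction b with
    | zero => simpa using h
    | succ b ih => rw [pow_succ', Module.End.mul_apply]; exact ha _ ih
  have h2 := Matrix.det_updateCol_sum (wrM D v) j (fun i => algebraMap ℂ R (l i))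
  rw [smul_eq_mul] at h2
  rw [← h2, Matrix.det_apply']
  refine Finset.dvd_sum fun σ _ => Dvd.dvd.mul_left ?_ _
  refine dvd_trans ?_ (Finset.dvd_prod_of_mem _ (Finset.mem_univ j))
  rw [updateCol_self]
  have := h1 (σ j)
  rw [map_sum] at this
  convert this using 2 with i
  rw [map_smul, Algebra.smul_def (l i)]
  rfl

end Pool.Agent.Work.MP_db07cb_ag
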