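import Pool.Agent.Work.MP_db07cb_ag.Valence
import Pool.Agent.Work.MP_db07cb_ag.Wronskian
import Mathlib.LinearAlgebra.Determinant

/-! Zero estimate at the cusp for invariant finite-dimensional spaces. -/

namespace Pool.Agent.Work.MP_db07cb_ag

open UpperHalfPlane hiding I
open Complex
open scoped MatrixGroups

noncomputable section

lemma norm_hom_eq_one (χ : SL(2, ℤ) →* ℂ) (γ : SL(2, ℤ)) : ‖χ γ‖ = 1 := by
  have h4 : ModularGroup.S ^ 4 = 1 := by decide
  have h6 : (ModularGroup.S * ModularGroup.T) ^ 6 = 1 := by decide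
  have key : ∀ (g : SL(2, ℤ)) (m : ℕ), m ≠ 0 → g ^ m = 1 → ‖χ g‖ = 1 := by
    intro g m hm h
    have : ‖χ g‖ ^ m = 1 := by rw [← norm_pow, ← map_pow, h, map_one, norm_one]
    exact (pow_eq_one_iff_of_nonneg (norm_nonneg _) hm).1 this
  have hS := key _ 4 (by norm_num) h4
  have hST := key _ 6 (by norm_num) h6
  have hT : ‖χ ModularGroup.T‖ = 1 := by rwa [map_mul, norm_mul, hS, one_mul] at hST
  have hγ : γ ∈ Subgroup.closure {ModularGroup.S, ModularGroup.T} := by
    rw [SpecialLinearGroup.SL2Z_generators]; trivial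
  induction hγ using Subgroup.closure_induction with
  | mem x hx => rcases hx with rfl | rfl <;> assumption
  | one => simp
  | mul x y _ _ hx hy => rw [map_mul, norm_mul, hx, hy, one_mul]
  | inv x _ hx =>
    have : ‖χ (x * x⁻¹)‖ = 1 := by simp
    rwa [map_mul, norm_mul, hx, one_mul] at this

theorem zero_est (V : Submodule ℂ MG) [FiniteDimensional ℂ V]
    (hV : ∀ (γ : SL(2, ℤ)), ∀ u ∈ V, act γ u ∈ V) (Φ : MG) (hΦ : Φ ∈ V) (h0 : Φ ≠ 0) (μ : ℕ)
    (hq : qq ^ μ ∣ Φ) : μ ≤ Module.finrank ℂ V ^ 2 := by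
  classical
  set d := Module.finrank ℂ V with hd
  let b := Module.finBasis ℂ V
  let v : Fin d → MG := fun j => (b j : MG)
  have hv : LinearIndependent ℂ v := b.linearIndependent.map' V.subtype (Submodule.ker_subtype V)
  have hW := wr_ne_zero Dm Dm_mul (fun u v hv h => eq_smul_of_Dm hv h) d v hv
  set W := (wrM Dm v).det with hWd
  let ρ : SL(2, ℤ) → V →ₗ[ℂ] V := fun γ => (act γ).toLinearMap.restrict (hV γ)
  let χ : SL(2, ℤ) →* ℂ :=
    { toFun := fun γ => LinearMap.det (ρ γ)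
      map_one' := by
        have : ρ 1 = LinearMap.id := LinearMap.ext fun u => Subtype.ext (act_one u)
        rw [this, LinearMap.det_id]
      map_mul' := fun γ γ' => by
        have : ρ (γ * γ') = (ρ γ').comp (ρ γ) :=
          LinearMap.ext fun u => Subtype.ext (act_mul γ γ' u)
        rw [this, LinearMap.det_comp, mul_comm] }
  set e := ∑ i : Fin d, (i : ℕ) with he
  have h1 : ∀ γ, algebraMap ℂ MG (χ γ) * W = (ji γ ^ 2) ^ e * act γ W := by
    intro γ
    rw [← wr_comp Dm Dm_mul (act γ) (ji γ ^ 2) (Dm_act γ) v,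
      wr_lin Dm v (fun j => act γ (v j)) (LinearMap.toMatrix b b (ρ γ))]
    · rw [LinearMap.det_toMatrix]; rfl
    · intro j
      have := congrArg Subtype.val (b.sum_repr (ρ γ (b j))).symm
      simp only [LinearMap.toMatrix_apply]
      rw [Submodule.coe_sum] at this
      exact this
  have h2 : qq ^ μ ∣ W := by
    obtain ⟨j, hj⟩ : ∃ j, b.repr ⟨Φ, hΦ⟩ j ≠ 0 := by
      by_contra hn
      push Not at hn
      have : (⟨Φ, hΦ⟩ : V) = 0 := b.repr.injective (by ext j; simp [hn j])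
      exact h0 (congrArg Subtype.val this)
    have h3 := congrArg Subtype.val (b.sum_repr ⟨Φ, hΦ⟩)
    rw [Submodule.coe_sum] at h3
    have h4 := dvd_wr Dm v (qq ^ μ) (qq_pow_dvd_Dm μ) (b.repr ⟨Φ, hΦ⟩) j (by
      have : ∑ i, b.repr ⟨Φ, hΦ⟩ i • v i = Φ := h3
      rwa [this])
    exact (IsUnit.dvd_mul_left ((IsUnit.mk0 _ hj).map (algebraMap ℂ MG))).1 h4
  have h5 : e ≤ d ^ 2 := by
    calc e ≤ ∑ _i : Fin d, d := Finset.sum_le_sum fun i _ => i.2.le
      _ = d ^ 2 := by simp [sq]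
  by_contra hlt
  apply hW
  refine levelOne_zero W (2 * e : ℕ) μ h2 (fun γ τ => ?_) (by push_cast; omega)
  have h6 := congrArg (fun u => ‖ev τ u‖) (h1 γ)
  simp only [map_mul, map_pow, AlgHom.commutes, ev_apply, ji_apply, act_apply, norm_mul,
    norm_pow, norm_inv, Algebra.algebraMap_self, RingHom.id_apply, norm_hom_eq_one, one_mul] at h6
  have hj : ‖jf γ τ‖ ≠ 0 := norm_ne_zero_iff.2 (jf_ne_zero γ τ)
  rw [h6, zpow_natCast, ← pow_mul, ← mul_assoc, ← mul_pow, mul_inv_cancel₀ hj]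
  simp

end

end Pool.Agent.Work.MP_db07cb_ag
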